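import Mathlib
import Pool.Agent.Lib.MP_ca0fc2_an.VK.Defs

set_option autoImplicit false
set_option linter.unusedSectionVars false

open Metric Set MeasureTheory Filter Topology
open scoped InnerProductSpace ENNReal ContDiff

namespace Pool.Agent.MPca0fc2.CE

open Pool.Agent.MPca0fc2.PT
open Pool.Agent.MPca0fc2.QT
open Pool.Agent.MPca0fc2.TS
open Pool.Agent.MPca0fc2.TE
open Pool.Agent.MPca0fc2.TK
open Pool.Agent.MPca0fc2.VK

variable {E : Type*} [NormedAddCommGroup E] [InnerProductSpace ℂ E]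

/-- one-dimensional Carleson measures on the ball -/
structure Car [MeasurableSpace E] (ν : Measure E) : Prop where
  sub : ν (ball (0 : E) 1)ᶜ = 0
  car : ∀ ζ : E, ‖ζ‖ = 1 → ∀ r : ℝ, 0 < r → ν {u | ‖1 - ⟪u, ζ⟫_ℂ‖ < r} ≤ ENNReal.ofReal r

/-- the kernel: with `D = |1 - <u,z>|` it is `((1 - |z|²)/D)^s ((1 - |u|²)/D)^t / D` -/
noncomputable def kc (s : ℝ) (t : ℕ) (u z : E) : ℝ :=
  ((1 - ‖z‖ ^ 2) / ‖1 - ⟪u, z⟫_ℂ‖) ^ s * ((1 - ‖u‖ ^ 2) / ‖1 - ⟪u, z⟫_ℂ‖) ^ t /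
    ‖1 - ⟪u, z⟫_ℂ‖

/-- the weight of the measure `ν` -/
noncomputable def Tc [MeasurableSpace E] (s : ℝ) (t : ℕ) (ν : Measure E) (z : E) : ℝ :=
  ∫ u, kc s t u z ∂ν

/-- the holomorphic compensator of the measure `ν` -/
noncomputable def Fc [MeasurableSpace E] (ν : Measure E) (z : E) : ℂ := ∫ u, (1 - ⟪u, z⟫_ℂ)⁻¹ ∂ν

end Pool.Agent.MPca0fc2.CE
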