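import Mathlib
import Pool.Agent.Lib.MP_ca0fc2_an.CE.Defs

set_option autoImplicit false
set_option linter.unusedSectionVars false

open Metric Set MeasureTheory Filter Topology
open scoped InnerProductSpace ENNReal ContDiff

namespace Pool.Agent.MPca0fc2.CE

open Pool.Agent.MPca0fc2.PT
open Pool.Agent.MPca0fc2.QT
open Pool.Agent.MPca0fc2.TS
open Pool.Agent.MPca0fc2.TE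
open Pool.Agent.MPca0fc2.TK
open Pool.Agent.MPca0fc2.VK

variable {E : Type*} [NormedAddCommGroup E] [InnerProductSpace ℂ E]

/-- `‖u - y‖² = ‖u‖² + ‖y‖² - 2 re ⟪u, y⟫ ≤ 2 re (1 - ⟪u, y⟫)`. -/
theorem a_sq {u y : E} (hu : ‖u‖ ≤ 1) (hy : ‖y‖ ≤ 1) : ‖u - y‖ ^ 2 ≤ 2 * ‖1 - ⟪u, y⟫_ℂ‖ := by
  have h1 : ‖u - y‖ ^ 2 = ‖u‖ ^ 2 - 2 * (⟪u, y⟫_ℂ).re + ‖y‖ ^ 2 := by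
    have := @norm_sub_sq ℂ E _ _ _ u y
    simpa using this
  have h2 : (1 - ⟪u, y⟫_ℂ).re ≤ ‖1 - ⟪u, y⟫_ℂ‖ := Complex.re_le_norm _
  have h3 : (1 - ⟪u, y⟫_ℂ).re = 1 - (⟪u, y⟫_ℂ).re := by simp
  have hu0 := norm_nonneg u
  have hy0 := norm_nonneg y
  rw [h1]
  nlinarith

/-- `1 - ‖z‖ ≤ ‖1 - ⟪u, z⟫‖ ≤ 2`. -/
theorem a_pos {u z : E} (hu : ‖u‖ ≤ 1) (hz : ‖z‖ < 1) : 0 < ‖1 - ⟪u, z⟫_ℂ‖ ∧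
    1 - ‖z‖ ^ 2 ≤ 2 * ‖1 - ⟪u, z⟫_ℂ‖ ∧ ‖1 - ⟪u, z⟫_ℂ‖ ≤ 2 := by
  have h0 : ‖⟪u, z⟫_ℂ‖ ≤ ‖u‖ * ‖z‖ := norm_inner_le_norm u z
  have hu0 := norm_nonneg u
  have hz0 := norm_nonneg z
  have h1 : ‖⟪u, z⟫_ℂ‖ ≤ ‖z‖ := h0.trans (by nlinarith)
  have h2 : 1 - ‖⟪u, z⟫_ℂ‖ ≤ ‖1 - ⟪u, z⟫_ℂ‖ := by
    have := norm_sub_norm_le (1 : ℂ) ⟪u, z⟫_ℂ
    simpa using this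
  have h3 : ‖1 - ⟪u, z⟫_ℂ‖ ≤ 1 + ‖⟪u, z⟫_ℂ‖ := by
    have := norm_sub_le (1 : ℂ) ⟪u, z⟫_ℂ
    simpa using this
  refine ⟨by linarith, by nlinarith, by linarith⟩

/-- the same for the first variable -/
theorem a_pos' {u z : E} (hu : ‖u‖ < 1) (hz : ‖z‖ ≤ 1) : 0 < ‖1 - ⟪u, z⟫_ℂ‖ ∧
    1 - ‖u‖ ^ 2 ≤ 2 * ‖1 - ⟪u, z⟫_ℂ‖ ∧ ‖1 - ⟪u, z⟫_ℂ‖ ≤ 2 := by
  have h := a_pos (u := z) (z := u) hz hu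
  have h4 : ‖1 - ⟪u, z⟫_ℂ‖ = ‖1 - ⟪z, u⟫_ℂ‖ := by
    rw [← Complex.norm_conj (1 - ⟪z, u⟫_ℂ)]
    simp
  rw [h4]
  exact h

/-- `⟪u, x - y⟫ = ⟪u - y, x - y⟫ + ⟪y, x - y⟫`; `‖u - y‖ ‖x - y‖ ≤ 2 √D(u,y) √D(x,y)` by `a_sq`, and
`⟪y, x - y⟫ = (1 - ‖y‖²) - (1 - ⟪y, x⟫)`, `1 - ‖y‖² ≤ 2 ‖1 - ⟪x, y⟫‖`. -/
theorem a_diff {u x y : E} (hu : ‖u‖ ≤ 1) (hx : ‖x‖ ≤ 1) (hy : ‖y‖ ≤ 1) :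
    ‖⟪u, x - y⟫_ℂ‖ ≤ 2 * √‖1 - ⟪u, y⟫_ℂ‖ * √‖1 - ⟪x, y⟫_ℂ‖ + 3 * ‖1 - ⟪x, y⟫_ℂ‖ := by
  have hx0 := norm_nonneg x
  have hy0 := norm_nonneg y
  have e1 : ⟪u, x - y⟫_ℂ = ⟪u - y, x - y⟫_ℂ + ⟪y, x - y⟫_ℂ := by
    rw [inner_sub_left]; ring
  have e2 : ⟪y, x - y⟫_ℂ = ((1 - ‖y‖ ^ 2 : ℝ) : ℂ) - (1 - ⟪y, x⟫_ℂ) := by
    rw [inner_sub_right, inner_self_eq_norm_sq_to_K]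
    push_cast
    simp
  have e3 : ‖1 - ⟪y, x⟫_ℂ‖ = ‖1 - ⟪x, y⟫_ℂ‖ := by
    rw [← Complex.norm_conj (1 - ⟪x, y⟫_ℂ)]
    simp
  have h1 : ‖⟪u - y, x - y⟫_ℂ‖ ≤ ‖u - y‖ * ‖x - y‖ := norm_inner_le_norm _ _
  have h2 : ‖u - y‖ ≤ √(2 * ‖1 - ⟪u, y⟫_ℂ‖) := Real.le_sqrt_of_sq_le (a_sq hu hy)
  have h3 : ‖x - y‖ ≤ √(2 * ‖1 - ⟪x, y⟫_ℂ‖) := Real.le_sqrt_of_sq_le (a_sq hx hy)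
  have h4 : ‖u - y‖ * ‖x - y‖ ≤ 2 * √‖1 - ⟪u, y⟫_ℂ‖ * √‖1 - ⟪x, y⟫_ℂ‖ := by
    calc ‖u - y‖ * ‖x - y‖ ≤ √(2 * ‖1 - ⟪u, y⟫_ℂ‖) * √(2 * ‖1 - ⟪x, y⟫_ℂ‖) :=
          mul_le_mul h2 h3 (norm_nonneg _) (Real.sqrt_nonneg _)
      _ = 2 * √‖1 - ⟪u, y⟫_ℂ‖ * √‖1 - ⟪x, y⟫_ℂ‖ := by
          rw [Real.sqrt_mul (by norm_num), Real.sqrt_mul (by norm_num)]
          have : √(2 : ℝ) * √2 = 2 := Real.mul_self_sqrt (by norm_num)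
          linear_combination (√‖1 - ⟪u, y⟫_ℂ‖ * √‖1 - ⟪x, y⟫_ℂ‖) * this
  have h5 : 1 - ‖y‖ ≤ ‖1 - ⟪x, y⟫_ℂ‖ := by
    have h6 : ‖⟪x, y⟫_ℂ‖ ≤ ‖x‖ * ‖y‖ := norm_inner_le_norm x y
    have h7 : 1 - ‖⟪x, y⟫_ℂ‖ ≤ ‖1 - ⟪x, y⟫_ℂ‖ := by
      have := norm_sub_norm_le (1 : ℂ) ⟪x, y⟫_ℂ
      simpa using this
    nlinarith
  have h8 : ‖⟪y, x - y⟫_ℂ‖ ≤ 3 * ‖1 - ⟪x, y⟫_ℂ‖ := by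
    rw [e2]
    calc ‖((1 - ‖y‖ ^ 2 : ℝ) : ℂ) - (1 - ⟪y, x⟫_ℂ)‖
        ≤ ‖((1 - ‖y‖ ^ 2 : ℝ) : ℂ)‖ + ‖1 - ⟪y, x⟫_ℂ‖ := norm_sub_le _ _
      _ = (1 - ‖y‖ ^ 2) + ‖1 - ⟪x, y⟫_ℂ‖ := by
          rw [e3, Complex.norm_real, Real.norm_of_nonneg (by nlinarith)]
      _ ≤ 3 * ‖1 - ⟪x, y⟫_ℂ‖ := by nlinarith
  rw [e1]
  calc ‖⟪u - y, x - y⟫_ℂ + ⟪y, x - y⟫_ℂ‖ ≤ ‖⟪u - y, x - y⟫_ℂ‖ + ‖⟪y, x - y⟫_ℂ‖ :=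
        norm_add_le _ _
    _ ≤ _ := by linarith

/-- `a_diff` with `x` and `y` exchanged, `2 √a √b ≤ a + b`. -/
theorem a_cmp {u x y : E} (hu : ‖u‖ ≤ 1) (hx : ‖x‖ ≤ 1) (hy : ‖y‖ ≤ 1) :
    ‖1 - ⟪u, y⟫_ℂ‖ ≤ 2 * ‖1 - ⟪u, x⟫_ℂ‖ + 4 * ‖1 - ⟪x, y⟫_ℂ‖ := by
  have h := a_diff (u := u) (x := y) (y := x) hu hy hx
  have e3 : ‖1 - ⟪y, x⟫_ℂ‖ = ‖1 - ⟪x, y⟫_ℂ‖ := by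
    rw [← Complex.norm_conj (1 - ⟪x, y⟫_ℂ)]
    simp
  rw [e3] at h
  have e1 : 1 - ⟪u, y⟫_ℂ = (1 - ⟪u, x⟫_ℂ) - ⟪u, y - x⟫_ℂ := by
    rw [inner_sub_right]; ring
  have h1 : ‖1 - ⟪u, y⟫_ℂ‖ ≤ ‖1 - ⟪u, x⟫_ℂ‖ + ‖⟪u, y - x⟫_ℂ‖ := by
    rw [e1]; exact norm_sub_le _ _
  have s1 := Real.sq_sqrt (norm_nonneg (1 - ⟪u, x⟫_ℂ))
  have s2 := Real.sq_sqrt (norm_nonneg (1 - ⟪x, y⟫_ℂ))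
  nlinarith [sq_nonneg (√‖1 - ⟪u, x⟫_ℂ‖ - √‖1 - ⟪x, y⟫_ℂ‖)]

/-- With `D = D(x,y) ≤ D_y/64`: `‖⟪u, x - y⟫‖ ≤ 2 √(D_y D) + 3 D ≤ (19/64) D_y`, so `D_x ≥ D_y/2`; and the difference of the inverses is `⟪u, x - y⟫ / ((1 - ⟪u, x⟫)(1 - ⟪u, y⟫))`, `3 D ≤ (3/8) √(D_y D)`. -/
theorem a_far {u x y : E} (hu : ‖u‖ ≤ 1) (hx : ‖x‖ ≤ 1) (hy : ‖y‖ < 1)
    (h : 64 * ‖1 - ⟪x, y⟫_ℂ‖ ≤ ‖1 - ⟪u, y⟫_ℂ‖) : ‖1 - ⟪u, y⟫_ℂ‖ ≤ 2 * ‖1 - ⟪u, x⟫_ℂ‖ ∧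
      ‖(1 - ⟪u, x⟫_ℂ)⁻¹ - (1 - ⟪u, y⟫_ℂ)⁻¹‖ ≤
        8 * √‖1 - ⟪x, y⟫_ℂ‖ * ‖1 - ⟪u, y⟫_ℂ‖ ^ (-(3 / 2) : ℝ) := by
  have hd := a_diff (u := u) (x := x) (y := y) hu hx hy.le
  obtain ⟨hDy, -, -⟩ := a_pos (u := u) (z := y) hu hy
  set Dy : ℝ := ‖1 - ⟪u, y⟫_ℂ‖ with hDydef
  set D : ℝ := ‖1 - ⟪x, y⟫_ℂ‖ with hDdef
  have hD0 : 0 ≤ D := norm_nonneg _
  set a : ℝ := √Dy with ha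
  set b : ℝ := √D with hb
  have ha0 : 0 < a := Real.sqrt_pos.2 hDy
  have hb0 : 0 ≤ b := Real.sqrt_nonneg _
  have ha2 : a ^ 2 = Dy := Real.sq_sqrt hDy.le
  have hb2 : b ^ 2 = D := Real.sq_sqrt hD0
  have hab : 8 * b ≤ a := by
    have : (8 * b) ^ 2 ≤ a ^ 2 := by rw [mul_pow, ha2, hb2]; linarith
    exact (sq_le_sq₀ (by positivity) ha0.le).1 this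
  have hn : ‖⟪u, x - y⟫_ℂ‖ ≤ 19 / 64 * Dy := by
    rw [← ha2]
    rw [← hb2] at hd
    nlinarith
  have hn2 : ‖⟪u, x - y⟫_ℂ‖ ≤ 4 * (a * b) := by
    rw [← hb2] at hd
    nlinarith
  have e1 : 1 - ⟪u, y⟫_ℂ = (1 - ⟪u, x⟫_ℂ) + ⟪u, x - y⟫_ℂ := by
    rw [inner_sub_right]; ring
  have h1 : Dy ≤ ‖1 - ⟪u, x⟫_ℂ‖ + ‖⟪u, x - y⟫_ℂ‖ := by
    rw [hDydef, e1]; exact norm_add_le _ _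
  have hDx : Dy ≤ 2 * ‖1 - ⟪u, x⟫_ℂ‖ := by linarith
  refine ⟨hDx, ?_⟩
  have hx0 : 0 < ‖1 - ⟪u, x⟫_ℂ‖ := by linarith
  have n1 : (1 - ⟪u, x⟫_ℂ) ≠ 0 := norm_pos_iff.1 hx0
  have n2 : (1 - ⟪u, y⟫_ℂ) ≠ 0 := norm_pos_iff.1 hDy
  have e2 : (1 - ⟪u, x⟫_ℂ)⁻¹ - (1 - ⟪u, y⟫_ℂ)⁻¹ =
      ⟪u, x - y⟫_ℂ / ((1 - ⟪u, x⟫_ℂ) * (1 - ⟪u, y⟫_ℂ)) := by
    rw [inner_sub_right]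
    field_simp
    ring
  have e3 : Dy ^ (-(3 / 2) : ℝ) = (a ^ 3)⁻¹ := by
    rw [Real.rpow_neg hDy.le]
    congr 1
    rw [← ha2, ← Real.rpow_natCast a 2, ← Real.rpow_mul ha0.le, ← Real.rpow_natCast a 3]
    norm_num
  rw [e2, norm_div, norm_mul, e3, ← hDydef, div_le_iff₀ (by positivity)]
  have h5 : 8 * b * (a ^ 3)⁻¹ * (‖1 - ⟪u, x⟫_ℂ‖ * Dy) ≥ 8 * b * (a ^ 3)⁻¹ * (Dy / 2 * Dy) := by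
    apply mul_le_mul_of_nonneg_left _ (by positivity)
    apply mul_le_mul_of_nonneg_right _ hDy.le
    linarith
  have h6 : 8 * b * (a ^ 3)⁻¹ * (Dy / 2 * Dy) = 4 * (a * b) := by
    rw [← ha2]
    field_simp
    ring
  linarith

/-- `re w⁻¹ = re w / ‖w‖²`, `re (1 - ⟪u, z⟫) ≥ 1 - ‖u‖ ≥ (1 - ‖u‖²)/2`. -/
theorem a_re {u z : E} (hu : ‖u‖ ≤ 1) (hz : ‖z‖ < 1) :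
    (1 - ‖u‖ ^ 2) / (2 * ‖1 - ⟪u, z⟫_ℂ‖ ^ 2) ≤ ((1 - ⟪u, z⟫_ℂ)⁻¹).re ∧
      0 ≤ ((1 - ⟪u, z⟫_ℂ)⁻¹).re := by
  obtain ⟨hD, -, -⟩ := a_pos (u := u) (z := z) hu hz
  have hu0 := norm_nonneg u
  have hz0 := norm_nonneg z
  have h0 : ‖⟪u, z⟫_ℂ‖ ≤ ‖u‖ * ‖z‖ := norm_inner_le_norm u z
  have h1 : (⟪u, z⟫_ℂ).re ≤ ‖⟪u, z⟫_ℂ‖ := Complex.re_le_norm _
  have h3 : (1 - ⟪u, z⟫_ℂ).re = 1 - (⟪u, z⟫_ℂ).re := by simp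
  have h2 : (1 - ‖u‖ ^ 2) / 2 ≤ (1 - ⟪u, z⟫_ℂ).re := by
    rw [h3]; nlinarith
  have e : ((1 - ⟪u, z⟫_ℂ)⁻¹).re = (1 - ⟪u, z⟫_ℂ).re / ‖1 - ⟪u, z⟫_ℂ‖ ^ 2 := by
    rw [Complex.inv_re, Complex.normSq_eq_norm_sq]
  have h4 : 0 ≤ (1 - ‖u‖ ^ 2) / 2 := by nlinarith
  rw [e]
  refine ⟨?_, div_nonneg (h4.trans h2) (by positivity)⟩
  rw [← div_div]
  exact div_le_div_of_nonneg_right h2 (by positivity)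

end Pool.Agent.MPca0fc2.CE
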