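import Mathlib
import Pool.Agent.Lib.MP_ca0fc2_an.CE.A1

set_option autoImplicit false
set_option linter.unusedSectionVars false

open Metric Set MeasureTheory Filter Topology
open scoped InnerProductSpace ENNReal ContDiff

namespace Pool.Agent.MPca0fc2.CE

open Pool.Agent.MPca0fc2.PT
open Pool.Agent.MPca0fc2.QT
open Pool.Agent.MPca0fc2.TS
open Pool.Agent.MPca0fc2.TE
open Pool.Agent.MPca0fc2.TK
open Pool.Agent.MPca0fc2.VK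

variable {E : Type*} [NormedAddCommGroup E] [InnerProductSpace ℂ E] [FiniteDimensional ℂ E]
  [MeasurableSpace E] [BorelSpace E]

private theorem A2_meas (z : E) : Measurable (fun u : E => ‖1 - ⟪u, z⟫_ℂ‖) := by
  have : Continuous (fun u : E => ‖1 - ⟪u, z⟫_ℂ‖) :=
    (continuous_const.sub (continuous_id.inner continuous_const)).norm
  exact this.measurable

private theorem A2_low {u z : E} (hu : u ∈ ball (0 : E) 1) :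
    1 - ‖z‖ ≤ ‖1 - ⟪u, z⟫_ℂ‖ := by
  have hu' : ‖u‖ < 1 := by simpa using hu
  have h1 : ‖⟪u, z⟫_ℂ‖ ≤ ‖u‖ * ‖z‖ := norm_inner_le_norm u z
  have h2 : ‖(1 : ℂ)‖ - ‖⟪u, z⟫_ℂ‖ ≤ ‖1 - ⟪u, z⟫_ℂ‖ := norm_sub_norm_le _ _
  rw [norm_one] at h2
  have h3 : ‖u‖ * ‖z‖ ≤ 1 * ‖z‖ := mul_le_mul_of_nonneg_right hu'.le (norm_nonneg _)
  linarith

private theorem A2_unit (hE : ∃ ζ : E, ‖ζ‖ = 1) {z : E} (hz : z ∈ ball (0 : E) 1) :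
    ∃ ζ : E, ‖ζ‖ = 1 ∧ ‖ζ - z‖ ≤ 1 - ‖z‖ := by
  have hz' : ‖z‖ < 1 := by simpa using hz
  rcases eq_or_ne z 0 with h0 | h0
  · obtain ⟨ζ, hζ⟩ := hE
    exact ⟨ζ, hζ, by rw [h0]; simp [hζ]⟩
  · have hn : 0 < ‖z‖ := norm_pos_iff.mpr h0
    refine ⟨((‖z‖⁻¹ : ℝ) : ℂ) • z, ?_, ?_⟩
    · rw [norm_smul, Complex.norm_real, Real.norm_of_nonneg (by positivity)]
      exact inv_mul_cancel₀ hn.ne'
    · have e : ((‖z‖⁻¹ : ℝ) : ℂ) • z - z = ((‖z‖⁻¹ - 1 : ℝ) : ℂ) • z := by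
        push_cast
        rw [sub_smul, one_smul]
      have h1 : 0 ≤ ‖z‖⁻¹ - 1 := by
        have := (one_le_inv₀ hn).mpr hz'.le
        linarith
      rw [e, norm_smul, Complex.norm_real, Real.norm_of_nonneg h1, sub_mul,
        inv_mul_cancel₀ hn.ne', one_mul]

private theorem A2_ball2 (hE : ∃ ζ : E, ‖ζ‖ = 1) {ν : Measure E} (hν : Car ν) {z : E}
    (hz : z ∈ ball (0 : E) 1) {r : ℝ} (hr : 0 < r) :
    ν {u | ‖1 - ⟪u, z⟫_ℂ‖ < r} ≤ ENNReal.ofReal (2 * r) := by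
  obtain ⟨ζ, hζ, hd⟩ := A2_unit hE hz
  have hsub : {u | ‖1 - ⟪u, z⟫_ℂ‖ < r} ⊆
      {u | ‖1 - ⟪u, ζ⟫_ℂ‖ < 2 * r} ∪ (ball (0 : E) 1)ᶜ := by
    intro u hu
    by_cases hb : u ∈ ball (0 : E) 1
    · left
      simp only [mem_setOf_eq] at hu ⊢
      have h1 := A2_low (z := z) hb
      have hu' : ‖u‖ < 1 := by simpa using hb
      have e : 1 - ⟪u, ζ⟫_ℂ = (1 - ⟪u, z⟫_ℂ) - ⟪u, ζ - z⟫_ℂ := by
        rw [inner_sub_right]; ring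
      have h2 : ‖⟪u, ζ - z⟫_ℂ‖ ≤ ‖u‖ * ‖ζ - z‖ := norm_inner_le_norm _ _
      have h3 : ‖u‖ * ‖ζ - z‖ ≤ 1 * ‖ζ - z‖ :=
        mul_le_mul_of_nonneg_right hu'.le (norm_nonneg _)
      have h4 : ‖1 - ⟪u, ζ⟫_ℂ‖ ≤ ‖1 - ⟪u, z⟫_ℂ‖ + ‖⟪u, ζ - z⟫_ℂ‖ := by
        rw [e]; exact norm_sub_le _ _
      linarith
    · right; exact hb
  calc ν {u | ‖1 - ⟪u, z⟫_ℂ‖ < r} ≤ ν ({u | ‖1 - ⟪u, ζ⟫_ℂ‖ < 2 * r} ∪ (ball (0 : E) 1)ᶜ) :=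
        measure_mono hsub
    _ ≤ ν {u | ‖1 - ⟪u, ζ⟫_ℂ‖ < 2 * r} + ν (ball (0 : E) 1)ᶜ := measure_union_le _ _
    _ = ν {u | ‖1 - ⟪u, ζ⟫_ℂ‖ < 2 * r} := by rw [hν.sub, add_zero]
    _ ≤ ENNReal.ofReal (2 * r) := hν.car ζ hζ (2 * r) (by linarith)

/-- `r = 3`: the set is everything in the ball. -/
theorem car_fin (hE : ∃ ζ : E, ‖ζ‖ = 1) {ν : Measure E} (hν : Car ν) : IsFiniteMeasure ν := by
  have h0 : (0 : E) ∈ ball (0 : E) 1 := by simp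
  have h1 := A2_ball2 hE hν h0 (r := 2) (by norm_num)
  constructor
  have e : {u : E | ‖1 - ⟪u, (0 : E)⟫_ℂ‖ < 2} = univ := by
    ext u; simp
  rw [e] at h1
  exact lt_of_le_of_lt h1 ENNReal.ofReal_lt_top

/-- `z ≠ 0`: `ζ = z/‖z‖`; `‖1 - ⟪z, ζ⟫‖ = 1 - ‖z‖ ≤ ‖1 - ⟪u, z⟫‖` for `‖u‖ ≤ 1`, and `‖⟪u, ζ - z⟫‖ ≤ 1 - ‖z‖`, so `D(u,ζ) ≤ 2 D(u,z) < 2 r`. `z = 0`: `D(u,0) = 1`, the set is empty for `r ≤ 1`; for `r > 1` every `u` in the ball has `D(u,ζ) < 4 r`. (Off the ball `ν` is zero: `hν.sub`.) -/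
theorem car_ball (hE : ∃ ζ : E, ‖ζ‖ = 1) {ν : Measure E} (hν : Car ν) {z : E}
    (hz : z ∈ ball (0 : E) 1) {r : ℝ} (hr : 0 < r) :
    ν {u | ‖1 - ⟪u, z⟫_ℂ‖ < r} ≤ ENNReal.ofReal (4 * r) :=
  (A2_ball2 hE hν hz hr).trans (ENNReal.ofReal_le_ofReal (by linarith))

/-- one dyadic shell -/
private theorem A2_shell (hE : ∃ ζ : E, ‖ζ‖ = 1) {ν : Measure E} (hν : Car ν) {z : E}
    (hz : z ∈ ball (0 : E) 1) {a : ℝ} (ha : 0 < a) {g : ℝ → ℝ} {c : ℝ} (hc : 0 ≤ c)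
    (hg : ∀ x, a ≤ x → g x ≤ c) :
    ∫⁻ u in {u | a ≤ ‖1 - ⟪u, z⟫_ℂ‖ ∧ ‖1 - ⟪u, z⟫_ℂ‖ < 2 * a},
      ENNReal.ofReal (g ‖1 - ⟪u, z⟫_ℂ‖) ∂ν ≤ ENNReal.ofReal (c * (8 * a)) := by
  have hm : MeasurableSet {u : E | a ≤ ‖1 - ⟪u, z⟫_ℂ‖ ∧ ‖1 - ⟪u, z⟫_ℂ‖ < 2 * a} :=
    (measurableSet_le measurable_const (A2_meas z)).inter
      (measurableSet_lt (A2_meas z) measurable_const)
  calc ∫⁻ u in {u | a ≤ ‖1 - ⟪u, z⟫_ℂ‖ ∧ ‖1 - ⟪u, z⟫_ℂ‖ < 2 * a},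
      ENNReal.ofReal (g ‖1 - ⟪u, z⟫_ℂ‖) ∂ν
      ≤ ∫⁻ _ in {u | a ≤ ‖1 - ⟪u, z⟫_ℂ‖ ∧ ‖1 - ⟪u, z⟫_ℂ‖ < 2 * a}, ENNReal.ofReal c ∂ν :=
        setLIntegral_mono' hm (fun u hu => ENNReal.ofReal_le_ofReal (hg _ hu.1))
    _ = ENNReal.ofReal c * ν {u | a ≤ ‖1 - ⟪u, z⟫_ℂ‖ ∧ ‖1 - ⟪u, z⟫_ℂ‖ < 2 * a} := by
        rw [setLIntegral_const]
    _ ≤ ENNReal.ofReal c * ν {u | ‖1 - ⟪u, z⟫_ℂ‖ < 2 * a} := by
        refine mul_le_mul_right (measure_mono ?_) _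
        intro u hu
        exact hu.2
    _ ≤ ENNReal.ofReal c * ENNReal.ofReal (4 * (2 * a)) := by
        gcongr
        exact car_ball hE hν hz (by linarith)
    _ = ENNReal.ofReal (c * (8 * a)) := by
        rw [← ENNReal.ofReal_mul hc]
        congr 1
        ring

/-- Dyadic: the set is the union of `{2^j R ≤ D(u,z) < 2^(j+1) R}`, on which the integrand is `≤ (2^j R)^(-p)`, and the measure `≤ 4 * 2^(j+1) R` (`car_ball`); geometric series with the ratio `2^(1-p)`. -/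
theorem car_far (hE : ∃ ζ : E, ‖ζ‖ = 1) {p : ℝ} (hp : 1 < p) : ∃ C : ℝ, 0 < C ∧
    ∀ ν : Measure E, Car ν → ∀ z ∈ ball (0 : E) 1, ∀ R : ℝ, 0 < R →
      ∫⁻ u in {u | R ≤ ‖1 - ⟪u, z⟫_ℂ‖}, ENNReal.ofReal (‖1 - ⟪u, z⟫_ℂ‖ ^ (-p)) ∂ν ≤
        ENNReal.ofReal (C * R ^ (1 - p)) := by
  have hq0 : (0 : ℝ) < 2 ^ (1 - p) := by positivity
  have hq1 : (2 : ℝ) ^ (1 - p) < 1 := Real.rpow_lt_one_of_one_lt_of_neg (by norm_num) (by linarith)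
  refine ⟨8 * (1 - (2 : ℝ) ^ (1 - p))⁻¹, by
    have : 0 < 1 - (2 : ℝ) ^ (1 - p) := by linarith
    positivity, ?_⟩
  intro ν hν z hz R hR
  set q : ℝ := (2 : ℝ) ^ (1 - p) with hq
  let S : ℕ → Set E := fun j => {u | (2 : ℝ) ^ j * R ≤ ‖1 - ⟪u, z⟫_ℂ‖ ∧
    ‖1 - ⟪u, z⟫_ℂ‖ < 2 * ((2 : ℝ) ^ j * R)}
  have hcov : {u | R ≤ ‖1 - ⟪u, z⟫_ℂ‖} ⊆ ⋃ j, S j := by
    intro u hu
    have h1 : 1 ≤ ‖1 - ⟪u, z⟫_ℂ‖ / R := (one_le_div hR).mpr hu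
    obtain ⟨n, hn1, hn2⟩ := exists_nat_pow_near h1 (by norm_num : (1 : ℝ) < 2)
    rw [le_div_iff₀ hR] at hn1
    rw [div_lt_iff₀ hR, pow_succ] at hn2
    refine mem_iUnion.mpr ⟨n, hn1, ?_⟩
    linarith
  have hterm : ∀ j : ℕ, ∫⁻ u in S j, ENNReal.ofReal (‖1 - ⟪u, z⟫_ℂ‖ ^ (-p)) ∂ν ≤
      ENNReal.ofReal (8 * R ^ (1 - p) * q ^ j) := by
    intro j
    have ha : 0 < (2 : ℝ) ^ j * R := by positivity
    have h := A2_shell hE hν hz ha (g := fun x => x ^ (-p)) (c := ((2 : ℝ) ^ j * R) ^ (-p))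
      (by positivity) (fun x hx => Real.rpow_le_rpow_of_nonpos ha hx (by linarith))
    refine h.trans (ENNReal.ofReal_le_ofReal (le_of_eq ?_))
    have e1 : ((2 : ℝ) ^ j * R) ^ (-p) * (8 * ((2 : ℝ) ^ j * R)) =
        8 * (((2 : ℝ) ^ j * R) ^ (-p) * ((2 : ℝ) ^ j * R)) := by ring
    have e2 : ((2 : ℝ) ^ j * R) ^ (-p) * ((2 : ℝ) ^ j * R) = ((2 : ℝ) ^ j * R) ^ (1 - p) := by
      rw [show (1 : ℝ) - p = -p + 1 by ring, Real.rpow_add ha, Real.rpow_one]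
    have e3 : ((2 : ℝ) ^ j) ^ (1 - p) = q ^ j := by
      rw [hq, ← Real.rpow_natCast, ← Real.rpow_natCast, ← Real.rpow_mul (by norm_num),
        ← Real.rpow_mul (by norm_num), mul_comm]
    rw [e1, e2, Real.mul_rpow (by positivity) hR.le, e3]
    ring
  calc ∫⁻ u in {u | R ≤ ‖1 - ⟪u, z⟫_ℂ‖}, ENNReal.ofReal (‖1 - ⟪u, z⟫_ℂ‖ ^ (-p)) ∂ν
      ≤ ∫⁻ u in ⋃ j, S j, ENNReal.ofReal (‖1 - ⟪u, z⟫_ℂ‖ ^ (-p)) ∂ν :=
        lintegral_mono_set hcov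
    _ ≤ ∑' j, ∫⁻ u in S j, ENNReal.ofReal (‖1 - ⟪u, z⟫_ℂ‖ ^ (-p)) ∂ν :=
        lintegral_iUnion_le _ _
    _ ≤ ∑' j : ℕ, ENNReal.ofReal (8 * R ^ (1 - p) * q ^ j) := ENNReal.tsum_le_tsum hterm
    _ = ENNReal.ofReal (∑' j : ℕ, 8 * R ^ (1 - p) * q ^ j) := by
        rw [ENNReal.ofReal_tsum_of_nonneg]
        · intro j; positivity
        · exact (summable_geometric_of_lt_one hq0.le hq1).mul_left _
    _ = ENNReal.ofReal (8 * (1 - q)⁻¹ * R ^ (1 - p)) := by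
        rw [tsum_mul_left, tsum_geometric_of_lt_one hq0.le hq1]
        congr 1
        ring

/-- Dyadic: `h = (1 - ‖z‖²)/2 ≤ D(u,z)` for `u` in the ball; the sets `{2^j h ≤ D < 2^(j+1) h}`, `2^j h ≤ R`, contribute at most `8` each, and there are at most `2 + log (R/h)/log 2` of them. -/
theorem car_near (hE : ∃ ζ : E, ‖ζ‖ = 1) : ∃ C : ℝ, 0 < C ∧
    ∀ ν : Measure E, Car ν → ∀ z ∈ ball (0 : E) 1, ∀ R : ℝ, 1 - ‖z‖ ^ 2 ≤ R →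
      ∫⁻ u in {u | ‖1 - ⟪u, z⟫_ℂ‖ ≤ R}, ENNReal.ofReal (1 / ‖1 - ⟪u, z⟫_ℂ‖) ∂ν ≤
        ENNReal.ofReal (C * (1 + Real.log (R / (1 - ‖z‖ ^ 2)))) := by
  refine ⟨16, by norm_num, ?_⟩
  intro ν hν z hz R hR
  have hz' : ‖z‖ < 1 := by simpa using hz
  have hz0 : 0 ≤ ‖z‖ := norm_nonneg _
  set δ : ℝ := 1 - ‖z‖ ^ 2 with hδ
  have hδ0 : 0 < δ := by rw [hδ]; nlinarith
  set h : ℝ := δ / 2 with hh
  have hh0 : 0 < h := by rw [hh]; linarith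
  have hR0 : 0 < R := lt_of_lt_of_le hδ0 hR
  have hRh : 1 ≤ R / h := by rw [one_le_div hh0, hh]; linarith
  set J : ℕ := ⌊Real.log (R / h) / Real.log 2⌋₊ + 1 with hJ
  have hl2 : 0 < Real.log 2 := Real.log_pos (by norm_num)
  have hlow : ∀ u ∈ ball (0 : E) 1, h ≤ ‖1 - ⟪u, z⟫_ℂ‖ := by
    intro u hu
    have h1 := A2_low (z := z) hu
    have h2 : h ≤ 1 - ‖z‖ := by rw [hh, hδ]; nlinarith
    linarith
  let S : Fin J → Set E := fun j => {u | (2 : ℝ) ^ (j : ℕ) * h ≤ ‖1 - ⟪u, z⟫_ℂ‖ ∧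
    ‖1 - ⟪u, z⟫_ℂ‖ < 2 * ((2 : ℝ) ^ (j : ℕ) * h)}
  have hcov : {u | ‖1 - ⟪u, z⟫_ℂ‖ ≤ R} ⊆ (⋃ j, S j) ∪ (ball (0 : E) 1)ᶜ := by
    intro u hu
    by_cases hb : u ∈ ball (0 : E) 1
    · left
      simp only [mem_setOf_eq] at hu
      have h1 : 1 ≤ ‖1 - ⟪u, z⟫_ℂ‖ / h := (one_le_div hh0).mpr (hlow u hb)
      obtain ⟨n, hn1, hn2⟩ := exists_nat_pow_near h1 (by norm_num : (1 : ℝ) < 2)
      rw [le_div_iff₀ hh0] at hn1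
      rw [div_lt_iff₀ hh0, pow_succ] at hn2
      have hn3 : (2 : ℝ) ^ n ≤ R / h := by
        rw [le_div_iff₀ hh0]; linarith
      have hn4 : (n : ℝ) ≤ Real.log (R / h) / Real.log 2 := by
        rw [le_div_iff₀ hl2]
        have := Real.log_le_log (by positivity) hn3
        rwa [Real.log_pow] at this
      have hnJ : n < J := by
        rw [hJ]
        exact Nat.lt_succ_of_le (Nat.le_floor hn4)
      refine mem_iUnion.mpr ⟨⟨n, hnJ⟩, ?_⟩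
      exact ⟨hn1, by simp only; linarith⟩
    · right; exact hb
  have hterm : ∀ j : Fin J, ∫⁻ u in S j, ENNReal.ofReal (1 / ‖1 - ⟪u, z⟫_ℂ‖) ∂ν ≤
      ENNReal.ofReal 8 := by
    intro j
    have ha : 0 < (2 : ℝ) ^ (j : ℕ) * h := by positivity
    have hs := A2_shell hE hν hz ha (g := fun x => 1 / x) (c := 1 / ((2 : ℝ) ^ (j : ℕ) * h))
      (by positivity) (fun x hx => one_div_le_one_div_of_le ha hx)
    refine hs.trans (ENNReal.ofReal_le_ofReal (le_of_eq ?_))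
    field_simp
  have hz1 : ∫⁻ u in (ball (0 : E) 1)ᶜ, ENNReal.ofReal (1 / ‖1 - ⟪u, z⟫_ℂ‖) ∂ν = 0 :=
    setLIntegral_measure_zero _ _ hν.sub
  calc ∫⁻ u in {u | ‖1 - ⟪u, z⟫_ℂ‖ ≤ R}, ENNReal.ofReal (1 / ‖1 - ⟪u, z⟫_ℂ‖) ∂ν
      ≤ ∫⁻ u in (⋃ j, S j) ∪ (ball (0 : E) 1)ᶜ, ENNReal.ofReal (1 / ‖1 - ⟪u, z⟫_ℂ‖) ∂ν :=
        lintegral_mono_set hcov
    _ ≤ ∫⁻ u in ⋃ j, S j, ENNReal.ofReal (1 / ‖1 - ⟪u, z⟫_ℂ‖) ∂ν +
        ∫⁻ u in (ball (0 : E) 1)ᶜ, ENNReal.ofReal (1 / ‖1 - ⟪u, z⟫_ℂ‖) ∂ν :=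
        lintegral_union_le _ _ _
    _ = ∫⁻ u in ⋃ j, S j, ENNReal.ofReal (1 / ‖1 - ⟪u, z⟫_ℂ‖) ∂ν := by rw [hz1, add_zero]
    _ ≤ ∑' j, ∫⁻ u in S j, ENNReal.ofReal (1 / ‖1 - ⟪u, z⟫_ℂ‖) ∂ν :=
        lintegral_iUnion_le _ _
    _ ≤ ∑' _ : Fin J, ENNReal.ofReal 8 := ENNReal.tsum_le_tsum hterm
    _ = ENNReal.ofReal (J * 8) := by
        rw [tsum_fintype, Finset.sum_const, Finset.card_univ, Fintype.card_fin, nsmul_eq_mul,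
          ENNReal.ofReal_mul (by positivity), ENNReal.ofReal_natCast]
    _ ≤ ENNReal.ofReal (16 * (1 + Real.log (R / δ))) := by
        apply ENNReal.ofReal_le_ofReal
        have hL0 : 0 ≤ Real.log (R / h) / Real.log 2 :=
          div_nonneg (Real.log_nonneg hRh) hl2.le
        have hJle : (J : ℝ) ≤ Real.log (R / h) / Real.log 2 + 1 := by
          rw [hJ]; push_cast
          have := Nat.floor_le hL0
          linarith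
        have e1 : Real.log (R / h) = Real.log 2 + Real.log (R / δ) := by
          rw [← Real.log_mul (by norm_num) (by positivity)]
          congr 1
          rw [hh]
          field_simp
        have hRd : 0 ≤ Real.log (R / δ) := Real.log_nonneg (by rw [one_le_div hδ0]; exact hR)
        have hl : (1 : ℝ) / 2 < Real.log 2 := by
          have := Real.log_two_gt_d9
          linarith
        have e2 : Real.log (R / h) / Real.log 2 = 1 + Real.log (R / δ) / Real.log 2 := by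
          rw [e1, add_div, div_self hl2.ne']
        have h3 : Real.log (R / δ) / Real.log 2 ≤ 2 * Real.log (R / δ) := by
          rw [div_le_iff₀ hl2]
          nlinarith
        rw [e2] at hJle
        nlinarith

end Pool.Agent.MPca0fc2.CE
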