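import Mathlib
import Pool.Agent.Lib.MP_ca0fc2_an.CE.A2

set_option autoImplicit false
set_option linter.unusedSectionVars false

open Metric Set MeasureTheory Filter Topology
open scoped InnerProductSpace ENNReal ContDiff

namespace Pool.Agent.MPca0fc2.CE

open Pool.Agent.MPca0fc2.PT
open Pool.Agent.MPca0fc2.QT
open Pool.Agent.MPca0fc2.TS
open Pool.Agent.MPca0fc2.TE
open Pool.Agent.MPca0fc2.TK
open Pool.Agent.MPca0fc2.VK

variable {E : Type*} [NormedAddCommGroup E] [InnerProductSpace ℂ E] [FiniteDimensional ℂ E]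
  [MeasurableSpace E] [BorelSpace E]

private theorem A3_ae {ν : Measure E} (hν : Car ν) : ∀ᵐ u ∂ν, ‖u‖ < 1 := by
  have h : ∀ᵐ u ∂ν, u ∈ ball (0 : E) 1 := by
    rw [ae_iff]
    exact hν.sub
  filter_upwards [h] with u hu
  simpa using hu

private theorem A3_low {u z : E} (hu : ‖u‖ < 1) : 1 - ‖z‖ ≤ ‖1 - ⟪u, z⟫_ℂ‖ := by
  have h1 : ‖⟪u, z⟫_ℂ‖ ≤ ‖u‖ * ‖z‖ := norm_inner_le_norm u z
  have h2 : ‖(1 : ℂ)‖ - ‖⟪u, z⟫_ℂ‖ ≤ ‖1 - ⟪u, z⟫_ℂ‖ := norm_sub_norm_le _ _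
  rw [norm_one] at h2
  nlinarith [norm_nonneg z]

private theorem A3_meas (z : E) : Measurable (fun u : E => (1 : ℂ) - ⟪u, z⟫_ℂ) := by
  have : ProperSpace E := FiniteDimensional.proper_rclike ℂ E
  have h : Continuous (fun u : E => (1 : ℂ) - ⟪u, z⟫_ℂ) := by fun_prop
  exact h.measurable

private theorem A3_inv {z : E} (hz : z ∈ ball (0 : E) 1) {u : E} (hu : ‖u‖ < 1) :
    ‖(1 - ⟪u, z⟫_ℂ)⁻¹‖ ≤ (1 - ‖z‖)⁻¹ := by
  have hz' : ‖z‖ < 1 := by simpa using hz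
  rw [norm_inv]
  exact inv_anti₀ (by linarith) (A3_low hu)

/-- bounded by `1/(1 - ‖z‖)` on the ball, measurable; `ν` is finite and carried by the ball -/
theorem fc_int (hE : ∃ ζ : E, ‖ζ‖ = 1) {ν : Measure E} (hν : Car ν) {z : E}
    (hz : z ∈ ball (0 : E) 1) : Integrable (fun u => (1 - ⟪u, z⟫_ℂ)⁻¹) ν := by
  have := car_fin hE hν
  refine Integrable.of_bound (A3_meas z).inv.aestronglyMeasurable (1 - ‖z‖)⁻¹ ?_
  filter_upwards [A3_ae hν] with u hu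
  exact A3_inv hz hu

/-- `hasFDerivAt_integral_of_dominated_of_fderiv_le` on a ball around `z` whose closure is in the unit ball; the derivative of the integrand in `z` is `(1 - ⟪u, z⟫)⁻² • innerSL ℂ u`. -/
theorem fc_holo (hE : ∃ ζ : E, ‖ζ‖ = 1) {ν : Measure E} (hν : Car ν) :
    DifferentiableOn ℂ (Fc ν) (ball 0 1) := by
  intro z hz
  have hz' : ‖z‖ < 1 := by simpa using hz
  have := car_fin hE hν
  have : ProperSpace E := FiniteDimensional.proper_rclike ℂ E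
  set ε : ℝ := (1 - ‖z‖) / 2 with hε
  have hε0 : 0 < ε := by rw [hε]; linarith
  have hx : ∀ x ∈ ball z ε, ε ≤ 1 - ‖x‖ := by
    intro x hx
    have h1 : ‖x - z‖ < ε := by simpa [dist_eq_norm] using hx
    have h2 : ‖x‖ ≤ ‖x - z‖ + ‖z‖ := by
      have := norm_add_le (x - z) z
      simpa using this
    have h3 : 2 * ε = 1 - ‖z‖ := by rw [hε]; ring
    linarith
  have key : HasFDerivAt (fun x : E => ∫ u, (1 - ⟪u, x⟫_ℂ)⁻¹ ∂ν)
      (∫ u, (((1 - ⟪u, z⟫_ℂ) ^ 2)⁻¹ • (innerSL ℂ u : E →L[ℂ] ℂ)) ∂ν) z := by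
    refine hasFDerivAt_integral_of_dominated_of_fderiv_le (𝕜 := ℂ) (μ := ν)
      (F := fun (x : E) (u : E) => (1 - ⟪u, x⟫_ℂ)⁻¹)
      (F' := fun (x : E) (u : E) => (((1 - ⟪u, x⟫_ℂ) ^ 2)⁻¹ • (innerSL ℂ u : E →L[ℂ] ℂ)))
      (bound := fun _ => ε⁻¹ ^ 2)
      (ball_mem_nhds z hε0) ?_ ?_ ?_ ?_ ?_ ?_
    · exact Filter.Eventually.of_forall fun x => (A3_meas x).inv.aestronglyMeasurable
    · exact fc_int hE hν hz
    · have hA : AEStronglyMeasurable (fun u : E => ((1 - ⟪u, z⟫_ℂ) ^ 2)⁻¹) ν :=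
        ((A3_meas z).pow_const 2).inv.aestronglyMeasurable
      have hcont : Continuous (fun u : E => (innerSL ℂ u : E →L[ℂ] ℂ)) :=
        ContinuousLinearMap.continuous _
      have hB : AEStronglyMeasurable (fun u : E => (innerSL ℂ u : E →L[ℂ] ℂ)) ν :=
        hcont.aestronglyMeasurable
      exact hA.smul hB
    · filter_upwards [A3_ae hν] with u hu x hxb
      have h1 := hx x hxb
      have h2 := A3_low (z := x) hu
      have h3 : ε ≤ ‖1 - ⟪u, x⟫_ℂ‖ := h1.trans h2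
      have h4 : ‖(1 - ⟪u, x⟫_ℂ)⁻¹‖ ≤ ε⁻¹ := by
        rw [norm_inv]
        exact inv_anti₀ hε0 h3
      have h5 : ‖((1 - ⟪u, x⟫_ℂ) ^ 2)⁻¹ • innerSL ℂ u‖ = ‖(1 - ⟪u, x⟫_ℂ)⁻¹‖ ^ 2 * ‖u‖ := by
        rw [norm_smul, innerSL_apply_norm, ← inv_pow, norm_pow]
      show ‖((1 - ⟪u, x⟫_ℂ) ^ 2)⁻¹ • innerSL ℂ u‖ ≤ ε⁻¹ ^ 2
      rw [h5]
      have h6 : ‖(1 - ⟪u, x⟫_ℂ)⁻¹‖ ^ 2 ≤ ε⁻¹ ^ 2 := pow_le_pow_left₀ (norm_nonneg _) h4 2
      have h7 : 0 ≤ ‖(1 - ⟪u, x⟫_ℂ)⁻¹‖ ^ 2 := by positivity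
      nlinarith [norm_nonneg u]
    · exact integrable_const _
    · filter_upwards [A3_ae hν] with u hu x hxb
      have h1 := hx x hxb
      have h2 := A3_low (z := x) hu
      have h3 : (1 - ⟪u, x⟫_ℂ) ≠ 0 := by
        intro h
        rw [h, norm_zero] at h2
        linarith
      have h4 : HasFDerivAt (fun x : E => (1 : ℂ) - ⟪u, x⟫_ℂ) (-(innerSL ℂ u)) x := by
        have := (innerSL ℂ u).hasFDerivAt (x := x)
        have h5 := this.const_sub (1 : ℂ)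
        exact h5
      have h6 := (hasDerivAt_inv h3).comp_hasFDerivAt x h4
      have h7 : (-((1 - ⟪u, x⟫_ℂ) ^ 2)⁻¹) • (-(innerSL ℂ u)) =
          ((1 - ⟪u, x⟫_ℂ) ^ 2)⁻¹ • innerSL ℂ u := by
        rw [smul_neg, neg_smul, neg_neg]
      rw [h7] at h6
      exact h6
  exact key.differentiableAt.differentiableWithinAt

/-- `reCLM` commutes with the integral; `a_re`. -/
theorem fc_re (hE : ∃ ζ : E, ‖ζ‖ = 1) {ν : Measure E} (hν : Car ν) {z : E}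
    (hz : z ∈ ball (0 : E) 1) : (Fc ν z).re = ∫ u, ((1 - ⟪u, z⟫_ℂ)⁻¹).re ∂ν ∧
      0 ≤ (Fc ν z).re ∧ Integrable (fun u => ((1 - ⟪u, z⟫_ℂ)⁻¹).re) ν := by
  have hz' : ‖z‖ < 1 := by simpa using hz
  have hi := fc_int hE hν hz
  have h1 : (Fc ν z).re = ∫ u, ((1 - ⟪u, z⟫_ℂ)⁻¹).re ∂ν := by
    have := Complex.reCLM.integral_comp_comm hi
    exact this.symm
  refine ⟨h1, ?_, hi.re⟩
  rw [h1]
  refine integral_nonneg_of_ae ?_
  filter_upwards [A3_ae hν] with u hu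
  exact (a_re hu.le hz').2

theorem kc_nonneg {s : ℝ} {t : ℕ} {u z : E} (hu : ‖u‖ ≤ 1) (hz : ‖z‖ ≤ 1) : 0 ≤ kc s t u z := by
  have h1 : 0 ≤ 1 - ‖z‖ ^ 2 := by nlinarith [norm_nonneg z]
  have h2 : 0 ≤ 1 - ‖u‖ ^ 2 := by nlinarith [norm_nonneg u]
  unfold kc
  have h3 : 0 ≤ ((1 - ‖z‖ ^ 2) / ‖1 - ⟪u, z⟫_ℂ‖) ^ s :=
    Real.rpow_nonneg (div_nonneg h1 (norm_nonneg _)) s
  have h4 : 0 ≤ ((1 - ‖u‖ ^ 2) / ‖1 - ⟪u, z⟫_ℂ‖) ^ t :=
    pow_nonneg (div_nonneg h2 (norm_nonneg _)) t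
  exact div_nonneg (mul_nonneg h3 h4) (norm_nonneg _)

/-- for fixed `z` in the ball the kernel is a bounded measurable function of `u` in the ball -/
theorem kc_int (hE : ∃ ζ : E, ‖ζ‖ = 1) {ν : Measure E} (hν : Car ν) {s : ℝ} (hs : 0 ≤ s) (t : ℕ)
    {z : E} (hz : z ∈ ball (0 : E) 1) : Integrable (fun u => kc s t u z) ν := by
  have hz' : ‖z‖ < 1 := by simpa using hz
  have := car_fin hE hν
  have : ProperSpace E := FiniteDimensional.proper_rclike ℂ E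
  have hm : Measurable (fun u : E => kc s t u z) := by
    have hD : Measurable (fun u : E => ‖1 - ⟪u, z⟫_ℂ‖) := (A3_meas z).norm
    have hn : Measurable (fun u : E => 1 - ‖u‖ ^ 2) :=
      measurable_const.sub (measurable_norm.pow_const 2)
    unfold kc
    exact (((measurable_const.div hD).pow_const s).mul ((hn.div hD).pow_const t)).div hD
  refine Integrable.of_bound hm.aestronglyMeasurable (2 ^ s * 2 ^ t / (1 - ‖z‖)) ?_
  filter_upwards [A3_ae hν] with u hu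
  have h0 := kc_nonneg (s := s) (t := t) hu.le hz'.le
  rw [Real.norm_of_nonneg h0]
  obtain ⟨hD, hD1, _⟩ := a_pos (u := u) (z := z) hu.le hz'
  obtain ⟨_, hD2, _⟩ := a_pos' (u := u) (z := z) hu hz'.le
  have hD3 := A3_low (z := z) hu
  have h1 : 0 ≤ 1 - ‖z‖ ^ 2 := by nlinarith [norm_nonneg z]
  have h2 : 0 ≤ 1 - ‖u‖ ^ 2 := by nlinarith [norm_nonneg u]
  unfold kc
  have h3 : ((1 - ‖z‖ ^ 2) / ‖1 - ⟪u, z⟫_ℂ‖) ^ s ≤ 2 ^ s := by
    refine Real.rpow_le_rpow (div_nonneg h1 hD.le) ?_ hs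
    rw [div_le_iff₀ hD]
    exact hD1
  have h4 : ((1 - ‖u‖ ^ 2) / ‖1 - ⟪u, z⟫_ℂ‖) ^ t ≤ 2 ^ t := by
    refine pow_le_pow_left₀ (div_nonneg h2 hD.le) ?_ t
    rw [div_le_iff₀ hD]
    exact hD2
  have h5 : 0 ≤ ((1 - ‖u‖ ^ 2) / ‖1 - ⟪u, z⟫_ℂ‖) ^ t :=
    pow_nonneg (div_nonneg h2 hD.le) t
  have h6 : (0 : ℝ) ≤ 2 ^ s := Real.rpow_nonneg (by norm_num) s
  have h7 : ((1 - ‖z‖ ^ 2) / ‖1 - ⟪u, z⟫_ℂ‖) ^ s * ((1 - ‖u‖ ^ 2) / ‖1 - ⟪u, z⟫_ℂ‖) ^ t ≤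
      2 ^ s * 2 ^ t := mul_le_mul h3 h4 h5 h6
  have h8 : (0 : ℝ) ≤ 2 ^ s * 2 ^ t := by positivity
  exact div_le_div₀ h8 h7 (by linarith) hD3

theorem Tc_nonneg {ν : Measure E} (hν : Car ν) {s : ℝ} (t : ℕ) {z : E}
    (hz : z ∈ ball (0 : E) 1) : 0 ≤ Tc s t ν z := by
  have hz' : ‖z‖ < 1 := by simpa using hz
  unfold Tc
  refine integral_nonneg_of_ae ?_
  filter_upwards [A3_ae hν] with u hu
  exact kc_nonneg hu.le hz'.le

end Pool.Agent.MPca0fc2.CE
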