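import Mathlib
import Pool.Agent.Lib.MP_ca0fc2_an.CE.A3

set_option autoImplicit false
set_option linter.unusedSectionVars false

open Metric Set MeasureTheory Filter Topology
open scoped InnerProductSpace ENNReal ContDiff

namespace Pool.Agent.MPca0fc2.CE

open Pool.Agent.MPca0fc2.PT
open Pool.Agent.MPca0fc2.QT
open Pool.Agent.MPca0fc2.TS
open Pool.Agent.MPca0fc2.TE
open Pool.Agent.MPca0fc2.TK
open Pool.Agent.MPca0fc2.VK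

variable {E : Type*} [NormedAddCommGroup E] [InnerProductSpace ℂ E] [FiniteDimensional ℂ E]
  [MeasurableSpace E] [BorelSpace E]

private theorem B1_ae {ν : Measure E} (hν : Car ν) : ∀ᵐ u ∂ν, u ∈ ball (0 : E) 1 := by
  rw [ae_iff]
  exact hν.sub

private theorem B1_bd {ν : Measure E} (hν : Car ν) {S : Set E} (hS : MeasurableSet S)
    {f g : E → ℝ} {c : ℝ} (hc : 0 ≤ c) (hfg : ∀ u ∈ ball (0 : E) 1, u ∈ S → ‖f u‖ ≤ g u)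
    (hg : ∫⁻ u in S, ENNReal.ofReal (g u) ∂ν ≤ ENNReal.ofReal c) : ‖∫ u in S, f u ∂ν‖ ≤ c := by
  refine (norm_integral_le_lintegral_norm _).trans ?_
  refine ENNReal.toReal_le_of_le_ofReal hc ?_
  refine (lintegral_mono_ae ?_).trans hg
  filter_upwards [ae_restrict_mem hS, ae_restrict_of_ae (B1_ae hν)] with u hu hu'
  exact ENNReal.ofReal_le_ofReal (hfg u hu' hu)

private theorem B1_lt (z : E) (r : ℝ) : MeasurableSet {u : E | ‖1 - ⟪u, z⟫_ℂ‖ < r} :=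
  (isOpen_lt (by fun_prop) continuous_const).measurableSet

private theorem B1_compl (z : E) (r : ℝ) : {u : E | ‖1 - ⟪u, z⟫_ℂ‖ < r}ᶜ =
    {u : E | r ≤ ‖1 - ⟪u, z⟫_ℂ‖} := by
  ext u
  simp

private theorem B1_le (z : E) (r : ℝ) : MeasurableSet {u : E | r ≤ ‖1 - ⟪u, z⟫_ℂ‖} := by
  rw [← B1_compl]
  exact (B1_lt z r).compl

private theorem B1_far (hE : ∃ ζ : E, ‖ζ‖ = 1) : ∃ C : ℝ, 0 < C ∧ ∀ ν : Measure E, Car ν →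
    ∀ x ∈ ball (0 : E) 1, ∀ y ∈ ball (0 : E) 1, ∀ h : ℝ, 0 < h → ‖1 - ⟪x, y⟫_ℂ‖ ≤ h →
      ‖∫ u in {u | 64 * h ≤ ‖1 - ⟪u, y⟫_ℂ‖},
        (((1 - ⟪u, x⟫_ℂ)⁻¹).re - ((1 - ⟪u, y⟫_ℂ)⁻¹).re) ∂ν‖ ≤ C := by
  obtain ⟨C, hC, hfar⟩ := car_far hE (p := 3 / 2) (by norm_num)
  refine ⟨8 * C, by positivity, fun ν hν x hx y hy h hh hD => ?_⟩
  have hx' : ‖x‖ < 1 := mem_ball_zero_iff.1 hx
  have hy' : ‖y‖ < 1 := mem_ball_zero_iff.1 hy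
  refine B1_bd hν (B1_le y _) (g := fun u => 8 * √h * ‖1 - ⟪u, y⟫_ℂ‖ ^ (-(3 / 2) : ℝ))
    (by positivity) (fun u hu hu' => ?_) ?_
  · have hu1 : ‖u‖ < 1 := mem_ball_zero_iff.1 hu
    have hu2 : 64 * h ≤ ‖1 - ⟪u, y⟫_ℂ‖ := hu'
    have h1 := (a_far hu1.le hx'.le hy' (by linarith)).2
    rw [← Complex.sub_re, Real.norm_eq_abs]
    refine (Complex.abs_re_le_norm _).trans (h1.trans ?_)
    have h2 : √‖1 - ⟪x, y⟫_ℂ‖ ≤ √h := Real.sqrt_le_sqrt hD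
    have h3 : 0 ≤ ‖1 - ⟪u, y⟫_ℂ‖ ^ (-(3 / 2) : ℝ) := Real.rpow_nonneg (norm_nonneg _) _
    gcongr
  · have h4 : ∀ u : E, ENNReal.ofReal (8 * √h * ‖1 - ⟪u, y⟫_ℂ‖ ^ (-(3 / 2) : ℝ)) =
        ENNReal.ofReal (8 * √h) * ENNReal.ofReal (‖1 - ⟪u, y⟫_ℂ‖ ^ (-(3 / 2) : ℝ)) := by
      intro u
      exact ENNReal.ofReal_mul (by positivity)
    simp only [h4]
    rw [lintegral_const_mul' _ _ ENNReal.ofReal_ne_top]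
    refine (mul_le_mul_right (hfar ν hν y hy (64 * h) (by positivity)) _).trans ?_
    rw [← ENNReal.ofReal_mul (by positivity)]
    refine ENNReal.ofReal_le_ofReal ?_
    have h5 : (64 * h) ^ (1 - 3 / 2 : ℝ) = (8 * √h)⁻¹ := by
      have h6 : (1 - 3 / 2 : ℝ) = -(1 / 2) := by norm_num
      rw [h6, Real.rpow_neg (by positivity), ← Real.sqrt_eq_rpow, Real.sqrt_mul (by norm_num)]
      congr 2
      rw [show (64 : ℝ) = 8 ^ 2 by norm_num, Real.sqrt_sq (by norm_num)]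
    rw [h5]
    have h7 : 0 < √h := Real.sqrt_pos.2 hh
    have h8 : 8 * √h * (C * (8 * √h)⁻¹) = C := by
      field_simp
    rw [h8]
    linarith

private theorem B1_split (hE : ∃ ζ : E, ‖ζ‖ = 1) {ν : Measure E} (hν : Car ν) {x y : E}
    (hx : x ∈ ball (0 : E) 1) (hy : y ∈ ball (0 : E) 1) (r : ℝ) :
    (Fc ν x).re - (Fc ν y).re =
      (∫ u in {u | ‖1 - ⟪u, y⟫_ℂ‖ < r}, ((1 - ⟪u, x⟫_ℂ)⁻¹).re ∂ν -
        ∫ u in {u | ‖1 - ⟪u, y⟫_ℂ‖ < r}, ((1 - ⟪u, y⟫_ℂ)⁻¹).re ∂ν) +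
      ∫ u in {u | r ≤ ‖1 - ⟪u, y⟫_ℂ‖}, (((1 - ⟪u, x⟫_ℂ)⁻¹).re - ((1 - ⟪u, y⟫_ℂ)⁻¹).re) ∂ν := by
  obtain ⟨hx1, -, hx3⟩ := fc_re hE hν hx
  obtain ⟨hy1, -, hy3⟩ := fc_re hE hν hy
  rw [hx1, hy1, ← integral_sub hx3 hy3, ← integral_sub hx3.integrableOn hy3.integrableOn,
    ← B1_compl]
  exact (integral_add_compl (B1_lt y r) (hx3.sub hy3)).symm

private theorem B1_nonneg {ν : Measure E} (hν : Car ν) {y : E} (hy : y ∈ ball (0 : E) 1)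
    (S : Set E) : 0 ≤ ∫ u in S, ((1 - ⟪u, y⟫_ℂ)⁻¹).re ∂ν := by
  refine integral_nonneg_of_ae ?_
  filter_upwards [ae_restrict_of_ae (B1_ae hν)] with u hu
  exact (a_re (mem_ball_zero_iff.1 hu).le (mem_ball_zero_iff.1 hy)).2

/-- The increments of the compensator, for arbitrary points. Proof. `D = D(x,y)`; `N = {u | D(u,y) < 64 D}`. Off `N`: `a_far` and `car_far` with `p = 3/2`, `R = 64 D`, at most a constant. On `N`: the real part of the term with `y` is nonnegative, and `D(u,x) ≤ 2 D(u,y) + 4 D ≤ 132 D` (`a_cmp`), so the term with `x` is at most `1/D(u,x)` on `{D(u,x) ≤ 132 D}`: `car_near` with `R = 132 D ≥ 1 - ‖x‖²`. -/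
theorem fc_up (hE : ∃ ζ : E, ‖ζ‖ = 1) : ∃ C : ℝ, 0 < C ∧ ∀ ν : Measure E, Car ν →
    ∀ x ∈ ball (0 : E) 1, ∀ y ∈ ball (0 : E) 1, (Fc ν x).re - (Fc ν y).re ≤
      C * (1 + Real.log (132 * ‖1 - ⟪x, y⟫_ℂ‖ / (1 - ‖x‖ ^ 2))) := by
  obtain ⟨C1, hC1, hfar⟩ := B1_far hE
  obtain ⟨C2, hC2, hnear⟩ := car_near hE
  refine ⟨C1 + C2, by positivity, fun ν hν x hx y hy => ?_⟩
  have hx' : ‖x‖ < 1 := mem_ball_zero_iff.1 hx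
  have hy' : ‖y‖ < 1 := mem_ball_zero_iff.1 hy
  obtain ⟨hD, hD2, -⟩ := a_pos' hx' hy'.le
  have hxx : 0 < 1 - ‖x‖ ^ 2 := by nlinarith [norm_nonneg x]
  have hlog : 0 ≤ Real.log (132 * ‖1 - ⟪x, y⟫_ℂ‖ / (1 - ‖x‖ ^ 2)) := by
    refine Real.log_nonneg ?_
    rw [le_div_iff₀ hxx]
    linarith
  have e1 := B1_split hE hν hx hy (64 * ‖1 - ⟪x, y⟫_ℂ‖)
  have e2 := (le_abs_self _).trans (hfar ν hν x hx y hy _ hD le_rfl)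
  have e3 := B1_nonneg hν hy {u | ‖1 - ⟪u, y⟫_ℂ‖ < 64 * ‖1 - ⟪x, y⟫_ℂ‖}
  have e4 : ‖∫ u in {u | ‖1 - ⟪u, y⟫_ℂ‖ < 64 * ‖1 - ⟪x, y⟫_ℂ‖}, ((1 - ⟪u, x⟫_ℂ)⁻¹).re ∂ν‖ ≤
      C2 * (1 + Real.log (132 * ‖1 - ⟪x, y⟫_ℂ‖ / (1 - ‖x‖ ^ 2))) := by
    refine B1_bd hν (B1_lt y _) (g := fun u => 1 / ‖1 - ⟪u, x⟫_ℂ‖) (by positivity)
      (fun u _ _ => ?_) ?_
    · rw [Real.norm_eq_abs, one_div, ← norm_inv]
      exact Complex.abs_re_le_norm _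
    · refine le_trans (lintegral_mono_set' ?_)
        (hnear ν hν x hx (132 * ‖1 - ⟪x, y⟫_ℂ‖) (by linarith))
      filter_upwards [B1_ae hν] with u hu hu2
      have hu3 : ‖1 - ⟪u, y⟫_ℂ‖ < 64 * ‖1 - ⟪x, y⟫_ℂ‖ := hu2
      have h1 := a_cmp (mem_ball_zero_iff.1 hu).le hy'.le hx'.le
      have h2 : ‖1 - ⟪y, x⟫_ℂ‖ = ‖1 - ⟪x, y⟫_ℂ‖ := by
        rw [← inner_conj_symm x y, ← Complex.norm_conj (1 - (starRingEnd ℂ) ⟪y, x⟫_ℂ)]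
        simp
      have h3 : ‖1 - ⟪u, x⟫_ℂ‖ ≤ 132 * ‖1 - ⟪x, y⟫_ℂ‖ := by
        rw [h2] at h1
        linarith
      exact h3
  have e5 := (le_abs_self _).trans e4
  have e6 : C1 + C2 * (1 + Real.log (132 * ‖1 - ⟪x, y⟫_ℂ‖ / (1 - ‖x‖ ^ 2))) ≤
      (C1 + C2) * (1 + Real.log (132 * ‖1 - ⟪x, y⟫_ℂ‖ / (1 - ‖x‖ ^ 2))) := by
    have h1 : 0 ≤ C1 * Real.log (132 * ‖1 - ⟪x, y⟫_ℂ‖ / (1 - ‖x‖ ^ 2)) :=
      mul_nonneg hC1.le hlog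
    linarith
  linarith

/-- `exp` of `fc_up`; `J` a natural number `≥ C`, `‖1 - ⟪x, y⟫‖/(1 - ‖x‖²) ≥ 1/2`. -/
theorem fc_exp (hE : ∃ ζ : E, ‖ζ‖ = 1) : ∃ (J : ℕ) (C : ℝ), 0 < C ∧ ∀ ν : Measure E, Car ν →
    ∀ x ∈ ball (0 : E) 1, ∀ y ∈ ball (0 : E) 1, Real.exp ((Fc ν x).re - (Fc ν y).re) ≤
      C * (‖1 - ⟪x, y⟫_ℂ‖ / (1 - ‖x‖ ^ 2)) ^ J := by
  obtain ⟨C0, hC0, hup⟩ := fc_up hE
  refine ⟨⌈C0⌉₊, Real.exp C0 * 132 ^ ⌈C0⌉₊, by positivity, fun ν hν x hx y hy => ?_⟩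
  have hx' : ‖x‖ < 1 := mem_ball_zero_iff.1 hx
  have hy' : ‖y‖ < 1 := mem_ball_zero_iff.1 hy
  obtain ⟨hD, hD2, -⟩ := a_pos' hx' hy'.le
  have hxx : 0 < 1 - ‖x‖ ^ 2 := by nlinarith [norm_nonneg x]
  have h1 := hup ν hν x hx y hy
  have hq : 1 ≤ 132 * ‖1 - ⟪x, y⟫_ℂ‖ / (1 - ‖x‖ ^ 2) := by
    rw [le_div_iff₀ hxx]
    linarith
  have hq0 : 0 < 132 * ‖1 - ⟪x, y⟫_ℂ‖ / (1 - ‖x‖ ^ 2) := by linarith
  have hlog : 0 ≤ Real.log (132 * ‖1 - ⟪x, y⟫_ℂ‖ / (1 - ‖x‖ ^ 2)) := Real.log_nonneg hq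
  have h2 : C0 * (1 + Real.log (132 * ‖1 - ⟪x, y⟫_ℂ‖ / (1 - ‖x‖ ^ 2))) ≤
      C0 + ⌈C0⌉₊ * Real.log (132 * ‖1 - ⟪x, y⟫_ℂ‖ / (1 - ‖x‖ ^ 2)) := by
    have h3 := mul_le_mul_of_nonneg_right (Nat.le_ceil C0) hlog
    linarith
  refine (Real.exp_le_exp.2 (h1.trans h2)).trans ?_
  rw [Real.exp_add, Real.exp_nat_mul, Real.exp_log hq0, mul_assoc, ← mul_pow, mul_div_assoc]

/-- Increments to points `z` below `w`: `D(w,z) ≤ h = 1 - ‖w‖²`. `N = {u | D(u,w) < 64 h}`. Off `N`: as in `fc_up` (`a_far` with `x = z`, `y = w`: `64 D(z,w) ≤ 64 h`), at most a constant. On `N` the term with `w` is at most `1/D(u,w) ≤ 2/h`, and `ν N ≤ 256 h`. -/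
theorem fc_down (hE : ∃ ζ : E, ‖ζ‖ = 1) : ∃ C : ℝ, 0 < C ∧ ∀ ν : Measure E, Car ν →
    ∀ z ∈ ball (0 : E) 1, ∀ w ∈ ball (0 : E) 1, ‖1 - ⟪z, w⟫_ℂ‖ ≤ 1 - ‖w‖ ^ 2 →
      ∫ u in {u | ‖1 - ⟪u, w⟫_ℂ‖ < 64 * (1 - ‖w‖ ^ 2)}, ((1 - ⟪u, z⟫_ℂ)⁻¹).re ∂ν ≤
        C + (Fc ν z).re - (Fc ν w).re := by
  obtain ⟨C1, hC1, hfar⟩ := B1_far hE
  refine ⟨C1 + 512, by positivity, fun ν hν z hz w hw hzw => ?_⟩
  have hz' : ‖z‖ < 1 := mem_ball_zero_iff.1 hz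
  have hw' : ‖w‖ < 1 := mem_ball_zero_iff.1 hw
  have hh : 0 < 1 - ‖w‖ ^ 2 := by nlinarith [norm_nonneg w]
  have e1 := B1_split hE hν hz hw (64 * (1 - ‖w‖ ^ 2))
  have e2 := (neg_le_abs _).trans (hfar ν hν z hz w hw _ hh hzw)
  have e4 : ‖∫ u in {u | ‖1 - ⟪u, w⟫_ℂ‖ < 64 * (1 - ‖w‖ ^ 2)}, ((1 - ⟪u, w⟫_ℂ)⁻¹).re ∂ν‖ ≤
      512 := by
    refine B1_bd hν (B1_lt w _) (g := fun _ => 2 / (1 - ‖w‖ ^ 2)) (by norm_num)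
      (fun u hu _ => ?_) ?_
    · obtain ⟨h1, h2, -⟩ := a_pos (mem_ball_zero_iff.1 hu).le hw'
      rw [Real.norm_eq_abs]
      refine (Complex.abs_re_le_norm _).trans ?_
      rw [norm_inv, inv_eq_one_div, div_le_div_iff₀ h1 hh]
      linarith
    · rw [setLIntegral_const]
      refine (mul_le_mul_right (car_ball hE hν hw (r := 64 * (1 - ‖w‖ ^ 2)) (by positivity))
        _).trans ?_
      rw [← ENNReal.ofReal_mul (by positivity)]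
      refine ENNReal.ofReal_le_ofReal (le_of_eq ?_)
      field_simp
      norm_num
  have e5 := (le_abs_self _).trans e4
  linarith

end Pool.Agent.MPca0fc2.CE
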