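import Mathlib
import Pool.Agent.Lib.MP_ca0fc2_an.CE.A1
import Pool.Agent.Lib.MP_ca0fc2_an.VK.D3
import Pool.Agent.Lib.MP_ca0fc2_an.TE.G1

set_option autoImplicit false
set_option linter.unusedSectionVars false

open Metric Set MeasureTheory Filter Topology
open scoped InnerProductSpace ENNReal ContDiff

namespace Pool.Agent.MPca0fc2.CE

open Pool.Agent.MPca0fc2.PT
open Pool.Agent.MPca0fc2.QT
open Pool.Agent.MPca0fc2.TS
open Pool.Agent.MPca0fc2.TE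
open Pool.Agent.MPca0fc2.TK
open Pool.Agent.MPca0fc2.VK

variable {E : Type*} [NormedAddCommGroup E] [InnerProductSpace ℂ E]

private theorem B2_in {P : E →L[ℂ] E} (h : Prj P) (z : E) (t τ : ℝ) :
    ⟪pt P τ z, pt P t z⟫_ℂ = ((‖P z‖ ^ 2 + t * τ * ‖z - P z‖ ^ 2 : ℝ) : ℂ) := by
  have horth : ⟪P z, z - P z⟫_ℂ = 0 := by
    rw [h.sa, map_sub, h.idem, sub_self, inner_zero_right]
  have horth' : ⟪z - P z, P z⟫_ℂ = 0 := by
    rw [← inner_conj_symm, horth, map_zero]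
  have e1 : ⟪P z, P z⟫_ℂ = ((‖P z‖ ^ 2 : ℝ) : ℂ) := by
    rw [Complex.ofReal_pow]
    exact inner_self_eq_norm_sq_to_K (P z)
  have e2 : ⟪z - P z, z - P z⟫_ℂ = ((‖z - P z‖ ^ 2 : ℝ) : ℂ) := by
    rw [Complex.ofReal_pow]
    exact inner_self_eq_norm_sq_to_K (z - P z)
  unfold pt
  rw [inner_add_left, inner_add_right, inner_add_right, inner_smul_left, inner_smul_left,
    inner_smul_right, inner_smul_right, horth, horth', e1, e2, Complex.conj_ofReal]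
  push_cast
  ring

private theorem B2_lt {P : E →L[ℂ] E} (h : Prj P) {z : E} (hz : ‖z‖ < 1) {t : ℝ}
    (ht : 0 ≤ t) (ht1 : t ≤ 1) : ‖pt P t z‖ < 1 := by
  have e1 := Dp_eq h t z
  obtain ⟨_, e2, e3, _⟩ := Dp_anti h hz ht ht1 le_rfl
  have e4 : ‖pt P t z‖ ^ 2 ≤ ‖z‖ ^ 2 := by linarith
  exact ((sq_le_sq₀ (norm_nonneg _) (norm_nonneg _)).1 e4).trans_lt hz

/-- `⟪pt P t z, pt P τ z⟫ = ‖P z‖² + t τ ‖z - P z‖²` (`P` is an orthogonal projection); see `VK.D4_in` (private, VK/D4.lean). -/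
theorem pt_below {P : E →L[ℂ] E} (h : Prj P) {z : E} (hz : ‖z‖ < 1) {t τ : ℝ} (ht : 0 ≤ t)
    (htτ : t ≤ τ) (hτ : τ ≤ 1) : ‖1 - ⟪pt P τ z, pt P t z⟫_ℂ‖ ≤ 1 - ‖pt P t z‖ ^ 2 ∧
      ‖pt P τ z‖ < 1 := by
  refine ⟨?_, B2_lt h hz (ht.trans htτ) hτ⟩
  have e : 1 - ⟪pt P τ z, pt P t z⟫_ℂ =
      ((1 - ‖P z‖ ^ 2 - t * τ * ‖z - P z‖ ^ 2 : ℝ) : ℂ) := by
    rw [B2_in h]
    push_cast
    ring
  have hp := pyth h z
  have hz2 : ‖z‖ ^ 2 < 1 := by nlinarith [norm_nonneg z]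
  have hq := sq_nonneg ‖z - P z‖
  have h1 : t * τ ≤ 1 := by nlinarith
  have h2 : t * τ * ‖z - P z‖ ^ 2 ≤ ‖z - P z‖ ^ 2 := by
    nlinarith [mul_le_mul_of_nonneg_right h1 hq]
  have h3 : t * t ≤ t * τ := mul_le_mul_of_nonneg_left htτ ht
  have h4 := mul_le_mul_of_nonneg_right h3 hq
  rw [e, Complex.norm_real, Real.norm_of_nonneg (by linarith), Dp_eq h]
  unfold Dp
  nlinarith

private theorem B2_den {r t : ℝ} (hr : 0 ≤ r) (hr1 : r < 1) (ht : 0 ≤ t) (ht1 : t ≤ 1) :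
    0 < 1 - t * r ∧ 1 - t * r ≤ 1 - t ^ 2 * r ^ 2 ∧ 0 < 1 - t ^ 2 * r ^ 2 := by
  have h1 : t * r ≤ r := mul_le_of_le_one_left hr ht1
  have h0 : 0 ≤ t * r := mul_nonneg ht hr
  have h2 : 0 < 1 - t * r := by linarith
  have h3 : 1 - t * r ≤ 1 - t ^ 2 * r ^ 2 := by nlinarith
  exact ⟨h2, h3, by linarith⟩

/-- One variable. With `x = A (1 - t² r²)/D` the first factor is `D⁻² x^s/(1 + x)^(2 + s)`, and `x^s/(1 + x)^(2 + s) ≤ min (x^s) (1/x)`: `VK.one_var2` (VK/D3.lean) with `κ = D/A`. -/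
theorem b_one {s : ℝ} (hs : 0 < s) (hs1 : s ≤ 1) : ∃ C : ℝ, 0 < C ∧ ∀ A D r : ℝ, 0 < A → 0 < D →
    0 ≤ r → r < 1 → ∫ t in Icc (0 : ℝ) 1, (A * (1 - t ^ 2 * r ^ 2)) ^ s /
      (A * (1 - t ^ 2 * r ^ 2) + D) ^ (2 + s) * (r / (1 - t ^ 2 * r ^ 2)) ≤ C / D ^ 2 := by
  obtain ⟨C, hC, hv⟩ := one_var2 hs hs1
  refine ⟨C, hC, ?_⟩
  intro A D r hA hD hr hr1
  have hden : ∀ t ∈ Icc (0 : ℝ) 1, 0 < 1 - t ^ 2 * r ^ 2 := fun t ht =>
    (B2_den hr hr1 ht.1 ht.2).2.2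
  have key := hv (D / A) r (div_pos hD hA) hr hr1
    (fun t => D ^ 2 * ((A * (1 - t ^ 2 * r ^ 2)) ^ s / (A * (1 - t ^ 2 * r ^ 2) + D) ^ (2 + s)))
    ?_ ?_ ?_
  · have e : ∀ t : ℝ, D ^ 2 * ((A * (1 - t ^ 2 * r ^ 2)) ^ s /
        (A * (1 - t ^ 2 * r ^ 2) + D) ^ (2 + s)) * (r / (1 - t ^ 2 * r ^ 2)) =
        D ^ 2 * ((A * (1 - t ^ 2 * r ^ 2)) ^ s /
        (A * (1 - t ^ 2 * r ^ 2) + D) ^ (2 + s) * (r / (1 - t ^ 2 * r ^ 2))) := fun t => by ring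
    simp only [e] at key
    rw [integral_const_mul] at key
    rw [le_div_iff₀ (by positivity), mul_comm]
    exact key
  · have hc1 : ContinuousOn (fun t : ℝ => A * (1 - t ^ 2 * r ^ 2)) (Icc 0 1) := by fun_prop
    refine continuousOn_const.mul (ContinuousOn.div ?_ ?_ ?_)
    · exact hc1.rpow_const (fun t ht => Or.inl (mul_pos hA (hden t ht)).ne')
    · refine (hc1.add continuousOn_const).rpow_const (fun t ht => Or.inl ?_)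
      exact (add_pos (mul_pos hA (hden t ht)) hD).ne'
    · intro t ht
      exact (Real.rpow_pos_of_pos (add_pos (mul_pos hA (hden t ht)) hD) _).ne'
  · intro t ht
    have hx := mul_pos hA (hden t ht)
    have hd := hden t ht
    set x : ℝ := A * (1 - t ^ 2 * r ^ 2) with hxdef
    have e1 : D / A / (1 - t ^ 2 * r ^ 2) = D / x := by rw [div_div]
    rw [e1, ← mul_div_assoc, div_le_div_iff₀ (Real.rpow_pos_of_pos (by positivity) _) hx]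
    have e2 : (x + D) ^ (2 + s) = (x + D) * (x + D) ^ (1 + s) := by
      rw [show 2 + s = 1 + (1 + s) by ring, Real.rpow_add (by positivity), Real.rpow_one]
    have e3 : x ^ (1 + s) = x * x ^ s := by
      rw [Real.rpow_add hx, Real.rpow_one]
    have e4 : x ^ (1 + s) ≤ (x + D) ^ (1 + s) :=
      Real.rpow_le_rpow hx.le (by linarith) (by linarith)
    rw [e2]
    have e5 : 0 < (x + D) ^ (1 + s) := Real.rpow_pos_of_pos (by positivity) _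
    have e6 : D * x ^ (1 + s) ≤ (x + D) * (x + D) ^ (1 + s) :=
      mul_le_mul (by linarith) e4 (Real.rpow_nonneg hx.le _) (by positivity)
    calc D ^ 2 * x ^ s * x = D * (D * x ^ (1 + s)) := by rw [e3]; ring
      _ ≤ D * ((x + D) * (x + D) ^ (1 + s)) := mul_le_mul_of_nonneg_left e6 hD.le
  · intro t ht
    have hx := mul_pos hA (hden t ht)
    have hd := hden t ht
    set x : ℝ := A * (1 - t ^ 2 * r ^ 2) with hxdef
    have e1 : (1 - t ^ 2 * r ^ 2) / (D / A) = x / D := by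
      rw [hxdef]; field_simp
    rw [e1, Real.div_rpow hx.le hD.le, ← mul_div_assoc,
      div_le_div_iff₀ (Real.rpow_pos_of_pos (by positivity) _) (Real.rpow_pos_of_pos hD _)]
    have e2 : D ^ (2 + s) = D ^ 2 * D ^ s := by
      rw [Real.rpow_add hD]; norm_num
    have e4 : D ^ (2 + s) ≤ (x + D) ^ (2 + s) :=
      Real.rpow_le_rpow hD.le (by linarith) (by linarith)
    calc D ^ 2 * x ^ s * D ^ s = x ^ s * D ^ (2 + s) := by rw [e2]; ring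
      _ ≤ x ^ s * (x + D) ^ (2 + s) := mul_le_mul_of_nonneg_left e4 (Real.rpow_nonneg hx.le _)

private theorem B2_kc {s : ℝ} {u x : E} (hx : ‖x‖ < 1) (hD : 0 < ‖1 - ⟪u, x⟫_ℂ‖) :
    kc s 1 u x = (1 - ‖x‖ ^ 2) ^ s * (1 - ‖u‖ ^ 2) / ‖1 - ⟪u, x⟫_ℂ‖ ^ (2 + s) := by
  have h1 : 0 ≤ 1 - ‖x‖ ^ 2 := by nlinarith [norm_nonneg x]
  unfold kc
  rw [Real.div_rpow h1 hD.le, pow_one, Real.rpow_add hD]
  have h2 : ‖1 - ⟪u, x⟫_ℂ‖ ^ (2 : ℝ) = ‖1 - ⟪u, x⟫_ℂ‖ ^ 2 := by norm_num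
  rw [h2]
  have h3 : 0 < ‖1 - ⟪u, x⟫_ℂ‖ ^ s := Real.rpow_pos_of_pos hD _
  field_simp

private theorem B2_ptc (P : E →L[ℂ] E) (z : E) : Continuous (fun t : ℝ => pt P t z) := by
  unfold pt
  fun_prop

private theorem B2_cont {s : ℝ} {P : E →L[ℂ] E} (h : Prj P) {z u : E}
    (hz : ‖z‖ < 1) (hu : ‖u‖ < 1) : ContinuousOn (fun t : ℝ => kc s 1 u (pt P t z) *
      (rr P z / (1 - t ^ 2 * rr P z ^ 2))) (Icc 0 1) := by
  obtain ⟨hr0, hr1, -, -, -⟩ := rr_facts h hz 0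
  have hpt := B2_ptc P z
  have hcn : Continuous (fun t : ℝ => 1 - ‖pt P t z‖ ^ 2) := by fun_prop
  have hcD : Continuous (fun t : ℝ => ‖1 - ⟪u, pt P t z⟫_ℂ‖) :=
    (continuous_const.sub (continuous_const.inner hpt)).norm
  have hD : ∀ t ∈ Icc (0 : ℝ) 1, 0 < ‖1 - ⟪u, pt P t z⟫_ℂ‖ := fun t ht =>
    (a_pos hu.le (B2_lt h hz ht.1 ht.2)).1
  have hn : ∀ t ∈ Icc (0 : ℝ) 1, 0 < 1 - ‖pt P t z‖ ^ 2 := fun t ht => by
    nlinarith [norm_nonneg (pt P t z), B2_lt h hz ht.1 ht.2]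
  refine ContinuousOn.mul ?_ ?_
  · unfold kc
    refine ContinuousOn.div (ContinuousOn.mul ?_ ?_) hcD.continuousOn (fun t ht => (hD t ht).ne')
    · refine (hcn.continuousOn.div hcD.continuousOn (fun t ht => (hD t ht).ne')).rpow_const ?_
      intro t ht
      exact Or.inl (div_pos (hn t ht) (hD t ht)).ne'
    · exact (continuousOn_const.div hcD.continuousOn (fun t ht => (hD t ht).ne')).pow 1
  · refine ContinuousOn.div continuousOn_const (by fun_prop) ?_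
    intro t ht
    exact (B2_den hr0 hr1 ht.1 ht.2).2.2.ne'

/-- For `h = 1 - ‖pt P t z‖² = A (1 - t² r²)`, `A = 1 - ‖P z‖²` (`Dp_eq`, `rr_facts`), `D = D(u,z)`, `x = pt P t z`: `D(u,x) ≥ h/2` and `D ≤ 2 D(u,x) + 4 D(x,z) ≤ 2 D(u,x) + 4 h ≤ 10 D(u,x)` (`a_cmp`, `pt_below`), so `D(u,x) ≥ (h + D)/20` and `kc s 1 u x = h^s (1 - ‖u‖²)/D(u,x)^(2+s) ≤ 20^3 (1 - ‖u‖²) h^s/(h + D)^(2+s)`; `b_one`. -/
theorem b_near {s : ℝ} (hs : 0 < s) (hs1 : s ≤ 1) : ∃ C : ℝ, 0 < C ∧ ∀ P : E →L[ℂ] E, Prj P →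
    ∀ z ∈ ball (0 : E) 1, ∀ u ∈ ball (0 : E) 1,
      ∫ t in Icc (0 : ℝ) 1, kc s 1 u (pt P t z) * (rr P z / (1 - t ^ 2 * rr P z ^ 2)) ≤
        C * ((1 - ‖u‖ ^ 2) / ‖1 - ⟪u, z⟫_ℂ‖ ^ 2) := by
  obtain ⟨C, hC, hb⟩ := b_one hs hs1
  refine ⟨20 ^ 3 * C, by positivity, ?_⟩
  intro P h z hz u hu
  rw [mem_ball_zero_iff] at hz hu
  obtain ⟨hr0, hr1, hA, -, -⟩ := rr_facts h hz 0
  set A : ℝ := 1 - ‖P z‖ ^ 2 with hAdef
  set r : ℝ := rr P z with hrdef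
  obtain ⟨hD, -, -⟩ := a_pos hu.le hz
  set D : ℝ := ‖1 - ⟪u, z⟫_ℂ‖ with hDdef
  have hu2 : 0 < 1 - ‖u‖ ^ 2 := by nlinarith [norm_nonneg u]
  have hh : ∀ t : ℝ, 1 - ‖pt P t z‖ ^ 2 = A * (1 - t ^ 2 * r ^ 2) := fun t => by
    obtain ⟨-, -, -, -, e⟩ := rr_facts h hz t
    rw [Dp_eq h, e]
  have hpt : ∀ t ∈ Icc (0 : ℝ) 1, kc s 1 u (pt P t z) * (r / (1 - t ^ 2 * r ^ 2)) ≤
      (20 ^ 3 * (1 - ‖u‖ ^ 2)) * ((A * (1 - t ^ 2 * r ^ 2)) ^ s /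
        (A * (1 - t ^ 2 * r ^ 2) + D) ^ (2 + s) * (r / (1 - t ^ 2 * r ^ 2))) := by
    intro t ht
    have hd := (B2_den hr0 hr1 ht.1 ht.2).2.2
    have hx := B2_lt h hz ht.1 ht.2
    obtain ⟨hDx, hDx2, -⟩ := a_pos hu.le hx
    obtain ⟨h1, -⟩ := pt_below h hz ht.1 ht.2 le_rfl
    rw [pt_one] at h1
    have h2 : ‖1 - ⟪pt P t z, z⟫_ℂ‖ ≤ 1 - ‖pt P t z‖ ^ 2 := by
      refine le_trans (le_of_eq ?_) h1
      rw [← Complex.norm_conj (1 - ⟪z, pt P t z⟫_ℂ)]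
      simp
    have h3 := a_cmp (u := u) (x := pt P t z) (y := z) hu.le hx.le hz.le
    rw [B2_kc hx hDx, hh t]
    rw [hh t] at hDx2 h2
    have hX : 0 < A * (1 - t ^ 2 * r ^ 2) := mul_pos hA hd
    set X : ℝ := A * (1 - t ^ 2 * r ^ 2) with hXdef
    set Dx : ℝ := ‖1 - ⟪u, pt P t z⟫_ℂ‖ with hDxdef
    have h4 : X + D ≤ 20 * Dx := by linarith
    have h5 : (X + D) ^ (2 + s) ≤ 20 ^ 3 * Dx ^ (2 + s) := by
      calc (X + D) ^ (2 + s) ≤ (20 * Dx) ^ (2 + s) :=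
            Real.rpow_le_rpow (by positivity) h4 (by linarith)
        _ = 20 ^ (2 + s) * Dx ^ (2 + s) := Real.mul_rpow (by norm_num) hDx.le
        _ ≤ 20 ^ 3 * Dx ^ (2 + s) := by
            refine mul_le_mul_of_nonneg_right ?_ (Real.rpow_nonneg hDx.le _)
            calc (20 : ℝ) ^ (2 + s) ≤ 20 ^ (3 : ℝ) :=
                  Real.rpow_le_rpow_of_exponent_le (by norm_num) (by linarith)
              _ = 20 ^ 3 := by norm_num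
    have h6 : X ^ s * (1 - ‖u‖ ^ 2) / Dx ^ (2 + s) ≤
        20 ^ 3 * (1 - ‖u‖ ^ 2) * (X ^ s / (X + D) ^ (2 + s)) := by
      rw [← mul_div_assoc, div_le_div_iff₀ (Real.rpow_pos_of_pos hDx _)
        (Real.rpow_pos_of_pos (by positivity) _)]
      have h7 : 0 ≤ X ^ s * (1 - ‖u‖ ^ 2) := mul_nonneg (Real.rpow_nonneg hX.le _) hu2.le
      calc X ^ s * (1 - ‖u‖ ^ 2) * (X + D) ^ (2 + s)
          ≤ X ^ s * (1 - ‖u‖ ^ 2) * (20 ^ 3 * Dx ^ (2 + s)) := mul_le_mul_of_nonneg_left h5 h7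
        _ = 20 ^ 3 * (1 - ‖u‖ ^ 2) * X ^ s * Dx ^ (2 + s) := by ring
    calc X ^ s * (1 - ‖u‖ ^ 2) / Dx ^ (2 + s) * (r / (1 - t ^ 2 * r ^ 2))
        ≤ 20 ^ 3 * (1 - ‖u‖ ^ 2) * (X ^ s / (X + D) ^ (2 + s)) * (r / (1 - t ^ 2 * r ^ 2)) :=
          mul_le_mul_of_nonneg_right h6 (div_nonneg hr0 hd.le)
      _ = _ := by ring
  have hden : ∀ t ∈ Icc (0 : ℝ) 1, 0 < 1 - t ^ 2 * r ^ 2 := fun t ht =>
    (B2_den hr0 hr1 ht.1 ht.2).2.2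
  have hc2 : ContinuousOn (fun t : ℝ => (20 ^ 3 * (1 - ‖u‖ ^ 2)) * ((A * (1 - t ^ 2 * r ^ 2)) ^ s /
        (A * (1 - t ^ 2 * r ^ 2) + D) ^ (2 + s) * (r / (1 - t ^ 2 * r ^ 2)))) (Icc 0 1) := by
    have hc1 : ContinuousOn (fun t : ℝ => A * (1 - t ^ 2 * r ^ 2)) (Icc 0 1) := by fun_prop
    refine continuousOn_const.mul ((ContinuousOn.div ?_ ?_ ?_).mul ?_)
    · exact hc1.rpow_const (fun t ht => Or.inl (mul_pos hA (hden t ht)).ne')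
    · refine (hc1.add continuousOn_const).rpow_const (fun t ht => Or.inl ?_)
      exact (add_pos (mul_pos hA (hden t ht)) hD).ne'
    · intro t ht
      exact (Real.rpow_pos_of_pos (add_pos (mul_pos hA (hden t ht)) hD) _).ne'
    · refine ContinuousOn.div continuousOn_const (by fun_prop) ?_
      intro t ht
      exact (hden t ht).ne'
  have hc1 := B2_cont (s := s) h hz hu
  have h8 := setIntegral_mono_on (μ := volume) hc1.integrableOn_Icc hc2.integrableOn_Icc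
    measurableSet_Icc hpt
  refine h8.trans ?_
  rw [integral_const_mul]
  have h9 := hb A D r hA hD hr0 hr1
  calc 20 ^ 3 * (1 - ‖u‖ ^ 2) * _ ≤ 20 ^ 3 * (1 - ‖u‖ ^ 2) * (C / D ^ 2) :=
        mul_le_mul_of_nonneg_left h9 (by positivity)
    _ = 20 ^ 3 * C * ((1 - ‖u‖ ^ 2) / D ^ 2) := by ring

/-- the fundamental theorem of calculus for `(1 - t r)^(s-1) r` -/
private theorem B2_ftc {s r t₀ : ℝ} (hs : 0 < s) (hr : 0 ≤ r) (hr1 : r < 1) (h0 : 0 ≤ t₀)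
    (h1 : t₀ ≤ 1) : IntegrableOn (fun t : ℝ => (1 - t * r) ^ (s - 1) * r) (Icc t₀ 1) ∧
      ∫ t in Icc t₀ 1, (1 - t * r) ^ (s - 1) * r ≤ (1 - t₀ * r) ^ s / s := by
  have hpos : ∀ t ∈ Icc t₀ 1, 0 < 1 - t * r := fun t ht => (B2_den hr hr1 (h0.trans ht.1) ht.2).1
  have hc : ContinuousOn (fun t : ℝ => (1 - t * r) ^ (s - 1) * r) (Icc t₀ 1) := by
    refine ContinuousOn.mul (ContinuousOn.rpow_const (by fun_prop) ?_) continuousOn_const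
    intro t ht
    exact Or.inl (hpos t ht).ne'
  refine ⟨hc.integrableOn_Icc, ?_⟩
  have hder : ∀ t ∈ uIcc t₀ 1, HasDerivAt (fun t : ℝ => -((1 - t * r) ^ s / s))
      ((1 - t * r) ^ (s - 1) * r) t := by
    intro t ht
    rw [uIcc_of_le h1] at ht
    have hp := hpos t ht
    have d1 : HasDerivAt (fun t : ℝ => 1 - t * r) (-r) t := by
      have h := ((hasDerivAt_id t).mul_const r).const_sub 1
      simpa using h
    have d2 := (d1.rpow_const (p := s) (Or.inl hp.ne')).div_const s |>.neg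
    refine d2.congr_deriv ?_
    field_simp
  have hint : IntervalIntegrable (fun t : ℝ => (1 - t * r) ^ (s - 1) * r) volume t₀ 1 := by
    refine ContinuousOn.intervalIntegrable ?_
    rw [uIcc_of_le h1]
    exact hc
  have e := intervalIntegral.integral_eq_sub_of_hasDerivAt hder hint
  rw [integral_Icc_eq_integral_Ioc, ← intervalIntegral.integral_of_le h1, e]
  have h2 : 0 ≤ (1 - 1 * r) ^ s / s := div_nonneg (Real.rpow_nonneg (by linarith) _) hs.le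
  linarith

/-- For `t ≥ t₀`, `w = pt P t₀ z`, `h₀ = 1 - ‖w‖²`, `x = pt P t z`: `D(x,w) ≤ h₀` (`pt_below`), so `D(u,w) ≤ 2 D(u,x)` (`a_far`), `1 - ‖u‖² ≤ 2 D(u,x)` and `kc s 1 u x ≤ 2 h^s D(u,x)^(-(1+s)) ≤ 8 h^s D(u,w)^(-(1+s))`. `∫_{t₀}^1 h^s r/(1 - t² r²) = A^s ∫ (1 - t² r²)^(s-1) r ≤ A^s ∫ (1 - t r)^(s-1) r ≤ A^s (1 - t₀ r)^s/s ≤ h₀^s/s`. -/
theorem b_far {s : ℝ} (hs : 0 < s) (hs1 : s ≤ 1) : ∃ C : ℝ, 0 < C ∧ ∀ P : E →L[ℂ] E, Prj P →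
    ∀ z ∈ ball (0 : E) 1, ∀ u ∈ ball (0 : E) 1, ∀ t₀ ∈ Icc (0 : ℝ) 1,
      64 * (1 - ‖pt P t₀ z‖ ^ 2) ≤ ‖1 - ⟪u, pt P t₀ z⟫_ℂ‖ →
      ∫ t in Icc t₀ 1, kc s 1 u (pt P t z) * (rr P z / (1 - t ^ 2 * rr P z ^ 2)) ≤
        C * (1 - ‖pt P t₀ z‖ ^ 2) ^ s * ‖1 - ⟪u, pt P t₀ z⟫_ℂ‖ ^ (-(1 + s)) := by
  refine ⟨8 / s, by positivity, ?_⟩
  intro P h z hz u hu t₀ ht₀ hfar
  rw [mem_ball_zero_iff] at hz hu
  obtain ⟨hr0, hr1, hA, -, -⟩ := rr_facts h hz 0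
  set A : ℝ := 1 - ‖P z‖ ^ 2 with hAdef
  set r : ℝ := rr P z with hrdef
  have hw := B2_lt h hz ht₀.1 ht₀.2
  obtain ⟨hDw, -, -⟩ := a_pos hu.le hw
  set Dw : ℝ := ‖1 - ⟪u, pt P t₀ z⟫_ℂ‖ with hDwdef
  have hu2 : 0 < 1 - ‖u‖ ^ 2 := by nlinarith [norm_nonneg u]
  have hh : ∀ t : ℝ, 1 - ‖pt P t z‖ ^ 2 = A * (1 - t ^ 2 * r ^ 2) := fun t => by
    obtain ⟨-, -, -, -, e⟩ := rr_facts h hz t
    rw [Dp_eq h, e]
  obtain ⟨hI, hF⟩ := B2_ftc hs hr0 hr1 ht₀.1 ht₀.2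
  have hpt : ∀ t ∈ Icc t₀ 1, kc s 1 u (pt P t z) * (r / (1 - t ^ 2 * r ^ 2)) ≤
      (8 * Dw ^ (-(1 + s)) * A ^ s) * ((1 - t * r) ^ (s - 1) * r) := by
    intro t ht
    have ht0 : 0 ≤ t := ht₀.1.trans ht.1
    obtain ⟨hd1, hd2, hd⟩ := B2_den hr0 hr1 ht0 ht.2
    have hx := B2_lt h hz ht0 ht.2
    obtain ⟨hDx, -, -⟩ := a_pos hu.le hx
    obtain ⟨-, hux, -⟩ := a_pos' hu hx.le
    obtain ⟨h1, -⟩ := pt_below h hz ht₀.1 ht.1 ht.2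
    obtain ⟨h2, -⟩ := a_far (u := u) (x := pt P t z) (y := pt P t₀ z) hu.le hx.le hw
      (le_trans (by linarith) hfar)
    rw [B2_kc hx hDx, hh t]
    set Dx : ℝ := ‖1 - ⟪u, pt P t z⟫_ℂ‖ with hDxdef
    have hX : 0 < A * (1 - t ^ 2 * r ^ 2) := mul_pos hA hd
    have e1 : Dx ^ (2 + s) = Dx * Dx ^ (1 + s) := by
      rw [show 2 + s = 1 + (1 + s) by ring, Real.rpow_add hDx, Real.rpow_one]
    have e2 : Dw ^ (1 + s) ≤ 4 * Dx ^ (1 + s) := by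
      calc Dw ^ (1 + s) ≤ (2 * Dx) ^ (1 + s) := Real.rpow_le_rpow hDw.le h2 (by linarith)
        _ = 2 ^ (1 + s) * Dx ^ (1 + s) := Real.mul_rpow (by norm_num) hDx.le
        _ ≤ 4 * Dx ^ (1 + s) := by
            refine mul_le_mul_of_nonneg_right ?_ (Real.rpow_nonneg hDx.le _)
            calc (2 : ℝ) ^ (1 + s) ≤ 2 ^ (2 : ℝ) :=
                  Real.rpow_le_rpow_of_exponent_le (by norm_num) (by linarith)
              _ = 4 := by norm_num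
    have e3 : (1 - ‖u‖ ^ 2) / Dx ^ (2 + s) ≤ 8 * Dw ^ (-(1 + s)) := by
      rw [Real.rpow_neg hDw.le, ← div_eq_mul_inv, e1, div_le_div_iff₀
        (mul_pos hDx (Real.rpow_pos_of_pos hDx _)) (Real.rpow_pos_of_pos hDw _)]
      have hw2 := Real.rpow_pos_of_pos hDw (1 + s)
      calc (1 - ‖u‖ ^ 2) * Dw ^ (1 + s) ≤ (2 * Dx) * (4 * Dx ^ (1 + s)) :=
            mul_le_mul hux e2 hw2.le (by positivity)
        _ = 8 * (Dx * Dx ^ (1 + s)) := by ring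
    have e4 : (A * (1 - t ^ 2 * r ^ 2)) ^ s * (r / (1 - t ^ 2 * r ^ 2)) ≤
        A ^ s * ((1 - t * r) ^ (s - 1) * r) := by
      rw [Real.mul_rpow hA.le hd.le]
      have e5 : (1 - t ^ 2 * r ^ 2) ^ s * (r / (1 - t ^ 2 * r ^ 2)) =
          (1 - t ^ 2 * r ^ 2) ^ (s - 1) * r := by
        rw [Real.rpow_sub_one hd.ne']
        field_simp
      have e6 : (1 - t ^ 2 * r ^ 2) ^ (s - 1) ≤ (1 - t * r) ^ (s - 1) :=
        Real.rpow_le_rpow_of_nonpos hd1 hd2 (by linarith)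
      rw [mul_assoc, e5]
      exact mul_le_mul_of_nonneg_left (mul_le_mul_of_nonneg_right e6 hr0)
        (Real.rpow_nonneg hA.le _)
    have hXs : 0 ≤ (A * (1 - t ^ 2 * r ^ 2)) ^ s * (r / (1 - t ^ 2 * r ^ 2)) :=
      mul_nonneg (Real.rpow_nonneg hX.le _) (div_nonneg hr0 hd.le)
    have hW : 0 ≤ 8 * Dw ^ (-(1 + s)) := by positivity
    calc (A * (1 - t ^ 2 * r ^ 2)) ^ s * (1 - ‖u‖ ^ 2) / Dx ^ (2 + s) *
          (r / (1 - t ^ 2 * r ^ 2))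
        = (1 - ‖u‖ ^ 2) / Dx ^ (2 + s) *
          ((A * (1 - t ^ 2 * r ^ 2)) ^ s * (r / (1 - t ^ 2 * r ^ 2))) := by ring
      _ ≤ 8 * Dw ^ (-(1 + s)) *
          ((A * (1 - t ^ 2 * r ^ 2)) ^ s * (r / (1 - t ^ 2 * r ^ 2))) :=
          mul_le_mul_of_nonneg_right e3 hXs
      _ ≤ 8 * Dw ^ (-(1 + s)) * (A ^ s * ((1 - t * r) ^ (s - 1) * r)) :=
          mul_le_mul_of_nonneg_left e4 hW
      _ = _ := by ring
  have hc1 : ContinuousOn (fun t : ℝ => kc s 1 u (pt P t z) * (r / (1 - t ^ 2 * r ^ 2)))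
      (Icc t₀ 1) := (B2_cont (s := s) h hz hu).mono (Icc_subset_Icc_left ht₀.1)
  have h8 := setIntegral_mono_on hc1.integrableOn_Icc (hI.const_mul _) measurableSet_Icc hpt
  refine h8.trans ?_
  rw [integral_const_mul]
  obtain ⟨hd1, hd2, hd⟩ := B2_den hr0 hr1 ht₀.1 ht₀.2
  have h9 : A ^ s * (1 - t₀ * r) ^ s ≤ (1 - ‖pt P t₀ z‖ ^ 2) ^ s := by
    rw [hh t₀, ← Real.mul_rpow hA.le hd1.le]
    exact Real.rpow_le_rpow (mul_nonneg hA.le hd1.le) (mul_le_mul_of_nonneg_left hd2 hA.le) hs.le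
  have hW : 0 ≤ 8 * Dw ^ (-(1 + s)) := by positivity
  have hAs : 0 ≤ A ^ s := Real.rpow_nonneg hA.le _
  calc 8 * Dw ^ (-(1 + s)) * A ^ s * ∫ t in Icc t₀ 1, (1 - t * r) ^ (s - 1) * r
      ≤ 8 * Dw ^ (-(1 + s)) * A ^ s * ((1 - t₀ * r) ^ s / s) :=
        mul_le_mul_of_nonneg_left hF (mul_nonneg hW hAs)
    _ = 8 * Dw ^ (-(1 + s)) / s * (A ^ s * (1 - t₀ * r) ^ s) := by ring
    _ ≤ 8 * Dw ^ (-(1 + s)) / s * (1 - ‖pt P t₀ z‖ ^ 2) ^ s :=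
        mul_le_mul_of_nonneg_left h9 (div_nonneg hW hs.le)
    _ = _ := by ring

end Pool.Agent.MPca0fc2.CE
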