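import Mathlib
import Pool.Agent.Lib.MP_ca0fc2_an.CE.A3

set_option autoImplicit false
set_option linter.unusedSectionVars false

open Metric Set MeasureTheory Filter Topology
open scoped InnerProductSpace ENNReal ContDiff

namespace Pool.Agent.MPca0fc2.CE

open Pool.Agent.MPca0fc2.PT
open Pool.Agent.MPca0fc2.QT
open Pool.Agent.MPca0fc2.TS
open Pool.Agent.MPca0fc2.TE
open Pool.Agent.MPca0fc2.TK
open Pool.Agent.MPca0fc2.VK

variable {E : Type*} [NormedAddCommGroup E] [InnerProductSpace ℂ E] [FiniteDimensional ℂ E]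
  [MeasurableSpace E] [BorelSpace E]

private theorem C1_ae {ν : Measure E} (hν : Car ν) : ∀ᵐ u ∂ν, u ∈ ball (0 : E) 1 := by
  rw [ae_iff]
  exact hν.sub

/-- `kc s t u x/kc s t u y = ((1 - ‖x‖²)/(1 - ‖y‖²))^s (D(u,y)/D(u,x))^(s+t+1)`; `1 - ‖x‖² ≤ 2 D`, `D = D(x,y)`; `D(u,y)/D(u,x) ≤ 2 + 4 D/D(u,x) ≤ 2 + 8 D/(1 - ‖x‖²) ≤ 12 D/(1 - ‖x‖²)` (`a_cmp`, `a_pos`), and `12 D/(1 - ‖x‖²) ≥ 6`, `s + t + 1 ≤ t + 2`. -/
theorem kc_osc {s : ℝ} (hs : 0 < s) (hs1 : s ≤ 1) (t : ℕ) : ∃ C : ℝ, 0 < C ∧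
    ∀ u ∈ ball (0 : E) 1, ∀ x ∈ ball (0 : E) 1, ∀ y ∈ ball (0 : E) 1,
      kc s t u x ≤ C * kc s t u y * ((‖1 - ⟪x, y⟫_ℂ‖ / (1 - ‖x‖ ^ 2)) ^ (t + 2) *
        (‖1 - ⟪x, y⟫_ℂ‖ / (1 - ‖y‖ ^ 2)) ^ s) := by
  refine ⟨2 * 12 ^ (t + 2), by positivity, ?_⟩
  intro u hu x hx y hy
  have hu1 : ‖u‖ < 1 := by simpa using hu
  have hx1 : ‖x‖ < 1 := by simpa using hx
  have hy1 : ‖y‖ < 1 := by simpa using hy
  obtain ⟨hDx0, hDx1, -⟩ := a_pos hu1.le hx1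
  obtain ⟨hDy0, -, -⟩ := a_pos hu1.le hy1
  obtain ⟨hD0, -, -⟩ := a_pos hx1.le hy1
  obtain ⟨-, hD1, -⟩ := a_pos' hx1 hy1.le
  have hcmp := a_cmp hu1.le hx1.le hy1.le
  have hpx : 0 < 1 - ‖x‖ ^ 2 := by nlinarith [norm_nonneg x]
  have hpy : 0 < 1 - ‖y‖ ^ 2 := by nlinarith [norm_nonneg y]
  have hpu : 0 < 1 - ‖u‖ ^ 2 := by nlinarith [norm_nonneg u]
  unfold kc
  set Dx := ‖1 - ⟪u, x⟫_ℂ‖ with hDx
  set Dy := ‖1 - ⟪u, y⟫_ℂ‖ with hDy
  set D := ‖1 - ⟪x, y⟫_ℂ‖ with hD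
  set px := 1 - ‖x‖ ^ 2 with hpxd
  set py := 1 - ‖y‖ ^ 2 with hpyd
  set pu := 1 - ‖u‖ ^ 2 with hpud
  have hq1 : (1 : ℝ) ≤ 12 * (D / px) := by
    rw [← mul_div_assoc, le_div_iff₀ hpx]; nlinarith
  have hq0 : 0 < D / px := by positivity
  have hrho : Dy / Dx ≤ 12 * (D / px) := by
    rw [← mul_div_assoc, div_le_div_iff₀ hDx0 hpx]
    nlinarith [mul_le_mul_of_nonneg_right hcmp hpx.le, mul_le_mul_of_nonneg_left hDx1 hD0.le,
      mul_le_mul_of_nonneg_left hD1 hDx0.le]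
  have hrho0 : 0 < Dy / Dx := by positivity
  have e1 : (px / Dx) ^ s = (py / Dy) ^ s * (D / py) ^ s * ((px / D) ^ s * (Dy / Dx) ^ s) := by
    rw [← Real.mul_rpow (by positivity) (by positivity),
      ← Real.mul_rpow (by positivity) (by positivity),
      ← Real.mul_rpow (by positivity) (by positivity)]
    congr 1
    field_simp
  have e2 : (pu / Dx) ^ t / Dx = (pu / Dy) ^ t / Dy * (Dy / Dx) ^ (t + 1) := by
    have : pu / Dx = pu / Dy * (Dy / Dx) := by field_simp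
    rw [this, mul_pow, pow_succ]
    field_simp
  have b1 : (px / D) ^ s ≤ 2 := by
    have h2 : px / D ≤ 2 := by rw [div_le_iff₀ hD0]; linarith
    calc (px / D) ^ s ≤ (2 : ℝ) ^ s := Real.rpow_le_rpow (by positivity) h2 hs.le
      _ ≤ (2 : ℝ) ^ (1 : ℝ) := Real.rpow_le_rpow_of_exponent_le (by norm_num) hs1
      _ = 2 := by simp
  have b2 : (Dy / Dx) ^ s ≤ 12 * (D / px) := by
    calc (Dy / Dx) ^ s ≤ (12 * (D / px)) ^ s := Real.rpow_le_rpow hrho0.le hrho hs.le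
      _ ≤ (12 * (D / px)) ^ (1 : ℝ) := Real.rpow_le_rpow_of_exponent_le hq1 hs1
      _ = 12 * (D / px) := by simp
  have b3 : (Dy / Dx) ^ (t + 1) ≤ (12 * (D / px)) ^ (t + 1) :=
    pow_le_pow_left₀ hrho0.le hrho _
  have e3 : (px / Dx) ^ s * (pu / Dx) ^ t / Dx =
      ((py / Dy) ^ s * (pu / Dy) ^ t / Dy) * (D / py) ^ s *
        (((px / D) ^ s * (Dy / Dx) ^ s) * (Dy / Dx) ^ (t + 1)) := by
    rw [mul_div_assoc, e1, e2]
    ring
  rw [e3]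
  have hK : 0 ≤ ((py / Dy) ^ s * (pu / Dy) ^ t / Dy) * (D / py) ^ s := by positivity
  have b4 : ((px / D) ^ s * (Dy / Dx) ^ s) * (Dy / Dx) ^ (t + 1) ≤
      (2 * (12 * (D / px))) * (12 * (D / px)) ^ (t + 1) := by
    refine mul_le_mul (mul_le_mul b1 b2 (by positivity) (by norm_num)) b3 (by positivity)
      (by positivity)
  calc _ ≤ ((py / Dy) ^ s * (pu / Dy) ^ t / Dy) * (D / py) ^ s *
        ((2 * (12 * (D / px))) * (12 * (D / px)) ^ (t + 1)) :=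
        mul_le_mul_of_nonneg_left b4 hK
    _ = _ := by
        rw [mul_pow, pow_succ (12 : ℝ) (t + 1), pow_succ (D / px) (t + 1)]
        ring

/-- `kc_osc` integrated -/
theorem Tc_osc (hE : ∃ ζ : E, ‖ζ‖ = 1) {s : ℝ} (hs : 0 < s) (hs1 : s ≤ 1) (t : ℕ) :
    ∃ C : ℝ, 0 < C ∧ ∀ ν : Measure E, Car ν → ∀ x ∈ ball (0 : E) 1, ∀ y ∈ ball (0 : E) 1,
      Tc s t ν x ≤ C * Tc s t ν y * ((‖1 - ⟪x, y⟫_ℂ‖ / (1 - ‖x‖ ^ 2)) ^ (t + 2) *
        (‖1 - ⟪x, y⟫_ℂ‖ / (1 - ‖y‖ ^ 2)) ^ s) := by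
  obtain ⟨C, hC, h⟩ := kc_osc (E := E) hs hs1 t
  refine ⟨C, hC, fun ν hν x hx y hy => ?_⟩
  have hae := C1_ae hν
  have h1 : Tc s t ν x ≤ ∫ u, C * kc s t u y * ((‖1 - ⟪x, y⟫_ℂ‖ / (1 - ‖x‖ ^ 2)) ^ (t + 2) *
        (‖1 - ⟪x, y⟫_ℂ‖ / (1 - ‖y‖ ^ 2)) ^ s) ∂ν := by
    refine integral_mono_ae (kc_int hE hν hs.le t hx)
      (((kc_int hE hν hs.le t hy).const_mul C).mul_const _) ?_
    filter_upwards [hae] with u hu
    exact h u hu x hx y hy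
  refine h1.trans (le_of_eq ?_)
  rw [integral_mul_const, integral_const_mul]
  rfl

/-- dominated convergence: near `z` the kernel is bounded and continuous in `z` -/
theorem Tc_cont (hE : ∃ ζ : E, ‖ζ‖ = 1) {ν : Measure E} (hν : Car ν) {s : ℝ} (hs : 0 < s)
    (t : ℕ) : ContinuousOn (Tc s t ν) (ball 0 1) := by
  have := car_fin hE hν
  intro z hz
  apply ContinuousAt.continuousWithinAt
  have hz1 : ‖z‖ < 1 := by simpa using hz
  set r := (1 + ‖z‖) / 2 with hr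
  have hr1 : r < 1 := by rw [hr]; linarith
  have hr0 : 0 ≤ r := by rw [hr]; positivity
  have hrz : ‖z‖ < r := by rw [hr]; linarith
  have hr2 : 0 < 1 - r ^ 2 := by nlinarith
  have hev : ∀ᶠ w in 𝓝 z, ‖w‖ < r :=
    (continuous_norm.tendsto z).eventually (Iio_mem_nhds hrz)
  have hae := C1_ae hν
  refine continuousAt_of_dominated (F := fun w u => kc s t u w)
    (bound := fun _ => (2 : ℝ) ^ s * 2 ^ t / ((1 - r ^ 2) / 2)) ?_ ?_ (integrable_const _) ?_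
  · filter_upwards [hev] with w hw
    exact (kc_int hE hν hs.le t (by simpa using hw.trans hr1)).aestronglyMeasurable
  · filter_upwards [hev] with w hw
    filter_upwards [hae] with u hu
    have hu1 : ‖u‖ < 1 := by simpa using hu
    have hw1 : ‖w‖ < 1 := hw.trans hr1
    rw [Real.norm_of_nonneg (kc_nonneg hu1.le hw1.le)]
    obtain ⟨h0, h1, -⟩ := a_pos hu1.le hw1
    obtain ⟨-, h3, -⟩ := a_pos' hu1 hw1.le
    have hpw : 0 < 1 - ‖w‖ ^ 2 := by nlinarith [norm_nonneg w]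
    have hpu : 0 < 1 - ‖u‖ ^ 2 := by nlinarith [norm_nonneg u]
    unfold kc
    have c1 : ((1 - ‖w‖ ^ 2) / ‖1 - ⟪u, w⟫_ℂ‖) ^ s ≤ (2 : ℝ) ^ s :=
      Real.rpow_le_rpow (by positivity) (by rw [div_le_iff₀ h0]; linarith) hs.le
    have c2 : ((1 - ‖u‖ ^ 2) / ‖1 - ⟪u, w⟫_ℂ‖) ^ t ≤ (2 : ℝ) ^ t :=
      pow_le_pow_left₀ (by positivity) (by rw [div_le_iff₀ h0]; linarith) _
    refine div_le_div₀ (by positivity) (mul_le_mul c1 c2 (by positivity) (by positivity))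
      (by positivity) ?_
    have : ‖w‖ ^ 2 ≤ r ^ 2 := pow_le_pow_left₀ (norm_nonneg _) hw.le 2
    linarith
  · filter_upwards [hae] with u hu
    have hu1 : ‖u‖ < 1 := by simpa using hu
    obtain ⟨h0, -, -⟩ := a_pos hu1.le hz1
    unfold kc
    have hD : ContinuousAt (fun w : E => ‖1 - ⟪u, w⟫_ℂ‖) z :=
      (continuous_const.sub (continuous_const.inner continuous_id)).norm.continuousAt
    have hp : ContinuousAt (fun w : E => 1 - ‖w‖ ^ 2) z :=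
      (continuous_const.sub (continuous_norm.pow 2)).continuousAt
    exact (((hp.div hD h0.ne').rpow_const (Or.inr hs.le)).mul
      ((continuousAt_const.div hD h0.ne').pow t)).div hD h0.ne'

/-- the kernel is positive on the ball -/
theorem Tc_pos (hE : ∃ ζ : E, ‖ζ‖ = 1) {ν : Measure E} (hν : Car ν) (h0 : ν ≠ 0) {s : ℝ}
    (hs : 0 < s) (t : ℕ) {z : E} (hz : z ∈ ball (0 : E) 1) : 0 < Tc s t ν z := by
  have hae := C1_ae hν
  have hz1 : ‖z‖ < 1 := by simpa using hz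
  have hpz : 0 < 1 - ‖z‖ ^ 2 := by nlinarith [norm_nonneg z]
  have hnn : 0 ≤ᵐ[ν] fun u => kc s t u z := by
    filter_upwards [hae] with u hu
    have hu1 : ‖u‖ < 1 := by simpa using hu
    exact kc_nonneg hu1.le hz1.le
  unfold Tc
  rw [integral_pos_iff_support_of_nonneg_ae hnn (kc_int hE hν hs.le t hz)]
  have hb : 0 < ν (ball (0 : E) 1) := by
    rw [pos_iff_ne_zero]
    intro h
    apply h0
    rw [← Measure.measure_univ_eq_zero, ← union_compl_self (ball (0 : E) 1)]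
    exact measure_union_null h hν.sub
  refine hb.trans_le (measure_mono ?_)
  intro u hu
  have hu1 : ‖u‖ < 1 := by simpa using hu
  obtain ⟨h1, -, -⟩ := a_pos hu1.le hz1
  have hpu : 0 < 1 - ‖u‖ ^ 2 := by nlinarith [norm_nonneg u]
  rw [Function.mem_support]
  unfold kc
  positivity

/-- `(1 - ‖u‖²)/D ≤ 2`, so `kc s t u z ≤ 2^t (1 - ‖z‖²)^s D^(-(1+s))`, and `car_far` with `p = 1 + s`, `R = (1 - ‖z‖²)/2`. -/
theorem Tc_le (hE : ∃ ζ : E, ‖ζ‖ = 1) {s : ℝ} (hs : 0 < s) (t : ℕ) : ∃ C : ℝ, 0 < C ∧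
    ∀ ν : Measure E, Car ν → ∀ z ∈ ball (0 : E) 1, Tc s t ν z ≤ C := by
  obtain ⟨C, hC, h⟩ := car_far hE (p := 1 + s) (by linarith)
  refine ⟨2 ^ t * C * (2 : ℝ) ^ s, by positivity, fun ν hν z hz => ?_⟩
  have hae := C1_ae hν
  have hz1 : ‖z‖ < 1 := by simpa using hz
  have hpz : 0 < 1 - ‖z‖ ^ 2 := by nlinarith [norm_nonneg z]
  have hnn : 0 ≤ᵐ[ν] fun u => kc s t u z := by
    filter_upwards [hae] with u hu
    have hu1 : ‖u‖ < 1 := by simpa using hu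
    exact kc_nonneg hu1.le hz1.le
  unfold Tc
  rw [integral_eq_lintegral_of_nonneg_ae hnn (kc_int hE hν hs.le t hz).aestronglyMeasurable]
  refine ENNReal.toReal_le_of_le_ofReal (by positivity) ?_
  set R := (1 - ‖z‖ ^ 2) / 2 with hR
  have hR0 : 0 < R := by rw [hR]; positivity
  have hres : ν.restrict {u | R ≤ ‖1 - ⟪u, z⟫_ℂ‖} = ν := by
    refine Measure.restrict_eq_self_of_ae_mem ?_
    filter_upwards [hae] with u hu
    have hu1 : ‖u‖ < 1 := by simpa using hu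
    obtain ⟨-, h2, -⟩ := a_pos hu1.le hz1
    show R ≤ ‖1 - ⟪u, z⟫_ℂ‖
    rw [hR]; linarith
  have hfar := h ν hν z hz R hR0
  rw [hres] at hfar
  set K : ℝ := 2 ^ t * (1 - ‖z‖ ^ 2) ^ s with hK
  have hK0 : 0 ≤ K := by rw [hK]; positivity
  calc ∫⁻ u, ENNReal.ofReal (kc s t u z) ∂ν
      ≤ ∫⁻ u, ENNReal.ofReal K * ENNReal.ofReal (‖1 - ⟪u, z⟫_ℂ‖ ^ (-(1 + s))) ∂ν := by
        refine lintegral_mono_ae ?_
        filter_upwards [hae] with u hu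
        have hu1 : ‖u‖ < 1 := by simpa using hu
        obtain ⟨h0, -, -⟩ := a_pos hu1.le hz1
        obtain ⟨-, h3, -⟩ := a_pos' hu1 hz1.le
        have hpu : 0 < 1 - ‖u‖ ^ 2 := by nlinarith [norm_nonneg u]
        rw [← ENNReal.ofReal_mul hK0]
        refine ENNReal.ofReal_le_ofReal ?_
        unfold kc
        have c2 : ((1 - ‖u‖ ^ 2) / ‖1 - ⟪u, z⟫_ℂ‖) ^ t ≤ (2 : ℝ) ^ t :=
          pow_le_pow_left₀ (by positivity) (by rw [div_le_iff₀ h0]; linarith) _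
        have e1 : ‖1 - ⟪u, z⟫_ℂ‖ ^ (-(1 + s)) =
            (‖1 - ⟪u, z⟫_ℂ‖ ^ s)⁻¹ * ‖1 - ⟪u, z⟫_ℂ‖⁻¹ := by
          rw [Real.rpow_neg h0.le, Real.rpow_add h0, Real.rpow_one, mul_inv, mul_comm]
        rw [e1, hK, Real.div_rpow hpz.le h0.le]
        have hA : 0 < ‖1 - ⟪u, z⟫_ℂ‖ ^ s := Real.rpow_pos_of_pos h0 s
        have hB : 0 < (1 - ‖z‖ ^ 2) ^ s := Real.rpow_pos_of_pos hpz s
        calc (1 - ‖z‖ ^ 2) ^ s / ‖1 - ⟪u, z⟫_ℂ‖ ^ s * ((1 - ‖u‖ ^ 2) / ‖1 - ⟪u, z⟫_ℂ‖) ^ t /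
              ‖1 - ⟪u, z⟫_ℂ‖ ≤ (1 - ‖z‖ ^ 2) ^ s / ‖1 - ⟪u, z⟫_ℂ‖ ^ s * 2 ^ t /
              ‖1 - ⟪u, z⟫_ℂ‖ := by
              gcongr
          _ = _ := by
              rw [div_eq_mul_inv, div_eq_mul_inv]; ring
    _ = ENNReal.ofReal K * ∫⁻ u, ENNReal.ofReal (‖1 - ⟪u, z⟫_ℂ‖ ^ (-(1 + s))) ∂ν :=
        lintegral_const_mul' _ _ ENNReal.ofReal_ne_top
    _ ≤ ENNReal.ofReal K * ENNReal.ofReal (C * R ^ (1 - (1 + s))) := by gcongr
    _ = ENNReal.ofReal (2 ^ t * C * (2 : ℝ) ^ s) := by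
        rw [← ENNReal.ofReal_mul hK0]
        congr 1
        have e2 : R ^ (1 - (1 + s)) = (R ^ s)⁻¹ := by
          rw [show (1 : ℝ) - (1 + s) = -s by ring, Real.rpow_neg hR0.le]
        have e3 : R ^ s = (1 - ‖z‖ ^ 2) ^ s / (2 : ℝ) ^ s := by
          rw [hR, Real.div_rpow hpz.le (by norm_num)]
        have hB : 0 < (1 - ‖z‖ ^ 2) ^ s := Real.rpow_pos_of_pos hpz s
        have h2s : 0 < (2 : ℝ) ^ s := by positivity
        rw [e2, e3, hK]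
        field_simp

end Pool.Agent.MPca0fc2.CE
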