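import Mathlib
import Pool.Agent.Lib.MP_ca0fc2_an.CE.B1
import Pool.Agent.Lib.MP_ca0fc2_an.CE.B2
import Pool.Agent.Lib.MP_ca0fc2_an.CE.C1

set_option autoImplicit false
set_option linter.unusedSectionVars false

open Metric Set MeasureTheory Filter Topology
open scoped InnerProductSpace ENNReal ContDiff

namespace Pool.Agent.MPca0fc2.CE

open Pool.Agent.MPca0fc2.PT
open Pool.Agent.MPca0fc2.QT
open Pool.Agent.MPca0fc2.TS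
open Pool.Agent.MPca0fc2.TE
open Pool.Agent.MPca0fc2.TK
open Pool.Agent.MPca0fc2.VK

variable {E : Type*} [NormedAddCommGroup E] [InnerProductSpace ℂ E] [FiniteDimensional ℂ E]
  [MeasurableSpace E] [BorelSpace E]

private theorem B3_ptcont (P : E →L[ℂ] E) (z : E) : Continuous (fun t : ℝ => pt P t z) := by
  unfold pt
  fun_prop

private theorem B3_kcmeas (P : E →L[ℂ] E) (z : E) (s : ℝ) :
    Measurable (fun p : ℝ × E => kc s 1 p.2 (pt P p.1 z)) := by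
  have h1 : Continuous (fun p : ℝ × E => pt P p.1 z) := (B3_ptcont P z).comp continuous_fst
  have h2 : Measurable (fun p : ℝ × E => ‖1 - ⟪p.2, pt P p.1 z⟫_ℂ‖) := by
    apply Continuous.measurable
    fun_prop
  have h3 : Measurable (fun p : ℝ × E => 1 - ‖pt P p.1 z‖ ^ 2) := by
    apply Continuous.measurable
    fun_prop
  have h4 : Measurable (fun p : ℝ × E => 1 - ‖p.2‖ ^ 2) := by
    apply Continuous.measurable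
    fun_prop
  unfold kc
  exact (((h3.div h2).pow_const s).mul ((h4.div h2).pow_const 1)).div h2

/-- depth of the points of the path -/
private theorem B3_ball {P : E →L[ℂ] E} (hP : Prj P) {z : E} (hz : ‖z‖ < 1) {t : ℝ}
    (ht : t ∈ Icc (0 : ℝ) 1) : 0 < 1 - ‖z‖ ^ 2 ∧ 1 - ‖z‖ ^ 2 ≤ 1 - ‖pt P t z‖ ^ 2 ∧
      ‖pt P t z‖ < 1 := by
  have h := Dp_anti hP hz ht.1 le_rfl ht.2
  rw [← Dp_eq hP t z] at h
  obtain ⟨ha, hb, hc, -⟩ := h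
  rw [hb] at ha hc
  refine ⟨ha, hc, ?_⟩
  have : ‖pt P t z‖ ^ 2 < 1 := by linarith
  nlinarith [norm_nonneg (pt P t z)]

private theorem B3_kcle {s : ℝ} (hs : 0 < s) {P : E →L[ℂ] E} (hP : Prj P) {z : E} (hz : ‖z‖ < 1)
    {t : ℝ} (ht : t ∈ Icc (0 : ℝ) 1) {u : E} (hu : ‖u‖ < 1) :
    0 ≤ kc s 1 u (pt P t z) ∧ kc s 1 u (pt P t z) ≤
      (2 / (1 - ‖z‖ ^ 2)) ^ s * (2 / (1 - ‖z‖ ^ 2)) * (2 / (1 - ‖z‖ ^ 2)) := by
  obtain ⟨ha, hb, hc⟩ := B3_ball hP hz ht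
  refine ⟨kc_nonneg hu.le hc.le, ?_⟩
  obtain ⟨hD, hD1, hD2⟩ := a_pos hu.le hc
  set D := ‖1 - ⟪u, pt P t z⟫_ℂ‖ with hDdef
  have hinv : 1 / D ≤ 2 / (1 - ‖z‖ ^ 2) := by
    rw [div_le_div_iff₀ hD ha]
    linarith
  have e1 : (1 - ‖pt P t z‖ ^ 2) / D ≤ 2 / (1 - ‖z‖ ^ 2) := by
    refine le_trans ?_ hinv
    apply div_le_div_of_nonneg_right _ hD.le
    nlinarith [sq_nonneg ‖pt P t z‖]
  have e2 : (1 - ‖u‖ ^ 2) / D ≤ 2 / (1 - ‖z‖ ^ 2) := by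
    refine le_trans ?_ hinv
    apply div_le_div_of_nonneg_right _ hD.le
    nlinarith [sq_nonneg ‖u‖]
  have n1 : 0 ≤ (1 - ‖pt P t z‖ ^ 2) / D := div_nonneg (by linarith) hD.le
  have n2 : 0 ≤ (1 - ‖u‖ ^ 2) / D := div_nonneg (by nlinarith [norm_nonneg u]) hD.le
  unfold kc
  rw [← hDdef, pow_one, div_eq_mul_one_div _ D]
  have p1 : ((1 - ‖pt P t z‖ ^ 2) / D) ^ s ≤ (2 / (1 - ‖z‖ ^ 2)) ^ s :=
    Real.rpow_le_rpow n1 e1 hs.le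
  have q0 : 0 < 2 / (1 - ‖z‖ ^ 2) := by positivity
  have q1 : 0 ≤ ((1 - ‖pt P t z‖ ^ 2) / D) ^ s := Real.rpow_nonneg n1 s
  have q2 : 0 ≤ 1 / D := by positivity
  exact mul_le_mul (mul_le_mul p1 e2 n2 (by positivity)) hinv q2 (by positivity)

private theorem B3_gle {P : E →L[ℂ] E} (hP : Prj P) {z : E} (hz : ‖z‖ < 1) {t : ℝ}
    (ht : t ∈ Icc (0 : ℝ) 1) : 0 ≤ rr P z / (1 - t ^ 2 * rr P z ^ 2) ∧
      rr P z / (1 - t ^ 2 * rr P z ^ 2) ≤ rr P z / (1 - rr P z ^ 2) := by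
  obtain ⟨hr0, hr1, -, -, -⟩ := rr_facts hP hz t
  have hr2 : rr P z ^ 2 < 1 := by nlinarith
  have hden : 1 - rr P z ^ 2 ≤ 1 - t ^ 2 * rr P z ^ 2 := by
    have : t ^ 2 ≤ 1 := by nlinarith [ht.1, ht.2]
    nlinarith [sq_nonneg (rr P z)]
  exact ⟨div_nonneg hr0 (by linarith), div_le_div_of_nonneg_left hr0 (by linarith) hden⟩

private theorem B3_meas (P : E →L[ℂ] E) (z : E) (s : ℝ) :
    Measurable (fun p : ℝ × E => kc s 1 p.2 (pt P p.1 z) *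
      (rr P z / (1 - p.1 ^ 2 * rr P z ^ 2))) := by
  have hgm : Measurable (fun t : ℝ => rr P z / (1 - t ^ 2 * rr P z ^ 2)) := by fun_prop
  exact (B3_kcmeas P z s).mul (hgm.comp measurable_fst)

private theorem B3_bd {s : ℝ} (hs : 0 < s) {P : E →L[ℂ] E} (hP : Prj P) {z : E} (hz : ‖z‖ < 1)
    {t : ℝ} (ht : t ∈ Icc (0 : ℝ) 1) {u : E} (hu : ‖u‖ < 1) :
    0 ≤ kc s 1 u (pt P t z) * (rr P z / (1 - t ^ 2 * rr P z ^ 2)) ∧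
    ‖kc s 1 u (pt P t z) * (rr P z / (1 - t ^ 2 * rr P z ^ 2))‖ ≤
      (2 / (1 - ‖z‖ ^ 2)) ^ s * (2 / (1 - ‖z‖ ^ 2)) * (2 / (1 - ‖z‖ ^ 2)) *
        (rr P z / (1 - rr P z ^ 2)) := by
  obtain ⟨k0, k1⟩ := B3_kcle hs hP hz ht hu
  obtain ⟨g0, g1⟩ := B3_gle hP hz ht
  refine ⟨mul_nonneg k0 g0, ?_⟩
  rw [Real.norm_eq_abs, abs_of_nonneg (mul_nonneg k0 g0)]
  exact mul_le_mul k1 g1 g0 (k0.trans k1)

private theorem B3_int1 {s : ℝ} (hs : 0 < s) {P : E →L[ℂ] E} (hP : Prj P) {z : E} (hz : ‖z‖ < 1)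
    {u : E} (hu : ‖u‖ < 1) : IntegrableOn (fun t : ℝ => kc s 1 u (pt P t z) *
      (rr P z / (1 - t ^ 2 * rr P z ^ 2))) (Icc 0 1) volume := by
  have hm : Measurable (fun t : ℝ => kc s 1 u (pt P t z) *
      (rr P z / (1 - t ^ 2 * rr P z ^ 2))) :=
    Measurable.of_uncurry_right (f := fun (t : ℝ) (u : E) => kc s 1 u (pt P t z) *
      (rr P z / (1 - t ^ 2 * rr P z ^ 2))) (B3_meas P z s)
  have : IsFiniteMeasure (volume.restrict (Icc (0 : ℝ) 1)) := by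
    constructor
    simp
  refine Integrable.of_bound hm.aestronglyMeasurable
    ((2 / (1 - ‖z‖ ^ 2)) ^ s * (2 / (1 - ‖z‖ ^ 2)) * (2 / (1 - ‖z‖ ^ 2)) *
        (rr P z / (1 - rr P z ^ 2)))
    (ae_restrict_of_forall_mem measurableSet_Icc fun t ht => (B3_bd hs hP hz ht hu).2)

private theorem B3_mono {s : ℝ} (hs : 0 < s) {P : E →L[ℂ] E} (hP : Prj P) {z : E} (hz : ‖z‖ < 1)
    {u : E} (hu : ‖u‖ < 1) {t₀ : ℝ} (ht₀ : t₀ ∈ Icc (0 : ℝ) 1) :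
    ∫ t in Icc t₀ 1, kc s 1 u (pt P t z) * (rr P z / (1 - t ^ 2 * rr P z ^ 2)) ≤
      ∫ t in Icc (0 : ℝ) 1, kc s 1 u (pt P t z) * (rr P z / (1 - t ^ 2 * rr P z ^ 2)) := by
  refine setIntegral_mono_set (B3_int1 hs hP hz hu)
    (ae_restrict_of_forall_mem measurableSet_Icc fun _ ht => (B3_bd hs hP hz ht hu).1)
    (Icc_subset_Icc_left ht₀.1).eventuallyLE

private theorem B3_I0 {s : ℝ} (hs : 0 < s) {P : E →L[ℂ] E} (hP : Prj P) {z : E} (hz : ‖z‖ < 1)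
    {u : E} (hu : ‖u‖ < 1) {t₀ : ℝ} (ht₀ : t₀ ∈ Icc (0 : ℝ) 1) :
    0 ≤ ∫ t in Icc t₀ 1, kc s 1 u (pt P t z) * (rr P z / (1 - t ^ 2 * rr P z ^ 2)) :=
  setIntegral_nonneg measurableSet_Icc fun _ ht =>
    (B3_bd hs hP hz (Icc_subset_Icc_left ht₀.1 ht) hu).1

private theorem B3_int2 {s : ℝ} (hs : 0 < s) {P : E →L[ℂ] E} (hP : Prj P) {z : E} (hz : ‖z‖ < 1)
    {t₀ : ℝ} (ht₀ : t₀ ∈ Icc (0 : ℝ) 1) {ν : Measure E} [IsFiniteMeasure ν]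
    (hball : ∀ᵐ u ∂ν, u ∈ ball (0 : E) 1) :
    Integrable (fun p : ℝ × E => kc s 1 p.2 (pt P p.1 z) *
      (rr P z / (1 - p.1 ^ 2 * rr P z ^ 2))) ((volume.restrict (Icc t₀ 1)).prod ν) := by
  have : IsFiniteMeasure (volume.restrict (Icc t₀ (1 : ℝ))) := by
    constructor
    simp
  have e1 : ∀ᵐ p : ℝ × E ∂((volume.restrict (Icc t₀ 1)).prod ν), p.1 ∈ Icc t₀ 1 :=
    Measure.quasiMeasurePreserving_fst.ae (ae_restrict_mem measurableSet_Icc)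
  have e2 : ∀ᵐ p : ℝ × E ∂((volume.restrict (Icc t₀ 1)).prod ν), p.2 ∈ ball (0 : E) 1 :=
    Measure.quasiMeasurePreserving_snd.ae hball
  refine Integrable.of_bound (B3_meas P z s).aestronglyMeasurable
    ((2 / (1 - ‖z‖ ^ 2)) ^ s * (2 / (1 - ‖z‖ ^ 2)) * (2 / (1 - ‖z‖ ^ 2)) *
        (rr P z / (1 - rr P z ^ 2))) ?_
  filter_upwards [e1, e2] with p hp1 hp2
  have hp3 : ‖p.2‖ < 1 := by simpa using hp2
  exact (B3_bd hs hP hz (Icc_subset_Icc_left ht₀.1 hp1) hp3).2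

private theorem B3_fub {s : ℝ} (hs : 0 < s) {P : E →L[ℂ] E} (hP : Prj P) {z : E} (hz : ‖z‖ < 1)
    {t₀ : ℝ} (ht₀ : t₀ ∈ Icc (0 : ℝ) 1) {ν : Measure E} [IsFiniteMeasure ν]
    (hball : ∀ᵐ u ∂ν, u ∈ ball (0 : E) 1) :
    ∫ t in Icc t₀ 1, Tc s 1 ν (pt P t z) * (rr P z / (1 - t ^ 2 * rr P z ^ 2)) =
      ∫ u, (∫ t in Icc t₀ 1, kc s 1 u (pt P t z) *
        (rr P z / (1 - t ^ 2 * rr P z ^ 2))) ∂ν := by
  have e1 : ∫ t in Icc t₀ 1, Tc s 1 ν (pt P t z) * (rr P z / (1 - t ^ 2 * rr P z ^ 2)) =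
      ∫ t in Icc t₀ 1, ∫ u, kc s 1 u (pt P t z) *
        (rr P z / (1 - t ^ 2 * rr P z ^ 2)) ∂ν := by
    apply integral_congr_ae
    filter_upwards with t
    unfold Tc
    rw [integral_mul_const]
  rw [e1]
  exact integral_integral_swap (f := fun (t : ℝ) (u : E) => kc s 1 u (pt P t z) *
        (rr P z / (1 - t ^ 2 * rr P z ^ 2))) (B3_int2 hs hP hz ht₀ hball)

private theorem B3_near {s : ℝ} (hs : 0 < s) {P : E →L[ℂ] E} (hP : Prj P) {z : E}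
    (hz : z ∈ ball (0 : E) 1) {t₀ : ℝ} (ht₀ : t₀ ∈ Icc (0 : ℝ) 1) {ν : Measure E}
    (hball : ∀ᵐ u ∂ν, u ∈ ball (0 : E) 1) {C1 C4 X : ℝ} (hC1 : 0 < C1)
    (hre : Integrable (fun u => ((1 - ⟪u, z⟫_ℂ)⁻¹).re) ν)
    (h1 : ∀ u ∈ ball (0 : E) 1,
      ∫ t in Icc (0 : ℝ) 1, kc s 1 u (pt P t z) * (rr P z / (1 - t ^ 2 * rr P z ^ 2)) ≤
        C1 * ((1 - ‖u‖ ^ 2) / ‖1 - ⟪u, z⟫_ℂ‖ ^ 2)) (S : Set E)
    (h5 : ∫ u in S, ((1 - ⟪u, z⟫_ℂ)⁻¹).re ∂ν ≤ C4 + X) :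
    ∫ u in S, (∫ t in Icc t₀ 1, kc s 1 u (pt P t z) *
        (rr P z / (1 - t ^ 2 * rr P z ^ 2))) ∂ν ≤ 2 * C1 * (C4 + X) := by
  have hz1 : ‖z‖ < 1 := by simpa using hz
  have h0 : ∀ᵐ u ∂(ν.restrict S), 0 ≤ ∫ t in Icc t₀ 1, kc s 1 u (pt P t z) *
        (rr P z / (1 - t ^ 2 * rr P z ^ 2)) := by
    apply ae_restrict_of_ae
    filter_upwards [hball] with u hu
    exact B3_I0 hs hP hz1 (by simpa using hu) ht₀
  have h6 : ∫ u in S, (∫ t in Icc t₀ 1, kc s 1 u (pt P t z) *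
        (rr P z / (1 - t ^ 2 * rr P z ^ 2))) ∂ν ≤
      ∫ u in S, 2 * C1 * ((1 - ⟪u, z⟫_ℂ)⁻¹).re ∂ν := by
    refine integral_mono_of_nonneg h0 (hre.const_mul (2 * C1)).restrict ?_
    apply ae_restrict_of_ae
    filter_upwards [hball] with u hu
    have hu1 : ‖u‖ < 1 := by simpa using hu
    have h7 := (B3_mono hs hP hz1 hu1 ht₀).trans (h1 u hu)
    have h8 := (a_re (u := u) (z := z) hu1.le hz1).1
    have hD := (a_pos (u := u) (z := z) hu1.le hz1).1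
    have h10 : C1 * ((1 - ‖u‖ ^ 2) / ‖1 - ⟪u, z⟫_ℂ‖ ^ 2) =
        2 * C1 * ((1 - ‖u‖ ^ 2) / (2 * ‖1 - ⟪u, z⟫_ℂ‖ ^ 2)) := by
      field_simp
    rw [h10] at h7
    exact h7.trans (mul_le_mul_of_nonneg_left h8 (by positivity))
  refine h6.trans ?_
  rw [integral_const_mul]
  exact mul_le_mul_of_nonneg_left h5 (by positivity)

private theorem B3_far {s : ℝ} (hs : 0 < s) {P : E →L[ℂ] E} (hP : Prj P) {z : E}
    (hz : z ∈ ball (0 : E) 1) {t₀ : ℝ} (ht₀ : t₀ ∈ Icc (0 : ℝ) 1) {ν : Measure E}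
    [IsFiniteMeasure ν]
    (hball : ∀ᵐ u ∂ν, u ∈ ball (0 : E) 1) {C2 C3 : ℝ} (hC2 : 0 < C2) (hC3 : 0 < C3) {w : E}
    {h₀ : ℝ} (hh0 : 0 < h₀)
    (h2 : ∀ u ∈ ball (0 : E) 1, 64 * h₀ ≤ ‖1 - ⟪u, w⟫_ℂ‖ →
      ∫ t in Icc t₀ 1, kc s 1 u (pt P t z) * (rr P z / (1 - t ^ 2 * rr P z ^ 2)) ≤
        C2 * h₀ ^ s * ‖1 - ⟪u, w⟫_ℂ‖ ^ (-(1 + s)))
    (h3 : ∫⁻ u in {u | 64 * h₀ ≤ ‖1 - ⟪u, w⟫_ℂ‖},
        ENNReal.ofReal (‖1 - ⟪u, w⟫_ℂ‖ ^ (-(1 + s))) ∂ν ≤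
        ENNReal.ofReal (C3 * (64 * h₀) ^ (1 - (1 + s)))) :
    ∫ u in {u | 64 * h₀ ≤ ‖1 - ⟪u, w⟫_ℂ‖}, (∫ t in Icc t₀ 1, kc s 1 u (pt P t z) *
        (rr P z / (1 - t ^ 2 * rr P z ^ 2))) ∂ν ≤ C2 * C3 := by
  have hz1 : ‖z‖ < 1 := by simpa using hz
  have hcD : Continuous (fun u : E => ‖1 - ⟪u, w⟫_ℂ‖) := by fun_prop
  have hSm : MeasurableSet {u : E | 64 * h₀ ≤ ‖1 - ⟪u, w⟫_ℂ‖} :=
    (isClosed_le continuous_const hcD).measurableSet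
  have h0 : ∀ᵐ u ∂(ν.restrict {u : E | 64 * h₀ ≤ ‖1 - ⟪u, w⟫_ℂ‖}),
      0 ≤ ∫ t in Icc t₀ 1, kc s 1 u (pt P t z) *
        (rr P z / (1 - t ^ 2 * rr P z ^ 2)) := by
    apply ae_restrict_of_ae
    filter_upwards [hball] with u hu
    exact B3_I0 hs hP hz1 (by simpa using hu) ht₀
  have hpos64 : 0 < 64 * h₀ := by positivity
  have hmD : Measurable (fun u : E => ‖1 - ⟪u, w⟫_ℂ‖ ^ (-(1 + s))) :=
    hcD.measurable.pow_const _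
  have hDint : Integrable (fun u : E => ‖1 - ⟪u, w⟫_ℂ‖ ^ (-(1 + s)))
      (ν.restrict {u : E | 64 * h₀ ≤ ‖1 - ⟪u, w⟫_ℂ‖}) := by
    refine Integrable.of_bound hmD.aestronglyMeasurable ((64 * h₀) ^ (-(1 + s)))
      (ae_restrict_of_forall_mem hSm fun u hu => ?_)
    rw [Real.norm_eq_abs, abs_of_nonneg (Real.rpow_nonneg (norm_nonneg _) _)]
    exact Real.rpow_le_rpow_of_nonpos hpos64 hu (by linarith)
  have h5 : ∫ u in {u : E | 64 * h₀ ≤ ‖1 - ⟪u, w⟫_ℂ‖}, ‖1 - ⟪u, w⟫_ℂ‖ ^ (-(1 + s)) ∂ν ≤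
      C3 * (64 * h₀) ^ (1 - (1 + s)) := by
    rw [integral_eq_lintegral_of_nonneg_ae
      (Eventually.of_forall fun u => Real.rpow_nonneg (norm_nonneg _) _)
      hmD.aestronglyMeasurable]
    have h7 := ENNReal.toReal_mono ENNReal.ofReal_ne_top h3
    rwa [ENNReal.toReal_ofReal (by positivity)] at h7
  have h6 : ∫ u in {u : E | 64 * h₀ ≤ ‖1 - ⟪u, w⟫_ℂ‖}, (∫ t in Icc t₀ 1,
        kc s 1 u (pt P t z) * (rr P z / (1 - t ^ 2 * rr P z ^ 2))) ∂ν ≤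
      ∫ u in {u : E | 64 * h₀ ≤ ‖1 - ⟪u, w⟫_ℂ‖},
        C2 * h₀ ^ s * ‖1 - ⟪u, w⟫_ℂ‖ ^ (-(1 + s)) ∂ν := by
    refine integral_mono_of_nonneg h0 (hDint.const_mul (C2 * h₀ ^ s)) ?_
    filter_upwards [ae_restrict_mem hSm, ae_restrict_of_ae hball] with u hu hub
    exact h2 u hub hu
  refine h6.trans ?_
  rw [integral_const_mul]
  have h7 : C2 * h₀ ^ s * ∫ u in {u : E | 64 * h₀ ≤ ‖1 - ⟪u, w⟫_ℂ‖},
      ‖1 - ⟪u, w⟫_ℂ‖ ^ (-(1 + s)) ∂ν ≤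
      C2 * h₀ ^ s * (C3 * (64 * h₀) ^ (1 - (1 + s))) :=
    mul_le_mul_of_nonneg_left h5 (by positivity)
  refine h7.trans ?_
  have h8 : h₀ ^ s * (64 * h₀) ^ (1 - (1 + s)) ≤ 1 := by
    have e : (1 : ℝ) - (1 + s) = -s := by ring
    rw [e, Real.rpow_neg hpos64.le]
    have hle : h₀ ^ s ≤ (64 * h₀) ^ s :=
      Real.rpow_le_rpow hh0.le (by linarith) hs.le
    have hp : 0 < (64 * h₀) ^ s := Real.rpow_pos_of_pos hpos64 s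
    rw [← div_eq_mul_inv, div_le_one hp]
    exact hle
  calc C2 * h₀ ^ s * (C3 * (64 * h₀) ^ (1 - (1 + s)))
      = C2 * C3 * (h₀ ^ s * (64 * h₀) ^ (1 - (1 + s))) := by ring
    _ ≤ C2 * C3 * 1 := mul_le_mul_of_nonneg_left h8 (by positivity)
    _ = C2 * C3 := mul_one _

/-- The energy on the path is controlled by the increment of the compensator. Proof. `w = pt P t₀ z`, `h₀ = 1 - ‖w‖²`. Fubini (nonnegative, continuous in `t`, measurable in `u`; `ν` is finite and the integrand is bounded on `[t₀, 1] × ball`): the left side is the integral over `u` of the one-variable integrals. Over `{D(u,w) ≥ 64 h₀}`: `b_far` and `car_far` with `p = 1 + s`, `R = 64 h₀`: at most a constant. Over `{D(u,w) < 64 h₀}`: `b_near` (the integral over `[t₀,1]` is at most that over `[0,1]`) and `a_re`: at most `2 C ∫ re (1 - ⟪u, z⟫)⁻¹` over this set, and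 `fc_down` (`pt_below`). (The bound has the form `a + b x`, `x` the increment; `C = b`, `K = a/b`.) -/
theorem fc_path (hE : ∃ ζ : E, ‖ζ‖ = 1) {s : ℝ} (hs : 0 < s) (hs1 : s ≤ 1) :
    ∃ C K : ℝ, 0 < C ∧ 0 < K ∧ ∀ ν : Measure E, Car ν → ∀ P : E →L[ℂ] E, Prj P →
      ∀ z ∈ ball (0 : E) 1, ∀ t₀ ∈ Icc (0 : ℝ) 1,
      ∫ t in Icc t₀ 1, Tc s 1 ν (pt P t z) * (rr P z / (1 - t ^ 2 * rr P z ^ 2)) ≤
        C * (K + (Fc ν z).re - (Fc ν (pt P t₀ z)).re) := by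
  obtain ⟨C1, hC1, h1⟩ := b_near (E := E) hs hs1
  obtain ⟨C2, hC2, h2⟩ := b_far (E := E) hs hs1
  obtain ⟨C3, hC3, h3⟩ := car_far (E := E) hE (p := 1 + s) (by linarith)
  obtain ⟨C4, hC4, h4⟩ := fc_down (E := E) hE
  refine ⟨2 * C1, (C2 * C3 + 2 * C1 * C4) / (2 * C1), by positivity, by positivity, ?_⟩
  intro ν hν P hP z hz t₀ ht₀
  have : IsFiniteMeasure ν := car_fin hE hν
  have hz1 : ‖z‖ < 1 := by simpa using hz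
  have hball : ∀ᵐ u ∂ν, u ∈ ball (0 : E) 1 := by
    rw [ae_iff]
    exact hν.sub
  obtain ⟨hb1, hb2, hb3⟩ := B3_ball hP hz1 ht₀
  have hh0 : 0 < 1 - ‖pt P t₀ z‖ ^ 2 := by linarith
  have hwb : pt P t₀ z ∈ ball (0 : E) 1 := by simpa using hb3
  rw [B3_fub hs hP hz1 ht₀ hball]
  have hIint : Integrable (fun u => ∫ t in Icc t₀ 1, kc s 1 u (pt P t z) *
        (rr P z / (1 - t ^ 2 * rr P z ^ 2))) ν :=
    (B3_int2 hs hP hz1 ht₀ hball).integral_prod_right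
  have hcD : Continuous (fun u : E => ‖1 - ⟪u, pt P t₀ z⟫_ℂ‖) := by fun_prop
  have hSm : MeasurableSet {u : E | ‖1 - ⟪u, pt P t₀ z⟫_ℂ‖ < 64 * (1 - ‖pt P t₀ z‖ ^ 2)} :=
    (isOpen_lt hcD continuous_const).measurableSet
  have hb : ‖1 - ⟪z, pt P t₀ z⟫_ℂ‖ ≤ 1 - ‖pt P t₀ z‖ ^ 2 := by
    have h := (pt_below hP hz1 ht₀.1 ht₀.2 le_rfl).1
    have e : pt P 1 z = z := by
      unfold pt
      simp
    rw [e] at h
    exact h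
  have h5 := h4 ν hν z hz (pt P t₀ z) hwb hb
  rw [add_sub_assoc] at h5
  have hnear := B3_near hs hP hz ht₀ hball hC1 (fc_re hE hν hz).2.2 (h1 P hP z hz)
    {u : E | ‖1 - ⟪u, pt P t₀ z⟫_ℂ‖ < 64 * (1 - ‖pt P t₀ z‖ ^ 2)} h5
  have hfar := B3_far hs hP hz ht₀ hball hC2 hC3 hh0
    (fun u hu hle => h2 P hP z hz u hu t₀ ht₀ hle)
    (h3 ν hν (pt P t₀ z) hwb (64 * (1 - ‖pt P t₀ z‖ ^ 2)) (by positivity))
  have hcompl : {u : E | ‖1 - ⟪u, pt P t₀ z⟫_ℂ‖ < 64 * (1 - ‖pt P t₀ z‖ ^ 2)}ᶜ =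
      {u : E | 64 * (1 - ‖pt P t₀ z‖ ^ 2) ≤ ‖1 - ⟪u, pt P t₀ z⟫_ℂ‖} := by
    ext u
    simp
  have hsplit := (integral_add_compl hSm hIint).symm
  rw [hcompl] at hsplit
  have hfin : 2 * C1 * ((C2 * C3 + 2 * C1 * C4) / (2 * C1) + (Fc ν z).re -
      (Fc ν (pt P t₀ z)).re) =
      C2 * C3 + 2 * C1 * (C4 + ((Fc ν z).re - (Fc ν (pt P t₀ z)).re)) := by
    field_simp
    ring
  rw [hfin, hsplit]
  linarith

end Pool.Agent.MPca0fc2.CE
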