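import Mathlib
import Pool.Agent.Lib.MP_ca0fc2_an.CE.B3

set_option autoImplicit false
set_option linter.unusedSectionVars false

open Metric Set MeasureTheory Filter Topology
open scoped InnerProductSpace ENNReal ContDiff

namespace Pool.Agent.MPca0fc2.CE

open Pool.Agent.MPca0fc2.PT
open Pool.Agent.MPca0fc2.QT
open Pool.Agent.MPca0fc2.TS
open Pool.Agent.MPca0fc2.TE
open Pool.Agent.MPca0fc2.TK
open Pool.Agent.MPca0fc2.VK

variable {E : Type*} [NormedAddCommGroup E] [InnerProductSpace ℂ E] [FiniteDimensional ℂ E]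
  [MeasurableSpace E] [BorelSpace E]

/-- Proof. `I t₀ = ∫_{t₀}^1 q`, `g 1 - g t₀ ≥ I t₀/C - K`, so `q t exp (g t - g 1) ≤ e^K q t exp (- I t/C)`, which is the derivative of `e^K C exp (- I t/C)`. -/
theorem exp_int {q g : ℝ → ℝ} (hq : ContinuousOn q (Icc 0 1)) (hg : ContinuousOn g (Icc 0 1))
    (hq0 : ∀ t ∈ Icc (0 : ℝ) 1, 0 ≤ q t) {C K : ℝ} (hC : 0 < C)
    (h : ∀ t₀ ∈ Icc (0 : ℝ) 1, ∫ t in Icc t₀ 1, q t ≤ C * (K + g 1 - g t₀)) :
    ∫ t in Icc (0 : ℝ) 1, q t * Real.exp (g t - g 1) ≤ C * Real.exp K := by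
  -- the continuous extension of `q`
  set Q : ℝ → ℝ := IccExtend (zero_le_one' ℝ) ((Icc (0 : ℝ) 1).domRestrict q) with hQdef
  have hQc : Continuous Q := (continuousOn_iff_continuous_domRestrict.mp hq).Icc_extend'
  have hQe : ∀ t ∈ Icc (0 : ℝ) 1, Q t = q t := by
    intro t ht
    rw [hQdef, IccExtend_of_mem _ _ ht]
    rfl
  set P : ℝ → ℝ := fun u => ∫ x in (0 : ℝ)..u, Q x with hPdef
  have hPd : ∀ t, HasDerivAt P (Q t) t := fun t =>
    (hQc.integral_hasStrictDerivAt 0 t).hasDerivAt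
  have hPc : Continuous P := continuous_iff_continuousAt.mpr fun t => (hPd t).continuousAt
  -- the integral of `q` over `[t₀, 1]`
  have hI : ∀ t₀ ∈ Icc (0 : ℝ) 1, ∫ t in Icc t₀ 1, q t = P 1 - P t₀ := by
    intro t₀ ht₀
    have h1 : ∫ t in Icc t₀ 1, q t = ∫ t in Icc t₀ 1, Q t := by
      refine setIntegral_congr_fun measurableSet_Icc fun t ht => ?_
      exact (hQe t ⟨ht₀.1.trans ht.1, ht.2⟩).symm
    rw [h1, integral_Icc_eq_integral_Ioc, ← intervalIntegral.integral_of_le ht₀.2, hPdef]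
    simp only
    rw [intervalIntegral.integral_interval_sub_left (hQc.intervalIntegrable _ _)
      (hQc.intervalIntegrable _ _)]
  -- the primitive
  set F : ℝ → ℝ := fun t => C * Real.exp K * Real.exp (-(P 1 - P t) / C) with hFdef
  have hFd : ∀ t, HasDerivAt F (Real.exp K * (Q t * Real.exp (-(P 1 - P t) / C))) t := by
    intro t
    have h1 : HasDerivAt (fun t => -(P 1 - P t) / C) (Q t / C) t := by
      have := ((hPd t).const_sub (P 1)).neg.div_const C
      simpa using this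
    have h2 := (h1.exp).const_mul (C * Real.exp K)
    have h3 : C * Real.exp K * (Real.exp (-(P 1 - P t) / C) * (Q t / C)) =
        Real.exp K * (Q t * Real.exp (-(P 1 - P t) / C)) := by
      field_simp
    rw [h3] at h2
    exact h2
  have hcont : Continuous fun t => Real.exp K * (Q t * Real.exp (-(P 1 - P t) / C)) := by
    fun_prop
  have hF : ∫ t in (0 : ℝ)..1, Real.exp K * (Q t * Real.exp (-(P 1 - P t) / C)) = F 1 - F 0 :=
    intervalIntegral.integral_eq_sub_of_hasDerivAt (fun t _ => hFd t)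
      (hcont.intervalIntegrable _ _)
  have hF1 : F 1 - F 0 ≤ C * Real.exp K := by
    have h0 : 0 ≤ F 0 := by
      rw [hFdef]
      positivity
    have h1 : F 1 = C * Real.exp K := by
      rw [hFdef]
      simp
    linarith
  refine le_trans ?_ (hF.le.trans hF1)
  rw [intervalIntegral.integral_of_le zero_le_one, ← integral_Icc_eq_integral_Ioc]
  refine setIntegral_mono_on ?_ ?_ measurableSet_Icc ?_
  · refine ContinuousOn.integrableOn_compact isCompact_Icc ?_
    exact hq.mul ((hg.sub continuousOn_const).rexp)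
  · exact hcont.continuousOn.integrableOn_compact isCompact_Icc
  · intro t ht
    have h1 := h t ht
    rw [hI t ht] at h1
    have h2 : g t - g 1 ≤ K + -(P 1 - P t) / C := by
      have h3 : (P 1 - P t) / C ≤ K + g 1 - g t := by
        rw [div_le_iff₀ hC]
        linarith
      rw [neg_div]
      linarith
    rw [hQe t ht]
    calc q t * Real.exp (g t - g 1) ≤ q t * Real.exp (K + -(P 1 - P t) / C) :=
          mul_le_mul_of_nonneg_left (Real.exp_le_exp.mpr h2) (hq0 t ht)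
      _ = Real.exp K * (q t * Real.exp (-(P 1 - P t) / C)) := by
          rw [Real.exp_add]
          ring

private theorem B4_mem {P : E →L[ℂ] E} (hP : Prj P) {z : E} (hz : z ∈ ball (0 : E) 1) {t : ℝ}
    (ht : t ∈ Icc (0 : ℝ) 1) : pt P t z ∈ ball (0 : E) 1 := by
  have hz' : ‖z‖ < 1 := by simpa using hz
  obtain ⟨h1, -, h2, -⟩ := Dp_anti hP hz' ht.1 le_rfl ht.2
  have h3 := Dp_eq hP t z
  rw [mem_ball_zero_iff]
  have h4 : ‖pt P t z‖ ^ 2 < 1 := by linarith
  nlinarith [norm_nonneg (pt P t z)]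

private theorem B4_cont (P : E →L[ℂ] E) (z : E) : Continuous fun t : ℝ => pt P t z := by
  unfold pt
  fun_prop

/-- `fc_path` and `exp_int` with `q t = Tc s 1 ν (pt P t z) * (rr P z/(1 - t² rr²))`, `g t = re Fc (pt P t z)` (continuous: `Tc_cont`, `fc_holo`; `pt P 1 z = z`); the second part: the left side of `fc_path` is nonnegative. -/
theorem tc_path (hE : ∃ ζ : E, ‖ζ‖ = 1) {s : ℝ} (hs : 0 < s) (hs1 : s ≤ 1) :
    ∃ C : ℝ, 0 < C ∧ ∀ ν : Measure E, Car ν → ∀ P : E →L[ℂ] E, Prj P → ∀ z ∈ ball (0 : E) 1,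
      ∫ t in Icc (0 : ℝ) 1, Tc s 1 ν (pt P t z) *
        Real.exp ((Fc ν (pt P t z)).re - (Fc ν z).re) *
          (rr P z / (1 - t ^ 2 * rr P z ^ 2)) ≤ C ∧
      ∀ t ∈ Icc (0 : ℝ) 1, (Fc ν (pt P t z)).re - (Fc ν z).re ≤ C := by
  obtain ⟨C, K, hC, hK, h⟩ := fc_path (E := E) hE hs hs1
  refine ⟨max (C * Real.exp K) K, lt_max_of_lt_right hK, fun ν hν P hP z hz => ?_⟩
  have hz' : ‖z‖ < 1 := by simpa using hz
  obtain ⟨hr0, hr1, -, -, -⟩ := rr_facts hP hz' 1
  have hden : ∀ t ∈ Icc (0 : ℝ) 1, 0 < 1 - t ^ 2 * rr P z ^ 2 := by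
    intro t ht
    have h1 : t * rr P z < 1 := by nlinarith [ht.1, ht.2]
    have h2 : 0 ≤ t * rr P z := mul_nonneg ht.1 hr0
    nlinarith
  set q : ℝ → ℝ := fun t => Tc s 1 ν (pt P t z) * (rr P z / (1 - t ^ 2 * rr P z ^ 2)) with hq
  set g : ℝ → ℝ := fun t => (Fc ν (pt P t z)).re with hg
  have hmaps : MapsTo (fun t : ℝ => pt P t z) (Icc (0 : ℝ) 1) (ball (0 : E) 1) :=
    fun t ht => B4_mem hP hz ht
  have hqc : ContinuousOn q (Icc 0 1) := by
    refine ContinuousOn.mul ?_ ?_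
    · exact (Tc_cont hE hν hs 1).comp (B4_cont P z).continuousOn hmaps
    · refine ContinuousOn.div continuousOn_const (by fun_prop) fun t ht => (hden t ht).ne'
  have hgc : ContinuousOn g (Icc 0 1) := by
    have h1 : ContinuousOn (fun t : ℝ => Fc ν (pt P t z)) (Icc 0 1) :=
      (fc_holo hE hν).continuousOn.comp (B4_cont P z).continuousOn hmaps
    exact Complex.continuous_re.comp_continuousOn h1
  have hq0 : ∀ t ∈ Icc (0 : ℝ) 1, 0 ≤ q t := fun t ht =>
    mul_nonneg (Tc_nonneg hν 1 (hmaps ht)) (div_nonneg hr0 (hden t ht).le)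
  have hg1 : g 1 = (Fc ν z).re := by
    rw [hg]
    simp only
    rw [pt_one]
  have hmain : ∀ t₀ ∈ Icc (0 : ℝ) 1, ∫ t in Icc t₀ 1, q t ≤ C * (K + g 1 - g t₀) := by
    intro t₀ ht₀
    rw [hg1]
    exact h ν hν P hP z hz t₀ ht₀
  refine ⟨?_, ?_⟩
  · refine le_trans (le_of_eq ?_) ((exp_int hqc hgc hq0 hC hmain).trans (le_max_left _ _))
    refine setIntegral_congr_fun measurableSet_Icc fun t ht => ?_
    simp only [hg1, hq]
    ring
  · intro t ht
    refine le_trans ?_ (le_max_right _ _)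
    have h1 := hmain t ht
    have h2 : 0 ≤ ∫ t in Icc t 1, q t :=
      setIntegral_nonneg measurableSet_Icc fun x hx => hq0 x ⟨ht.1.trans hx.1, hx.2⟩
    rw [hg1] at h1
    have h3 : 0 ≤ K + (Fc ν z).re - g t := by
      by_contra hcon
      push Not at hcon
      nlinarith
    linarith

end Pool.Agent.MPca0fc2.CE
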