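import Mathlib
import Pool.Agent.Lib.MP_ca0fc2_an.CE.A3
import Pool.Agent.Lib.MP_ca0fc2_an.VK.D1
import Pool.Agent.Lib.MP_ca0fc2_an.PV.A2
import Pool.Agent.Lib.MP_ca0fc2_an.TE.G5

set_option autoImplicit false
set_option linter.unusedSectionVars false

open Metric Set MeasureTheory Filter Topology
open scoped InnerProductSpace ENNReal ContDiff

namespace Pool.Agent.MPca0fc2.CE

open Pool.Agent.MPca0fc2.PT
open Pool.Agent.MPca0fc2.QT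
open Pool.Agent.MPca0fc2.TS
open Pool.Agent.MPca0fc2.TE
open Pool.Agent.MPca0fc2.TK
open Pool.Agent.MPca0fc2.VK

variable {E : Type*} [NormedAddCommGroup E] [InnerProductSpace ℂ E] [FiniteDimensional ℂ E]
  [MeasurableSpace E] [BorelSpace E]

private lemma C2_pt {a d D px pu s p : ℝ} (ha : 0 < a) (hd : 0 < d) (hD : 0 < D) (hpx : 0 < px)
    (hpu : 0 < pu) (hs : 0 < s) (hs1 : s ≤ 1 / 8) (hp : 3 ≤ p) (h1 : px ≤ 2 * a)
    (h2 : px ≤ 2 * d) (h3 : D ≤ 2 * a + 4 * d) (h4 : pu ≤ 2 * D) :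
    (px / a) ^ s * (pu / a) ^ 2 / a * d ^ (-p) ≤
      1024 * (pu * D ^ (-(s + 2))) * d ^ (-(p - s)) +
        2 * 8 ^ p * (pu ^ 2 * D ^ (-3 : ℝ)) * a ^ (-p) := by
  have key : (px / a) ^ s * (pu / a) ^ 2 / a = px ^ s * pu ^ 2 * a ^ (-(s + 3)) := by
    rw [Real.div_rpow hpx.le ha.le, Real.rpow_neg ha.le, Real.rpow_add ha,
      show (3 : ℝ) = ((3 : ℕ) : ℝ) by norm_num, Real.rpow_natCast]
    have := Real.rpow_pos_of_pos ha s
    field_simp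
  have n1 : 0 ≤ 1024 * (pu * D ^ (-(s + 2))) * d ^ (-(p - s)) := by positivity
  have n2 : 0 ≤ 2 * 8 ^ p * (pu ^ 2 * D ^ (-3 : ℝ)) * a ^ (-p) := by positivity
  have two : (2 : ℝ) ^ s ≤ 2 := by
    calc (2 : ℝ) ^ s ≤ (2 : ℝ) ^ (1 : ℝ) :=
          Real.rpow_le_rpow_of_exponent_le (by norm_num) (by linarith)
      _ = 2 := by simp
  rw [key]
  rcases le_or_gt (D / 4) a with h | h
  · refine le_trans ?_ (le_add_of_nonneg_right n2)
    have e1 : px ^ s ≤ 2 * d ^ s := by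
      calc px ^ s ≤ (2 * d) ^ s := Real.rpow_le_rpow hpx.le h2 hs.le
        _ = 2 ^ s * d ^ s := Real.mul_rpow (by norm_num) hd.le
        _ ≤ 2 * d ^ s := mul_le_mul_of_nonneg_right two (by positivity)
    have e2 : a ^ (-(s + 3)) ≤ 256 * D ^ (-(s + 3)) := by
      calc a ^ (-(s + 3)) ≤ (D / 4) ^ (-(s + 3)) :=
            Real.rpow_le_rpow_of_nonpos (by positivity) h (by linarith)
        _ = (4 : ℝ) ^ (s + 3) * D ^ (-(s + 3)) := by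
            rw [Real.div_rpow hD.le (by norm_num), Real.rpow_neg (by norm_num : (0 : ℝ) ≤ 4),
              div_inv_eq_mul, mul_comm]
        _ ≤ 256 * D ^ (-(s + 3)) := by
            refine mul_le_mul_of_nonneg_right ?_ (by positivity)
            calc (4 : ℝ) ^ (s + 3) ≤ (4 : ℝ) ^ (4 : ℝ) :=
                  Real.rpow_le_rpow_of_exponent_le (by norm_num) (by linarith)
              _ = 256 := by
                  rw [show (4 : ℝ) = ((4 : ℕ) : ℝ) by norm_num, Real.rpow_natCast]; norm_num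
    have e3 : pu ^ 2 * D ^ (-(s + 3)) ≤ 2 * (pu * D ^ (-(s + 2))) := by
      have e4 : D ^ (-(s + 2)) = D * D ^ (-(s + 3)) := by
        have := Real.rpow_add hD 1 (-(s + 3))
        rw [Real.rpow_one] at this
        rw [← this]
        congr 1
        ring
      rw [e4]
      have : 0 < D ^ (-(s + 3)) := by positivity
      have h5 : pu * pu ≤ pu * (2 * D) := mul_le_mul_of_nonneg_left h4 hpu.le
      calc pu ^ 2 * D ^ (-(s + 3)) = pu * pu * D ^ (-(s + 3)) := by ring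
        _ ≤ pu * (2 * D) * D ^ (-(s + 3)) := mul_le_mul_of_nonneg_right h5 this.le
        _ = _ := by ring
    have e5 : d ^ (-(p - s)) = d ^ s * d ^ (-p) := by
      rw [← Real.rpow_add hd]
      congr 1
      ring
    rw [e5]
    calc px ^ s * pu ^ 2 * a ^ (-(s + 3)) * d ^ (-p)
        ≤ (2 * d ^ s) * pu ^ 2 * (256 * D ^ (-(s + 3))) * d ^ (-p) := by
          refine mul_le_mul_of_nonneg_right ?_ (by positivity)
          refine mul_le_mul (mul_le_mul_of_nonneg_right e1 (by positivity)) e2 (by positivity)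
            (by positivity)
      _ = 512 * (pu ^ 2 * D ^ (-(s + 3))) * (d ^ s * d ^ (-p)) := by ring
      _ ≤ 512 * (2 * (pu * D ^ (-(s + 2)))) * (d ^ s * d ^ (-p)) := by
          refine mul_le_mul_of_nonneg_right ?_ (by positivity)
          exact mul_le_mul_of_nonneg_left e3 (by norm_num)
      _ = _ := by ring
  · refine le_trans ?_ (le_add_of_nonneg_left n1)
    have hd8 : D / 8 ≤ d := by linarith
    have e1 : px ^ s ≤ 2 * a ^ s := by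
      calc px ^ s ≤ (2 * a) ^ s := Real.rpow_le_rpow hpx.le h1 hs.le
        _ = 2 ^ s * a ^ s := Real.mul_rpow (by norm_num) ha.le
        _ ≤ 2 * a ^ s := mul_le_mul_of_nonneg_right two (by positivity)
    have e2 : d ^ (-p) ≤ 8 ^ p * D ^ (-p) := by
      calc d ^ (-p) ≤ (D / 8) ^ (-p) :=
            Real.rpow_le_rpow_of_nonpos (by positivity) hd8 (by linarith)
        _ = _ := by
            rw [Real.div_rpow hD.le (by norm_num), Real.rpow_neg (by norm_num : (0 : ℝ) ≤ 8),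
              div_inv_eq_mul, mul_comm]
    have e3 : a ^ (-(s + 3)) * a ^ s ≤ D ^ (p - 3) * a ^ (-p) := by
      have e4 : a ^ (-(s + 3)) * a ^ s = a ^ (p - 3) * a ^ (-p) := by
        rw [← Real.rpow_add ha, ← Real.rpow_add ha]
        congr 1
        ring
      rw [e4]
      refine mul_le_mul_of_nonneg_right ?_ (by positivity)
      exact Real.rpow_le_rpow ha.le (by linarith) (by linarith)
    have e5 : D ^ (p - 3) * D ^ (-p) = D ^ (-3 : ℝ) := by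
      rw [← Real.rpow_add hD]
      congr 1
      ring
    calc px ^ s * pu ^ 2 * a ^ (-(s + 3)) * d ^ (-p)
        ≤ (2 * a ^ s) * pu ^ 2 * a ^ (-(s + 3)) * (8 ^ p * D ^ (-p)) := by
          refine mul_le_mul ?_ e2 (by positivity) (by positivity)
          refine mul_le_mul_of_nonneg_right ?_ (by positivity)
          exact mul_le_mul_of_nonneg_right e1 (by positivity)
      _ = 2 * 8 ^ p * (pu ^ 2 * D ^ (-p)) * (a ^ (-(s + 3)) * a ^ s) := by ring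
      _ ≤ 2 * 8 ^ p * (pu ^ 2 * D ^ (-p)) * (D ^ (p - 3) * a ^ (-p)) :=
          mul_le_mul_of_nonneg_left e3 (by positivity)
      _ = 2 * 8 ^ p * (pu ^ 2 * (D ^ (p - 3) * D ^ (-p))) * a ^ (-p) := by ring
      _ = _ := by rw [e5]

private lemma C2_end {D pu py s : ℝ} (hD : 0 < D) (hpu : 0 < pu) (hpy : 0 < py)
    (hs : 0 < s) (hs1 : s ≤ 1 / 8) (h4 : pu ≤ 2 * D) (h5 : py ≤ 2 * D) :
    pu ^ 2 * D ^ (-3 : ℝ) * pu ^ (-(1 / 4) : ℝ) ≤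
      4 * (py ^ (-(1 / 4) : ℝ) * (py ^ s * (pu * D ^ (-(s + 2))))) := by
  have e1 : pu ^ 2 * pu ^ (-(1 / 4) : ℝ) = pu * pu ^ (3 / 4 : ℝ) := by
    rw [← Real.rpow_natCast pu 2, ← Real.rpow_add hpu]
    have := Real.rpow_add hpu 1 (3 / 4)
    rw [Real.rpow_one] at this
    rw [← this]
    congr 1
    norm_num
  have e2 : pu ^ (3 / 4 : ℝ) ≤ 2 * D ^ (3 / 4 : ℝ) := by
    calc pu ^ (3 / 4 : ℝ) ≤ (2 * D) ^ (3 / 4 : ℝ) :=
          Real.rpow_le_rpow hpu.le h4 (by norm_num)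
      _ = 2 ^ (3 / 4 : ℝ) * D ^ (3 / 4 : ℝ) := Real.mul_rpow (by norm_num) hD.le
      _ ≤ 2 * D ^ (3 / 4 : ℝ) := by
          refine mul_le_mul_of_nonneg_right ?_ (by positivity)
          calc (2 : ℝ) ^ (3 / 4 : ℝ) ≤ (2 : ℝ) ^ (1 : ℝ) :=
                Real.rpow_le_rpow_of_exponent_le (by norm_num) (by norm_num)
            _ = 2 := by simp
  have e3 : D ^ (-(1 / 4 - s)) ≤ 2 * py ^ (-(1 / 4 - s)) := by
    calc D ^ (-(1 / 4 - s)) ≤ (py / 2) ^ (-(1 / 4 - s)) :=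
          Real.rpow_le_rpow_of_nonpos (by positivity) (by linarith) (by linarith)
      _ = (2 : ℝ) ^ (1 / 4 - s) * py ^ (-(1 / 4 - s)) := by
          rw [Real.div_rpow hpy.le (by norm_num), Real.rpow_neg (by norm_num : (0 : ℝ) ≤ 2),
            div_inv_eq_mul, mul_comm]
      _ ≤ 2 * py ^ (-(1 / 4 - s)) := by
          refine mul_le_mul_of_nonneg_right ?_ (by positivity)
          calc (2 : ℝ) ^ (1 / 4 - s) ≤ (2 : ℝ) ^ (1 : ℝ) :=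
                Real.rpow_le_rpow_of_exponent_le (by norm_num) (by linarith)
            _ = 2 := by simp
  have e4 : D ^ (3 / 4 : ℝ) * D ^ (-3 : ℝ) = D ^ (-(s + 2)) * D ^ (-(1 / 4 - s)) := by
    rw [← Real.rpow_add hD, ← Real.rpow_add hD]
    congr 1
    ring
  have e5 : py ^ (-(1 / 4 - s)) = py ^ (-(1 / 4) : ℝ) * py ^ s := by
    rw [← Real.rpow_add hpy]
    congr 1
    ring
  calc pu ^ 2 * D ^ (-3 : ℝ) * pu ^ (-(1 / 4) : ℝ)
      = pu * pu ^ (3 / 4 : ℝ) * D ^ (-3 : ℝ) := by rw [← e1]; ring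
    _ ≤ pu * (2 * D ^ (3 / 4 : ℝ)) * D ^ (-3 : ℝ) := by
        refine mul_le_mul_of_nonneg_right ?_ (by positivity)
        exact mul_le_mul_of_nonneg_left e2 hpu.le
    _ = 2 * pu * (D ^ (3 / 4 : ℝ) * D ^ (-3 : ℝ)) := by ring
    _ = 2 * pu * D ^ (-(s + 2)) * D ^ (-(1 / 4 - s)) := by rw [e4]; ring
    _ ≤ 2 * pu * D ^ (-(s + 2)) * (2 * py ^ (-(1 / 4 - s))) :=
        mul_le_mul_of_nonneg_left e3 (by positivity)
    _ = _ := by rw [e5]; ring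

private lemma C2_kc1 {D pu py s : ℝ} (hD : 0 < D) (hpy : 0 < py) :
    (py / D) ^ s * (pu / D) ^ 1 / D = py ^ s * (pu * D ^ (-(s + 2))) := by
  rw [Real.div_rpow hpy.le hD.le, Real.rpow_neg hD.le, Real.rpow_add hD,
      show (2 : ℝ) = ((2 : ℕ) : ℝ) by norm_num, Real.rpow_natCast]
  have := Real.rpow_pos_of_pos hD s
  field_simp

private lemma C2_symm (x y : E) : ‖1 - ⟪x, y⟫_ℂ‖ = ‖1 - ⟪y, x⟫_ℂ‖ := by
  rw [← Complex.norm_conj (1 - ⟪y, x⟫_ℂ)]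
  simp

/-- Composition of the kernels. Proof. `D = D(u,y)`. Region 1: `D(u,x) ≥ D/4`: `kc s 2 u x ≤ 4^4 (1 - ‖x‖²)^s (1 - ‖u‖²)² D^(-(3+s))`, `(1 - ‖x‖²)^s ≤ 2 D(x,y)^s`, `∫ D(x,y)^(s-(m+2)-1/4) ≤ C (1 - ‖y‖²)^(s-1/4)` (`PV.pv_ker`, `c = 1/4 - s`), and `(1 - ‖u‖²)² D^(-(3+s)) ≤ 2 (1 - ‖u‖²) D^(-(2+s))`.
Region 2: `D(u,x) < D/4`, so `D(x,y) ≥ D/8` (`a_cmp`): `(1 - ‖x‖²)^s ≤ 2 D(u,x)^s`, so `kc s 2 u x ≤ 2 (1 - ‖u‖²)² D(u,x)^(-3)`, `D(u,x)^(-3) ≤ D^(m-1+1/4) D(u,x)^(-(m+2+1/4))` (`m ≥ 1`), `PV.pv_ker` with `c = 1/4` for the point `u`: in all `≤ C (1 - ‖u‖²)^(2-1/4) D^(-13/4+1/4)`; `(1 - ‖u‖²)^(3/4) ≤ 2 D^(3/4)`, so `≤ C (1 - ‖u‖²) D^(-9/4)`, and `D^(-9/4) = D^(-2-s) D^(-(1/4-s)) ≤ 2 D^(-2-s) (1 - ‖y‖²)^(-(1/4-s))`. -/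
theorem kc_comp (μ : Measure E) [μ.IsAddHaarMeasure] {m : ℕ} (hm : 1 ≤ m)
    (hdim : Module.finrank ℂ E = m + 1) {s : ℝ} (hs : 0 < s) (hs1 : s ≤ 1 / 8) :
    ∃ C : ℝ, 0 < C ∧ ∀ u ∈ ball (0 : E) 1, ∀ y ∈ ball (0 : E) 1,
      ∫⁻ x in ball (0 : E) 1, ENNReal.ofReal
        (kc s 2 u x * ‖1 - ⟪x, y⟫_ℂ‖ ^ (-((m : ℝ) + 2 + 1 / 4))) ∂μ ≤
          ENNReal.ofReal (C * (1 - ‖y‖ ^ 2) ^ (-(1 / 4) : ℝ) * kc s 1 u y) := by
  obtain ⟨C1, hC1, hK1⟩ := PV.pv_ker (E := E) μ hm hdim (c := 1 / 4 - s) (by linarith)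
    (by linarith)
  obtain ⟨C2, hC2, hK2⟩ := PV.pv_ker (E := E) μ hm hdim (c := 1 / 4) (by norm_num)
    (by norm_num)
  set p : ℝ := (m : ℝ) + 2 + 1 / 4 with hp
  have hm' : (1 : ℝ) ≤ m := by exact_mod_cast hm
  have hp3 : 3 ≤ p := by rw [hp]; linarith
  refine ⟨1024 * C1 + 8 * 8 ^ p * C2, by positivity, ?_⟩
  intro u hu y hy
  have hu1 : ‖u‖ < 1 := by simpa using hu
  have hy1 : ‖y‖ < 1 := by simpa using hy
  have hpu : 0 < 1 - ‖u‖ ^ 2 := by nlinarith [norm_nonneg u]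
  have hpy : 0 < 1 - ‖y‖ ^ 2 := by nlinarith [norm_nonneg y]
  obtain ⟨hD, hD1, -⟩ := a_pos hu1.le hy1
  obtain ⟨-, hD2, -⟩ := a_pos' hu1 hy1.le
  have hcd : Continuous fun x : E => ‖1 - ⟪x, y⟫_ℂ‖ := by fun_prop
  have hca : Continuous fun x : E => ‖1 - ⟪x, u⟫_ℂ‖ := by fun_prop
  have hkc : kc s 1 u y = (1 - ‖y‖ ^ 2) ^ s *
      ((1 - ‖u‖ ^ 2) * ‖1 - ⟪u, y⟫_ℂ‖ ^ (-(s + 2))) := by
    unfold kc
    exact C2_kc1 hD hpy
  rw [hkc]
  set D : ℝ := ‖1 - ⟪u, y⟫_ℂ‖ with hDd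
  set pu : ℝ := 1 - ‖u‖ ^ 2 with hpud
  set py : ℝ := 1 - ‖y‖ ^ 2 with hpyd
  have nA : 0 ≤ 1024 * (pu * D ^ (-(s + 2))) := by positivity
  have nB : 0 ≤ 2 * 8 ^ p * (pu ^ 2 * D ^ (-3 : ℝ)) := by positivity
  have hstep : ∫⁻ x in ball (0 : E) 1, ENNReal.ofReal
        (kc s 2 u x * ‖1 - ⟪x, y⟫_ℂ‖ ^ (-p)) ∂μ ≤
      ∫⁻ x in ball (0 : E) 1, (ENNReal.ofReal (1024 * (pu * D ^ (-(s + 2)))) *
        ENNReal.ofReal (‖1 - ⟪x, y⟫_ℂ‖ ^ (-((m : ℝ) + 2 + (1 / 4 - s)))) +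
        ENNReal.ofReal (2 * 8 ^ p * (pu ^ 2 * D ^ (-3 : ℝ))) *
        ENNReal.ofReal (‖1 - ⟪x, u⟫_ℂ‖ ^ (-((m : ℝ) + 2 + 1 / 4)))) ∂μ := by
    refine setLIntegral_mono' measurableSet_ball fun x hx => ?_
    have hx1 : ‖x‖ < 1 := by simpa using hx
    have hpx : 0 < 1 - ‖x‖ ^ 2 := by nlinarith [norm_nonneg x]
    obtain ⟨ha, ha1, -⟩ := a_pos hu1.le hx1
    obtain ⟨hd, hd1, -⟩ := a_pos' hx1 hy1.le
    have hcmp := a_cmp hu1.le hx1.le hy1.le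
    have h := C2_pt (p := p) ha hd hD hpx hpu hs hs1 hp3 ha1 hd1 hcmp hD2
    rw [← ENNReal.ofReal_mul nA, ← ENNReal.ofReal_mul nB,
      ← ENNReal.ofReal_add (by positivity) (by positivity)]
    apply ENNReal.ofReal_le_ofReal
    rw [C2_symm x u, show (-((m : ℝ) + 2 + (1 / 4 - s))) = -(p - s) by rw [hp]; ring,
      show (-((m : ℝ) + 2 + 1 / 4)) = -p by rw [hp]]
    unfold kc
    exact h
  refine hstep.trans ?_
  rw [lintegral_add_left (((hcd.measurable.pow_const _).ennreal_ofReal).const_mul _),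
    lintegral_const_mul _ (hcd.measurable.pow_const _).ennreal_ofReal,
    lintegral_const_mul _ (hca.measurable.pow_const _).ennreal_ofReal]
  refine (add_le_add (mul_le_mul_right (hK1 y hy) _) (mul_le_mul_right (hK2 u hu) _)).trans ?_
  rw [← ENNReal.ofReal_mul nA, ← ENNReal.ofReal_mul nB,
      ← ENNReal.ofReal_add (by positivity) (by positivity)]
  apply ENNReal.ofReal_le_ofReal
  have e5 : py ^ (-(1 / 4 - s)) = py ^ (-(1 / 4) : ℝ) * py ^ s := by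
    rw [← Real.rpow_add hpy]
    congr 1
    ring
  have hend := C2_end hD hpu hpy hs hs1 hD2 hD1
  rw [← hpyd, ← hpud, e5]
  have h8 : 0 ≤ 2 * 8 ^ p * C2 := by positivity
  have h9 := mul_le_mul_of_nonneg_left hend h8
  calc 1024 * (pu * D ^ (-(s + 2))) * (C1 * (py ^ (-(1 / 4) : ℝ) * py ^ s)) +
        2 * 8 ^ p * (pu ^ 2 * D ^ (-3 : ℝ)) * (C2 * pu ^ (-(1 / 4) : ℝ))
      = 1024 * C1 * (py ^ (-(1 / 4) : ℝ) * (py ^ s * (pu * D ^ (-(s + 2))))) +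
        2 * 8 ^ p * C2 * (pu ^ 2 * D ^ (-3 : ℝ) * pu ^ (-(1 / 4) : ℝ)) := by ring
    _ ≤ 1024 * C1 * (py ^ (-(1 / 4) : ℝ) * (py ^ s * (pu * D ^ (-(s + 2))))) +
        2 * 8 ^ p * C2 * (4 * (py ^ (-(1 / 4) : ℝ) * (py ^ s * (pu * D ^ (-(s + 2)))))) := by
        linarith
    _ = _ := by ring

private lemma C2_dpos {C : ℝ} (hC : 0 < C) {b : E → ℝ} (hb : Dst C b) {x : E} (hx : ‖x‖ < 1) :
    0 < b x := by
  have h1 := hb.lo x (mem_ball_zero_iff.2 hx)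
  have h2 : 0 < 1 - ‖x‖ ^ 2 := by nlinarith [norm_nonneg x]
  by_contra h3
  have h4 : C * b x ≤ 0 := mul_nonpos_of_nonneg_of_nonpos hC.le (not_lt.1 h3)
  linarith

private lemma C2_dpt {C : ℝ} (hC : 0 < C) {b : E → ℝ} (hb : Dst C b) {x y : E} (hx : ‖x‖ < 1)
    (hy : ‖y‖ < 1) : (1 - ‖x‖ ^ 2) / b x ≤ (4 * C + 2 * C ^ 2) * (‖1 - ⟪x, y⟫_ℂ‖ / b y) := by
  obtain ⟨hA, hxA, -⟩ := a_pos' hx hy.le
  have hbx := C2_dpos hC hb hx
  have hby := C2_dpos hC hb hy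
  have h0 : 0 < 1 - ‖x‖ ^ 2 := by nlinarith [norm_nonneg x]
  have hlo := hb.lo x (mem_ball_zero_iff.2 hx)
  have htri := hb.tri y (mem_ball_zero_iff.2 hy) x (mem_ball_zero_iff.2 hx)
  set A := ‖1 - ⟪x, y⟫_ℂ‖ with hAdef
  have hAy : 0 ≤ A / b y := by positivity
  rcases le_or_gt (b y / (2 * C)) (b x) with h | h
  · have h1 : (1 - ‖x‖ ^ 2) / b x ≤ 4 * C * (A / b y) := by
      calc (1 - ‖x‖ ^ 2) / b x ≤ (2 * A) / (b y / (2 * C)) :=
            div_le_div₀ (by positivity) hxA (by positivity) h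
        _ = 4 * C * (A / b y) := by field_simp; ring
    have h2 : 0 ≤ 2 * C ^ 2 * (A / b y) := by positivity
    calc (1 - ‖x‖ ^ 2) / b x ≤ 4 * C * (A / b y) + 2 * C ^ 2 * (A / b y) := by linarith
      _ = _ := by ring
  · have h1 : C * b x < b y / 2 := by
      calc C * b x < C * (b y / (2 * C)) := mul_lt_mul_of_pos_left h hC
        _ = b y / 2 := by field_simp
    have h2 : b y ≤ 2 * C * A := by nlinarith
    have h3 : 1 ≤ 2 * C * (A / b y) := by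
      have h4 : 2 * C * (A / b y) = 2 * C * A / b y := by ring
      rw [h4, le_div_iff₀ hby]
      linarith
    have h5 : (1 - ‖x‖ ^ 2) / b x ≤ C := by
      rw [div_le_iff₀ hbx]
      exact hlo
    have h6 : 0 ≤ 4 * C * (A / b y) := by positivity
    calc (1 - ‖x‖ ^ 2) / b x ≤ C * 1 := by linarith
      _ ≤ C * (2 * C * (A / b y)) := mul_le_mul_of_nonneg_left h3 hC.le
      _ ≤ 4 * C * (A / b y) + C * (2 * C * (A / b y)) := by linarith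
      _ = _ := by ring

private lemma C2_psi {r : ℕ} {C s : ℝ} (hC : 0 < C) (hs : 0 < s) {b : Fin r → E → ℝ}
    (hb : ∀ i, Dst C (b i)) {x y : E} (hx : ‖x‖ < 1) (hy : ‖y‖ < 1) :
    Psi s b x ≤ (4 * C + 2 * C ^ 2) ^ s * (∑ i, (1 / b i y) ^ s) * ‖1 - ⟪x, y⟫_ℂ‖ ^ s := by
  unfold Psi
  rw [Finset.mul_sum, Finset.sum_mul]
  refine Finset.sum_le_sum fun i _ => ?_
  obtain ⟨hA, -, -⟩ := a_pos' hx hy.le
  have hbx := C2_dpos hC (hb i) hx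
  have hby := C2_dpos hC (hb i) hy
  have h0 : 0 < 1 - ‖x‖ ^ 2 := by nlinarith [norm_nonneg x]
  calc ((1 - ‖x‖ ^ 2) / b i x) ^ s ≤ ((4 * C + 2 * C ^ 2) * (‖1 - ⟪x, y⟫_ℂ‖ / b i y)) ^ s :=
        Real.rpow_le_rpow (by positivity) (C2_dpt hC (hb i) hx hy) hs.le
    _ = ((4 * C + 2 * C ^ 2) * (1 / b i y) * ‖1 - ⟪x, y⟫_ℂ‖) ^ s := by
        congr 1
        ring
    _ = _ := by
        rw [Real.mul_rpow (by positivity) hA.le, Real.mul_rpow (by positivity) (by positivity)]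

private lemma C2_psi0 {r : ℕ} {C s : ℝ} (hC : 0 < C) {b : Fin r → E → ℝ}
    (hb : ∀ i, Dst C (b i)) {x : E} (hx : ‖x‖ < 1) : 0 ≤ Psi s b x := by
  unfold Psi
  refine Finset.sum_nonneg fun i _ => ?_
  have hbx := C2_dpos hC (hb i) hx
  have h0 : 0 < 1 - ‖x‖ ^ 2 := by nlinarith [norm_nonneg x]
  positivity

private lemma C2_unit {m : ℕ} (hdim : Module.finrank ℂ E = m + 1) : ∃ ζ : E, ‖ζ‖ = 1 := by
  have : Nontrivial E := Module.nontrivial_of_finrank_pos (R := ℂ) (by rw [hdim]; omega)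
  let : NormedSpace ℝ E := NormedSpace.restrictScalars ℝ ℂ E
  exact exists_norm_eq E zero_le_one

private lemma C2_meas2 (s p : ℝ) (y : E) : Measurable (fun q : E × E =>
    ENNReal.ofReal (kc s 2 q.2 q.1 * ‖1 - ⟪q.1, y⟫_ℂ‖ ^ (-p))) := by
  have : ProperSpace E := FiniteDimensional.proper_rclike ℂ E
  have hD : Measurable (fun q : E × E => ‖1 - ⟪q.2, q.1⟫_ℂ‖) := by
    have : Continuous (fun q : E × E => ‖1 - ⟪q.2, q.1⟫_ℂ‖) := by fun_prop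
    exact this.measurable
  have hy : Measurable (fun q : E × E => ‖1 - ⟪q.1, y⟫_ℂ‖) := by
    have : Continuous (fun q : E × E => ‖1 - ⟪q.1, y⟫_ℂ‖) := by fun_prop
    exact this.measurable
  have h1 : Measurable (fun q : E × E => 1 - ‖q.1‖ ^ 2) := by
    have : Continuous (fun q : E × E => 1 - ‖q.1‖ ^ 2) := by fun_prop
    exact this.measurable
  have h2 : Measurable (fun q : E × E => 1 - ‖q.2‖ ^ 2) := by
    have : Continuous (fun q : E × E => 1 - ‖q.2‖ ^ 2) := by fun_prop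
    exact this.measurable
  unfold kc
  exact (((((h1.div hD).pow_const s).mul ((h2.div hD).pow_const 2)).div hD).mul
    (hy.pow_const _)).ennreal_ofReal

/-- The potential of the weights. Proof. `lintegral`, Tonelli and `kc_comp` for `Tc`; for `Psi` see the proof of `VK.Om_psi` (VK/D5.lean; its lemma `D5_psi` is private, copy it). -/
theorem pot_Tc (μ : Measure E) [μ.IsAddHaarMeasure] {m : ℕ} (hm : 1 ≤ m)
    (hdim : Module.finrank ℂ E = m + 1) (r : ℕ) {C s : ℝ} (hC : 0 < C) (hs : 0 < s)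
    (hs1 : s ≤ 1 / 8) : ∃ C' : ℝ, 0 < C' ∧ ∀ ν : Measure E, Car ν → ∀ b : Fin r → E → ℝ,
      (∀ i, Dst C (b i)) → ∀ y ∈ ball (0 : E) 1,
      ∫⁻ x in ball (0 : E) 1, ENNReal.ofReal
        ((Tc s 2 ν x + Psi s b x) * ‖1 - ⟪x, y⟫_ℂ‖ ^ (-((m : ℝ) + 2 + 1 / 4))) ∂μ ≤
          ENNReal.ofReal (C' * (1 - ‖y‖ ^ 2) ^ (-(1 / 4) : ℝ) * (Tc s 1 ν y + Psi s b y)) := by
  obtain ⟨C1, hC1, hK1⟩ := PV.pv_ker (E := E) μ hm hdim (c := 1 / 4 - s) (by linarith)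
    (by linarith)
  obtain ⟨C2, hC2, hK2⟩ := kc_comp (E := E) μ hm hdim hs hs1
  have hE := C2_unit (E := E) hdim
  refine ⟨C2 + (4 * C + 2 * C ^ 2) ^ s * C1, by positivity, ?_⟩
  intro ν hν b hb y hy
  have := car_fin hE hν
  have : ProperSpace E := FiniteDimensional.proper_rclike ℂ E
  have hy1 : ‖y‖ < 1 := by simpa using hy
  have hpy : 0 < 1 - ‖y‖ ^ 2 := by nlinarith [norm_nonneg y]
  have hae : ∀ᵐ u ∂ν, u ∈ ball (0 : E) 1 := by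
    rw [ae_iff]
    exact hν.sub
  have hcd : Continuous fun x : E => ‖1 - ⟪x, y⟫_ℂ‖ := by fun_prop
  have hby : ∀ i, 0 < b i y := fun i => C2_dpos hC (hb i) hy1
  obtain ⟨S, hS⟩ : ∃ S : ℝ, S = ∑ i, (1 / b i y) ^ s := ⟨_, rfl⟩
  have hS0 : 0 ≤ S := by
    rw [hS]
    exact Finset.sum_nonneg fun i _ => Real.rpow_nonneg (by have := hby i; positivity) _
  obtain ⟨G, hG⟩ : ∃ G : ℝ, G = (4 * C + 2 * C ^ 2) ^ s * S := ⟨_, rfl⟩
  have hG0 : 0 ≤ G := by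
    rw [hG]
    positivity
  have hT0 := Tc_nonneg hν (s := s) 1 hy
  have hP0 : 0 ≤ Psi s b y := C2_psi0 hC hb hy1
  -- the part of the kernel
  have hA : ∫⁻ x in ball (0 : E) 1, (∫⁻ u, ENNReal.ofReal
      (kc s 2 u x * ‖1 - ⟪x, y⟫_ℂ‖ ^ (-((m : ℝ) + 2 + 1 / 4))) ∂ν) ∂μ ≤
      ENNReal.ofReal (C2 * (1 - ‖y‖ ^ 2) ^ (-(1 / 4) : ℝ) * Tc s 1 ν y) := by
    rw [lintegral_lintegral_swap (C2_meas2 s ((m : ℝ) + 2 + 1 / 4) y).aemeasurable]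
    have h1 : ∫⁻ u, (∫⁻ x in ball (0 : E) 1, ENNReal.ofReal
        (kc s 2 u x * ‖1 - ⟪x, y⟫_ℂ‖ ^ (-((m : ℝ) + 2 + 1 / 4))) ∂μ) ∂ν ≤
        ∫⁻ u, ENNReal.ofReal (C2 * (1 - ‖y‖ ^ 2) ^ (-(1 / 4) : ℝ) * kc s 1 u y) ∂ν := by
      refine lintegral_mono_ae ?_
      filter_upwards [hae] with u hu
      exact hK2 u hu y hy
    refine h1.trans (le_of_eq ?_)
    rw [← ofReal_integral_eq_lintegral_ofReal]
    · rw [integral_const_mul]
      rfl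
    · exact (kc_int hE hν hs.le 1 hy).const_mul _
    · filter_upwards [hae] with u hu
      have hu1 : ‖u‖ < 1 := by simpa using hu
      have := kc_nonneg (s := s) (t := 1) hu1.le hy1.le
      have h2 : 0 ≤ (1 - ‖y‖ ^ 2) ^ (-(1 / 4) : ℝ) := Real.rpow_nonneg hpy.le _
      show 0 ≤ C2 * (1 - ‖y‖ ^ 2) ^ (-(1 / 4) : ℝ) * kc s 1 u y
      positivity
  have hB : ∫⁻ x in ball (0 : E) 1, ENNReal.ofReal G *
      ENNReal.ofReal (‖1 - ⟪x, y⟫_ℂ‖ ^ (-((m : ℝ) + 2 + (1 / 4 - s)))) ∂μ ≤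
      ENNReal.ofReal (G * (C1 * (1 - ‖y‖ ^ 2) ^ (-(1 / 4 - s)))) := by
    rw [lintegral_const_mul _ (hcd.measurable.pow_const _).ennreal_ofReal,
      ENNReal.ofReal_mul hG0]
    exact mul_le_mul_right (hK1 y hy) _
  have hstep : ∫⁻ x in ball (0 : E) 1, ENNReal.ofReal
        ((Tc s 2 ν x + Psi s b x) * ‖1 - ⟪x, y⟫_ℂ‖ ^ (-((m : ℝ) + 2 + 1 / 4))) ∂μ ≤
      ∫⁻ x in ball (0 : E) 1, (ENNReal.ofReal G *
        ENNReal.ofReal (‖1 - ⟪x, y⟫_ℂ‖ ^ (-((m : ℝ) + 2 + (1 / 4 - s)))) +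
        ∫⁻ u, ENNReal.ofReal
          (kc s 2 u x * ‖1 - ⟪x, y⟫_ℂ‖ ^ (-((m : ℝ) + 2 + 1 / 4))) ∂ν) ∂μ := by
    refine setLIntegral_mono' measurableSet_ball fun x hx => ?_
    have hx1 : ‖x‖ < 1 := by simpa using hx
    obtain ⟨hd, -, -⟩ := a_pos' hx1 hy1.le
    have hT := Tc_nonneg hν (s := s) 2 hx
    have hP : 0 ≤ Psi s b x := C2_psi0 hC hb hx1
    have hP1 := C2_psi hC hs hb hx1 hy1
    rw [← hS, ← hG] at hP1
    set Q : ℝ := ‖1 - ⟪x, y⟫_ℂ‖ ^ (-((m : ℝ) + 2 + 1 / 4)) with hQ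
    have hQ0 : 0 ≤ Q := Real.rpow_nonneg hd.le _
    rw [add_mul, add_comm, ENNReal.ofReal_add (by positivity) (by positivity)]
    refine add_le_add ?_ (le_of_eq ?_)
    · rw [← ENNReal.ofReal_mul hG0]
      apply ENNReal.ofReal_le_ofReal
      have e2 : ‖1 - ⟪x, y⟫_ℂ‖ ^ (-((m : ℝ) + 2 + (1 / 4 - s))) =
          ‖1 - ⟪x, y⟫_ℂ‖ ^ s * Q := by
        rw [hQ, ← Real.rpow_add hd]
        congr 1
        ring
      rw [e2, ← mul_assoc]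
      exact mul_le_mul_of_nonneg_right hP1 hQ0
    · unfold Tc
      rw [← integral_mul_const, ofReal_integral_eq_lintegral_ofReal]
      · exact (kc_int hE hν hs.le 2 hx).mul_const _
      · filter_upwards [hae] with u hu
        have hu1 : ‖u‖ < 1 := by simpa using hu
        have := kc_nonneg (s := s) (t := 2) hu1.le hx1.le
        show 0 ≤ kc s 2 u x * Q
        positivity
  refine hstep.trans ?_
  rw [lintegral_add_left (((hcd.measurable.pow_const _).ennreal_ofReal).const_mul _)]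
  refine (add_le_add hB hA).trans ?_
  have hq : 0 ≤ (1 - ‖y‖ ^ 2) ^ (-(1 / 4 - s)) := Real.rpow_nonneg hpy.le _
  have hq2 : 0 ≤ (1 - ‖y‖ ^ 2) ^ (-(1 / 4) : ℝ) := Real.rpow_nonneg hpy.le _
  rw [← ENNReal.ofReal_add (by positivity) (by positivity)]
  apply ENNReal.ofReal_le_ofReal
  have e5 : (1 - ‖y‖ ^ 2) ^ (-(1 / 4 - s)) =
      (1 - ‖y‖ ^ 2) ^ (-(1 / 4) : ℝ) * (1 - ‖y‖ ^ 2) ^ s := by
    rw [← Real.rpow_add hpy]
    congr 1
    ring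
  have h2 : Psi s b y = S * (1 - ‖y‖ ^ 2) ^ s := by
    unfold Psi
    rw [hS, Finset.sum_mul]
    refine Finset.sum_congr rfl fun i _ => ?_
    have := hby i
    rw [← Real.mul_rpow (by positivity) hpy.le]
    congr 1
    ring
  have hK0 : 0 ≤ (4 * C + 2 * C ^ 2) ^ s := by positivity
  calc G * (C1 * (1 - ‖y‖ ^ 2) ^ (-(1 / 4 - s))) +
        C2 * (1 - ‖y‖ ^ 2) ^ (-(1 / 4) : ℝ) * Tc s 1 ν y
      = (4 * C + 2 * C ^ 2) ^ s * C1 * ((1 - ‖y‖ ^ 2) ^ (-(1 / 4) : ℝ) * Psi s b y) +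
        C2 * ((1 - ‖y‖ ^ 2) ^ (-(1 / 4) : ℝ) * Tc s 1 ν y) := by
        rw [e5, h2, hG]; ring
    _ ≤ (4 * C + 2 * C ^ 2) ^ s * C1 * ((1 - ‖y‖ ^ 2) ^ (-(1 / 4) : ℝ) * Psi s b y) +
        C2 * ((1 - ‖y‖ ^ 2) ^ (-(1 / 4) : ℝ) * Tc s 1 ν y) +
        ((4 * C + 2 * C ^ 2) ^ s * C1 * ((1 - ‖y‖ ^ 2) ^ (-(1 / 4) : ℝ) * Tc s 1 ν y) +
        C2 * ((1 - ‖y‖ ^ 2) ^ (-(1 / 4) : ℝ) * Psi s b y)) :=
        le_add_of_nonneg_right (by positivity)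
    _ = _ := by ring

end Pool.Agent.MPca0fc2.CE
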