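import Mathlib
import Pool.Agent.Lib.MP_ca0fc2_an.CE.C1
import Pool.Agent.Lib.MP_ca0fc2_an.CE.B1

set_option autoImplicit false
set_option linter.unusedSectionVars false

open Metric Set MeasureTheory Filter Topology
open scoped InnerProductSpace ENNReal ContDiff

namespace Pool.Agent.MPca0fc2.CE

open Pool.Agent.MPca0fc2.PT
open Pool.Agent.MPca0fc2.QT
open Pool.Agent.MPca0fc2.TS
open Pool.Agent.MPca0fc2.TE
open Pool.Agent.MPca0fc2.TK
open Pool.Agent.MPca0fc2.VK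

variable {E : Type*} [NormedAddCommGroup E] [InnerProductSpace ℂ E] [FiniteDimensional ℂ E]
  [MeasurableSpace E] [BorelSpace E]

private theorem C3_dist {x y : E} (hx : x ∈ ball (0 : E) 1) (hy : y ∈ ball (0 : E) 1) :
    0 < 1 - ‖x‖ ^ 2 ∧ 0 < 1 - ‖y‖ ^ 2 ∧ 1 - ‖x‖ ^ 2 ≤ 2 * ‖1 - ⟪x, y⟫_ℂ‖ ∧
      1 - ‖y‖ ^ 2 ≤ 2 * ‖1 - ⟪x, y⟫_ℂ‖ := by
  rw [mem_ball_zero_iff] at hx hy
  have h1 : ‖(1 : ℂ)‖ - ‖⟪x, y⟫_ℂ‖ ≤ ‖1 - ⟪x, y⟫_ℂ‖ := norm_sub_norm_le _ _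
  have h2 : ‖⟪x, y⟫_ℂ‖ ≤ ‖x‖ * ‖y‖ := norm_inner_le_norm x y
  rw [norm_one] at h1
  have h3 := norm_nonneg x
  have h4 := norm_nonneg y
  refine ⟨by nlinarith, by nlinarith, ?_, ?_⟩
  · nlinarith [sq_nonneg (‖x‖ - ‖y‖)]
  · nlinarith [sq_nonneg (‖x‖ - ‖y‖)]

private theorem C3_bpos {C : ℝ} {a : E → ℝ} (h : Dst C a) (hC : 0 < C) {z : E}
    (hz : z ∈ ball (0 : E) 1) : 0 < a z := by
  have h1 := h.lo z hz
  have h2 : ‖z‖ < 1 := by simpa using hz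
  have h3 : 0 < 1 - ‖z‖ ^ 2 := by nlinarith [norm_nonneg z]
  exact (mul_pos_iff_of_pos_left hC).1 (lt_of_lt_of_le h3 h1)

private theorem C3_quot {ax ay C κ D X : ℝ} (hC : 0 < C) (hax : 0 < ax)
    (hay : 0 < ay) (hX : 0 < X) (hD : X ≤ 2 * D) (hlo : X ≤ κ * ax) (htri : ay ≤ C * (ax + D)) :
    1 / ax ≤ C * (2 + κ) * (1 / ay) * (D / X) := by
  have hD0 : 0 < D := by linarith
  have hU : 0 < D / X := div_pos hD0 hX
  have h1 : ax ≤ 2 * (D / X) * ax := by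
    have h2 : 1 ≤ 2 * (D / X) := by
      rw [← mul_div_assoc, le_div_iff₀ hX]
      linarith
    nlinarith
  have h2 : D ≤ (D / X) * (κ * ax) := by
    calc D = (D / X) * X := by field_simp
      _ ≤ (D / X) * (κ * ax) := mul_le_mul_of_nonneg_left hlo hU.le
  have h3 : ay ≤ C * (2 + κ) * (D / X) * ax := by
    calc ay ≤ C * (ax + D) := htri
      _ ≤ C * (2 * (D / X) * ax + (D / X) * (κ * ax)) := by gcongr
      _ = C * (2 + κ) * (D / X) * ax := by ring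
  rw [div_le_iff₀ hax]
  calc (1 : ℝ) = ay * (1 / ay) := by field_simp
    _ ≤ (C * (2 + κ) * (D / X) * ax) * (1 / ay) := by gcongr
    _ = C * (2 + κ) * (1 / ay) * (D / X) * ax := by ring

private theorem C3_pow1 {U s : ℝ} (hU : 1 / 2 ≤ U) (hs : 0 < s) (hs1 : s ≤ 1 / 8) :
    U ^ s ≤ 2 * U := by
  rcases le_total 1 U with h | h
  · calc U ^ s ≤ U ^ (1 : ℝ) := Real.rpow_le_rpow_of_exponent_le h (by linarith)
      _ = U := Real.rpow_one U
      _ ≤ 2 * U := by linarith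
  · have h1 : U ^ s ≤ 1 := Real.rpow_le_one (by linarith) h hs.le
    linarith

private theorem C3_pow2 {W s : ℝ} (hW : 1 / 2 ≤ W) (hs : 0 < s) (hs1 : s ≤ 1 / 8) :
    W ^ s ≤ 2 * W ^ (1 / 8 : ℝ) := by
  rcases le_total 1 W with h | h
  · have h1 : W ^ s ≤ W ^ (1 / 8 : ℝ) := Real.rpow_le_rpow_of_exponent_le h hs1
    have h2 : 0 ≤ W ^ (1 / 8 : ℝ) := by positivity
    linarith
  · have h1 : W ^ s ≤ 1 := Real.rpow_le_one (by linarith) h hs.le
    have h2 : W ≤ W ^ (1 / 8 : ℝ) := by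
      calc W = W ^ (1 : ℝ) := (Real.rpow_one W).symm
        _ ≤ W ^ (1 / 8 : ℝ) := Real.rpow_le_rpow_of_exponent_ge (by linarith) h (by norm_num)
    linarith

private theorem C3_psi {r : ℕ} {C s : ℝ} (hC : 0 < C) (hs : 0 < s) (hs1 : s ≤ 1 / 8)
    {b : Fin r → E → ℝ} (hb : ∀ i, Dst C (b i)) {x y : E} (hx : x ∈ ball (0 : E) 1)
    (hy : y ∈ ball (0 : E) 1) :
    Psi s b x ≤ (4 * (2 * (C * (2 + C))) ^ s) * Psi s b y *
      ((‖1 - ⟪x, y⟫_ℂ‖ / (1 - ‖x‖ ^ 2)) * (‖1 - ⟪x, y⟫_ℂ‖ / (1 - ‖y‖ ^ 2)) ^ (1 / 8 : ℝ)) := by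
  have hbpos : ∀ i, ∀ z ∈ ball (0 : E) 1, 0 < b i z := fun i z hz => C3_bpos (hb i) hC hz
  obtain ⟨hX, hY, hDX, hDY⟩ := C3_dist hx hy
  set D : ℝ := ‖1 - ⟪x, y⟫_ℂ‖ with hDdef
  set X : ℝ := 1 - ‖x‖ ^ 2 with hXdef
  set Y : ℝ := 1 - ‖y‖ ^ 2 with hYdef
  have hD0 : 0 < D := by linarith
  set U : ℝ := D / X with hUdef
  set W : ℝ := D / Y with hWdef
  have hU0 : 0 < U := div_pos hD0 hX
  have hW0 : 0 < W := div_pos hD0 hY
  have hU : 1 / 2 ≤ U := by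
    rw [hUdef, le_div_iff₀ hX]; linarith
  have hW : 1 / 2 ≤ W := by
    rw [hWdef, le_div_iff₀ hY]; linarith
  have hYW : D = Y * W := by rw [hWdef]; field_simp
  unfold Psi
  rw [Finset.mul_sum, Finset.sum_mul]
  refine Finset.sum_le_sum fun i _ => ?_
  have hbx := hbpos i x hx
  have hby := hbpos i y hy
  have h1 : 1 / b i x ≤ C * (2 + C) * (1 / b i y) * U :=
    C3_quot hC hbx hby hX hDX ((hb i).lo x hx) ((hb i).tri y hy x hx)
  have h2 : X / b i x ≤ (2 * (C * (2 + C))) * (Y / b i y) * (U * W) := by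
    calc X / b i x = X * (1 / b i x) := by ring
      _ ≤ (2 * D) * (C * (2 + C) * (1 / b i y) * U) :=
          mul_le_mul hDX h1 (by positivity) (by positivity)
      _ = (2 * (C * (2 + C))) * (Y / b i y) * (U * W) := by
          rw [hYW]; ring
  calc (X / b i x) ^ s ≤ ((2 * (C * (2 + C))) * (Y / b i y) * (U * W)) ^ s :=
        Real.rpow_le_rpow (by positivity) h2 hs.le
    _ = (2 * (C * (2 + C))) ^ s * (Y / b i y) ^ s * (U ^ s * W ^ s) := by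
        rw [Real.mul_rpow (by positivity) (by positivity),
          Real.mul_rpow (by positivity) (by positivity),
          Real.mul_rpow hU0.le hW0.le]
    _ ≤ (2 * (C * (2 + C))) ^ s * (Y / b i y) ^ s * ((2 * U) * (2 * W ^ (1 / 8 : ℝ))) := by
        have h3 := C3_pow1 hU hs hs1
        have h4 := C3_pow2 hW hs hs1
        gcongr
    _ = (4 * (2 * (C * (2 + C))) ^ s) * (Y / b i y) ^ s * (U * W ^ (1 / 8 : ℝ)) := by ring

/-- The weight divided by the compensating function. Proof. `Tc_osc` (`t = 1`, exponents `3` and `s ≤ 1/8`; `D/(1 - ‖y‖²) ≥ 1/2`), the analogue for `Psi` (`D2_quot`, `D2_pow2` in VK/D2.lean are private, copy them: `((1 - ‖x‖²)/b x)^s ≤ C ((1 - ‖y‖²)/b y)^s U W^(1/8)`), and `fc_exp`: exponents add (all the quotients are `≥ 1/2`). Continuity: `Tc_cont`, `Dst.cont`, `fc_holo`. -/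
theorem VW_Tc (hE : ∃ ζ : E, ‖ζ‖ = 1) (r : ℕ) {C s : ℝ} (hC : 0 < C) (hs : 0 < s)
    (hs1 : s ≤ 1 / 8) : ∃ (J : ℕ) (C' : ℝ), 0 < C' ∧ ∀ ν : Measure E, Car ν → ν ≠ 0 →
      ∀ b : Fin r → E → ℝ, (∀ i, Dst C (b i)) → ∀ Λ : ℝ, 0 < Λ →
      VW J C' fun z => Λ * (Tc s 1 ν z + Psi s b z) * Real.exp (Fc ν z).re := by
  obtain ⟨C1, hC1, h1⟩ := Tc_osc (E := E) hE hs (by linarith) 1
  obtain ⟨J2, C2, hC2, h2⟩ := fc_exp (E := E) hE
  refine ⟨3 + J2, (2 * C1 + 4 * (4 * (2 * (C * (2 + C))) ^ s)) * C2, by positivity, ?_⟩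
  intro ν hν h0 b hb Λ hΛ
  have hbpos : ∀ i, ∀ z ∈ ball (0 : E) 1, 0 < b i z := fun i z hz => C3_bpos (hb i) hC hz
  have hPnn : ∀ z ∈ ball (0 : E) 1, 0 ≤ Psi s b z := by
    intro z hz
    have h3 := (C3_dist hz hz).1
    exact Finset.sum_nonneg fun i _ => (Real.rpow_pos_of_pos (div_pos h3 (hbpos i z hz)) s).le
  have hTpos : ∀ z ∈ ball (0 : E) 1, 0 < Tc s 1 ν z := fun z hz => Tc_pos hE hν h0 hs 1 hz
  refine ⟨?_, ?_, ?_⟩
  · -- continuity
    refine ContinuousOn.mul (continuousOn_const.mul ((Tc_cont hE hν hs 1).add ?_)) ?_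
    · refine continuousOn_finsetSum _ fun i _ => ?_
      refine ContinuousOn.rpow_const ?_ fun z _ => Or.inr hs.le
      refine ContinuousOn.div ?_ (hb i).cont fun z hz => (hbpos i z hz).ne'
      exact (continuous_const.sub (continuous_norm.pow 2)).continuousOn
    · exact Real.continuous_exp.comp_continuousOn
        (Complex.continuous_re.comp_continuousOn (fc_holo hE hν).continuousOn)
  · intro z hz
    exact mul_pos (mul_pos hΛ (add_pos_of_pos_of_nonneg (hTpos z hz) (hPnn z hz)))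
      (Real.exp_pos _)
  · intro x hx y hy
    have hT := h1 ν hν x hx y hy
    have hF := h2 ν hν x hx y hy
    have hP := C3_psi hC hs hs1 hb hx hy
    obtain ⟨hX, hY, hDX, hDY⟩ := C3_dist hx hy
    have hTy := hTpos y hy
    have hPy := hPnn y hy
    set D : ℝ := ‖1 - ⟪x, y⟫_ℂ‖ with hDdef
    set X : ℝ := 1 - ‖x‖ ^ 2 with hXdef
    set Y : ℝ := 1 - ‖y‖ ^ 2 with hYdef
    have hD0 : 0 < D := by linarith
    set U : ℝ := D / X with hUdef
    set W : ℝ := D / Y with hWdef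
    have hU0 : 0 < U := div_pos hD0 hX
    have hW0 : 0 < W := div_pos hD0 hY
    have hU : 1 / 2 ≤ U := by
      rw [hUdef, le_div_iff₀ hX]; linarith
    have hW : 1 / 2 ≤ W := by
      rw [hWdef, le_div_iff₀ hY]; linarith
    have hWs := C3_pow2 hW hs hs1
    have hU3 : U ≤ 4 * U ^ 3 := by
      have h3 : 1 ≤ 4 * U ^ 2 := by nlinarith
      nlinarith
    set K : ℝ := 4 * (2 * (C * (2 + C))) ^ s with hKdef
    have hK : 0 < K := by positivity
    set V : ℝ := W ^ (1 / 8 : ℝ) with hVdef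
    have hV : 0 < V := Real.rpow_pos_of_pos hW0 _
    have hT' : Tc s 1 ν x ≤ 2 * C1 * Tc s 1 ν y * (U ^ 3 * V) := by
      calc Tc s 1 ν x ≤ C1 * Tc s 1 ν y * (U ^ (1 + 2) * W ^ s) := hT
        _ ≤ C1 * Tc s 1 ν y * (U ^ (1 + 2) * (2 * V)) := by gcongr
        _ = 2 * C1 * Tc s 1 ν y * (U ^ 3 * V) := by ring
    have hP' : Psi s b x ≤ 4 * K * Psi s b y * (U ^ 3 * V) := by
      calc Psi s b x ≤ K * Psi s b y * (U * V) := hP
        _ ≤ K * Psi s b y * ((4 * U ^ 3) * V) := by gcongr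
        _ = 4 * K * Psi s b y * (U ^ 3 * V) := by ring
    have hS : Tc s 1 ν x + Psi s b x ≤
        (2 * C1 + 4 * K) * (Tc s 1 ν y + Psi s b y) * (U ^ 3 * V) := by
      have h3 : 0 ≤ 4 * K * Tc s 1 ν y * (U ^ 3 * V) := by positivity
      have h4 : 0 ≤ 2 * C1 * Psi s b y * (U ^ 3 * V) := by positivity
      have h5 : (2 * C1 + 4 * K) * (Tc s 1 ν y + Psi s b y) * (U ^ 3 * V) =
          2 * C1 * Tc s 1 ν y * (U ^ 3 * V) + 4 * K * Psi s b y * (U ^ 3 * V) +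
            (4 * K * Tc s 1 ν y * (U ^ 3 * V) + 2 * C1 * Psi s b y * (U ^ 3 * V)) := by ring
      rw [h5]
      linarith
    have hE' : Real.exp (Fc ν x).re ≤ C2 * U ^ J2 * Real.exp (Fc ν y).re := by
      have h3 : Real.exp (Fc ν x).re =
          Real.exp ((Fc ν x).re - (Fc ν y).re) * Real.exp (Fc ν y).re := by
        rw [← Real.exp_add]; congr 1; ring
      rw [h3]
      exact mul_le_mul_of_nonneg_right hF (Real.exp_pos _).le
    have hEy := Real.exp_pos (Fc ν y).re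
    have hEx := Real.exp_pos (Fc ν x).re
    calc Λ * (Tc s 1 ν x + Psi s b x) * Real.exp (Fc ν x).re
        ≤ Λ * ((2 * C1 + 4 * K) * (Tc s 1 ν y + Psi s b y) * (U ^ 3 * V)) *
            (C2 * U ^ J2 * Real.exp (Fc ν y).re) := by
          refine mul_le_mul (mul_le_mul_of_nonneg_left hS hΛ.le) hE' hEx.le ?_
          positivity
      _ = (2 * C1 + 4 * K) * C2 * (Λ * (Tc s 1 ν y + Psi s b y) * Real.exp (Fc ν y).re) *
            (U ^ (3 + J2) * V) := by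
          rw [pow_add]; ring


end Pool.Agent.MPca0fc2.CE
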