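import Mathlib
import Pool.Agent.Lib.MP_ca0fc2_an.CE.C2
import Pool.Agent.Lib.MP_ca0fc2_an.CE.C3
import Pool.Agent.Lib.MP_ca0fc2_an.CE.B4
import Pool.Agent.Lib.MP_ca0fc2_an.VK.V6

set_option autoImplicit false
set_option linter.unusedSectionVars false

open Metric Set MeasureTheory Filter Topology
open scoped InnerProductSpace ENNReal ContDiff

namespace Pool.Agent.MPca0fc2.CE

open Pool.Agent.MPca0fc2.PT
open Pool.Agent.MPca0fc2.QT
open Pool.Agent.MPca0fc2.TS
open Pool.Agent.MPca0fc2.TE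
open Pool.Agent.MPca0fc2.TK
open Pool.Agent.MPca0fc2.VK

variable {E : Type*} [NormedAddCommGroup E] [InnerProductSpace ℂ E] [FiniteDimensional ℂ E]
  [MeasurableSpace E] [BorelSpace E]

/-- The measure can be taken nonzero: `ν' = (1/2) • (ν + dirac 0)`; `kc s t 0 z = (1 - ‖z‖²)^s`. -/
theorem car_half (hE : ∃ ζ : E, ‖ζ‖ = 1) {ν : Measure E} (hν : Car ν) : ∃ ν' : Measure E,
    Car ν' ∧ ν' ≠ 0 ∧ ∀ s : ℝ, 0 ≤ s → ∀ t : ℕ, ∀ z ∈ ball (0 : E) 1,
      Tc s t ν z ≤ 2 * Tc s t ν' z := by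
  refine ⟨(2⁻¹ : ℝ≥0∞) • (ν + Measure.dirac 0), ⟨?_, ?_⟩, ?_, ?_⟩
  · rw [Measure.smul_apply, Measure.add_apply, hν.sub,
      Measure.dirac_apply' _ measurableSet_ball.compl]
    simp
  · intro ζ hζ r hr
    rw [Measure.smul_apply, Measure.add_apply]
    have hm : MeasurableSet {u : E | ‖1 - ⟪u, ζ⟫_ℂ‖ < r} := by
      refine (isOpen_lt ?_ continuous_const).measurableSet
      fun_prop
    have h1 : Measure.dirac (0 : E) {u : E | ‖1 - ⟪u, ζ⟫_ℂ‖ < r} ≤ ENNReal.ofReal r := by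
      by_cases h : 1 < r
      · refine prob_le_one.trans ?_
        rw [← ENNReal.ofReal_one]
        exact ENNReal.ofReal_le_ofReal h.le
      · rw [Measure.dirac_apply' _ hm, Set.indicator_of_notMem]
        · exact zero_le
        · simpa using h
    have h2 := hν.car ζ hζ r hr
    calc (2⁻¹ : ℝ≥0∞) • (ν {u : E | ‖1 - ⟪u, ζ⟫_ℂ‖ < r} +
          Measure.dirac (0 : E) {u : E | ‖1 - ⟪u, ζ⟫_ℂ‖ < r})
        ≤ (2⁻¹ : ℝ≥0∞) * (ENNReal.ofReal r + ENNReal.ofReal r) := by
          rw [smul_eq_mul]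
          gcongr
      _ = ENNReal.ofReal r := by
          rw [← two_mul, ← mul_assoc, ENNReal.inv_mul_cancel (by norm_num) (by norm_num), one_mul]
  · intro h
    have h1 : ((2⁻¹ : ℝ≥0∞) • (ν + Measure.dirac (0 : E))) univ = 0 := by
      rw [h]
      simp
    rw [Measure.smul_apply, Measure.add_apply, Measure.dirac_apply' _ MeasurableSet.univ] at h1
    simp at h1
  · intro s hs t z hz
    have hfin := car_fin hE hν
    have h1 : Integrable (fun u => kc s t u z) ν := kc_int hE hν hs t hz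
    have h2 : Integrable (fun u => kc s t u z) (Measure.dirac (0 : E)) :=
      integrable_dirac (by simp)
    have h3 : Tc s t ((2⁻¹ : ℝ≥0∞) • (ν + Measure.dirac (0 : E))) z =
        2⁻¹ * (Tc s t ν z + kc s t 0 z) := by
      unfold Tc
      rw [integral_smul_measure, integral_add_measure h1 h2, integral_dirac]
      simp
    have h4 : 0 ≤ kc s t 0 z := by
      refine kc_nonneg (by simp) ?_
      rw [mem_ball_zero_iff] at hz
      exact hz.le
    rw [h3]
    linarith

end Pool.Agent.MPca0fc2.CE
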