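import Mathlib
import Pool.Agent.Lib.MP_ca0fc2_an.VK.V5
import Pool.Agent.Lib.MP_ca0fc2_an.VK.V6
import Pool.Agent.Lib.MP_ca0fc2_an.VK.V6a
import Pool.Agent.Lib.MP_ca0fc2_an.PV.Q1

set_option autoImplicit false
set_option linter.unusedSectionVars false

open Metric Set MeasureTheory Filter Topology
open scoped InnerProductSpace ENNReal ContDiff

namespace Pool.Agent.MPca0fc2.CE

open Pool.Agent.MPca0fc2.PT
open Pool.Agent.MPca0fc2.QT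
open Pool.Agent.MPca0fc2.TS
open Pool.Agent.MPca0fc2.TE
open Pool.Agent.MPca0fc2.TK
open Pool.Agent.MPca0fc2.VK
open Pool.Agent.MPca0fc2.PV

variable {E : Type*} [NormedAddCommGroup E] [InnerProductSpace ℂ E] [FiniteDimensional ℂ E]
  [MeasurableSpace E] [BorelSpace E]

private theorem F1_rt {θ : ℝ} (h0 : 0 < θ) (h1 : θ < 1) :
    Tendsto (fun K : ℕ => PT.rt θ K) atTop (𝓝 1) := by
  have h := (tendsto_pow_atTop_nhds_zero_of_lt_one h0.le h1).const_sub 1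
  rw [sub_zero] at h
  exact h

private theorem F1_pt {θ : ℝ} (h0 : 0 < θ) (h1 : θ < 1) (z : E) :
    Tendsto (fun K : ℕ => ((PT.rt θ K : ℝ) : ℂ) • z) atTop (𝓝 z) := by
  have h2 : Tendsto (fun K : ℕ => ((PT.rt θ K : ℝ) : ℂ)) atTop (𝓝 ((1 : ℝ) : ℂ)) :=
    (Complex.continuous_ofReal.tendsto 1).comp (F1_rt h0 h1)
  have h3 := h2.smul_const z
  rw [Complex.ofReal_one, one_smul] at h3
  exact h3

private theorem F1_lim {θ : ℝ} (h0 : 0 < θ) (h1 : θ < 1) {F : Type*} [TopologicalSpace F] {Φ : E → F}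
    (hΦ : ContinuousOn Φ (ball 0 1)) {z : E} (hz : z ∈ ball (0 : E) 1) :
    Tendsto (fun K : ℕ => Φ (((PT.rt θ K : ℝ) : ℂ) • z)) atTop (𝓝 (Φ z)) :=
  ((hΦ.continuousAt (isOpen_ball.mem_nhds hz)).tendsto).comp (F1_pt h0 h1 z)

/-- `PV.smooth_hol` (PV/Q1.lean) with the weights of `VK.extendV` (VK/V6.lean). Proof. As `Q1_gen`: `Q1_LD` gives the data of the descent, `levelV` instead of `levelE`, and the limit as in the proof of `VK.extendV` (`limitE`, `locV`, `GI_upV`, `Om_cont`, `GI_lim`; copy the private lemmas with the prefix `F1_`). -/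
theorem smooth_holV (μ : Measure E) [μ.IsAddHaarMeasure] {m : ℕ} (hm : 1 ≤ m)
    (hdim : Module.finrank ℂ E = m + 1) {M : ℕ} {N : ℕ} {δ : ℝ} (hδ : 0 < δ)
    {f : Fin N → E → ℂ} (hf : ∀ j, DifferentiableOn ℂ (f j) (ball 0 1))
    (hfδ : ∀ z ∈ ball (0 : E) 1, δ ≤ ∑ j, ‖f j z‖ ^ 2 ∧ ∑ j, ‖f j z‖ ^ 2 ≤ 1)
    {P : E →L[ℂ] E} (hP : Prj P) {g : Fin N → E → ℂ}
    (hg : ∀ j, DifferentiableOn ℂ (fun z => g j (P z)) (ball 0 1)) {ν : Measure E} (hν : OnB ν)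
    {C₀ : ℝ} (hOm : ∀ y ∈ ball (0 : E) 1, Om ν M y ≤ C₀) {H : E → Fin N → ℂ}
    (hH : ContDiffOn ℝ 2 H (ball 0 1)) (hHC : ∀ z ∈ ball (0 : E) 1, ‖H z‖ ≤ C₀)
    (hsol : ∀ z ∈ ball (0 : E) 1, ∑ j, f j z * H z j = 1)
    (hHg : ∀ z ∈ ball (0 : E) 1, ∀ j, H (P z) j = g j (P z))
    (hD : ∀ z ∈ ball (0 : E) 1, ∀ ξ : E,
      ‖D01 H z ξ‖ ≤ C₀ * Om ν M z * gau (1 - ‖z‖ ^ 2) z ξ) {J : ℕ} {C : ℝ} (hC : 0 < C)
    {G : E → ℂ} (hG : DifferentiableOn ℂ G (ball 0 1)) (hG0 : ∀ z ∈ ball (0 : E) 1, G z ≠ 0)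
    (hGp : ∃ (a : ℕ) (c : ℝ), ∀ z ∈ ball (0 : E) 1, ‖G z‖ ≤ c * (1 / (1 - ‖z‖ ^ 2)) ^ a)
    {Q : E → ℝ} (hQ : VW J C Q) (hOQ : ∀ y ∈ ball (0 : E) 1, Om ν M y ≤ Q y * ‖G y‖) :
    ∃ (h : Fin N → E → ℂ) (C' : ℝ), 0 < C' ∧ (∀ j, DifferentiableOn ℂ (h j) (ball 0 1)) ∧
      ∀ z ∈ ball (0 : E) 1, ∑ j, f j z * h j z = 1 ∧ (∀ j, h j (P z) = g j (P z)) ∧
        ∀ j, ‖h j z‖ ≤ C' * (1 + ‖G z‖ * (Q z + GI Q P z)) := by
  have hN0 : (0 : ℝ) ≤ N := Nat.cast_nonneg N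
  have hC0 : 0 ≤ C₀ := (Om_nonneg (by simp)).trans (hOm 0 (by simp))
  have hfM : ∀ j, ∀ z ∈ ball (0 : E) 1, ‖f j z‖ ≤ 1 := by
    intro j z hz
    have e1 : ‖f j z‖ ^ 2 ≤ 1 :=
      (Finset.single_le_sum (f := fun j => ‖f j z‖ ^ 2) (fun i _ => sq_nonneg _)
        (Finset.mem_univ j)).trans (hfδ z hz).2
    have e2 : 0 ≤ ‖f j z‖ := norm_nonneg _
    nlinarith
  obtain ⟨θ, h0, h1, hTD⟩ := exists_theta (E := E) N hδ
  have hT : TD f δ θ := hTD f hf hfM fun z hz => (hfδ z hz).1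
  obtain ⟨C₁, hC₁, hlev⟩ := levelV μ hm hdim N h0 h1 (C₀ := C₀ + C₀ + N + 1) (by positivity) M J hC
  obtain ⟨B₂, hB₂, hGI⟩ := GI_upV μ hm hdim J hC
  obtain ⟨a, c, hloc⟩ := locV μ hm hdim h0 h1 J hC hGp hQ
  have hνQ : OnB (nuV μ J Q) := nuV_OnB μ hQ
  have hpos : ∀ z ∈ ball (0 : E) 1, 0 < 1 - ‖z‖ ^ 2 := by
    intro z hz
    rw [mem_ball_zero_iff] at hz
    nlinarith [norm_nonneg z]
  have hΦc : ContinuousOn (fun z : E => C₁ * (1 + c * (1 / (1 - ‖z‖ ^ 2)) ^ a)) (ball 0 1) := by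
    refine continuousOn_const.mul (continuousOn_const.add (continuousOn_const.mul
      ((continuousOn_const.div ?_ ?_).pow a)))
    · exact (continuous_const.sub (continuous_norm.pow 2)).continuousOn
    · intro z hz
      exact (hpos z hz).ne'
  obtain ⟨h, hh, hh'⟩ := limitE (f := f) (θ := θ) h0 h1 hf hP hg
    (B := fun K z => C₁ * (1 + ‖G ((PT.rt θ K : ℂ) • z)‖ *
      (Wk (nuV μ J Q) (m + 2 + J) θ K z + GI (Wk (nuV μ J Q) (m + 2 + J) θ K) P z)))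
    (B' := fun z => C₁ * (1 + ‖G z‖ *
      (Om (nuV μ J Q) (m + 2 + J) z + GI (Om (nuV μ J Q) (m + 2 + J)) P z)))
    (Φ := fun z => C₁ * (1 + c * (1 / (1 - ‖z‖ ^ 2)) ^ a)) hΦc
    (fun K z hz => by
      have h4 := hloc P hP K z hz
      exact mul_le_mul_of_nonneg_left (by linarith) hC₁.le)
    (fun z hz => by
      have hz1 : ‖z‖ < 1 := mem_ball_zero_iff.mp hz
      have e1 := (F1_lim h0 h1 hG.continuousOn hz).norm
      have e2 : Tendsto (fun K => Wk (nuV μ J Q) (m + 2 + J) θ K z) atTop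
          (𝓝 (Om (nuV μ J Q) (m + 2 + J) z)) := by
        have e3 := F1_lim h0 h1 (Om_cont hνQ (m + 2 + J)) hz
        refine e3.congr fun K => ?_
        rw [Wk_eq]
      have e4 := GI_lim hP hνQ (m + 2 + J) h0 h1 hz1
      exact (tendsto_const_nhds.add (e1.mul (e2.add e4))).const_mul C₁)
    (fun K hK => by
      obtain ⟨σ, hσ, hσP⟩ := Q1_LD hT (ν := ν) (M := M) hP hg hC0 hC0 hOm hH
        (fun z hz => ⟨hsol z hz, hHC z hz, hHg z hz, hD z hz⟩) K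
      obtain ⟨H', hH', hH''⟩ := hlev _ hν K hK P σ (FF f θ K) hσ G hG hG0 Q hQ hOQ
      refine ⟨H', hH', fun z hz => ?_⟩
      obtain ⟨a1, a2, a3⟩ := hH'' z hz
      refine ⟨?_, fun j => ?_, a3⟩
      · rw [← a1]
        unfold FF
        simp only [ContinuousLinearMap.sum_apply, ContinuousLinearMap.smul_apply,
          ContinuousLinearMap.proj_apply, smul_eq_mul]
      · rw [a2 j, hσP z hz j])
  refine ⟨h, C₁ * (1 + B₂), by positivity, hh, fun z hz => ?_⟩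
  obtain ⟨a1, a2, a3⟩ := hh' z hz
  refine ⟨a1, a2, fun j => (a3 j).trans ?_⟩
  have hz1 : ‖z‖ < 1 := mem_ball_zero_iff.mp hz
  have b1 := hGI Q hQ P hP z hz
  have b3 : 0 ≤ GI Q P z := GI_nonneg hP (fun y hy => (hQ.pos y hy).le) hz1
  have b4 : 0 ≤ Q z := (hQ.pos z hz).le
  have b5 := mul_le_mul_of_nonneg_left b1 (norm_nonneg (G z))
  have b6 : 0 ≤ ‖G z‖ * (Q z + GI Q P z) := mul_nonneg (norm_nonneg _) (add_nonneg b4 b3)
  change C₁ * (1 + ‖G z‖ * (Om (nuV μ J Q) (m + 2 + J) z +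
    GI (Om (nuV μ J Q) (m + 2 + J)) P z)) ≤ _
  rw [mul_assoc]
  refine mul_le_mul_of_nonneg_left ?_ hC₁.le
  nlinarith

end Pool.Agent.MPca0fc2.CE
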