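import Mathlib
import Pool.Agent.Lib.MP_ca0fc2_an.CE.F1
import Pool.Agent.Lib.MP_ca0fc2_an.PV.Q2

set_option autoImplicit false
set_option linter.unusedSectionVars false

open Metric Set MeasureTheory Filter Topology
open scoped InnerProductSpace ENNReal ContDiff

namespace Pool.Agent.MPca0fc2.CE

open Pool.Agent.MPca0fc2.PT
open Pool.Agent.MPca0fc2.QT
open Pool.Agent.MPca0fc2.TS
open Pool.Agent.MPca0fc2.TE
open Pool.Agent.MPca0fc2.TK
open Pool.Agent.MPca0fc2.VK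
open Pool.Agent.MPca0fc2.PV

variable {E : Type*} [NormedAddCommGroup E] [InnerProductSpace ℂ E] [FiniteDimensional ℂ E]
  [MeasurableSpace E] [BorelSpace E]

/-- the derivative of `u + q • R`, `u` and `q` holomorphic -/
private theorem F2_D01 {N : ℕ} {u R : E → Fin N → ℂ} {q : E → ℂ} {z : E}
    (hu : DifferentiableAt ℂ u z) (hq : DifferentiableAt ℂ q z) (hR : DifferentiableAt ℝ R z)
    (v : E) : D01 (fun z => u z + q z • R z) z v = q z • D01 R z v := by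
  have hu' : DifferentiableAt ℝ u z := hu.restrictScalars ℝ
  have hq' : DifferentiableAt ℝ q z := hq.restrictScalars ℝ
  have h1 : D01 (fun z => u z + q z • R z) z v = D01 u z v + D01 (fun z => q z • R z) z v := by
    have h2 : DifferentiableAt ℝ (fun z => q z • R z) z := hq'.smul hR
    have h3 : fderiv ℝ (fun z => u z + q z • R z) z =
        fderiv ℝ u z + fderiv ℝ (fun z => q z • R z) z := fderiv_fun_add hu' h2
    rw [D01_apply, D01_apply, D01_apply, h3, add_apply, add_apply, ← smul_add]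
    congr 1
    rw [smul_add]
    abel
  rw [h1, D01_smul hq' hR, D01_holo hu, D01_holo hq]
  simp

/-- `PV.core` (PV/Q2.lean) with the weights: the same proof with `smooth_holV`. -/
theorem coreV (μ : Measure E) [μ.IsAddHaarMeasure] {m : ℕ} (hm : 1 ≤ m)
    (hdim : Module.finrank ℂ E = m + 1) {M : ℕ} {N : ℕ} {f : Fin N → E → ℂ}
    (hf : ∀ j, DifferentiableOn ℂ (f j) (ball 0 1)) {B : ℝ}
    (hfB : ∀ j, ∀ z ∈ ball (0 : E) 1, ‖f j z‖ ≤ B) {P : E →L[ℂ] E} (hP : Prj P)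
    {g : Fin N → E → ℂ} {A : ℝ} (hg : ∀ j, DifferentiableOn ℂ (fun z => g j (P z)) (ball 0 1))
    (hgf : ∀ z ∈ ball (0 : E) 1, ∑ j, f j (P z) * g j (P z) = 1 ∧ ∀ j, ‖g j (P z)‖ ≤ A)
    {ν : Measure E} (hν : OnB ν) {C₀ : ℝ} (hOm : ∀ y ∈ ball (0 : E) 1, Om ν M y ≤ C₀)
    {R : E → Fin N → ℂ}
    (hR : ContDiffOn ℝ 2 R (ball 0 1)) (hRC : ∀ z ∈ ball (0 : E) 1, ‖R z‖ ≤ C₀)
    (hRs : ∀ z ∈ ball (0 : E) 1, ∑ j, f j z * R z j = 1)
    (hRD : ∀ z ∈ ball (0 : E) 1, ∀ ξ : E,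
      ‖D01 R z ξ‖ ≤ C₀ * Om ν M z * gau (1 - ‖z‖ ^ 2) z ξ) {J : ℕ} {C : ℝ} (hC : 0 < C)
    {G : E → ℂ} (hG : DifferentiableOn ℂ G (ball 0 1)) (hG0 : ∀ z ∈ ball (0 : E) 1, G z ≠ 0)
    (hGp : ∃ (a : ℕ) (c : ℝ), ∀ z ∈ ball (0 : E) 1, ‖G z‖ ≤ c * (1 / (1 - ‖z‖ ^ 2)) ^ a)
    {Q : E → ℝ} (hQ : VW J C Q) (hOQ : ∀ y ∈ ball (0 : E) 1, Om ν M y ≤ Q y * ‖G y‖)
    (hGI : ∀ z ∈ ball (0 : E) 1, ‖G z‖ * (Q z + GI Q P z) ≤ C₀) :
    ∃ (h : Fin N → E → ℂ) (C' : ℝ), (∀ j, DifferentiableOn ℂ (h j) (ball 0 1)) ∧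
      ∀ z ∈ ball (0 : E) 1, ∑ j, f j z * h j z = 1 ∧ (∀ j, h j (P z) = g j (P z)) ∧
        ∀ j, ‖h j z‖ ≤ C' := by
  have hN0 : (0 : ℝ) ≤ N := Nat.cast_nonneg N
  have hz0 : (0 : E) ∈ ball (0 : E) 1 := by simp
  have hC0 : 0 ≤ C₀ := (norm_nonneg _).trans (hRC 0 hz0)
  obtain ⟨L, hL⟩ : ∃ L : ℝ, L = N * |B| + 1 := ⟨_, rfl⟩
  have hL1 : 1 ≤ L := by rw [hL]; linarith [mul_nonneg hN0 (abs_nonneg B)]
  have hL0 : 0 < L := by linarith
  have hLC : (L : ℂ) ≠ 0 := by exact_mod_cast hL0.ne'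
  have hPn : ∀ z : E, ‖P z‖ ≤ ‖z‖ := by
    intro z
    have h2 := pyth hP z
    have h3 : ‖P z‖ ^ 2 ≤ ‖z‖ ^ 2 := by
      have := sq_nonneg ‖z - P z‖
      linarith
    exact (sq_le_sq₀ (norm_nonneg _) (norm_nonneg _)).1 h3
  have hPb : ∀ z ∈ ball (0 : E) 1, P z ∈ ball (0 : E) 1 := fun z hz => by
    rw [mem_ball_zero_iff] at hz ⊢
    exact (hPn z).trans_lt hz
  obtain ⟨δ, hδe⟩ : ∃ δ : ℝ, δ = 1 / ((L * C₀ + 1) ^ 2 * (N + 1)) := ⟨_, rfl⟩
  have hδ : 0 < δ := by rw [hδe]; positivity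
  -- the scaled data
  obtain ⟨F, hF⟩ : ∃ F : Fin N → E → ℂ, F = fun j z => (L : ℂ)⁻¹ * f j z := ⟨_, rfl⟩
  have hFd : ∀ j, DifferentiableOn ℂ (F j) (ball 0 1) := fun j => by
    rw [hF]; exact (hf j).const_mul _
  have hF1 : ∀ z ∈ ball (0 : E) 1, ∑ j, ‖F j z‖ ^ 2 ≤ 1 := by
    intro z hz
    have h2 : ∀ j ∈ (Finset.univ : Finset (Fin N)), ‖F j z‖ ^ 2 ≤ (|B| / L) ^ 2 := by
      intro j _
      rw [hF]
      simp only [norm_mul, norm_inv, Complex.norm_real, Real.norm_of_nonneg hL0.le]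
      have h3 := (hfB j z hz).trans (le_abs_self B)
      have h4 : L⁻¹ * ‖f j z‖ ≤ |B| / L := by
        rw [div_eq_inv_mul]
        exact mul_le_mul_of_nonneg_left h3 (inv_nonneg.2 hL0.le)
      exact pow_le_pow_left₀ (mul_nonneg (inv_nonneg.2 hL0.le) (norm_nonneg _)) h4 2
    refine (Finset.sum_le_sum h2).trans ?_
    rw [Finset.sum_const, Finset.card_univ, Fintype.card_fin, nsmul_eq_mul, div_pow,
      ← mul_div_assoc, div_le_one (by positivity), hL]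
    rcases Nat.eq_zero_or_pos N with h5 | h5
    · subst h5
      simp
    · have h6 : (1 : ℝ) ≤ N := by exact_mod_cast h5
      have h7 : 0 ≤ |B| := abs_nonneg B
      nlinarith [mul_nonneg hN0 h7, mul_nonneg (mul_nonneg hN0 (sub_nonneg.2 h6)) (sq_nonneg |B|)]
  have hlow : ∀ z ∈ ball (0 : E) 1, δ ≤ ∑ j, ‖F j z‖ ^ 2 := by
    intro z hz
    have h3 : (1 : ℝ) ≤ (∑ j, ‖F j z‖) * (L * C₀ + 1) := by
      have h4 : ‖∑ j, f j z * R z j‖ ≤ ∑ j, ‖F j z‖ * (L * C₀ + 1) := by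
        refine (norm_sum_le _ _).trans (Finset.sum_le_sum fun j _ => ?_)
        have h5 : f j z * R z j = F j z * ((L : ℂ) * R z j) := by
          rw [hF]
          field_simp
        rw [h5, norm_mul]
        refine mul_le_mul_of_nonneg_left ?_ (norm_nonneg _)
        rw [norm_mul, Complex.norm_real, Real.norm_of_nonneg hL0.le]
        have h6 := (norm_le_pi_norm (R z) j).trans (hRC z hz)
        nlinarith
      rw [hRs z hz, norm_one, ← Finset.sum_mul] at h4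
      exact h4
    have h5 : (∑ j, ‖F j z‖) ^ 2 ≤ N * ∑ j, ‖F j z‖ ^ 2 := by
      have := sq_sum_le_card_mul_sum_sq (s := (Finset.univ : Finset (Fin N)))
        (f := fun j => ‖F j z‖)
      simpa using this
    have h6 : 0 ≤ ∑ j, ‖F j z‖ ^ 2 := Finset.sum_nonneg fun _ _ => sq_nonneg _
    have h7 : (1 : ℝ) ≤ (∑ j, ‖F j z‖) ^ 2 * (L * C₀ + 1) ^ 2 := by
      rw [← mul_pow]
      exact one_le_pow₀ h3
    rw [hδe, div_le_iff₀ (by positivity)]
    have h8 : (∑ j, ‖F j z‖) ^ 2 * (L * C₀ + 1) ^ 2 ≤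
        (N * ∑ j, ‖F j z‖ ^ 2) * (L * C₀ + 1) ^ 2 := mul_le_mul_of_nonneg_right h5 (sq_nonneg _)
    have h9 : 0 ≤ (∑ j, ‖F j z‖ ^ 2) * (L * C₀ + 1) ^ 2 := mul_nonneg h6 (sq_nonneg _)
    nlinarith
  obtain ⟨Gs, hGs⟩ : ∃ Gs : Fin N → E → ℂ, Gs = fun j z => (L : ℂ) * g j z := ⟨_, rfl⟩
  have hGd : ∀ j, DifferentiableOn ℂ (fun z => Gs j (P z)) (ball 0 1) := fun j => by
    rw [hGs]; exact (hg j).const_mul _
  -- the glued solution
  obtain ⟨q, hq⟩ : ∃ q : E → ℂ, q = fun z => (L : ℂ) * (1 - ∑ j, f j z * g j (P z)) := ⟨_, rfl⟩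
  obtain ⟨u, hu⟩ : ∃ u : E → Fin N → ℂ, u = fun z j => Gs j (P z) := ⟨_, rfl⟩
  obtain ⟨H, hH⟩ : ∃ H : E → Fin N → ℂ, H = fun z => u z + q z • R z := ⟨_, rfl⟩
  have hqd : DifferentiableOn ℂ q (ball 0 1) := by
    rw [hq]
    refine DifferentiableOn.const_mul ?_ _
    exact (differentiableOn_const _).sub (DifferentiableOn.fun_sum fun j _ => (hf j).mul (hg j))
  have hud : DifferentiableOn ℂ u (ball 0 1) := by
    rw [hu]
    exact differentiableOn_pi.2 hGd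
  have hA0 : ∀ z ∈ ball (0 : E) 1, ∀ j, ‖g j (P z)‖ ≤ |A| := fun z hz j =>
    ((hgf z hz).2 j).trans (le_abs_self A)
  have hB0 : ∀ z ∈ ball (0 : E) 1, ∀ j, ‖f j z‖ ≤ |B| := fun z hz j =>
    (hfB j z hz).trans (le_abs_self B)
  obtain ⟨Qs, hQs⟩ : ∃ Qs : ℝ, Qs = L * (1 + N * (|B| * |A|)) := ⟨_, rfl⟩
  have hQs0 : 0 ≤ Qs := by rw [hQs]; positivity
  have hqn : ∀ z ∈ ball (0 : E) 1, ‖q z‖ ≤ Qs := by
    intro z hz
    rw [hq, hQs]
    simp only [norm_mul, Complex.norm_real, Real.norm_of_nonneg hL0.le]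
    refine mul_le_mul_of_nonneg_left ?_ hL0.le
    refine (norm_sub_le _ _).trans (add_le_add (by simp) ?_)
    refine (norm_sum_le _ _).trans ?_
    have h3 : ∀ j ∈ (Finset.univ : Finset (Fin N)), ‖f j z * g j (P z)‖ ≤ |B| * |A| := fun j _ => by
      rw [norm_mul]
      exact mul_le_mul (hB0 z hz j) (hA0 z hz j) (norm_nonneg _) (abs_nonneg _)
    refine (Finset.sum_le_sum h3).trans ?_
    simp
  have hun : ∀ z ∈ ball (0 : E) 1, ‖u z‖ ≤ L * |A| := by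
    intro z hz
    rw [hu]
    refine (pi_norm_le_iff_of_nonneg (by positivity)).2 fun j => ?_
    rw [hGs]
    simp only [norm_mul, Complex.norm_real, Real.norm_of_nonneg hL0.le]
    exact mul_le_mul_of_nonneg_left (hA0 z hz j) hL0.le
  have hRd : ∀ z ∈ ball (0 : E) 1, DifferentiableAt ℝ R z := fun z hz =>
    (hR.contDiffAt (isOpen_ball.mem_nhds hz)).differentiableAt (by norm_num)
  have hq2 : ContDiffOn ℝ 2 q (ball 0 1) := (QTXc_hol isOpen_ball hqd).restrict_scalars ℝ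
  have hu2 : ContDiffOn ℝ 2 u (ball 0 1) := by
    rw [hu]
    refine contDiffOn_pi.2 fun j => ?_
    exact (QTXc_hol isOpen_ball (hGd j)).restrict_scalars ℝ
  obtain ⟨C₁, hC₁⟩ : ∃ C₁ : ℝ, C₁ = C₀ + L * |A| + Qs * C₀ := ⟨_, rfl⟩
  have hLA : 0 ≤ L * |A| := by positivity
  have hQC : 0 ≤ Qs * C₀ := by positivity
  obtain ⟨h, C', hC', hh1, hh2⟩ := smooth_holV μ hm hdim hδ hFd
    (fun z hz => ⟨hlow z hz, hF1 z hz⟩) hP hGd hν (C₀ := C₁)
    (fun y hy => (hOm y hy).trans (by rw [hC₁]; linarith)) (H := H)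
    (by rw [hH]; exact hu2.add (hq2.smul hR))
    (fun z hz => by
      rw [hH]
      refine (norm_add_le _ _).trans ?_
      rw [norm_smul]
      have h3 : ‖q z‖ * ‖R z‖ ≤ Qs * C₀ :=
        mul_le_mul (hqn z hz) (hRC z hz) (norm_nonneg _) hQs0
      have h4 := hun z hz
      rw [hC₁]
      linarith)
    (fun z hz => by
      have h3 : ∀ j, F j z * H z j = f j z * g j (P z) +
          (1 - ∑ i, f i z * g i (P z)) * (f j z * R z j) := by
        intro j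
        rw [hH, hF, hu, hGs, hq]
        simp only [Pi.add_apply, Pi.smul_apply, smul_eq_mul]
        field_simp
      rw [Finset.sum_congr rfl fun j _ => h3 j, Finset.sum_add_distrib, ← Finset.mul_sum, hRs z hz]
      ring)
    (fun z hz j => by
      have h3 : q (P z) = 0 := by
        rw [hq]
        simp only [hP.idem]
        rw [(hgf z hz).1, sub_self, mul_zero]
      rw [hH]
      simp only [Pi.add_apply, h3, zero_smul, Pi.zero_apply, add_zero]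
      rw [hu]
      simp only [hP.idem])
    (fun z hz ξ => by
      rw [hH, F2_D01 (hud.differentiableAt (isOpen_ball.mem_nhds hz))
        (hqd.differentiableAt (isOpen_ball.mem_nhds hz)) (hRd z hz), norm_smul]
      have h3 := hRD z hz ξ
      have h4 := hqn z hz
      have h5 : 0 ≤ Om ν M z := Om_nonneg (mem_ball_zero_iff.1 hz)
      have h6 : 0 < 1 - ‖z‖ ^ 2 := by
        have := mem_ball_zero_iff.1 hz
        nlinarith [norm_nonneg z]
      have h7 : 0 ≤ gau (1 - ‖z‖ ^ 2) z ξ := by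
        unfold gau
        positivity
      calc ‖q z‖ * ‖D01 R z ξ‖ ≤ Qs * (C₀ * Om ν M z * gau (1 - ‖z‖ ^ 2) z ξ) :=
            mul_le_mul h4 h3 (norm_nonneg _) hQs0
        _ = (Qs * C₀) * (Om ν M z * gau (1 - ‖z‖ ^ 2) z ξ) := by ring
        _ ≤ C₁ * (Om ν M z * gau (1 - ‖z‖ ^ 2) z ξ) := by
            refine mul_le_mul_of_nonneg_right ?_ (mul_nonneg h5 h7)
            rw [hC₁]
            linarith
        _ = C₁ * Om ν M z * gau (1 - ‖z‖ ^ 2) z ξ := by ring) hC hG hG0 hGp hQ hOQ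
  refine ⟨fun j z => (L : ℂ)⁻¹ * h j z, C' * (1 + C₀), fun j => (hh1 j).const_mul _,
    fun z hz => ⟨?_, fun j => ?_, fun j => ?_⟩⟩
  · have h3 := (hh2 z hz).1
    rw [← h3]
    refine Finset.sum_congr rfl fun j _ => ?_
    rw [hF]
    ring
  · simp only
    rw [(hh2 z hz).2.1 j, hGs]
    field_simp
  · simp only [norm_mul, norm_inv, Complex.norm_real, Real.norm_of_nonneg hL0.le]
    have h3 := (hh2 z hz).2.2 j
    have h4 := hGI z hz
    have h5 : L⁻¹ ≤ 1 := inv_le_one_of_one_le₀ hL1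
    have h6 : L⁻¹ * ‖h j z‖ ≤ 1 * ‖h j z‖ := mul_le_mul_of_nonneg_right h5 (norm_nonneg _)
    have h7 : C' * (1 + ‖G z‖ * (Q z + GI Q P z)) ≤ C' * (1 + C₀) :=
      mul_le_mul_of_nonneg_left (by linarith) hC'.le
    linarith

end Pool.Agent.MPca0fc2.CE
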