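import Mathlib
import Pool.Agent.Lib.MP_ca0fc2_an.CE.C1
import Pool.Agent.Lib.MP_ca0fc2_an.CE.C2
import Pool.Agent.Lib.MP_ca0fc2_an.PV.A4

set_option autoImplicit false
set_option linter.unusedSectionVars false

open Metric Set MeasureTheory Filter Topology
open scoped InnerProductSpace ENNReal ContDiff

namespace Pool.Agent.MPca0fc2.CE

open Pool.Agent.MPca0fc2.PT
open Pool.Agent.MPca0fc2.QT
open Pool.Agent.MPca0fc2.TS
open Pool.Agent.MPca0fc2.TE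
open Pool.Agent.MPca0fc2.TK
open Pool.Agent.MPca0fc2.VK
open Pool.Agent.MPca0fc2.PV

variable {E : Type*} [NormedAddCommGroup E] [InnerProductSpace ℂ E] [FiniteDimensional ℂ E]
  [MeasurableSpace E] [BorelSpace E]

omit [FiniteDimensional ℂ E] [MeasurableSpace E] [BorelSpace E] in
private theorem F3_unit {m : ℕ} (hdim : Module.finrank ℂ E = m + 1) : ∃ ζ : E, ‖ζ‖ = 1 := by
  have hnt : Nontrivial E := Module.nontrivial_of_finrank_pos (R := ℂ) (by rw [hdim]; omega)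
  obtain ⟨v, hv⟩ := exists_ne (0 : E)
  refine ⟨((‖v‖⁻¹ : ℝ) : ℂ) • v, ?_⟩
  rw [norm_smul, Complex.norm_real, norm_inv, norm_norm, inv_mul_cancel₀ (norm_ne_zero_iff.2 hv)]

/-- The potential of the measure with the density `Tc`: `pot_Tc` for `r = 0`; `Om` written as an integral as in `PV.pv_Om` (PV/A3.lean); with `M = m + 2` the density is `Tc s 2 ν x` (`Tc_nonneg`, `Tc_cont`). -/
theorem OmG_Tc (μ : Measure E) [μ.IsAddHaarMeasure] {m : ℕ} (hm : 1 ≤ m)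
    (hdim : Module.finrank ℂ E = m + 1) {s : ℝ} (hs : 0 < s) (hs1 : s ≤ 1 / 8) :
    ∃ C : ℝ, 0 < C ∧ ∀ ν : Measure E, Car ν → ∀ y ∈ ball (0 : E) 1,
      Om (nuG μ m (m + 2) (Tc s 2 ν)) (m + 2) y ≤ C * Tc s 1 ν y := by
  obtain ⟨C', hC', hpot⟩ := pot_Tc μ hm hdim 0 (C := 1) one_pos hs hs1
  refine ⟨C', hC', ?_⟩
  intro ν hν y hyb
  have hE := F3_unit hdim
  have hy : ‖y‖ < 1 := by rwa [mem_ball_zero_iff] at hyb
  have hb : 0 < 1 - ‖y‖ ^ 2 := by nlinarith [norm_nonneg y]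
  have hT := Tc_nonneg (s := s) hν 1 hyb
  have hp := hpot ν hν (fun _ _ => 1) (fun i => i.elim0) y hyb
  have hPsi : ∀ z : E, Psi s (fun (_ : Fin 0) (_ : E) => (1 : ℝ)) z = 0 := by
    intro z
    unfold Psi
    exact Finset.sum_empty
  simp only [hPsi, add_zero] at hp
  have hcont : Continuous fun x : E => ‖1 - ⟪x, y⟫_ℂ‖ := by fun_prop
  have hkr : ∀ p : ℝ, Measurable fun x : E => ‖1 - ⟪x, y⟫_ℂ‖ ^ p := fun p =>
    hcont.measurable.pow_const _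
  have hkm : ∀ p : ℝ, Measurable fun x : E => ENNReal.ofReal (‖1 - ⟪x, y⟫_ℂ‖ ^ p) := fun p =>
    ENNReal.measurable_ofReal.comp (hkr p)
  have hgm : AEMeasurable (fun x : E => ENNReal.ofReal
      ((1 - ‖x‖ ^ 2) ^ (m + 2) * Tc s 2 ν x / (1 - ‖x‖ ^ 2) ^ (m + 2))) (μ.restrict (ball 0 1)) := by
    apply AEMeasurable.ennreal_ofReal
    have h5 : Measurable fun x : E => 1 - ‖x‖ ^ 2 := measurable_const.sub (measurable_norm.pow_const 2)
    exact ((h5.pow_const (m + 2)).aemeasurable.mul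
      ((Tc_cont hE hν hs 2).aemeasurable measurableSet_ball)).div (h5.pow_const (m + 2)).aemeasurable
  have hle : ∫⁻ x, ENNReal.ofReal (‖1 - ⟪x, y⟫_ℂ‖ ^ (-(((m + 2 : ℕ) : ℝ) + 1 / 4)))
      ∂(nuG μ m (m + 2) (Tc s 2 ν)) ≤
        ENNReal.ofReal (C' * (1 - ‖y‖ ^ 2) ^ (-(1 / 4) : ℝ) * Tc s 1 ν y) := by
    unfold nuG
    rw [lintegral_withDensity_eq_lintegral_mul₀ hgm (hkm _).aemeasurable]
    refine le_trans (setLIntegral_mono' measurableSet_ball fun x hx => ?_) hp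
    have hT2 := Tc_nonneg (s := s) hν 2 hx
    rw [mem_ball_zero_iff] at hx
    have ha : 0 < 1 - ‖x‖ ^ 2 := by nlinarith [norm_nonneg x]
    rw [Pi.mul_apply, ← ENNReal.ofReal_mul (by positivity)]
    apply ENNReal.ofReal_le_ofReal
    rw [mul_div_assoc, mul_comm ((1 - ‖x‖ ^ 2) ^ (m + 2)), div_mul_cancel₀ _ (pow_pos ha _).ne']
    push_cast
    exact le_refl _
  have hPP : PP (nuG μ m (m + 2) (Tc s 2 ν)) (((m + 2 : ℕ) : ℝ) + 1 / 4) y ≤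
      C' * (1 - ‖y‖ ^ 2) ^ (-(1 / 4) : ℝ) * Tc s 1 ν y := by
    unfold PP
    rw [integral_eq_lintegral_of_nonneg_ae (ae_of_all _ fun _ => Real.rpow_nonneg (norm_nonneg _) _)
      (hkr _).aestronglyMeasurable]
    exact ENNReal.toReal_le_of_le_ofReal (by positivity) hle
  unfold Om
  calc (1 - ‖y‖ ^ 2) ^ (1 / 4 : ℝ) * PP (nuG μ m (m + 2) (Tc s 2 ν)) (((m + 2 : ℕ) : ℝ) + 1 / 4) y
      ≤ (1 - ‖y‖ ^ 2) ^ (1 / 4 : ℝ) * (C' * (1 - ‖y‖ ^ 2) ^ (-(1 / 4) : ℝ) * Tc s 1 ν y) := by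
        gcongr
    _ = C' * Tc s 1 ν y * ((1 - ‖y‖ ^ 2) ^ (1 / 4 : ℝ) * (1 - ‖y‖ ^ 2) ^ (-(1 / 4) : ℝ)) := by ring
    _ = C' * Tc s 1 ν y := by
        rw [← Real.rpow_add hb]
        norm_num

end Pool.Agent.MPca0fc2.CE
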