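import Mathlib
import Pool.Agent.Lib.MP_ca0fc2_an.CE.A3
import Pool.Agent.Lib.MP_ca0fc2_an.CE.C1
import Pool.Agent.Lib.MP_ca0fc2_an.PV.V3
import Pool.Agent.Lib.MP_ca0fc2_an.TS.Gr

set_option autoImplicit false
set_option linter.unusedSectionVars false

open Metric Set MeasureTheory Filter Topology
open scoped InnerProductSpace ENNReal ContDiff

namespace Pool.Agent.MPca0fc2.CE

open Pool.Agent.MPca0fc2.PT
open Pool.Agent.MPca0fc2.QT
open Pool.Agent.MPca0fc2.TS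
open Pool.Agent.MPca0fc2.TE
open Pool.Agent.MPca0fc2.TK
open Pool.Agent.MPca0fc2.VK
open Pool.Agent.MPca0fc2.PV

variable {E : Type*} [NormedAddCommGroup E] [InnerProductSpace ℂ E] [FiniteDimensional ℂ E]
  [MeasurableSpace E] [BorelSpace E]

/-- bounded holomorphic functions with `|Du|^κ ≤ L Tc s 2 ν`, `κ = 1, 2` -/
def Acl (κ : ℕ) (E : Type*) [NormedAddCommGroup E] [InnerProductSpace ℂ E] [MeasurableSpace E] :
    Set (E → ℂ) :=
  {u | DifferentiableOn ℂ u (ball 0 1) ∧ (∃ C : ℝ, ∀ z ∈ ball (0 : E) 1, ‖u z‖ ≤ C) ∧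
    ∃ (s L : ℝ) (ν : Measure E), 0 < s ∧ s ≤ 1 / 8 ∧ 0 < L ∧ Car ν ∧
      ∀ z ∈ ball (0 : E) 1, Real.sqrt (IG2 u z) ^ κ ≤ L * Tc s 2 ν z}

private theorem F5_zero : Car (0 : Measure E) :=
  ⟨by simp, fun ζ _ r _ => by simp⟩

private theorem F5_half {ν ν' : Measure E} (h : Car ν) (h' : Car ν') :
    Car ((2⁻¹ : ℝ≥0∞) • (ν + ν')) := by
  refine ⟨?_, ?_⟩
  · rw [Measure.smul_apply, Measure.add_apply, h.sub, h'.sub]
    simp
  · intro ζ hζ r hr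
    rw [Measure.smul_apply, Measure.add_apply, smul_eq_mul]
    have h1 := add_le_add (h.car ζ hζ r hr) (h'.car ζ hζ r hr)
    refine (mul_le_mul_right h1 _).trans ?_
    rw [← two_mul, ← mul_assoc, ENNReal.inv_mul_cancel two_ne_zero ENNReal.ofNat_ne_top, one_mul]

private theorem F5_ae {ν : Measure E} (h : Car ν) : ∀ᵐ u ∂ν, u ∈ ball (0 : E) 1 := by
  rw [ae_iff]
  exact h.sub

private theorem F5_kc {s s' : ℝ} (hs' : 0 < s') (hss : s' ≤ s) (hs1 : s ≤ 1 / 8) {u z : E}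
    (hu : u ∈ ball (0 : E) 1) (hz : z ∈ ball (0 : E) 1) : kc s 2 u z ≤ 2 * kc s' 2 u z := by
  have hu1 : ‖u‖ < 1 := mem_ball_zero_iff.mp hu
  have hz1 : ‖z‖ < 1 := mem_ball_zero_iff.mp hz
  obtain ⟨h1, h2, -⟩ := a_pos hu1.le hz1
  have h0 : 0 < 1 - ‖z‖ ^ 2 := by nlinarith [norm_nonneg z]
  have h0' : 0 < 1 - ‖u‖ ^ 2 := by nlinarith [norm_nonneg u]
  unfold kc
  set q : ℝ := (1 - ‖z‖ ^ 2) / ‖1 - ⟪u, z⟫_ℂ‖ with hq
  have hq0 : 0 < q := div_pos h0 h1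
  have hq2 : q ≤ 2 := by
    rw [hq, div_le_iff₀ h1]
    exact h2
  have h3 : q ^ s ≤ 2 * q ^ s' := by
    have h4 : q ^ s = q ^ s' * q ^ (s - s') := by
      rw [← Real.rpow_add hq0]
      congr 1
      ring
    have h5 : q ^ (s - s') ≤ 2 := by
      calc q ^ (s - s') ≤ 2 ^ (s - s') := Real.rpow_le_rpow hq0.le hq2 (by linarith)
        _ ≤ 2 ^ (1 : ℝ) := Real.rpow_le_rpow_of_exponent_le (by norm_num) (by linarith)
        _ = 2 := Real.rpow_one 2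
    rw [h4]
    nlinarith [Real.rpow_pos_of_pos hq0 s']
  have h6 : 0 ≤ ((1 - ‖u‖ ^ 2) / ‖1 - ⟪u, z⟫_ℂ‖) ^ 2 := sq_nonneg _
  rw [mul_div_assoc, mul_div_assoc, ← mul_assoc]
  exact mul_le_mul_of_nonneg_right h3 (div_nonneg h6 h1.le)

private theorem F5_Tc (hE : ∃ ζ : E, ‖ζ‖ = 1) {s s' : ℝ} (hs' : 0 < s') (hss : s' ≤ s)
    (hs1 : s ≤ 1 / 8) {ν : Measure E} (hν : Car ν) {z : E} (hz : z ∈ ball (0 : E) 1) :
    Tc s 2 ν z ≤ 2 * Tc s' 2 ν z := by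
  unfold Tc
  rw [← integral_const_mul]
  refine integral_mono_ae (kc_int hE hν (hs'.le.trans hss) 2 hz)
    ((kc_int hE hν hs'.le 2 hz).const_mul 2) ?_
  filter_upwards [F5_ae hν] with u hu
  exact F5_kc hs' hss hs1 hu hz

private theorem F5_Tch (hE : ∃ ζ : E, ‖ζ‖ = 1) {s : ℝ} (hs : 0 < s) {ν ν' : Measure E}
    (h : Car ν) (h' : Car ν') {z : E} (hz : z ∈ ball (0 : E) 1) :
    Tc s 2 ((2⁻¹ : ℝ≥0∞) • (ν + ν')) z = 2⁻¹ * (Tc s 2 ν z + Tc s 2 ν' z) := by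
  unfold Tc
  rw [integral_smul_measure, integral_add_measure (kc_int hE h hs.le 2 hz)
    (kc_int hE h' hs.le 2 hz), smul_eq_mul]
  congr 1
  simp

private theorem F5_IGc (c : ℂ) (z : E) : Real.sqrt (IG2 (fun _ : E => c) z) = 0 := by
  have h1 : IG2 (fun _ : E => c) z = 0 := by
    unfold IG2
    simp
  rw [h1, Real.sqrt_zero]

/-- Finitely many functions have a common exponent, constant and measure. Proof. `s = min s_i` (`((1 - ‖z‖²)/D)^(s_i) ≤ 2 ((1 - ‖z‖²)/D)^s` because the quotient is `≤ 2`), `ν = (1/k) ∑ ν_i`, `L = 2 k max L_i`; for `k = 0` use `ν = 0`. -/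
theorem Acl_common (hE : ∃ ζ : E, ‖ζ‖ = 1) {κ k : ℕ} {a : Fin k → E → ℂ} (ha : ∀ i, a i ∈ Acl κ E) :
    ∃ (s L : ℝ) (ν : Measure E), 0 < s ∧ s ≤ 1 / 8 ∧ 0 < L ∧ Car ν ∧
      ∀ i, ∀ z ∈ ball (0 : E) 1, Real.sqrt (IG2 (a i) z) ^ κ ≤ L * Tc s 2 ν z := by
  induction k with
  | zero =>
    exact ⟨1 / 8, 1, 0, by norm_num, le_rfl, one_pos, F5_zero, fun i => i.elim0⟩
  | succ k ih =>
    obtain ⟨s, L, ν, hs, hs1, hL, hν, h⟩ := ih (a := fun i => a i.castSucc) fun i => ha _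
    obtain ⟨-, -, s', L', ν', hs', hs1', hL', hν', h'⟩ := ha (Fin.last k)
    have hm : 0 < min s s' := lt_min hs hs'
    refine ⟨min s s', 4 * (L + L'), (2⁻¹ : ℝ≥0∞) • (ν + ν'), hm,
      (min_le_left _ _).trans hs1, by positivity, F5_half hν hν', ?_⟩
    intro i z hz
    have e1 := F5_Tc hE hm (min_le_left s s') hs1 hν hz
    have e2 := F5_Tc hE hm (min_le_right s s') hs1' hν' hz
    have e3 := Tc_nonneg hν (s := min s s') 2 hz
    have e4 := Tc_nonneg hν' (s := min s s') 2 hz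
    rw [F5_Tch hE hm hν hν' hz]
    refine Fin.lastCases ?_ (fun j => ?_) i
    · refine (h' z hz).trans ?_
      nlinarith [mul_le_mul_of_nonneg_left e2 hL'.le, mul_nonneg hL.le e3, mul_nonneg hL.le e4,
        mul_nonneg hL'.le e3]
    · refine (h j z hz).trans ?_
      nlinarith [mul_le_mul_of_nonneg_left e1 hL.le, mul_nonneg hL.le e4, mul_nonneg hL'.le e3,
        mul_nonneg hL'.le e4]

theorem Acl_const (hE : ∃ ζ : E, ‖ζ‖ = 1) {κ : ℕ} (hκ : 1 ≤ κ) (c : ℂ) :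
    (fun _ : E => c) ∈ Acl κ E := by
  refine ⟨differentiableOn_const c, ⟨‖c‖, fun _ _ => le_rfl⟩, 1 / 8, 1, 0, by norm_num, le_rfl,
    one_pos, F5_zero, fun z _ => ?_⟩
  rw [F5_IGc, zero_pow (by omega)]
  unfold Tc
  simp

/-- `IG_add` (PV/V3.lean), `Acl_common` for the two functions, `(x + y)² ≤ 2 x² + 2 y²` -/
theorem Acl_add (hE : ∃ ζ : E, ‖ζ‖ = 1) {κ : ℕ} (hκ : κ = 1 ∨ κ = 2) {u v : E → ℂ}
    (hu : u ∈ Acl κ E) (hv : v ∈ Acl κ E) : (fun z => u z + v z) ∈ Acl κ E := by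
  obtain ⟨s, L, ν, hs, hs1, hL, hν, h⟩ := Acl_common hE (κ := κ) (a := ![u, v]) (by
    intro i
    fin_cases i
    · exact hu
    · exact hv)
  have hu' := h 0
  have hv' := h 1
  simp only [Matrix.cons_val_zero, Matrix.cons_val_one] at hu' hv'
  obtain ⟨hud, ⟨Cu, hCu⟩, -⟩ := hu
  obtain ⟨hvd, ⟨Cv, hCv⟩, -⟩ := hv
  refine ⟨hud.add hvd, ⟨Cu + Cv, fun z hz => (norm_add_le _ _).trans
    (add_le_add (hCu z hz) (hCv z hz))⟩, s, 4 * L, ν, hs, hs1, by positivity, hν, ?_⟩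
  intro z hz
  have e0 := IG_add hud hvd (mem_ball_zero_iff.mp hz)
  have e1 := hu' z hz
  have e2 := hv' z hz
  have e3 := mul_nonneg hL.le (Tc_nonneg hν (s := s) 2 hz)
  have e4 := Real.sqrt_nonneg (IG2 (fun z => u z + v z) z)
  have e5 := Real.sqrt_nonneg (IG2 u z)
  have e6 := Real.sqrt_nonneg (IG2 v z)
  rcases hκ with rfl | rfl
  · rw [pow_one] at e1 e2 ⊢
    linarith
  · have e7 : Real.sqrt (IG2 (fun z => u z + v z) z) ^ 2 ≤
        (Real.sqrt (IG2 u z) + Real.sqrt (IG2 v z)) ^ 2 := pow_le_pow_left₀ e4 e0 2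
    nlinarith [sq_nonneg (Real.sqrt (IG2 u z) - Real.sqrt (IG2 v z))]

/-- `IG_mul` (PV/V3.lean) -/
theorem Acl_mul (hE : ∃ ζ : E, ‖ζ‖ = 1) {κ : ℕ} (hκ : κ = 1 ∨ κ = 2) {u v : E → ℂ}
    (hu : u ∈ Acl κ E) (hv : v ∈ Acl κ E) : (fun z => u z * v z) ∈ Acl κ E := by
  obtain ⟨s, L, ν, hs, hs1, hL, hν, h⟩ := Acl_common hE (κ := κ) (a := ![u, v]) (by
    intro i
    fin_cases i
    · exact hu
    · exact hv)
  have hu' := h 0
  have hv' := h 1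
  simp only [Matrix.cons_val_zero, Matrix.cons_val_one] at hu' hv'
  obtain ⟨hud, ⟨Cu, hCu⟩, -⟩ := hu
  obtain ⟨hvd, ⟨Cv, hCv⟩, -⟩ := hv
  obtain ⟨K, hKd⟩ : ∃ K : ℝ, K = |Cu| + |Cv| + 1 := ⟨_, rfl⟩
  have hK1 : 1 ≤ K := by
    have := abs_nonneg Cu
    have := abs_nonneg Cv
    linarith
  have hKu : ∀ z ∈ ball (0 : E) 1, ‖u z‖ ≤ K := fun z hz => by
    have := hCu z hz
    have := le_abs_self Cu
    have := abs_nonneg Cv
    linarith
  have hKv : ∀ z ∈ ball (0 : E) 1, ‖v z‖ ≤ K := fun z hz => by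
    have := hCv z hz
    have := le_abs_self Cv
    have := abs_nonneg Cu
    linarith
  refine ⟨hud.mul hvd, ⟨K * K, fun z hz => ?_⟩, s, 4 * K ^ 2 * L, ν, hs, hs1,
    by positivity, hν, ?_⟩
  · rw [norm_mul]
    exact mul_le_mul (hKu z hz) (hKv z hz) (norm_nonneg _) (by linarith)
  intro z hz
  have e0 := IG_mul hud hvd (mem_ball_zero_iff.mp hz)
  have e1 := hu' z hz
  have e2 := hv' z hz
  have e3 := mul_nonneg hL.le (Tc_nonneg hν (s := s) 2 hz)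
  have e4 := Real.sqrt_nonneg (IG2 (fun z => u z * v z) z)
  have e5 := Real.sqrt_nonneg (IG2 u z)
  have e6 := Real.sqrt_nonneg (IG2 v z)
  have e8 : Real.sqrt (IG2 (fun z => u z * v z) z) ≤
      K * (Real.sqrt (IG2 u z) + Real.sqrt (IG2 v z)) := by
    refine e0.trans ?_
    nlinarith [mul_le_mul_of_nonneg_right (hKu z hz) e6, mul_le_mul_of_nonneg_right (hKv z hz) e5]
  set x := Real.sqrt (IG2 u z) with hx
  set y := Real.sqrt (IG2 v z) with hy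
  set w := Real.sqrt (IG2 (fun z => u z * v z) z) with hw
  set T := L * Tc s 2 ν z with hT
  have e9 : 4 * K ^ 2 * L * Tc s 2 ν z = 4 * K ^ 2 * T := by
    rw [hT]
    ring
  rw [e9]
  have hKK : K ≤ K ^ 2 := by nlinarith
  rcases hκ with rfl | rfl
  · rw [pow_one] at e1 e2 ⊢
    calc w ≤ K * (x + y) := e8
      _ ≤ K * (2 * T) := mul_le_mul_of_nonneg_left (by linarith) (by linarith)
      _ ≤ K ^ 2 * (2 * T) := mul_le_mul_of_nonneg_right hKK (by linarith)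
      _ ≤ 4 * K ^ 2 * T := by nlinarith [mul_nonneg (sq_nonneg K) e3]
  · calc w ^ 2 ≤ (K * (x + y)) ^ 2 := pow_le_pow_left₀ e4 e8 2
      _ = K ^ 2 * (x + y) ^ 2 := by ring
      _ ≤ K ^ 2 * (4 * T) :=
        mul_le_mul_of_nonneg_left (by nlinarith [sq_nonneg (x - y)]) (sq_nonneg K)
      _ = 4 * K ^ 2 * T := by ring

/-- the invariant gradient of a bounded holomorphic function is bounded (see `W6_IG_bdd`, PV/W6.lean) -/
theorem Acl_one_two {u : E → ℂ} (hu : u ∈ Acl 1 E) : u ∈ Acl 2 E := by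
  obtain ⟨hud, ⟨C, hC⟩, s, L, ν, hs, hs1, hL, hν, h⟩ := hu
  obtain ⟨K, hKd⟩ : ∃ K : ℝ, K = |C| + 1 := ⟨_, rfl⟩
  have hK : 0 < K := by
    have := abs_nonneg C
    linarith
  refine ⟨hud, ⟨C, hC⟩, s, K * L, ν, hs, hs1, by positivity, hν, ?_⟩
  intro z hz
  have hKc : ((K : ℝ) : ℂ) ≠ 0 := by
    exact_mod_cast hK.ne'
  have hd : DifferentiableOn ℂ (fun z => u z * ((K : ℝ) : ℂ)⁻¹) (ball 0 1) :=
    hud.mul_const _
  have h1 : ∀ z ∈ ball (0 : E) 1, ‖u z * ((K : ℝ) : ℂ)⁻¹‖ ≤ 1 := by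
    intro z hz
    rw [norm_mul, norm_inv, Complex.norm_real, Real.norm_eq_abs, abs_of_pos hK,
      ← div_eq_mul_inv, div_le_one hK]
    have := hC z hz
    have := le_abs_self C
    linarith
  have h2 : IG2 (fun z => u z * ((K : ℝ) : ℂ)⁻¹) z ≤ 1 := IG2_le hd h1 (mem_ball_zero_iff.mp hz)
  have h3 : Real.sqrt (IG2 (fun z => u z * ((K : ℝ) : ℂ)⁻¹) z) ≤ 1 := by
    rw [Real.sqrt_le_one]
    exact h2
  have h4 := IG_mul hd (differentiableOn_const ((K : ℝ) : ℂ)) (mem_ball_zero_iff.mp hz)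
  have h5 : (fun z : E => u z * ((K : ℝ) : ℂ)⁻¹ * ((K : ℝ) : ℂ)) = u := by
    funext z
    rw [mul_assoc, inv_mul_cancel₀ hKc, mul_one]
  rw [h5, F5_IGc, mul_zero, zero_add, Complex.norm_real, Real.norm_eq_abs, abs_of_pos hK] at h4
  have h6 : Real.sqrt (IG2 u z) ≤ K := by nlinarith
  have h7 := h z hz
  rw [pow_one] at h7
  have h8 := Real.sqrt_nonneg (IG2 u z)
  calc Real.sqrt (IG2 u z) ^ 2 = Real.sqrt (IG2 u z) * Real.sqrt (IG2 u z) := sq _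
    _ ≤ K * (L * Tc s 2 ν z) := mul_le_mul h6 h7 h8 hK.le
    _ = K * L * Tc s 2 ν z := by ring

/-- Hölder functions: `ν = dirac 0`, `kc s 2 0 z = (1 - ‖z‖²)^s`; `dirac 0 {D(u,ζ) < r}` is `1` if `1 < r` and `0` otherwise. The exponent `s` may be larger than `1/8`: `(1 - ‖z‖²)^s ≤ (1 - ‖z‖²)^(min s (1/8))`. -/
theorem Acl_hol (hE : ∃ ζ : E, ‖ζ‖ = 1) {κ : ℕ} {u : E → ℂ}
    (hu : DifferentiableOn ℂ u (ball 0 1)) (hb : ∃ C : ℝ, ∀ z ∈ ball (0 : E) 1, ‖u z‖ ≤ C)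
    {s L : ℝ} (hs : 0 < s)
    (h : ∀ z ∈ ball (0 : E) 1, Real.sqrt (IG2 u z) ^ κ ≤ L * (1 - ‖z‖ ^ 2) ^ s) :
    u ∈ Acl κ E := by
  have hcar : Car (Measure.dirac (0 : E)) := by
    refine ⟨?_, ?_⟩
    · rw [Measure.dirac_apply' _ measurableSet_ball.compl]
      simp
    · intro ζ hζ r hr
      have hms : MeasurableSet {u : E | ‖1 - ⟪u, ζ⟫_ℂ‖ < r} := by
        refine IsOpen.measurableSet (isOpen_lt ?_ continuous_const)
        exact (continuous_const.sub (continuous_id.inner continuous_const)).norm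
      rw [Measure.dirac_apply' _ hms]
      by_cases h1 : (0 : E) ∈ {u : E | ‖1 - ⟪u, ζ⟫_ℂ‖ < r}
      · rw [indicator_of_mem h1, Pi.one_apply]
        simp only [Set.mem_ofPred_eq, inner_zero_left, sub_zero, norm_one] at h1
        rw [← ENNReal.ofReal_one]
        exact ENNReal.ofReal_le_ofReal h1.le
      · rw [indicator_of_notMem h1]
        exact zero_le
  refine ⟨hu, hb, min s (1 / 8), |L| + 1, Measure.dirac 0, lt_min hs (by norm_num),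
    min_le_right _ _, by positivity, hcar, ?_⟩
  intro z hz
  have hz1 : ‖z‖ < 1 := mem_ball_zero_iff.mp hz
  have h0 : 0 < 1 - ‖z‖ ^ 2 := by nlinarith [norm_nonneg z]
  have h1 : 1 - ‖z‖ ^ 2 ≤ 1 := by nlinarith [norm_nonneg z]
  have h2 : Tc (min s (1 / 8)) 2 (Measure.dirac (0 : E)) z = (1 - ‖z‖ ^ 2) ^ min s (1 / 8) := by
    unfold Tc
    rw [integral_dirac]
    unfold kc
    simp
  rw [h2]
  have h3 : (1 - ‖z‖ ^ 2) ^ s ≤ (1 - ‖z‖ ^ 2) ^ min s (1 / 8) :=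
    Real.rpow_le_rpow_of_exponent_ge h0 h1 (min_le_left _ _)
  have h4 : 0 ≤ (1 - ‖z‖ ^ 2) ^ s := Real.rpow_nonneg h0.le _
  have h5 := h z hz
  have h6 := le_abs_self L
  have h7 := abs_nonneg L
  refine h5.trans ?_
  nlinarith [mul_le_mul_of_nonneg_right h6 h4, mul_le_mul_of_nonneg_left h3 h7]

end Pool.Agent.MPca0fc2.CE
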