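import Mathlib
import Pool.Agent.Lib.MP_ca0fc2_an.CE.F5

set_option autoImplicit false
set_option linter.unusedSectionVars false

open Metric Set MeasureTheory Filter Topology
open scoped InnerProductSpace ENNReal ContDiff

namespace Pool.Agent.MPca0fc2.CE

open Pool.Agent.MPca0fc2.PT
open Pool.Agent.MPca0fc2.QT
open Pool.Agent.MPca0fc2.TS
open Pool.Agent.MPca0fc2.TE
open Pool.Agent.MPca0fc2.TK
open Pool.Agent.MPca0fc2.VK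
open Pool.Agent.MPca0fc2.PV

variable {E : Type*} [NormedAddCommGroup E] [InnerProductSpace ℂ E] [FiniteDimensional ℂ E]
  [MeasurableSpace E] [BorelSpace E]

/-- measures with the growth `om` -/
structure CarW (om : ℝ → ℝ) (ν : Measure E) : Prop where
  sub : ν (ball (0 : E) 1)ᶜ = 0
  car : ∀ ζ : E, ‖ζ‖ = 1 → ∀ r : ℝ, 0 < r → r ≤ 2 →
    ν {u | ‖1 - ⟪u, ζ⟫_ℂ‖ < r} ≤ ENNReal.ofReal (om r)

/-- Bounded growth. Proof. `om r ≤ A r`; `ν' = (1/(A + 1)) • ν` is `Car` (for `r > 2` the set is contained, up to a null set, in the one for `r = 2`); `s' = min s (1/8)`, `((1 - ‖z‖²)/D)^s ≤ 2^s ((1 - ‖z‖²)/D)^(s')`. -/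
theorem carW_bdd (hE : ∃ ζ : E, ‖ζ‖ = 1) {om : ℝ → ℝ} {A : ℝ} (hA : 0 ≤ A)
    (h : ∀ r ∈ Ioc (0 : ℝ) 2, om r ≤ A * r) {s : ℝ} (hs : 0 < s) {ν : Measure E} (hν : CarW om ν) :
    ∃ (s' L : ℝ) (ν' : Measure E), 0 < s' ∧ s' ≤ 1 / 8 ∧ 0 < L ∧ Car ν' ∧
      ∀ z ∈ ball (0 : E) 1, Tc s 2 ν z ≤ L * Tc s' 2 ν' z := by
  obtain ⟨ζ0, hζ0⟩ := hE
  have hae : ∀ᵐ u ∂ν, u ∈ ball (0 : E) 1 := by
    rw [ae_iff]
    exact hν.sub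
  have hAp : 0 < A + 1 := by linarith
  -- the sets of radius larger than 2
  have hbig : ∀ ζ : E, ‖ζ‖ = 1 → ∀ S : Set E, ν S ≤ ν {u | ‖1 - ⟪u, ζ⟫_ℂ‖ < 2} := by
    intro ζ hζ S
    refine measure_mono_ae ?_
    filter_upwards [hae] with u hu hS
    have hu1 : ‖u‖ < 1 := by simpa using hu
    show ‖1 - ⟪u, ζ⟫_ℂ‖ < 2
    have h1 : ‖⟪u, ζ⟫_ℂ‖ ≤ ‖u‖ * ‖ζ‖ := norm_inner_le_norm u ζ
    have h2 : ‖1 - ⟪u, ζ⟫_ℂ‖ ≤ ‖(1 : ℂ)‖ + ‖⟪u, ζ⟫_ℂ‖ := norm_sub_le _ _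
    rw [norm_one] at h2
    rw [hζ, mul_one] at h1
    linarith
  have hcar2 : ∀ ζ : E, ‖ζ‖ = 1 → ∀ r : ℝ, 0 < r →
      ν {u | ‖1 - ⟪u, ζ⟫_ℂ‖ < r} ≤ ENNReal.ofReal (A * r) := by
    intro ζ hζ r hr
    rcases le_or_gt r 2 with h2 | h2
    · exact (hν.car ζ hζ r hr h2).trans (ENNReal.ofReal_le_ofReal (h r ⟨hr, h2⟩))
    · refine (hbig ζ hζ _).trans ?_
      refine (hν.car ζ hζ 2 two_pos le_rfl).trans (ENNReal.ofReal_le_ofReal ?_)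
      refine (h 2 ⟨two_pos, le_rfl⟩).trans ?_
      exact mul_le_mul_of_nonneg_left h2.le hA
  have hfin : IsFiniteMeasure ν := by
    refine ⟨?_⟩
    refine (hbig ζ0 hζ0 Set.univ).trans_lt ?_
    exact (hcar2 ζ0 hζ0 2 two_pos).trans_lt ENNReal.ofReal_lt_top
  -- the constants
  obtain ⟨s', hs'def⟩ : ∃ s' : ℝ, s' = min s (1 / 8) := ⟨_, rfl⟩
  have hs'0 : 0 < s' := by rw [hs'def]; exact lt_min hs (by norm_num)
  have hs'8 : s' ≤ 1 / 8 := by rw [hs'def]; exact min_le_right _ _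
  have hs's : s' ≤ s := by rw [hs'def]; exact min_le_left _ _
  refine ⟨s', 2 ^ s * (A + 1), ENNReal.ofReal (1 / (A + 1)) • ν, hs'0, hs'8, by positivity, ?_, ?_⟩
  · refine ⟨?_, ?_⟩
    · rw [Measure.smul_apply, hν.sub, smul_zero]
    · intro ζ hζ r hr
      rw [Measure.smul_apply, smul_eq_mul]
      refine (mul_le_mul_right (hcar2 ζ hζ r hr) _).trans ?_
      rw [← ENNReal.ofReal_mul (by positivity)]
      refine ENNReal.ofReal_le_ofReal ?_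
      rw [one_div, ← mul_assoc]
      have : (A + 1)⁻¹ * A ≤ 1 := by
        rw [inv_mul_le_iff₀ hAp]
        linarith
      calc (A + 1)⁻¹ * A * r ≤ 1 * r := mul_le_mul_of_nonneg_right this hr.le
        _ = r := one_mul r
  · intro z hz
    have hz1 : ‖z‖ < 1 := by simpa using hz
    have hz0 : 0 ≤ ‖z‖ := norm_nonneg z
    have hz2 : 0 < 1 - ‖z‖ ^ 2 := by nlinarith
    have hz3 : 1 - ‖z‖ ^ 2 ≤ 1 := by nlinarith [sq_nonneg ‖z‖]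
    have hη : 0 < 1 - ‖z‖ := by linarith
    -- lower bound of the distance
    have hD : ∀ u ∈ ball (0 : E) 1, 1 - ‖z‖ ≤ ‖1 - ⟪u, z⟫_ℂ‖ := by
      intro u hu
      have hu1 : ‖u‖ < 1 := by simpa using hu
      have h1 : ‖⟪u, z⟫_ℂ‖ ≤ ‖u‖ * ‖z‖ := norm_inner_le_norm u z
      have h2 : ‖(1 : ℂ)‖ - ‖⟪u, z⟫_ℂ‖ ≤ ‖1 - ⟪u, z⟫_ℂ‖ := norm_sub_norm_le _ _
      rw [norm_one] at h2
      have h3 : ‖u‖ * ‖z‖ ≤ 1 * ‖z‖ := mul_le_mul_of_nonneg_right hu1.le hz0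
      linarith
    -- integrability
    have hnn : ∀ t : ℝ, ∀ u ∈ ball (0 : E) 1, 0 ≤ kc t 2 u z := by
      intro t u hu
      have h1 := hD u hu
      have h2 : 0 < ‖1 - ⟪u, z⟫_ℂ‖ := lt_of_lt_of_le hη h1
      unfold kc
      positivity
    have hmeas : Measurable fun u : E => kc s' 2 u z := by
      have hc : Continuous fun u : E => ⟪u, z⟫_ℂ := by fun_prop
      have hm1 : Measurable fun u : E => ‖1 - ⟪u, z⟫_ℂ‖ := (continuous_const.sub hc).norm.measurable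
      have hm2 : Measurable fun u : E => 1 - ‖u‖ ^ 2 := by
        have : Continuous fun u : E => 1 - ‖u‖ ^ 2 := by fun_prop
        exact this.measurable
      unfold kc
      exact (((measurable_const.div hm1).pow_const s').mul ((hm2.div hm1).pow_const 2)).div hm1
    have hint : Integrable (fun u : E => kc s' 2 u z) ν := by
      refine Integrable.of_bound hmeas.aestronglyMeasurable
        (((1 - ‖z‖)⁻¹) ^ s' * ((1 - ‖z‖)⁻¹) ^ 2 * (1 - ‖z‖)⁻¹) ?_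
      filter_upwards [hae] with u hu
      rw [Real.norm_of_nonneg (hnn s' u hu)]
      have h1 := hD u hu
      have h2 : 0 < ‖1 - ⟪u, z⟫_ℂ‖ := lt_of_lt_of_le hη h1
      have hu1 : ‖u‖ < 1 := by simpa using hu
      have hu0 : 0 ≤ ‖u‖ := norm_nonneg u
      have hinv : (‖1 - ⟪u, z⟫_ℂ‖)⁻¹ ≤ (1 - ‖z‖)⁻¹ := inv_anti₀ hη h1
      have ha : (1 - ‖z‖ ^ 2) / ‖1 - ⟪u, z⟫_ℂ‖ ≤ (1 - ‖z‖)⁻¹ := by
        rw [div_eq_mul_inv]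
        calc (1 - ‖z‖ ^ 2) * (‖1 - ⟪u, z⟫_ℂ‖)⁻¹ ≤ 1 * (1 - ‖z‖)⁻¹ :=
              mul_le_mul hz3 hinv (by positivity) zero_le_one
          _ = _ := one_mul _
      have hu2 : 0 ≤ 1 - ‖u‖ ^ 2 := by nlinarith
      have hb : (1 - ‖u‖ ^ 2) / ‖1 - ⟪u, z⟫_ℂ‖ ≤ (1 - ‖z‖)⁻¹ := by
        rw [div_eq_mul_inv]
        calc (1 - ‖u‖ ^ 2) * (‖1 - ⟪u, z⟫_ℂ‖)⁻¹ ≤ 1 * (1 - ‖z‖)⁻¹ :=
              mul_le_mul (by nlinarith [sq_nonneg ‖u‖]) hinv (by positivity) zero_le_one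
          _ = _ := one_mul _
      unfold kc
      rw [div_eq_mul_inv (_ * _) (‖1 - ⟪u, z⟫_ℂ‖)]
      have e1 : ((1 - ‖z‖ ^ 2) / ‖1 - ⟪u, z⟫_ℂ‖) ^ s' ≤ ((1 - ‖z‖)⁻¹) ^ s' :=
        Real.rpow_le_rpow (by positivity) ha hs'0.le
      have e2 : ((1 - ‖u‖ ^ 2) / ‖1 - ⟪u, z⟫_ℂ‖) ^ 2 ≤ ((1 - ‖z‖)⁻¹) ^ 2 :=
        pow_le_pow_left₀ (by positivity) hb 2
      refine mul_le_mul (mul_le_mul e1 e2 (by positivity) (by positivity)) hinv (by positivity)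
        (by positivity)
    -- comparison
    have hcomp : ∀ u ∈ ball (0 : E) 1, kc s 2 u z ≤ 2 ^ s * kc s' 2 u z := by
      intro u hu
      have h1 := hD u hu
      have h2 : 0 < ‖1 - ⟪u, z⟫_ℂ‖ := lt_of_lt_of_le hη h1
      have hρ0 : 0 < (1 - ‖z‖ ^ 2) / ‖1 - ⟪u, z⟫_ℂ‖ := by positivity
      have hρ2 : (1 - ‖z‖ ^ 2) / ‖1 - ⟪u, z⟫_ℂ‖ ≤ 2 := by
        rw [div_le_iff₀ h2]
        nlinarith
      have hpow : ((1 - ‖z‖ ^ 2) / ‖1 - ⟪u, z⟫_ℂ‖) ^ s ≤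
          2 ^ s * ((1 - ‖z‖ ^ 2) / ‖1 - ⟪u, z⟫_ℂ‖) ^ s' := by
        have e0 : ((1 - ‖z‖ ^ 2) / ‖1 - ⟪u, z⟫_ℂ‖) ^ s =
            ((1 - ‖z‖ ^ 2) / ‖1 - ⟪u, z⟫_ℂ‖) ^ (s - s') *
              ((1 - ‖z‖ ^ 2) / ‖1 - ⟪u, z⟫_ℂ‖) ^ s' := by
          rw [← Real.rpow_add hρ0]
          congr 1
          ring
        rw [e0]
        refine mul_le_mul_of_nonneg_right ?_ (by positivity)
        calc ((1 - ‖z‖ ^ 2) / ‖1 - ⟪u, z⟫_ℂ‖) ^ (s - s') ≤ (2 : ℝ) ^ (s - s') :=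
              Real.rpow_le_rpow hρ0.le hρ2 (by linarith)
          _ ≤ (2 : ℝ) ^ s := Real.rpow_le_rpow_of_exponent_le one_le_two (by linarith)
      unfold kc
      have hnn2 : 0 ≤ ((1 - ‖u‖ ^ 2) / ‖1 - ⟪u, z⟫_ℂ‖) ^ 2 := by positivity
      calc ((1 - ‖z‖ ^ 2) / ‖1 - ⟪u, z⟫_ℂ‖) ^ s * ((1 - ‖u‖ ^ 2) / ‖1 - ⟪u, z⟫_ℂ‖) ^ 2 /
            ‖1 - ⟪u, z⟫_ℂ‖
          ≤ (2 ^ s * ((1 - ‖z‖ ^ 2) / ‖1 - ⟪u, z⟫_ℂ‖) ^ s') *
              ((1 - ‖u‖ ^ 2) / ‖1 - ⟪u, z⟫_ℂ‖) ^ 2 / ‖1 - ⟪u, z⟫_ℂ‖ :=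
            div_le_div_of_nonneg_right (mul_le_mul_of_nonneg_right hpow hnn2) h2.le
        _ = 2 ^ s * (((1 - ‖z‖ ^ 2) / ‖1 - ⟪u, z⟫_ℂ‖) ^ s' *
              ((1 - ‖u‖ ^ 2) / ‖1 - ⟪u, z⟫_ℂ‖) ^ 2 / ‖1 - ⟪u, z⟫_ℂ‖) := by ring
    unfold Tc
    rw [integral_smul_measure]
    rw [ENNReal.toReal_ofReal (by positivity), smul_eq_mul]
    have hmain : ∫ u, kc s 2 u z ∂ν ≤ ∫ u, 2 ^ s * kc s' 2 u z ∂ν := by
      refine integral_mono_of_nonneg ?_ (hint.const_mul _) ?_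
      · filter_upwards [hae] with u hu
        exact hnn s u hu
      · filter_upwards [hae] with u hu
        exact hcomp u hu
    refine hmain.trans (le_of_eq ?_)
    rw [integral_const_mul]
    field_simp

end Pool.Agent.MPca0fc2.CE
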