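import Mathlib
import Pool.Agent.Lib.MP_ca0fc2_an.CE.G1

set_option autoImplicit false
set_option linter.unusedSectionVars false

open Metric Set MeasureTheory Filter Topology
open scoped InnerProductSpace ENNReal ContDiff

namespace Pool.Agent.MPca0fc2.CE

open Pool.Agent.MPca0fc2.PT
open Pool.Agent.MPca0fc2.QT
open Pool.Agent.MPca0fc2.TS
open Pool.Agent.MPca0fc2.TE
open Pool.Agent.MPca0fc2.TK
open Pool.Agent.MPca0fc2.VK
open Pool.Agent.MPca0fc2.PV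

variable {E : Type*} [NormedAddCommGroup E] [InnerProductSpace ℂ E] [FiniteDimensional ℂ E]
  [MeasurableSpace E] [BorelSpace E]

/-- A slow sequence. Proof. `c 0 = 1`; `c (k+1) = min (c k + 1) (max (c k) (θ (k+1)))`... any nondecreasing unbounded sequence with `1 ≤ c k`, `c (k+1) ≤ c k + 1` and `c k ≤ 1 + θ k` will do; e.g. `c k = 1 + ⨅ over i ≤ k of (θ i + (k - i))` as an infimum over `Finset.range (k+1)`, together with `k`. -/
theorem slow_seq {θ : ℕ → ℝ} (h0 : ∀ k, 0 ≤ θ k) (hm : Monotone θ) (hu : ¬ BddAbove (range θ)) :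
    ∃ c : ℕ → ℝ, Monotone c ∧ (∀ k, 1 ≤ c k) ∧ (∀ k, c (k + 1) ≤ c k + 1) ∧
      (∀ k, c k ≤ 1 + θ k) ∧ ¬ BddAbove (range c) := by
  obtain ⟨c, hc0, hcs⟩ : ∃ c : ℕ → ℝ, c 0 = 1 ∧ ∀ k, c (k + 1) = min (c k + 1) (1 + θ (k + 1)) :=
    ⟨fun n => Nat.rec (1 : ℝ) (fun k x => min (x + 1) (1 + θ (k + 1))) n, rfl, fun k => rfl⟩
  have hle : ∀ k, c k ≤ 1 + θ k := by
    intro k
    cases k with
    | zero => rw [hc0]; linarith [h0 0]
    | succ k => rw [hcs]; exact min_le_right _ _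
  have hstep : ∀ k, c k ≤ c (k + 1) := by
    intro k
    rw [hcs]
    refine le_min (by linarith) ?_
    have := hm (Nat.le_succ k)
    linarith [hle k]
  have hmono : Monotone c := monotone_nat_of_le_succ hstep
  refine ⟨c, hmono, ?_, ?_, hle, ?_⟩
  · intro k
    have := hmono (Nat.zero_le k)
    linarith
  · intro k
    rw [hcs]
    exact min_le_left _ _
  · rintro ⟨M, hM⟩
    have hM' : ∀ k, c k ≤ M := fun k => hM ⟨k, rfl⟩
    obtain ⟨K, hK⟩ : ∃ K, M < θ K := by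
      by_contra hcon
      push Not at hcon
      exact hu ⟨M, by rintro x ⟨k, rfl⟩; exact hcon k⟩
    have hgrow : ∀ n : ℕ, c K + n ≤ c (K + n) := by
      intro n
      induction n with
      | zero => simp
      | succ n ih =>
        have e : K + (n + 1) = (K + n) + 1 := by ring
        rw [e, hcs]
        refine le_min (by push_cast; linarith) ?_
        have h1 : θ K ≤ θ (K + n + 1) := hm (by omega)
        have h2 := hM' (K + n)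
        push_cast
        linarith
    obtain ⟨n, hn⟩ := exists_nat_gt (M - c K)
    have h1 := hgrow n
    have h2 := hM' (K + n)
    linarith

/-- The threshold. Proof. `θ r = om r/r` (antitone, positive, unbounded). Let `θ' 0 = 0`, `θ' k = θ (2^(1-k))` for `k ≥ 1` (monotone up to the first term: take `θ' k = θ (2^(1-k)) - θ 1`, `θ' 0 = 0`), `c` as in `slow_seq`. `ν = κ ∑ k, c k 2^(-k) dirac ((1 - 2^(-k)) p)` (`Measure.sum`, with `κ > 0` small). If `(1 - 2^(-k)) p` is in `{D(·,ζ) < r}` then `2^(-k) < r`; with `2^(-k) < r ≤ 2^(1-k)` for the smallest such `k` (`k = 0` if `1 < r ≤ 2`) the measure of the set is at most `κ ∑_{j ≥ k} c j 2^(-j) ≤ κ 2^(-k) (2 c k + 2) ≤ κ r 4 c k ≤ κ r 4 (1 + θ' k)`, and `1 + θ' k ≤ (1 + 1/θ 2)(θ r)`-like (`θ (2^(1-k)) ≤ θ r` for `k ≥ 1`; `θ 2 ≤ θ r`). `lam a = √(c k)` for `2^(-k) < a ≤ 2^(1-k)`, `k ≥ 1`, and `lam a = 1` for `a > 1` (antitone).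 Lower bound: `d = D(z,p) ∈ (0, 2)`, `2^(-k) < d ≤ 2^(1-k)`: `D(u,z) ≤ d + 2^(-k) ≤ 3 * 2^(-k)`, `u = (1 - 2^(-k)) p`, `1 - ‖u‖² ≥ 2^(-k)`: the term of `u` in `Tc (1/8) 2 ν z` is at least `κ c k 2^(-k) ((1 - ‖z‖²)/(3 * 2^(-k)))^(1/8) (1/3)² /(3 * 2^(-k)) ≥ c₀ c k ((1 - ‖z‖²)/d)^(1/8)`, and `(1 - ‖z‖²)/d ≤ 2 ((1 - ‖z‖²)/d)^(1/8)` (`≤ 2`). (Replace `c k` by `c (k-1)` if it is convenient; constants do not matter.) -/
theorem thr {om : ℝ → ℝ} (h1 : ∀ r ∈ Ioc (0 : ℝ) 2, 0 < om r)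
    (h2 : AntitoneOn (fun r => om r / r) (Ioc 0 2))
    (h3 : ¬ BddAbove ((fun r => om r / r) '' Ioc 0 2)) : ∃ lam : ℝ → ℝ, AntitoneOn lam (Ioi 0) ∧
      (∀ a : ℝ, 0 < a → 1 ≤ lam a) ∧ ¬ BddAbove (lam '' Ioi 0) ∧ ∀ p : E, ‖p‖ = 1 →
        ∃ (L : ℝ) (ν : Measure E), 0 < L ∧ CarW om ν ∧ ∀ z ∈ ball (0 : E) 1,
          lam ‖1 - ⟪z, p⟫_ℂ‖ ^ 2 * ((1 - ‖z‖ ^ 2) / ‖1 - ⟪z, p⟫_ℂ‖) ≤ L * Tc (1 / 8) 2 ν z := by
  -- the levels
  have hpow0 : ∀ k : ℕ, (0 : ℝ) < (1 / 2) ^ k := fun k => by positivity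
  have hpow1 : ∀ k : ℕ, ((1 : ℝ) / 2) ^ k ≤ 1 := fun k => pow_le_one₀ (by norm_num) (by norm_num)
  have hpowmem : ∀ k : ℕ, 2 * ((1 : ℝ) / 2) ^ k ∈ Ioc (0 : ℝ) 2 := by
    intro k
    have h1 := hpow0 k
    have h2 := hpow1 k
    exact ⟨by positivity, by linarith⟩
  obtain ⟨kk, hkk⟩ : ∃ kk : ℝ → ℕ, ∀ a, kk a = sInf {k : ℕ | ((1 : ℝ) / 2) ^ k < a} :=
    ⟨_, fun a => rfl⟩
  have hne : ∀ a : ℝ, 0 < a → {k : ℕ | ((1 : ℝ) / 2) ^ k < a}.Nonempty := fun a ha =>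
    exists_pow_lt_of_lt_one ha (by norm_num)
  have hk1 : ∀ a : ℝ, 0 < a → ((1 : ℝ) / 2) ^ (kk a) < a := by
    intro a ha
    rw [hkk]
    exact Nat.sInf_mem (hne a ha)
  have hk2 : ∀ a : ℝ, a ≤ 2 → a ≤ 2 * ((1 : ℝ) / 2) ^ (kk a) := by
    intro a ha
    rcases Nat.eq_zero_or_pos (kk a) with h | h
    · rw [h]; simpa using ha
    · obtain ⟨j, hj⟩ : ∃ j, kk a = j + 1 := ⟨kk a - 1, by omega⟩
      have hnot : j ∉ {k : ℕ | ((1 : ℝ) / 2) ^ k < a} := by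
        apply Nat.notMem_of_lt_sInf
        rw [← hkk]
        omega
      have h' : a ≤ ((1 : ℝ) / 2) ^ j := by
        by_contra hcon
        exact hnot (lt_of_not_ge hcon)
      rw [hj, pow_succ]
      linarith
  have hkmono : ∀ a b : ℝ, 0 < a → a ≤ b → kk b ≤ kk a := by
    intro a b ha hab
    rw [hkk b]
    exact Nat.sInf_le (lt_of_lt_of_le (hk1 a ha) hab)
  have hkbig : ∀ n : ℕ, n ≤ kk (((1 : ℝ) / 2) ^ n) := by
    intro n
    by_contra hcon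
    push Not at hcon
    have h1 := hk1 (((1 : ℝ) / 2) ^ n) (hpow0 n)
    have h2 : ((1 : ℝ) / 2) ^ n ≤ (1 / 2) ^ (kk (((1 : ℝ) / 2) ^ n)) :=
      pow_le_pow_of_le_one (by norm_num) (by norm_num) hcon.le
    linarith
  -- the slow sequence
  obtain ⟨θ, hθ⟩ : ∃ θ : ℝ → ℝ, ∀ r, θ r = om r / r := ⟨_, fun r => rfl⟩
  have hθpos : ∀ r ∈ Ioc (0 : ℝ) 2, 0 < θ r := by
    intro r hr
    rw [hθ]
    exact div_pos (h1 r hr) hr.1
  have hθanti : ∀ r ∈ Ioc (0 : ℝ) 2, ∀ r' ∈ Ioc (0 : ℝ) 2, r ≤ r' → θ r' ≤ θ r := by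
    intro r hr r' hr' h
    rw [hθ, hθ]
    exact h2 hr hr' h
  have h2mem : (2 : ℝ) ∈ Ioc (0 : ℝ) 2 := ⟨two_pos, le_rfl⟩
  obtain ⟨c, hcm, hc1, hcs, hcle, hcu⟩ := slow_seq (θ := fun k : ℕ => θ (2 * (1 / 2) ^ k))
    (fun k => (hθpos _ (hpowmem k)).le)
    (monotone_nat_of_le_succ fun k => hθanti _ (hpowmem _) _ (hpowmem _) (by
      rw [pow_succ]; have := hpow0 k; linarith))
    (by
      rintro ⟨M, hM⟩
      apply h3
      refine ⟨M, ?_⟩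
      rintro x ⟨r, hr, rfl⟩
      obtain ⟨k, hk⟩ := exists_pow_lt_of_lt_one (half_pos hr.1) (show ((1 : ℝ) / 2) < 1 by norm_num)
      have h4 : θ r ≤ θ (2 * (1 / 2) ^ k) := hθanti _ (hpowmem k) _ hr (by linarith)
      have h5 : θ (2 * (1 / 2) ^ k) ≤ M := hM ⟨k, rfl⟩
      show om r / r ≤ M
      rw [← hθ]
      linarith)
  have hc0 : ∀ k, 0 < c k := fun k => lt_of_lt_of_le one_pos (hc1 k)
  -- the constants
  have hθ2 : 0 < θ 2 := hθpos 2 h2mem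
  obtain ⟨κ, hκ⟩ : ∃ κ : ℝ, κ = 1 / (4 * (1 + 1 / θ 2)) := ⟨_, rfl⟩
  have hκ0 : 0 < κ := by rw [hκ]; positivity
  refine ⟨fun a => √(c (kk a)), ?_, ?_, ?_, ?_⟩
  · intro a ha b hb hab
    exact Real.sqrt_le_sqrt (hcm (hkmono a b ha hab))
  · intro a ha
    rw [Real.one_le_sqrt]
    exact hc1 _
  · rintro ⟨M, hM⟩
    apply hcu
    refine ⟨M ^ 2, ?_⟩
    rintro x ⟨n, rfl⟩
    have h4 : √(c (kk (((1 : ℝ) / 2) ^ n))) ≤ M := hM ⟨_, hpow0 n, rfl⟩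
    have h5 : √(c n) ≤ M := (Real.sqrt_le_sqrt (hcm (hkbig n))).trans h4
    have h6 := Real.sq_sqrt (hc0 n).le
    have h7 := Real.sqrt_nonneg (c n)
    show c n ≤ M ^ 2
    rw [← h6]
    exact pow_le_pow_left₀ h7 h5 2
  intro p hp
  obtain ⟨x, hx⟩ : ∃ x : ℕ → E, ∀ k, x k = ((1 - (1 / 2) ^ k : ℝ) : ℂ) • p := ⟨_, fun k => rfl⟩
  obtain ⟨w, hw⟩ : ∃ w : ℕ → ℝ, ∀ k, w k = κ * c k * (1 / 2) ^ k := ⟨_, fun k => rfl⟩
  have hw0 : ∀ k, 0 ≤ w k := by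
    intro k
    rw [hw]
    have := hpow0 k
    have := hc0 k
    positivity
  obtain ⟨T, hT⟩ : ∃ T : ℕ → ℝ, ∀ k, T k = κ * (1 / 2) ^ k * (2 * c k + 2) := ⟨_, fun k => rfl⟩
  have hT0 : ∀ k, 0 ≤ T k := by
    intro k
    rw [hT]
    have := hpow0 k
    have := hc0 k
    positivity
  have hTw : ∀ k, w k + T (k + 1) ≤ T k := by
    intro k
    rw [hw, hT, hT, pow_succ]
    have h4 := hcs k
    have h5 : 0 < κ * (1 / 2) ^ k := mul_pos hκ0 (hpow0 k)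
    have h6 : κ * (1 / 2) ^ k * (2 * c k + 2) - (κ * c k * (1 / 2) ^ k +
        κ * ((1 / 2) ^ k * (1 / 2)) * (2 * c (k + 1) + 2)) =
        (κ * (1 / 2) ^ k) * (c k + 1 - c (k + 1)) := by ring
    have h7 : 0 ≤ (κ * (1 / 2) ^ k) * (c k + 1 - c (k + 1)) := mul_nonneg h5.le (by linarith)
    linarith
  have hxn : ∀ k, ‖x k‖ = 1 - (1 / 2) ^ k := by
    intro k
    rw [hx, norm_smul, hp, mul_one, Complex.norm_real, Real.norm_of_nonneg]
    linarith [hpow1 k]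
  have hxball : ∀ k, x k ∈ ball (0 : E) 1 := by
    intro k
    rw [mem_ball_zero_iff, hxn]
    linarith [hpow0 k]
  obtain ⟨ν, hν⟩ : ∃ ν : Measure E, ν = Measure.sum fun k => ENNReal.ofReal (w k) •
    Measure.dirac (x k) := ⟨_, rfl⟩
  -- the measure of a set which contains only points of high index
  have hsum : ∀ (S : Set E) (k0 : ℕ), MeasurableSet S → (∀ k, x k ∈ S → k0 ≤ k) →
      ν S ≤ ENNReal.ofReal (T k0) := by
    intro S k0 hS hSk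
    rw [hν, Measure.sum_apply _ hS]
    have hbd : ∀ n : ℕ, (∑ i ∈ Finset.range n,
        (ENNReal.ofReal (w i) • Measure.dirac (x i)) S) + ENNReal.ofReal (T (max n k0)) ≤
          ENNReal.ofReal (T k0) := by
      intro n
      induction n with
      | zero => simp
      | succ n ih =>
        rw [Finset.sum_range_succ]
        by_cases hn : k0 ≤ n
        · have e1 : max n k0 = n := max_eq_left hn
          have e2 : max (n + 1) k0 = n + 1 := max_eq_left (by omega)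
          rw [e1] at ih
          rw [e2, add_assoc]
          refine le_trans ?_ ih
          refine add_le_add le_rfl ?_
          calc (ENNReal.ofReal (w n) • Measure.dirac (x n)) S + ENNReal.ofReal (T (n + 1))
              ≤ ENNReal.ofReal (w n) + ENNReal.ofReal (T (n + 1)) := by
                refine add_le_add ?_ le_rfl
                rw [Measure.smul_apply, smul_eq_mul]
                calc ENNReal.ofReal (w n) * (Measure.dirac (x n)) S ≤ ENNReal.ofReal (w n) * 1 :=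
                      mul_le_mul_right prob_le_one _
                  _ = ENNReal.ofReal (w n) := mul_one _
            _ = ENNReal.ofReal (w n + T (n + 1)) := (ENNReal.ofReal_add (hw0 n) (hT0 _)).symm
            _ ≤ ENNReal.ofReal (T n) := ENNReal.ofReal_le_ofReal (hTw n)
        · have e1 : max n k0 = k0 := max_eq_right (by omega)
          have e2 : max (n + 1) k0 = k0 := max_eq_right (by omega)
          have e3 : (ENNReal.ofReal (w n) • Measure.dirac (x n)) S = 0 := by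
            rw [Measure.smul_apply, Measure.dirac_apply' _ hS]
            have : x n ∉ S := fun h => hn (hSk n h)
            simp [this]
          rw [e1] at ih
          rw [e2, e3, add_zero]
          exact ih
    refine ENNReal.tsum_le_of_sum_range_le fun n => ?_
    exact le_trans le_self_add (hbd n)
  have hνball : ν (ball (0 : E) 1)ᶜ = 0 := by
    rw [hν, Measure.sum_apply _ measurableSet_ball.compl, ENNReal.tsum_eq_zero]
    intro k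
    rw [Measure.smul_apply, Measure.dirac_apply' _ measurableSet_ball.compl]
    have : x k ∉ (ball (0 : E) 1)ᶜ := fun h => h (hxball k)
    simp [this]
  have hνfin : IsFiniteMeasure ν :=
    ⟨(hsum Set.univ 0 MeasurableSet.univ fun k _ => Nat.zero_le k).trans_lt
      ENNReal.ofReal_lt_top⟩
  refine ⟨81 / κ, ν, by positivity, ⟨hνball, ?_⟩, ?_⟩
  · intro ζ hζ r hr0 hr2
    have hmS : MeasurableSet {u : E | ‖1 - ⟪u, ζ⟫_ℂ‖ < r} := by
      have hcont : Continuous fun u : E => ‖1 - ⟪u, ζ⟫_ℂ‖ :=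
        (continuous_const.sub (by fun_prop : Continuous fun u : E => ⟪u, ζ⟫_ℂ)).norm
      exact (isOpen_lt hcont continuous_const).measurableSet
    refine (hsum _ (kk r) hmS ?_).trans (ENNReal.ofReal_le_ofReal ?_)
    · intro k hk
      have hk' : ‖1 - ⟪x k, ζ⟫_ℂ‖ < r := hk
      rw [hkk]
      apply Nat.sInf_le
      show ((1 : ℝ) / 2) ^ k < r
      have h4 : ‖⟪x k, ζ⟫_ℂ‖ ≤ ‖x k‖ * ‖ζ‖ := norm_inner_le_norm _ _
      have h5 : ‖(1 : ℂ)‖ - ‖⟪x k, ζ⟫_ℂ‖ ≤ ‖1 - ⟪x k, ζ⟫_ℂ‖ := norm_sub_norm_le _ _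
      rw [norm_one] at h5
      rw [hζ, mul_one, hxn] at h4
      linarith
    · rw [hT]
      have hA := hk1 r hr0
      have hB := hk2 r hr2
      have hrm : r ∈ Ioc (0 : ℝ) 2 := ⟨hr0, hr2⟩
      have h4 : c (kk r) ≤ 1 + θ r := by
        have h5 : c (kk r) ≤ 1 + θ (2 * (1 / 2) ^ (kk r)) := hcle (kk r)
        have h6 := hθanti r hrm _ (hpowmem (kk r)) hB
        linarith
      have h5 : θ 2 ≤ θ r := hθanti r hrm 2 h2mem hr2
      have h6 : 1 + θ r ≤ (1 + 1 / θ 2) * θ r := by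
        have : 1 ≤ 1 / θ 2 * θ r := by
          rw [one_div, ← div_eq_inv_mul, one_le_div hθ2]
          exact h5
        linarith
      have h7 : om r = θ r * r := by
        rw [hθ]
        field_simp
      have h8 : 2 * c (kk r) + 2 ≤ 4 * ((1 + 1 / θ 2) * θ r) := by
        have := hc1 (kk r)
        linarith
      have h9 : (0 : ℝ) ≤ 2 * c (kk r) + 2 := by linarith [hc0 (kk r)]
      calc κ * (1 / 2) ^ (kk r) * (2 * c (kk r) + 2)
          ≤ κ * r * (4 * ((1 + 1 / θ 2) * θ r)) :=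
            mul_le_mul (mul_le_mul_of_nonneg_left hA.le hκ0.le) h8 h9 (by positivity)
        _ = om r := by
            rw [h7, hκ]
            field_simp
  · intro z hz
    have hz1 : ‖z‖ < 1 := by simpa using hz
    have hz0 : 0 ≤ ‖z‖ := norm_nonneg z
    have hz2 : 0 < 1 - ‖z‖ ^ 2 := by nlinarith
    have hη : 0 < 1 - ‖z‖ := by linarith
    have hae : ∀ᵐ u ∂ν, u ∈ ball (0 : E) 1 := by
      rw [ae_iff]
      exact hνball
    have hD : ∀ u ∈ ball (0 : E) 1, 1 - ‖z‖ ≤ ‖1 - ⟪u, z⟫_ℂ‖ := by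
      intro u hu
      have hu1 : ‖u‖ < 1 := by simpa using hu
      have h1 : ‖⟪u, z⟫_ℂ‖ ≤ ‖u‖ * ‖z‖ := norm_inner_le_norm u z
      have h2 : ‖(1 : ℂ)‖ - ‖⟪u, z⟫_ℂ‖ ≤ ‖1 - ⟪u, z⟫_ℂ‖ := norm_sub_norm_le _ _
      rw [norm_one] at h2
      have h3 : ‖u‖ * ‖z‖ ≤ 1 * ‖z‖ := mul_le_mul_of_nonneg_right hu1.le hz0
      linarith
    have hnn : ∀ u ∈ ball (0 : E) 1, 0 ≤ kc (1 / 8) 2 u z := by
      intro u hu
      have h1 := hD u hu
      have h2 : 0 < ‖1 - ⟪u, z⟫_ℂ‖ := lt_of_lt_of_le hη h1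
      unfold kc
      positivity
    have hmeas : Measurable fun u : E => kc (1 / 8) 2 u z := by
      have hc : Continuous fun u : E => ⟪u, z⟫_ℂ := by fun_prop
      have hm1 : Measurable fun u : E => ‖1 - ⟪u, z⟫_ℂ‖ := (continuous_const.sub hc).norm.measurable
      have hm2 : Measurable fun u : E => 1 - ‖u‖ ^ 2 := by
        have : Continuous fun u : E => 1 - ‖u‖ ^ 2 := by fun_prop
        exact this.measurable
      unfold kc
      exact (((measurable_const.div hm1).pow_const _).mul ((hm2.div hm1).pow_const 2)).div hm1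
    have hint : Integrable (fun u : E => kc (1 / 8) 2 u z) ν := by
      refine Integrable.of_bound hmeas.aestronglyMeasurable
        (((1 - ‖z‖)⁻¹) ^ (1 / 8 : ℝ) * ((1 - ‖z‖)⁻¹) ^ 2 * (1 - ‖z‖)⁻¹) ?_
      filter_upwards [hae] with u hu
      rw [Real.norm_of_nonneg (hnn u hu)]
      have h1 := hD u hu
      have h2 : 0 < ‖1 - ⟪u, z⟫_ℂ‖ := lt_of_lt_of_le hη h1
      have hu1 : ‖u‖ < 1 := by simpa using hu
      have hu0 : 0 ≤ ‖u‖ := norm_nonneg u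
      have hinv : (‖1 - ⟪u, z⟫_ℂ‖)⁻¹ ≤ (1 - ‖z‖)⁻¹ := inv_anti₀ hη h1
      have ha : (1 - ‖z‖ ^ 2) / ‖1 - ⟪u, z⟫_ℂ‖ ≤ (1 - ‖z‖)⁻¹ := by
        rw [div_eq_mul_inv]
        calc (1 - ‖z‖ ^ 2) * (‖1 - ⟪u, z⟫_ℂ‖)⁻¹ ≤ 1 * (1 - ‖z‖)⁻¹ :=
              mul_le_mul (by nlinarith [sq_nonneg ‖z‖]) hinv (by positivity) zero_le_one
          _ = _ := one_mul _
      have hu2 : 0 ≤ 1 - ‖u‖ ^ 2 := by nlinarith
      have hb : (1 - ‖u‖ ^ 2) / ‖1 - ⟪u, z⟫_ℂ‖ ≤ (1 - ‖z‖)⁻¹ := by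
        rw [div_eq_mul_inv]
        calc (1 - ‖u‖ ^ 2) * (‖1 - ⟪u, z⟫_ℂ‖)⁻¹ ≤ 1 * (1 - ‖z‖)⁻¹ :=
              mul_le_mul (by nlinarith [sq_nonneg ‖u‖]) hinv (by positivity) zero_le_one
          _ = _ := one_mul _
      unfold kc
      rw [div_eq_mul_inv (_ * _) (‖1 - ⟪u, z⟫_ℂ‖)]
      have e1 : ((1 - ‖z‖ ^ 2) / ‖1 - ⟪u, z⟫_ℂ‖) ^ (1 / 8 : ℝ) ≤ ((1 - ‖z‖)⁻¹) ^ (1 / 8 : ℝ) :=
        Real.rpow_le_rpow (by positivity) ha (by norm_num)
      have e2 : ((1 - ‖u‖ ^ 2) / ‖1 - ⟪u, z⟫_ℂ‖) ^ 2 ≤ ((1 - ‖z‖)⁻¹) ^ 2 :=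
        pow_le_pow_left₀ (by positivity) hb 2
      refine mul_le_mul (mul_le_mul e1 e2 (by positivity) (by positivity)) hinv (by positivity)
        (by positivity)
    -- the distance of `z` and `p`
    obtain ⟨d, hd⟩ : ∃ d : ℝ, d = ‖1 - ⟪z, p⟫_ℂ‖ := ⟨_, rfl⟩
    have hd1 : 1 - ‖z‖ ≤ d := by
      have h1 : ‖⟪z, p⟫_ℂ‖ ≤ ‖z‖ * ‖p‖ := norm_inner_le_norm z p
      have h2 : ‖(1 : ℂ)‖ - ‖⟪z, p⟫_ℂ‖ ≤ ‖1 - ⟪z, p⟫_ℂ‖ := norm_sub_norm_le _ _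
      rw [norm_one] at h2
      rw [hp, mul_one] at h1
      linarith
    have hd0 : 0 < d := by linarith
    have hd2 : d ≤ 2 := by
      have h1 : ‖⟪z, p⟫_ℂ‖ ≤ ‖z‖ * ‖p‖ := norm_inner_le_norm z p
      have h2 : ‖1 - ⟪z, p⟫_ℂ‖ ≤ ‖(1 : ℂ)‖ + ‖⟪z, p⟫_ℂ‖ := norm_sub_le _ _
      rw [norm_one] at h2
      rw [hp, mul_one] at h1
      linarith
    have hdsym : ‖1 - ⟪p, z⟫_ℂ‖ = d := by
      rw [hd, ← inner_conj_symm z p]
      rw [show (1 : ℂ) - (starRingEnd ℂ) ⟪p, z⟫_ℂ = (starRingEnd ℂ) (1 - ⟪p, z⟫_ℂ) by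
        rw [map_sub, map_one]]
      rw [RCLike.norm_conj]
    rw [← hd]
    obtain ⟨k, hk⟩ : ∃ k : ℕ, k = kk d := ⟨_, rfl⟩
    have hA : ((1 : ℝ) / 2) ^ k < d := by rw [hk]; exact hk1 d hd0
    have hB : d ≤ 2 * ((1 : ℝ) / 2) ^ k := by rw [hk]; exact hk2 d hd2
    obtain ⟨q, hq⟩ : ∃ q : ℝ, q = ((1 : ℝ) / 2) ^ k := ⟨_, rfl⟩
    have hq0 : 0 < q := by rw [hq]; exact hpow0 k
    have hq1 : q ≤ 1 := by rw [hq]; exact hpow1 k
    rw [← hq] at hA hB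
    have hxk := hxball k
    have hDx0 : 0 < ‖1 - ⟪x k, z⟫_ℂ‖ := lt_of_lt_of_le hη (hD _ hxk)
    have hDx : ‖1 - ⟪x k, z⟫_ℂ‖ ≤ 3 * q := by
      have e1 : (1 : ℂ) - ⟪x k, z⟫_ℂ = (1 - ⟪p, z⟫_ℂ) + (q : ℂ) * ⟪p, z⟫_ℂ := by
        rw [hx, inner_smul_left, Complex.conj_ofReal, ← hq]
        push_cast
        ring
      have h1 : ‖⟪p, z⟫_ℂ‖ ≤ ‖p‖ * ‖z‖ := norm_inner_le_norm p z
      rw [hp, one_mul] at h1
      have h2 : ‖(1 - ⟪p, z⟫_ℂ) + (q : ℂ) * ⟪p, z⟫_ℂ‖ ≤ ‖1 - ⟪p, z⟫_ℂ‖ + ‖(q : ℂ) * ⟪p, z⟫_ℂ‖ :=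
        norm_add_le _ _
      have h3 : ‖(q : ℂ) * ⟪p, z⟫_ℂ‖ ≤ q := by
        rw [norm_mul, Complex.norm_real, Real.norm_of_nonneg hq0.le]
        calc q * ‖⟪p, z⟫_ℂ‖ ≤ q * 1 := mul_le_mul_of_nonneg_left (by linarith) hq0.le
          _ = q := mul_one q
      rw [e1]
      rw [hdsym] at h2
      linarith
    have hxk2 : q ≤ 1 - ‖x k‖ ^ 2 := by
      rw [hxn, ← hq]
      nlinarith
    -- the term of the measure
    have hle : ENNReal.ofReal (w k) • Measure.dirac (x k) ≤ ν := by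
      rw [hν]
      exact Measure.le_sum (fun k => ENNReal.ofReal (w k) • Measure.dirac (x k)) k
    have hterm : w k * kc (1 / 8) 2 (x k) z ≤ Tc (1 / 8) 2 ν z := by
      have h1 : ∫ u, kc (1 / 8) 2 u z ∂(ENNReal.ofReal (w k) • Measure.dirac (x k)) ≤
          ∫ u, kc (1 / 8) 2 u z ∂ν := by
        refine integral_mono_measure hle ?_ hint
        filter_upwards [hae] with u hu
        exact hnn u hu
      rw [integral_smul_measure, integral_dirac, ENNReal.toReal_ofReal (hw0 k), smul_eq_mul] at h1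
      exact h1
    have hkc : ((1 - ‖z‖ ^ 2) / d) / 3 * (1 / 27) * q⁻¹ ≤ kc (1 / 8) 2 (x k) z := by
      have hρ0 : 0 < (1 - ‖z‖ ^ 2) / d := div_pos hz2 hd0
      have hρ2 : (1 - ‖z‖ ^ 2) / d ≤ 2 := by
        rw [div_le_iff₀ hd0]
        nlinarith
      have e1 : ((1 - ‖z‖ ^ 2) / d) / 3 ≤ ((1 - ‖z‖ ^ 2) / ‖1 - ⟪x k, z⟫_ℂ‖) ^ (1 / 8 : ℝ) := by
        have h1 : ((1 - ‖z‖ ^ 2) / d) / 3 ≤ (((1 - ‖z‖ ^ 2) / d) / 3) ^ (1 / 8 : ℝ) := by
          conv_lhs => rw [← Real.rpow_one (((1 - ‖z‖ ^ 2) / d) / 3)]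
          exact Real.rpow_le_rpow_of_exponent_ge (by positivity) (by linarith) (by norm_num)
        refine h1.trans (Real.rpow_le_rpow (by positivity) ?_ (by norm_num))
        rw [div_div]
        exact div_le_div_of_nonneg_left hz2.le hDx0 (by linarith)
      have e2 : (1 : ℝ) / 3 ≤ (1 - ‖x k‖ ^ 2) / ‖1 - ⟪x k, z⟫_ℂ‖ := by
        rw [le_div_iff₀ hDx0]
        linarith
      have e3 : ((1 : ℝ) / 3) ^ 2 ≤ ((1 - ‖x k‖ ^ 2) / ‖1 - ⟪x k, z⟫_ℂ‖) ^ 2 :=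
        pow_le_pow_left₀ (by norm_num) e2 2
      have e4 : (3 * q)⁻¹ ≤ (‖1 - ⟪x k, z⟫_ℂ‖)⁻¹ := inv_anti₀ hDx0 hDx
      unfold kc
      rw [div_eq_mul_inv (_ * _) (‖1 - ⟪x k, z⟫_ℂ‖)]
      have e5 : ((1 - ‖z‖ ^ 2) / d) / 3 * (1 / 27) * q⁻¹ =
          ((1 - ‖z‖ ^ 2) / d) / 3 * (1 / 3) ^ 2 * (3 * q)⁻¹ := by
        rw [mul_inv]
        ring
      rw [e5]
      exact mul_le_mul (mul_le_mul e1 e3 (by positivity) (by positivity)) e4 (by positivity)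
        (by positivity)
    have hfin : c k * ((1 - ‖z‖ ^ 2) / d) ≤ 81 / κ * (w k * kc (1 / 8) 2 (x k) z) := by
      have h1 : w k * (((1 - ‖z‖ ^ 2) / d) / 3 * (1 / 27) * q⁻¹) ≤ w k * kc (1 / 8) 2 (x k) z :=
        mul_le_mul_of_nonneg_left hkc (hw0 k)
      have h2 : 81 / κ * (w k * (((1 - ‖z‖ ^ 2) / d) / 3 * (1 / 27) * q⁻¹)) =
          c k * ((1 - ‖z‖ ^ 2) / d) := by
        rw [hw, ← hq]
        field_simp
        ring
      rw [← h2]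
      exact mul_le_mul_of_nonneg_left h1 (by positivity)
    show √(c (kk d)) ^ 2 * ((1 - ‖z‖ ^ 2) / d) ≤ 81 / κ * Tc (1 / 8) 2 ν z
    rw [Real.sq_sqrt (hc0 _).le, ← hk]
    exact hfin.trans (mul_le_mul_of_nonneg_left hterm (by positivity))

end Pool.Agent.MPca0fc2.CE
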