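import Mathlib
import Pool.Agent.Lib.MP_ca0fc2_an.CE.F5
import Pool.Agent.Lib.MP_ca0fc2_an.Mg.G128
import Pool.Agent.Lib.MP_ca0fc2_an.TK.N1
import Pool.Agent.Lib.MP_ca0fc2_an.VK.D1

set_option autoImplicit false
set_option linter.unusedSectionVars false

open Metric Set MeasureTheory Filter Topology
open scoped InnerProductSpace ENNReal ContDiff

namespace Pool.Agent.MPca0fc2.CE

open Pool.Agent.MPca0fc2.PT
open Pool.Agent.MPca0fc2.QT
open Pool.Agent.MPca0fc2.TS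
open Pool.Agent.MPca0fc2.TE
open Pool.Agent.MPca0fc2.TK
open Pool.Agent.MPca0fc2.VK
open Pool.Agent.MPca0fc2.PV

variable {E : Type*} [NormedAddCommGroup E] [InnerProductSpace ℂ E] [FiniteDimensional ℂ E]
  [MeasurableSpace E] [BorelSpace E]

private lemma G3_u {x ζ : E} (hx : ‖x‖ ≤ 1) (hζ : ‖ζ‖ ≤ 1) {q : ℝ} (hq0 : 0 ≤ q) (hq1 : q ≤ 1) :
    q ≤ ‖1 - ⟪((1 - q : ℝ) : ℂ) • x, ζ⟫_ℂ‖ ∧
    ‖1 - ⟪x, ζ⟫_ℂ‖ ≤ ‖1 - ⟪((1 - q : ℝ) : ℂ) • x, ζ⟫_ℂ‖ + q ∧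
    ‖1 - ⟪((1 - q : ℝ) : ℂ) • x, ζ⟫_ℂ‖ ≤ ‖1 - ⟪x, ζ⟫_ℂ‖ + q := by
  have h1 : ‖⟪x, ζ⟫_ℂ‖ ≤ 1 := by
    refine (norm_inner_le_norm x ζ).trans ?_
    nlinarith [norm_nonneg x, norm_nonneg ζ]
  have h0 := norm_nonneg ⟪x, ζ⟫_ℂ
  have e1 : ⟪((1 - q : ℝ) : ℂ) • x, ζ⟫_ℂ = ((1 - q : ℝ) : ℂ) * ⟪x, ζ⟫_ℂ := by
    rw [inner_smul_left, Complex.conj_ofReal]
  rw [e1]
  have h2 : ‖((1 - q : ℝ) : ℂ) * ⟪x, ζ⟫_ℂ‖ = (1 - q) * ‖⟪x, ζ⟫_ℂ‖ := by
    rw [norm_mul, Complex.norm_real, Real.norm_of_nonneg (by linarith)]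
  have h3 : ‖(q : ℂ) * ⟪x, ζ⟫_ℂ‖ ≤ q := by
    rw [norm_mul, Complex.norm_real, Real.norm_of_nonneg hq0]
    nlinarith
  refine ⟨?_, ?_, ?_⟩
  · have h4 := norm_sub_norm_le (1 : ℂ) (((1 - q : ℝ) : ℂ) * ⟪x, ζ⟫_ℂ)
    rw [norm_one, h2] at h4
    nlinarith
  · have e2 : 1 - ⟪x, ζ⟫_ℂ = (1 - ((1 - q : ℝ) : ℂ) * ⟪x, ζ⟫_ℂ) - (q : ℂ) * ⟪x, ζ⟫_ℂ := by
      push_cast; ring
    rw [e2]
    refine (norm_sub_le _ _).trans ?_
    linarith
  · have e2 : 1 - ((1 - q : ℝ) : ℂ) * ⟪x, ζ⟫_ℂ = (1 - ⟪x, ζ⟫_ℂ) + (q : ℂ) * ⟪x, ζ⟫_ℂ := by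
      push_cast; ring
    rw [e2]
    refine (norm_add_le _ _).trans ?_
    linarith

private lemma G3_sum {β r : ℝ} (hβ1 : β < 1) (hr : 0 < r) :
    ∑' k : ℕ, (if ((1 : ℝ) / 2) ^ k < r then
      ENNReal.ofReal (((1 : ℝ) / 2) ^ k * (r / ((1 : ℝ) / 2) ^ k) ^ β) else 0) ≤
      ENNReal.ofReal (r * (1 - (2 : ℝ) ^ (β - 1))⁻¹) := by
  classical
  have hex : ∃ k : ℕ, ((1 : ℝ) / 2) ^ k < r := exists_pow_lt_of_lt_one hr (by norm_num)
  set k0 := Nat.find hex with hk0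
  have hk0s : ((1 : ℝ) / 2) ^ k0 < r := Nat.find_spec hex
  set ρ : ℝ := (2 : ℝ) ^ (β - 1) with hρ
  have hρ0 : 0 < ρ := Real.rpow_pos_of_pos (by norm_num) _
  have hρ1 : ρ < 1 := Real.rpow_lt_one_of_one_lt_of_neg (by norm_num) (by linarith)
  set F : ℕ → ℝ≥0∞ := fun k => if ((1 : ℝ) / 2) ^ k < r then
      ENNReal.ofReal (((1 : ℝ) / 2) ^ k * (r / ((1 : ℝ) / 2) ^ k) ^ β) else 0 with hF
  have h1 : ∑' k, F k = ∑ k ∈ Finset.range k0, F k + ∑' j, F (j + k0) :=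
    (Summable.sum_add_tsum_nat_add' (f := F) ENNReal.summable).symm
  have h2 : ∑ k ∈ Finset.range k0, F k = 0 := by
    refine Finset.sum_eq_zero fun k hk => ?_
    have := Nat.find_min hex (Finset.mem_range.1 hk)
    simp only [hF, if_neg this]
  have h3 : ∀ j, F (j + k0) ≤ ENNReal.ofReal (r * ρ ^ j) := by
    intro j
    simp only [hF]
    split_ifs with h
    · refine ENNReal.ofReal_le_ofReal ?_
      have hp : (0 : ℝ) < (1 / 2) ^ (j + k0) := by positivity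
      have e1 : ((1 : ℝ) / 2) ^ (j + k0) * (r / ((1 : ℝ) / 2) ^ (j + k0)) ^ β =
          r * (r / ((1 : ℝ) / 2) ^ (j + k0)) ^ (β - 1) := by
        rw [Real.rpow_sub_one (by positivity)]
        field_simp
      rw [e1]
      refine mul_le_mul_of_nonneg_left ?_ hr.le
      have e2 : (ρ : ℝ) ^ j = ((2 : ℝ) ^ j) ^ (β - 1) := by
        rw [hρ, ← Real.rpow_natCast, ← Real.rpow_mul (by norm_num), ← Real.rpow_natCast (2 : ℝ) j,
          ← Real.rpow_mul (by norm_num)]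
        ring_nf
      rw [e2]
      refine Real.rpow_le_rpow_of_nonpos (by positivity) ?_ (by linarith)
      rw [le_div_iff₀ hp, pow_add]
      have e3 : (2 : ℝ) ^ j * ((1 / 2) ^ j * (1 / 2) ^ k0) = (1 / 2) ^ k0 := by
        rw [← mul_assoc, ← mul_pow]; norm_num
      rw [e3]
      exact hk0s.le
    · exact zero_le
  have hs : Summable fun j : ℕ => r * ρ ^ j := (summable_geometric_of_lt_one hρ0.le hρ1).mul_left r
  calc ∑' k, F k = ∑' j, F (j + k0) := by rw [h1, h2, zero_add]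
    _ ≤ ∑' j, ENNReal.ofReal (r * ρ ^ j) := ENNReal.tsum_le_tsum h3
    _ = ENNReal.ofReal (∑' j, r * ρ ^ j) :=
        (ENNReal.ofReal_tsum_of_nonneg (fun j => by positivity) hs).symm
    _ = ENNReal.ofReal (r * (1 - ρ)⁻¹) := by
        rw [tsum_mul_left, tsum_geometric_of_lt_one hρ0.le hρ1]

/-- Functions which are Hölder off a thin set. Proof. `N_k` a maximal `2^(-k)`-separated finite subset of `K` (for `|1 - ⟪x, y⟫|`; see the nets in the proof of `TK.thin_adm`, files TK/N*.lean or TK/T*.lean), `ν = κ ∑ k, 2^(-k) ∑ x ∈ N_k, dirac ((1 - 2^(-k)) x)`. If `(1 - 2^(-k)) x` is in `{D(·,ζ) < r}` then `2^(-k) < r` and `D(x,ζ) < 2 r`; there are at most `C (16 r 2^k)^β` such `x` (they are within `D(x, x₀) < 16 r` of one of them), and `∑_{2^(-k) < r} 2^(-k) (r 2^k)^β ≤ C r` as `β < 1`. Lower bound: `d = dk K z`, `h = 1 - ‖z‖² ≤ 2 d` and `d ≤ 2`; `2^(-k) < d ≤ 2^(1-k)` (`k = 0` for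 `d > 1`); `ζ ∈ K` with `D(ζ,z) < 2 d`, `x ∈ N_k` with `D(x,ζ) < 2^(-k)`, `u = (1 - 2^(-k)) x`: `D(u,z) ≤ C 2^(-k)` (`a_cmp`), and the term of `u` in `Tc s 2 ν z` is at least `c (h/2^(-k))^s ≥ c (h/d)^s`. -/
theorem thin_car (hE : ∃ ζ : E, ‖ζ‖ = 1) {β s : ℝ} (hβ0 : 0 ≤ β) (hβ1 : β < 1) (hs : 0 < s)
    {C₀ : ℝ} (hC₀ : 0 < C₀) : ∃ L : ℝ, 0 < L ∧ ∀ K : Set E, K ⊆ sphere 0 1 → K.Nonempty →
      (∀ x₀ ∈ K, ∀ r R : ℝ, 0 < r → r ≤ R → ∀ S : Finset E, (S : Set E) ⊆ K →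
        (∀ x ∈ S, ‖1 - ⟪x, x₀⟫_ℂ‖ < R) → (∀ x ∈ S, ∀ y ∈ S, x ≠ y → r ≤ ‖1 - ⟪x, y⟫_ℂ‖) →
        (S.card : ℝ) ≤ C₀ * (R / r) ^ β) →
      ∃ ν : Measure E, Car ν ∧ ∀ z ∈ ball (0 : E) 1,
        ((1 - ‖z‖ ^ 2) / dk K z) ^ s ≤ L * Tc s 2 ν z := by
  classical
  set κ : ℝ := (1 - (2 : ℝ) ^ (β - 1)) / (C₀ * 8 ^ β) with hκd
  have hρ1 : (2 : ℝ) ^ (β - 1) < 1 := Real.rpow_lt_one_of_one_lt_of_neg (by norm_num) (by linarith)
  have h8 : (0 : ℝ) < 8 ^ β := Real.rpow_pos_of_pos (by norm_num) _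
  have hκ : 0 < κ := div_pos (by linarith) (mul_pos hC₀ h8)
  have h12 : (0 : ℝ) < 12 ^ s := Real.rpow_pos_of_pos (by norm_num) _
  refine ⟨1728 * 12 ^ s / κ, by positivity, fun K hKs hKn hHom => ?_⟩
  have hnorm : ∀ x ∈ K, ‖x‖ = 1 := fun x hx => by simpa using hKs hx
  have hHom' : Hom β C₀ K := hHom
  choose N hNK hNsep hNnet using fun k : ℕ =>
    net hHom' hKs hKn (r := ((1 : ℝ) / 2) ^ k) (by positivity)
  have hq : ∀ k : ℕ, (0 : ℝ) < (1 / 2) ^ k ∧ ((1 : ℝ) / 2) ^ k ≤ 1 := fun k =>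
    ⟨by positivity, pow_le_one₀ (by norm_num) (by norm_num)⟩
  set pt' : ℕ → E → E := fun k x => ((1 - ((1 : ℝ) / 2) ^ k : ℝ) : ℂ) • x with hpt
  set c : ℕ → ℝ≥0∞ := fun k => ENNReal.ofReal (κ * ((1 : ℝ) / 2) ^ k) with hc
  set m : ℕ → Measure E := fun k => ∑ x ∈ N k, c k • Measure.dirac (pt' k x) with hm
  set ν : Measure E := Measure.sum m with hν
  have hsymm : ∀ x y : E, ‖1 - ⟪x, y⟫_ℂ‖ = ‖1 - ⟪y, x⟫_ℂ‖ := by
    intro x y
    rw [← inner_conj_symm x y, ← RCLike.norm_conj (1 - ⟪y, x⟫_ℂ)]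
    simp
  have hptn : ∀ k x, x ∈ K → ‖pt' k x‖ = 1 - ((1 : ℝ) / 2) ^ k := by
    intro k x hx
    rw [hpt]
    simp only
    rw [norm_smul, hnorm x hx, mul_one, Complex.norm_real, Real.norm_of_nonneg]
    have := (hq k).2
    linarith
  obtain ⟨TT, hTT⟩ : ∃ TT : Set E → ℕ → Finset E, TT = fun S k => (N k).filter (fun x => pt' k x ∈ S) :=
    ⟨_, rfl⟩
  have hTm : ∀ S k x, x ∈ TT S k ↔ x ∈ N k ∧ pt' k x ∈ S := by
    intro S k x
    rw [hTT]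
    exact Finset.mem_filter
  have hmS : ∀ (k : ℕ) (S : Set E), MeasurableSet S →
      m k S = c k * (TT S k).card := by
    intro k S hS
    rw [hm, hTT]
    simp only
    rw [Measure.finsetSum_apply, Finset.card_filter, Nat.cast_sum, Finset.mul_sum]
    refine Finset.sum_congr rfl fun x _ => ?_
    rw [Measure.smul_apply, Measure.dirac_apply' _ hS, smul_eq_mul]
    by_cases hx : pt' k x ∈ S
    · rw [Set.indicator_of_mem hx, if_pos hx]; simp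
    · rw [Set.indicator_of_notMem hx, if_neg hx]; simp
  have hCar : Car ν := by
    constructor
    · have hS : MeasurableSet (ball (0 : E) 1)ᶜ := measurableSet_ball.compl
      rw [hν, Measure.sum_apply _ hS]
      rw [ENNReal.tsum_eq_zero]
      intro k
      rw [hmS k _ hS]
      have h0 : TT (ball (0 : E) 1)ᶜ k = ∅ := by
        refine Finset.eq_empty_of_forall_notMem fun x hx => ?_
        obtain ⟨hx1, hx2⟩ := (hTm _ _ _).1 hx
        have h1 := hptn k x (hNK k hx1)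
        have h2 := (hq k).1
        simp only [mem_compl_iff, mem_ball_zero_iff] at hx2
        rw [h1] at hx2
        exact hx2 (by linarith)
      rw [h0]; simp
    · intro ζ hζ r hr
      have hS : MeasurableSet {u : E | ‖1 - ⟪u, ζ⟫_ℂ‖ < r} := by
        refine (isOpen_lt ?_ continuous_const).measurableSet
        fun_prop
      rw [hν, Measure.sum_apply _ hS]
      have h1 : ∀ k, m k {u : E | ‖1 - ⟪u, ζ⟫_ℂ‖ < r} ≤ ENNReal.ofReal (κ * (C₀ * 8 ^ β)) *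
          (if ((1 : ℝ) / 2) ^ k < r then
            ENNReal.ofReal (((1 : ℝ) / 2) ^ k * (r / ((1 : ℝ) / 2) ^ k) ^ β) else 0) := by
        intro k
        rw [hmS k _ hS]
        set T := TT {u : E | ‖1 - ⟪u, ζ⟫_ℂ‖ < r} k with hT
        rcases T.eq_empty_or_nonempty with h0 | ⟨x₀, hx₀⟩
        · rw [h0]; simp
        · have hx₀' := (hTm _ _ _).1 hx₀
          have hx₀K := hNK k hx₀'.1
          have hu := G3_u (x := x₀) (ζ := ζ) (hnorm x₀ hx₀K).le hζ.le (hq k).1.le (hq k).2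
          have hx₀r : ‖1 - ⟪pt' k x₀, ζ⟫_ℂ‖ < r := hx₀'.2
          have hkr : ((1 : ℝ) / 2) ^ k < r := lt_of_le_of_lt hu.1 hx₀r
          rw [if_pos hkr]
          have hD : ∀ x ∈ T, ‖1 - ⟪x, ζ⟫_ℂ‖ < 2 * r := by
            intro x hx
            have hx' := (hTm _ _ _).1 hx
            have h2 := G3_u (x := x) (ζ := ζ) (hnorm x (hNK k hx'.1)).le hζ.le (hq k).1.le (hq k).2
            have h3 : ‖1 - ⟪pt' k x, ζ⟫_ℂ‖ < r := hx'.2
            have h4 := h2.2.1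
            have h5 : ‖1 - ⟪((1 - ((1 : ℝ) / 2) ^ k : ℝ) : ℂ) • x, ζ⟫_ℂ‖ < r := h3
            linarith
          have hcard : (T.card : ℝ) ≤ C₀ * (8 * r / ((1 : ℝ) / 2) ^ k) ^ β := by
            refine hHom x₀ hx₀K (((1 : ℝ) / 2) ^ k) (8 * r) (hq k).1 (by linarith) T ?_ ?_ ?_
            · intro x hx
              exact hNK k ((hTm _ _ _).1 (Finset.mem_coe.1 hx)).1
            · intro x hx
              have h2 := qtri (x := x) (y := ζ) (z := x₀)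
                (hnorm x (hNK k ((hTm _ _ _).1 hx).1)).le hζ.le (hnorm x₀ hx₀K).le
              have h3 := hD x hx
              have h4 := hD x₀ hx₀
              rw [hsymm x₀ ζ] at h4
              linarith
            · intro x hx y hy hxy
              exact hNsep k x ((hTm _ _ _).1 hx).1 y ((hTm _ _ _).1 hy).1 hxy
          have hcard' : ((T.card : ℕ) : ℝ≥0∞) ≤
              ENNReal.ofReal (C₀ * (8 * r / ((1 : ℝ) / 2) ^ k) ^ β) := by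
            rw [← ENNReal.ofReal_natCast]
            exact ENNReal.ofReal_le_ofReal hcard
          calc c k * (T.card : ℝ≥0∞) ≤ ENNReal.ofReal (κ * ((1 : ℝ) / 2) ^ k) *
                ENNReal.ofReal (C₀ * (8 * r / ((1 : ℝ) / 2) ^ k) ^ β) := by
                rw [hc]; gcongr
            _ = ENNReal.ofReal (κ * (C₀ * 8 ^ β)) *
                ENNReal.ofReal (((1 : ℝ) / 2) ^ k * (r / ((1 : ℝ) / 2) ^ k) ^ β) := by
                have hk0 := (hq k).1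
                rw [← ENNReal.ofReal_mul (by positivity), ← ENNReal.ofReal_mul (by positivity)]
                congr 1
                rw [mul_div_assoc, Real.mul_rpow (by norm_num) (by positivity)]
                ring
      calc ∑' k, m k {u : E | ‖1 - ⟪u, ζ⟫_ℂ‖ < r} ≤ ∑' k, ENNReal.ofReal (κ * (C₀ * 8 ^ β)) *
            (if ((1 : ℝ) / 2) ^ k < r then
              ENNReal.ofReal (((1 : ℝ) / 2) ^ k * (r / ((1 : ℝ) / 2) ^ k) ^ β) else 0) :=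
            ENNReal.tsum_le_tsum h1
        _ = ENNReal.ofReal (κ * (C₀ * 8 ^ β)) * ∑' k, (if ((1 : ℝ) / 2) ^ k < r then
              ENNReal.ofReal (((1 : ℝ) / 2) ^ k * (r / ((1 : ℝ) / 2) ^ k) ^ β) else 0) :=
            ENNReal.tsum_mul_left
        _ ≤ ENNReal.ofReal (κ * (C₀ * 8 ^ β)) *
            ENNReal.ofReal (r * (1 - (2 : ℝ) ^ (β - 1))⁻¹) := by
            gcongr
            exact G3_sum hβ1 hr
        _ = ENNReal.ofReal r := by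
            rw [← ENNReal.ofReal_mul (by positivity)]
            congr 1
            rw [hκd]
            have h1 : (1 - (2 : ℝ) ^ (β - 1)) ≠ 0 := by linarith
            field_simp
  refine ⟨ν, hCar, fun z hz => ?_⟩
  have hz1 : ‖z‖ < 1 := by simpa using hz
  have hdst := Dst_dk hKn hKs
  have hd : 0 < dk K z := hdst.pos (by norm_num) hz
  have hbd : BddBelow ((fun ζ => ‖1 - ⟪ζ, z⟫_ℂ‖) '' K) :=
    ⟨0, by rintro _ ⟨ζ, _, rfl⟩; exact norm_nonneg _⟩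
  have hd2 : dk K z ≤ 2 := by
    obtain ⟨ζ, hζ⟩ := hKn
    have h1 : dk K z ≤ ‖1 - ⟪ζ, z⟫_ℂ‖ := csInf_le hbd ⟨ζ, hζ, rfl⟩
    have h2 : ‖⟪ζ, z⟫_ℂ‖ ≤ 1 := by
      refine (norm_inner_le_norm ζ z).trans ?_
      rw [hnorm ζ hζ, one_mul]; exact hz1.le
    have h3 : ‖1 - ⟪ζ, z⟫_ℂ‖ ≤ 2 := by
      refine (norm_sub_le _ _).trans ?_
      rw [norm_one]; linarith
    linarith
  have hex : ∃ k : ℕ, ((1 : ℝ) / 2) ^ k < dk K z := exists_pow_lt_of_lt_one hd (by norm_num)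
  set k := Nat.find hex with hkd
  have hk1 : ((1 : ℝ) / 2) ^ k < dk K z := Nat.find_spec hex
  have hk2 : dk K z ≤ 2 * ((1 : ℝ) / 2) ^ k := by
    rcases Nat.eq_zero_or_pos k with h0 | h0
    · rw [h0]; simpa using hd2
    · have h1 := Nat.find_min hex (m := k - 1) (by omega)
      rw [not_lt] at h1
      have h2 : ((1 : ℝ) / 2) ^ k = (1 / 2) ^ (k - 1) * (1 / 2) := by
        rw [← pow_succ]; congr 1; omega
      rw [h2]; linarith
  set q : ℝ := ((1 : ℝ) / 2) ^ k with hqd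
  have hq0 : 0 < q := (hq k).1
  have hq1 : q ≤ 1 := (hq k).2
  obtain ⟨_, ⟨ζ, hζK, rfl⟩, hζ⟩ := exists_lt_of_csInf_lt (hKn.image _)
    (show dk K z < 2 * dk K z by linarith)
  simp only at hζ
  obtain ⟨x, hxN, hxζ⟩ := hNnet k ζ hζK
  have hxK := hNK k hxN
  have hu := G3_u (x := x) (ζ := ζ) (hnorm x hxK).le (hnorm ζ hζK).le hq0.le hq1
  have hun : ‖pt' k x‖ = 1 - q := hptn k x hxK
  set u : E := pt' k x with hud
  have hu2 : ‖1 - ⟪u, ζ⟫_ℂ‖ < 2 * q := by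
    have : ‖1 - ⟪u, ζ⟫_ℂ‖ ≤ ‖1 - ⟪x, ζ⟫_ℂ‖ + q := hu.2.2
    linarith
  have huz : ‖1 - ⟪u, z⟫_ℂ‖ ≤ 12 * q := by
    have h1 := qtri (x := u) (y := ζ) (z := z) (by rw [hun]; linarith) (hnorm ζ hζK).le hz1.le
    linarith
  have huz0 : 0 < ‖1 - ⟪u, z⟫_ℂ‖ := (a_pos (by rw [hun]; linarith) hz1).1
  have hz0 : 0 < 1 - ‖z‖ ^ 2 := by nlinarith [norm_nonneg z]
  have hle : (c k).toReal * kc s 2 u z ≤ Tc s 2 ν z := by
    have h1 : c k • Measure.dirac u ≤ ν := by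
      refine le_trans ?_ (Measure.le_sum m k)
      rw [hm]
      simp only
      exact Finset.single_le_sum (f := fun x => c k • Measure.dirac (pt' k x))
        (fun i _ => Measure.zero_le _) hxN
    have h2 : ∫ w, kc s 2 w z ∂(c k • Measure.dirac u) ≤ ∫ w, kc s 2 w z ∂ν := by
      refine integral_mono_measure h1 ?_ (kc_int hE hCar hs.le 2 hz)
      have h3 : ∀ᵐ w ∂ν, w ∈ ball (0 : E) 1 := by
        rw [ae_iff]
        exact hCar.sub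
      filter_upwards [h3] with w hw
      have hw1 : ‖w‖ < 1 := by simpa using hw
      exact kc_nonneg hw1.le hz1.le
    rw [integral_smul_measure, integral_dirac] at h2
    rw [Tc]
    rw [smul_eq_mul] at h2
    exact h2
  have hck : (c k).toReal = κ * q := ENNReal.toReal_ofReal (by positivity)
  rw [hck] at hle
  have hkc : ((1 - ‖z‖ ^ 2) / (12 * q)) ^ s * (1 / (1728 * q)) ≤ kc s 2 u z := by
    unfold kc
    have h1 : ((1 - ‖z‖ ^ 2) / (12 * q)) ^ s ≤ ((1 - ‖z‖ ^ 2) / ‖1 - ⟪u, z⟫_ℂ‖) ^ s := by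
      refine Real.rpow_le_rpow (by positivity) ?_ hs.le
      exact div_le_div_of_nonneg_left hz0.le huz0 huz
    have h2 : q ≤ 1 - ‖u‖ ^ 2 := by rw [hun]; nlinarith
    have h3 : q / (12 * q) ≤ (1 - ‖u‖ ^ 2) / ‖1 - ⟪u, z⟫_ℂ‖ :=
      div_le_div₀ (hq0.le.trans h2) h2 huz0 huz
    have h4 : 1 / (1728 * q) = (q / (12 * q)) ^ 2 / (12 * q) := by
      field_simp
      norm_num
    rw [h4, mul_div_assoc]
    have h5 : (q / (12 * q)) ^ 2 / (12 * q) ≤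
        ((1 - ‖u‖ ^ 2) / ‖1 - ⟪u, z⟫_ℂ‖) ^ 2 / ‖1 - ⟪u, z⟫_ℂ‖ := by
      refine div_le_div₀ (by positivity) ?_ huz0 huz
      exact pow_le_pow_left₀ (by positivity) h3 2
    exact mul_le_mul h1 h5 (by positivity) (Real.rpow_nonneg (by positivity) _)
  have h6 : ((1 - ‖z‖ ^ 2) / dk K z) ^ s ≤ 12 ^ s * ((1 - ‖z‖ ^ 2) / (12 * q)) ^ s := by
    rw [← Real.mul_rpow (by norm_num) (by positivity)]
    refine Real.rpow_le_rpow (by positivity) ?_ hs.le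
    have e : 12 * ((1 - ‖z‖ ^ 2) / (12 * q)) = (1 - ‖z‖ ^ 2) / q := by field_simp
    rw [e]
    exact div_le_div_of_nonneg_left hz0.le hq0 hk1.le
  set X := ((1 - ‖z‖ ^ 2) / (12 * q)) ^ s with hX
  calc ((1 - ‖z‖ ^ 2) / dk K z) ^ s ≤ 12 ^ s * X := h6
    _ = 1728 * 12 ^ s / κ * (κ * q * (X * (1 / (1728 * q)))) := by
        field_simp
    _ ≤ 1728 * 12 ^ s / κ * (κ * q * kc s 2 u z) := by gcongr
    _ ≤ 1728 * 12 ^ s / κ * Tc s 2 ν z := by gcongr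

end Pool.Agent.MPca0fc2.CE
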