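import Mathlib
import Pool.Agent.Lib.MP_ca0fc2_an.Mg.G009

set_option autoImplicit false
set_option linter.unusedSectionVars false

open Metric Set MeasureTheory Filter Topology
open scoped InnerProductSpace ENNReal ContDiff

namespace Pool.Agent.MPca0fc2.CE

private lemma G4_poisson (a : ℂ) (ha : ‖a‖ < 1) :
    ∫ θ in (-Real.pi)..Real.pi, ‖(1 - (starRingEnd ℂ) a * ee θ)⁻¹‖ ^ 2 =
      2 * Real.pi / (1 - ‖a‖ ^ 2) := by
  have h1 : ∀ z ∈ closedBall (0 : ℂ) 1, 1 - (starRingEnd ℂ) a * z ≠ 0 := by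
    intro z hz h
    have hz' : ‖z‖ ≤ 1 := by simpa using hz
    have : ‖(starRingEnd ℂ) a * z‖ = 1 := by
      rw [← sub_eq_zero.1 h]; simp
    rw [norm_mul, Complex.norm_conj] at this
    nlinarith [norm_nonneg a, norm_nonneg z]
  have hd : DiffContOnCl ℂ (fun z : ℂ => (1 - (starRingEnd ℂ) a * z)⁻¹) (ball 0 |(1 : ℝ)|) := by
    have : DifferentiableOn ℂ (fun z : ℂ => (1 - (starRingEnd ℂ) a * z)⁻¹) (closedBall 0 1) := by
      intro z hz
      have hh : DifferentiableAt ℂ (fun z : ℂ => 1 - (starRingEnd ℂ) a * z) z := by fun_prop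
      exact (hh.inv (h1 z hz)).differentiableWithinAt
    rw [abs_one]
    refine DifferentiableOn.diffContOnCl ?_
    rw [closure_ball _ one_ne_zero]
    exact this
  have hw : a ∈ ball (0 : ℂ) |(1 : ℝ)| := by simpa using ha
  have key := hd.circleAverage_smul_div hw
  have hS : Set.EqOn (fun z : ℂ => ((z - 0) / (z - a)) • (1 - (starRingEnd ℂ) a * z)⁻¹)
      (fun z : ℂ => ((‖(1 - (starRingEnd ℂ) a * z)⁻¹‖ ^ 2 : ℝ) : ℂ)) (sphere 0 |(1 : ℝ)|) := by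
    intro z hz
    have hz1 : ‖z‖ = 1 := by simpa using hz
    have hz2 : z * (starRingEnd ℂ) z = 1 := by
      rw [Complex.mul_conj, Complex.normSq_eq_norm_sq, hz1]; simp
    have hz0 : z ≠ 0 := by
      intro h; rw [h] at hz1; simp at hz1
    have hza : z - a ≠ 0 := by
      intro h
      rw [← sub_eq_zero.1 h] at ha
      linarith
    have e1 : 1 - (starRingEnd ℂ) a * z ≠ 0 := h1 z (by simp [hz1])
    have e2 : (starRingEnd ℂ) (1 - (starRingEnd ℂ) a * z) = 1 - a * (starRingEnd ℂ) z := by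
      simp
    have e3 : 1 - a * (starRingEnd ℂ) z ≠ 0 := by
      rw [← e2]
      exact (map_ne_zero _).2 e1
    have e4 : z / (z - a) = (1 - a * (starRingEnd ℂ) z)⁻¹ := by
      rw [div_eq_iff hza, eq_comm, inv_mul_eq_iff_eq_mul₀ e3]
      linear_combination a * hz2
    show ((z - 0) / (z - a)) • (1 - (starRingEnd ℂ) a * z)⁻¹ =
      ((‖(1 - (starRingEnd ℂ) a * z)⁻¹‖ ^ 2 : ℝ) : ℂ)
    rw [sub_zero, e4, smul_eq_mul, ← Complex.normSq_eq_norm_sq, ← Complex.mul_conj, map_inv₀, e2,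
      mul_comm]
  rw [Real.circleAverage_congr_sphere hS, Real.circleAverage_eq_integral_add (-Real.pi)] at key
  have e5 : ∫ θ in (0 : ℝ)..2 * Real.pi, (fun z : ℂ =>
      ((‖(1 - (starRingEnd ℂ) a * z)⁻¹‖ ^ 2 : ℝ) : ℂ)) (circleMap 0 1 (θ + -Real.pi)) =
      ((∫ θ in (-Real.pi)..Real.pi, ‖(1 - (starRingEnd ℂ) a * ee θ)⁻¹‖ ^ 2 : ℝ) : ℂ) := by
    rw [intervalIntegral.integral_comp_add_right (fun θ => (fun z : ℂ =>
      ((‖(1 - (starRingEnd ℂ) a * z)⁻¹‖ ^ 2 : ℝ) : ℂ)) (circleMap 0 1 θ)),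
      ← intervalIntegral.integral_ofReal]
    have e6 : (0 : ℝ) + -Real.pi = -Real.pi := by ring
    have e7 : 2 * Real.pi + -Real.pi = Real.pi := by ring
    rw [e6, e7]
    simp only [circleMap, ee, Complex.ofReal_one, one_mul, zero_add]
  rw [e5] at key
  have e8 : (1 - (starRingEnd ℂ) a * a)⁻¹ = (((1 - ‖a‖ ^ 2)⁻¹ : ℝ) : ℂ) := by
    rw [mul_comm, Complex.mul_conj, Complex.normSq_eq_norm_sq]
    push_cast
    rfl
  rw [e8, ← Complex.ofReal_one] at key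
  have key2 : (2 * Real.pi)⁻¹ * (∫ θ in (-Real.pi)..Real.pi,
      ‖(1 - (starRingEnd ℂ) a * ee θ)⁻¹‖ ^ 2) = (1 - ‖a‖ ^ 2)⁻¹ := by
    apply Complex.ofReal_injective
    rw [← key]
    push_cast
    simp
  have hpi : (2 * Real.pi) ≠ 0 := by positivity
  rw [inv_mul_eq_iff_eq_mul₀ hpi] at key2
  rw [key2]
  ring

private lemma G4_dil {g : ℂ → ℂ} (hg : DifferentiableOn ℂ g (ball 0 1))
    (hb : ∀ x ∈ ball (0 : ℂ) 1, ‖g x‖ ≤ 1) {a : ℂ} (ha : ‖a‖ < 1) {ρ : ℝ} (h0 : 0 < ρ)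
    (h1 : ρ < 1) :
    ∫⁻ x in ball (0 : ℂ) 1, ENNReal.ofReal ((1 - ‖x‖ ^ 2) *
      (‖(ρ : ℂ) * deriv g (ρ * x)‖ ^ 2 * ‖(1 - (starRingEnd ℂ) a * x)⁻¹‖ ^ 2)) ≤
      ENNReal.ofReal (4 * Real.pi / (1 - ‖a‖ ^ 2)) := by
  set R : ℝ := min (1 / ρ) (2 / (1 + ‖a‖)) with hR
  have hR1 : 1 < R := by
    rw [hR, lt_min_iff]
    refine ⟨by rw [lt_div_iff₀ h0]; linarith, ?_⟩
    rw [lt_div_iff₀ (by positivity)]; linarith
  have hRρ : ∀ x ∈ ball (0 : ℂ) R, (ρ : ℂ) * x ∈ ball (0 : ℂ) 1 := by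
    intro x hx
    have hx1 : ‖x‖ < 1 / ρ := lt_of_lt_of_le (mem_ball_zero_iff.1 hx) (min_le_left _ _)
    rw [lt_div_iff₀ h0] at hx1
    simp only [mem_ball, dist_zero_right, norm_mul, Complex.norm_real, Real.norm_eq_abs,
      abs_of_pos h0]
    linarith
  have hne : ∀ x ∈ ball (0 : ℂ) R, 1 - (starRingEnd ℂ) a * x ≠ 0 := by
    intro x hx h
    have hx1 : ‖x‖ < 2 / (1 + ‖a‖) := lt_of_lt_of_le (mem_ball_zero_iff.1 hx) (min_le_right _ _)
    rw [lt_div_iff₀ (by positivity)] at hx1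
    have : ‖(starRingEnd ℂ) a * x‖ = 1 := by
      rw [← sub_eq_zero.1 h]; simp
    rw [norm_mul, Complex.norm_conj] at this
    nlinarith [norm_nonneg a, norm_nonneg x]
  have hlin : ∀ x : ℂ, HasDerivAt (fun w : ℂ => (ρ : ℂ) * w) (ρ : ℂ) x := by
    intro x
    simpa using (hasDerivAt_id x).const_mul (ρ : ℂ)
  have hf : DifferentiableOn ℂ (fun w => g ((ρ : ℂ) * w)) (ball 0 R) := by
    intro x hx
    have d1 := (hg.differentiableAt (isOpen_ball.mem_nhds (hRρ x hx))).hasDerivAt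
    exact (d1.comp x (hlin x)).differentiableAt.differentiableWithinAt
  have hp : DifferentiableOn ℂ (fun w => (1 - (starRingEnd ℂ) a * w)⁻¹) (ball 0 R) := by
    intro x hx
    have hh : DifferentiableAt ℂ (fun z : ℂ => 1 - (starRingEnd ℂ) a * z) x := by fun_prop
    exact (hh.inv (hne x hx)).differentiableWithinAt
  have hbd : ∀ z ∈ closedBall (0 : ℂ) 1, ‖g ((ρ : ℂ) * z)‖ ≤ 1 := by
    intro z hz
    exact hb _ (hRρ z (closedBall_subset_ball hR1 hz))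
  have main := lp_three hR1 hf hp hbd
  rw [G4_poisson a ha] at main
  have hder : ∀ x ∈ ball (0 : ℂ) 1, deriv (fun w => g ((ρ : ℂ) * w)) x =
      (ρ : ℂ) * deriv g (ρ * x) := by
    intro x hx
    have d1 := (hg.differentiableAt (isOpen_ball.mem_nhds
      (hRρ x (ball_subset_ball hR1.le hx)))).hasDerivAt
    have d2 : HasDerivAt (fun w => g ((ρ : ℂ) * w)) (deriv g (ρ * x) * ρ) x := d1.comp x (hlin x)
    rw [d2.deriv]
    ring
  have e1 : ∫⁻ x in ball (0 : ℂ) 1, ENNReal.ofReal ((1 - ‖x‖ ^ 2) *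
      (‖(ρ : ℂ) * deriv g (ρ * x)‖ ^ 2 * ‖(1 - (starRingEnd ℂ) a * x)⁻¹‖ ^ 2)) =
      ∫⁻ x in ball (0 : ℂ) 1, ENNReal.ofReal ((1 - ‖x‖ ^ 2) *
      (‖deriv (fun w => g ((ρ : ℂ) * w)) x‖ ^ 2 * ‖(1 - (starRingEnd ℂ) a * x)⁻¹‖ ^ 2)) := by
    apply setLIntegral_congr_fun measurableSet_ball
    intro x hx
    show ENNReal.ofReal _ = ENNReal.ofReal _
    rw [hder x hx]
  rw [e1, ← ofReal_integral_eq_lintegral_ofReal]
  · apply ENNReal.ofReal_le_ofReal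
    refine main.trans (le_of_eq ?_)
    ring
  · have cw : ContinuousOn (fun z : ℂ => 1 - ‖z‖^2) (ball 0 R) :=
      continuousOn_const.sub (continuousOn_id.norm.pow 2)
    exact integrableOn_ball hR1 (cw.mul
      (((differentiableOn_deriv_ball hf).continuousOn.norm.pow 2).mul
        (hp.continuousOn.norm.pow 2)))
  · refine (ae_restrict_iff' measurableSet_ball).2 (Filter.Eventually.of_forall ?_)
    intro z hz
    have := weight_nonneg hz
    show 0 ≤ _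
    positivity

private lemma G4_main {g : ℂ → ℂ} (hg : DifferentiableOn ℂ g (ball 0 1))
    (hb : ∀ x ∈ ball (0 : ℂ) 1, ‖g x‖ ≤ 1) {a : ℂ} (ha : ‖a‖ < 1) :
    ∫⁻ x in ball (0 : ℂ) 1, ENNReal.ofReal ((1 - ‖x‖ ^ 2) *
      (‖deriv g x‖ ^ 2 * ‖(1 - (starRingEnd ℂ) a * x)⁻¹‖ ^ 2)) ≤
      ENNReal.ofReal (4 * Real.pi / (1 - ‖a‖ ^ 2)) := by
  set ρ : ℕ → ℝ := fun n => 1 - 1 / ((n : ℝ) + 2) with hρ
  have hpos : ∀ n, 0 < ρ n := by
    intro n
    have : 1 / ((n : ℝ) + 2) < 1 := by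
      rw [div_lt_one (by positivity)]
      have : (0 : ℝ) ≤ n := Nat.cast_nonneg n
      linarith
    simp only [hρ]; linarith
  have hlt : ∀ n, ρ n < 1 := by
    intro n
    have : 0 < 1 / ((n : ℝ) + 2) := by positivity
    simp only [hρ]; linarith
  have hlim : Tendsto ρ atTop (𝓝 1) := by
    have h1 : Tendsto (fun n : ℕ => 1 / ((n : ℝ) + 2)) atTop (𝓝 0) := by
      have h2 : Tendsto (fun n : ℕ => ((n : ℝ) + 2)) atTop atTop :=
        tendsto_atTop_add_const_right _ _ tendsto_natCast_atTop_atTop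
      have h3 : Tendsto (fun n : ℕ => ((n : ℝ) + 2)⁻¹) atTop (𝓝 0) := h2.inv_tendsto_atTop
      simpa only [one_div] using h3
    simpa [hρ] using (tendsto_const_nhds (x := (1 : ℝ))).sub h1
  have hcd : ContinuousOn (deriv g) (ball 0 1) := (hg.deriv isOpen_ball).continuousOn
  set F : ℕ → ℂ → ℝ≥0∞ := fun n x => ENNReal.ofReal ((1 - ‖x‖ ^ 2) *
      (‖(ρ n : ℂ) * deriv g (ρ n * x)‖ ^ 2 * ‖(1 - (starRingEnd ℂ) a * x)⁻¹‖ ^ 2)) with hF
  have hmem : ∀ n, ∀ x ∈ ball (0 : ℂ) 1, (ρ n : ℂ) * x ∈ ball (0 : ℂ) 1 := by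
    intro n x hx
    have hx1 : ‖x‖ < 1 := by simpa using hx
    simp only [mem_ball, dist_zero_right, norm_mul, Complex.norm_real, Real.norm_eq_abs,
      abs_of_pos (hpos n)]
    nlinarith [hlt n, hpos n, norm_nonneg x]
  have hne : ∀ x ∈ ball (0 : ℂ) 1, 1 - (starRingEnd ℂ) a * x ≠ 0 := by
    intro x hx h
    have hx1 : ‖x‖ < 1 := by simpa using hx
    have : ‖(starRingEnd ℂ) a * x‖ = 1 := by
      rw [← sub_eq_zero.1 h]; simp
    rw [norm_mul, Complex.norm_conj] at this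
    nlinarith [norm_nonneg a, norm_nonneg x]
  have hmeas : ∀ n, AEMeasurable (F n) (volume.restrict (ball (0 : ℂ) 1)) := by
    intro n
    refine AEMeasurable.ennreal_ofReal ?_
    refine ContinuousOn.aemeasurable ?_ measurableSet_ball
    have c1 : ContinuousOn (fun x : ℂ => deriv g (ρ n * x)) (ball 0 1) :=
      hcd.comp (by fun_prop) (hmem n)
    have c2 : ContinuousOn (fun x : ℂ => (1 - (starRingEnd ℂ) a * x)⁻¹) (ball 0 1) :=
      ContinuousOn.inv₀ (by fun_prop) hne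
    exact (by fun_prop : ContinuousOn (fun x : ℂ => 1 - ‖x‖ ^ 2) (ball 0 1)).mul
      (((continuousOn_const.mul c1).norm.pow 2).mul (c2.norm.pow 2))
  have hpt : ∀ x ∈ ball (0 : ℂ) 1, ENNReal.ofReal ((1 - ‖x‖ ^ 2) *
      (‖deriv g x‖ ^ 2 * ‖(1 - (starRingEnd ℂ) a * x)⁻¹‖ ^ 2)) =
      liminf (fun n => F n x) atTop := by
    intro x hx
    refine Tendsto.liminf_eq ?_ |>.symm
    simp only [hF]
    refine ENNReal.tendsto_ofReal ?_
    have t1 : Tendsto (fun n => (ρ n : ℂ)) atTop (𝓝 1) := by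
      have h4 : Tendsto (fun n => (ρ n : ℂ)) atTop (𝓝 ((1 : ℝ) : ℂ)) :=
        (Complex.continuous_ofReal.tendsto 1).comp hlim
      rwa [Complex.ofReal_one] at h4
    have t2 : Tendsto (fun n => (ρ n : ℂ) * x) atTop (𝓝 x) := by
      simpa using t1.mul_const x
    have t3 : Tendsto (fun n => deriv g (ρ n * x)) atTop (𝓝 (deriv g x)) :=
      ((hcd.continuousAt (isOpen_ball.mem_nhds hx)).tendsto).comp t2
    have t4 : Tendsto (fun n => (ρ n : ℂ) * deriv g (ρ n * x)) atTop (𝓝 (deriv g x)) := by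
      simpa using t1.mul t3
    exact tendsto_const_nhds.mul (((t4.norm).pow 2).mul tendsto_const_nhds)
  calc ∫⁻ x in ball (0 : ℂ) 1, ENNReal.ofReal ((1 - ‖x‖ ^ 2) *
      (‖deriv g x‖ ^ 2 * ‖(1 - (starRingEnd ℂ) a * x)⁻¹‖ ^ 2))
      = ∫⁻ x in ball (0 : ℂ) 1, liminf (fun n => F n x) atTop :=
        setLIntegral_congr_fun measurableSet_ball hpt
    _ ≤ liminf (fun n => ∫⁻ x in ball (0 : ℂ) 1, F n x) atTop := lintegral_liminf_le' hmeas
    _ ≤ liminf (fun _ : ℕ => ENNReal.ofReal (4 * Real.pi / (1 - ‖a‖ ^ 2))) atTop := by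
        exact liminf_le_liminf
          (Filter.Eventually.of_forall fun n => G4_dil hg hb ha (hpos n) (hlt n))
    _ = ENNReal.ofReal (4 * Real.pi / (1 - ‖a‖ ^ 2)) := by simp

/-- The Littlewood-Paley inequality in the disc. Proof. `lp_identity` (LP.lean) for the dilations `g (r z)`, `r < 1`, and monotone convergence; or with power series. -/
theorem lp_disc : ∃ C : ℝ, 0 < C ∧ ∀ g : ℂ → ℂ, DifferentiableOn ℂ g (ball 0 1) →
    (∀ x ∈ ball (0 : ℂ) 1, ‖g x‖ ≤ 1) →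
    ∫⁻ x in ball (0 : ℂ) 1, ENNReal.ofReal (‖deriv g x‖ ^ 2 * (1 - ‖x‖ ^ 2)) ≤ ENNReal.ofReal C := by
  refine ⟨4 * Real.pi, by positivity, fun g hg hb => ?_⟩
  have h := G4_main hg hb (a := 0) (by simp)
  refine le_trans (le_of_eq ?_) (h.trans (le_of_eq ?_))
  · apply lintegral_congr
    intro x
    simp [mul_comm]
  · simp

/-- The Carleson measure of a bounded function. Proof. For `r ≤ 1`: `a = (1 - r/2) ζ`, `φ x = (a + x)/(1 + conj a x)`, `lp_disc` for `g ∘ φ`, change of variables `y = φ x` (the set `{‖1 - y conj ζ‖ < r}`; `1 - ‖x‖² = (1 - ‖a‖²)(1 - ‖y‖²)/‖1 - conj a y‖² ≥ c (1 - ‖y‖²)/r` there, `‖φ' x‖² dA(x) = dA(y)`). For `r > 1`: `lp_disc`. -/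
theorem carl_disc : ∃ C : ℝ, 0 < C ∧ ∀ g : ℂ → ℂ, DifferentiableOn ℂ g (ball 0 1) →
    (∀ x ∈ ball (0 : ℂ) 1, ‖g x‖ ≤ 1) → ∀ ζ : ℂ, ‖ζ‖ = 1 → ∀ r : ℝ, 0 < r →
    ∫⁻ x in ball (0 : ℂ) 1 ∩ {x | ‖1 - x * (starRingEnd ℂ) ζ‖ < r},
      ENNReal.ofReal (‖deriv g x‖ ^ 2 * (1 - ‖x‖ ^ 2)) ≤ ENNReal.ofReal (C * r) := by
  refine ⟨24 * Real.pi, by positivity, fun g hg hb ζ hζ r hr => ?_⟩
  rcases le_or_gt r 1 with hr1 | hr1
  · set a : ℂ := ((1 - r / 2 : ℝ) : ℂ) * ζ with ha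
    have hna : ‖a‖ = 1 - r / 2 := by
      rw [ha, norm_mul, hζ, mul_one, Complex.norm_real, Real.norm_eq_abs, abs_of_pos]
      linarith
    have h := G4_main hg hb (a := a) (by rw [hna]; linarith)
    have hms : MeasurableSet (ball (0 : ℂ) 1 ∩ {x | ‖1 - x * (starRingEnd ℂ) ζ‖ < r}) := by
      refine measurableSet_ball.inter ?_
      exact measurableSet_lt (by fun_prop) measurable_const
    have hpt : ∀ x ∈ ball (0 : ℂ) 1 ∩ {x | ‖1 - x * (starRingEnd ℂ) ζ‖ < r},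
        ENNReal.ofReal (‖deriv g x‖ ^ 2 * (1 - ‖x‖ ^ 2)) ≤
        ENNReal.ofReal (9 * r ^ 2 / 4) * ENNReal.ofReal ((1 - ‖x‖ ^ 2) *
          (‖deriv g x‖ ^ 2 * ‖(1 - (starRingEnd ℂ) a * x)⁻¹‖ ^ 2)) := by
      rintro x ⟨hx, hx2⟩
      have hx1 : ‖x‖ < 1 := by simpa using hx
      have hx3 : ‖1 - x * (starRingEnd ℂ) ζ‖ < r := hx2
      rw [← ENNReal.ofReal_mul (by positivity)]
      apply ENNReal.ofReal_le_ofReal
      have w := weight_nonneg hx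
      have e1 : 1 - (starRingEnd ℂ) a * x = (1 - x * (starRingEnd ℂ) ζ) +
          ((r / 2 : ℝ) : ℂ) * ((starRingEnd ℂ) ζ * x) := by
        rw [ha, map_mul, Complex.conj_ofReal]
        push_cast
        ring
      have e2 : ‖1 - (starRingEnd ℂ) a * x‖ ≤ 3 * r / 2 := by
        rw [e1]
        refine (norm_add_le _ _).trans ?_
        have : ‖((r / 2 : ℝ) : ℂ) * ((starRingEnd ℂ) ζ * x)‖ ≤ r / 2 := by
          rw [norm_mul, norm_mul, Complex.norm_conj, hζ, Complex.norm_real, Real.norm_eq_abs,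
            abs_of_pos (by positivity)]
          nlinarith [norm_nonneg x]
        linarith
      have e3 : 0 < ‖1 - (starRingEnd ℂ) a * x‖ := by
        rw [norm_pos_iff]
        intro h
        have : ‖(starRingEnd ℂ) a * x‖ = 1 := by
          rw [← sub_eq_zero.1 h]; simp
        rw [norm_mul, Complex.norm_conj, hna] at this
        nlinarith [norm_nonneg x]
      have e4 : 1 ≤ (9 * r ^ 2 / 4) * ‖(1 - (starRingEnd ℂ) a * x)⁻¹‖ ^ 2 := by
        rw [norm_inv, inv_pow, ← div_eq_mul_inv, le_div_iff₀ (by positivity)]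
        nlinarith
      have e5 : 0 ≤ ‖deriv g x‖ ^ 2 * (1 - ‖x‖ ^ 2) := by positivity
      calc ‖deriv g x‖ ^ 2 * (1 - ‖x‖ ^ 2) = (‖deriv g x‖ ^ 2 * (1 - ‖x‖ ^ 2)) * 1 := by ring
        _ ≤ (‖deriv g x‖ ^ 2 * (1 - ‖x‖ ^ 2)) *
            ((9 * r ^ 2 / 4) * ‖(1 - (starRingEnd ℂ) a * x)⁻¹‖ ^ 2) :=
          mul_le_mul_of_nonneg_left e4 e5
        _ = _ := by ring
    calc ∫⁻ x in ball (0 : ℂ) 1 ∩ {x | ‖1 - x * (starRingEnd ℂ) ζ‖ < r},
          ENNReal.ofReal (‖deriv g x‖ ^ 2 * (1 - ‖x‖ ^ 2))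
        ≤ ∫⁻ x in ball (0 : ℂ) 1 ∩ {x | ‖1 - x * (starRingEnd ℂ) ζ‖ < r},
          ENNReal.ofReal (9 * r ^ 2 / 4) * ENNReal.ofReal ((1 - ‖x‖ ^ 2) *
          (‖deriv g x‖ ^ 2 * ‖(1 - (starRingEnd ℂ) a * x)⁻¹‖ ^ 2)) :=
          setLIntegral_mono' hms hpt
      _ ≤ ∫⁻ x in ball (0 : ℂ) 1,
          ENNReal.ofReal (9 * r ^ 2 / 4) * ENNReal.ofReal ((1 - ‖x‖ ^ 2) *
          (‖deriv g x‖ ^ 2 * ‖(1 - (starRingEnd ℂ) a * x)⁻¹‖ ^ 2)) :=
          lintegral_mono_set inter_subset_left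
      _ = ENNReal.ofReal (9 * r ^ 2 / 4) * ∫⁻ x in ball (0 : ℂ) 1, ENNReal.ofReal ((1 - ‖x‖ ^ 2) *
          (‖deriv g x‖ ^ 2 * ‖(1 - (starRingEnd ℂ) a * x)⁻¹‖ ^ 2)) :=
          lintegral_const_mul' _ _ ENNReal.ofReal_ne_top
      _ ≤ ENNReal.ofReal (9 * r ^ 2 / 4) * ENNReal.ofReal (4 * Real.pi / (1 - ‖a‖ ^ 2)) := by
          gcongr
      _ = ENNReal.ofReal ((9 * r ^ 2 / 4) * (4 * Real.pi / (1 - ‖a‖ ^ 2))) :=
          (ENNReal.ofReal_mul (by positivity)).symm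
      _ ≤ ENNReal.ofReal (24 * Real.pi * r) := by
          apply ENNReal.ofReal_le_ofReal
          rw [hna]
          have hden : 0 < 1 - (1 - r / 2) ^ 2 := by nlinarith
          rw [mul_div_assoc', div_le_iff₀ hden]
          have : (1 - (1 - r / 2) ^ 2) = r * (1 - r / 4) := by ring
          rw [this]
          have hpi := Real.pi_pos
          have h1 : 0 ≤ Real.pi * r ^ 2 := by positivity
          nlinarith [mul_nonneg h1 (by linarith : 0 ≤ 1 - r)]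
  · have h := G4_main hg hb (a := 0) (by simp)
    calc ∫⁻ x in ball (0 : ℂ) 1 ∩ {x | ‖1 - x * (starRingEnd ℂ) ζ‖ < r},
          ENNReal.ofReal (‖deriv g x‖ ^ 2 * (1 - ‖x‖ ^ 2))
        ≤ ∫⁻ x in ball (0 : ℂ) 1, ENNReal.ofReal (‖deriv g x‖ ^ 2 * (1 - ‖x‖ ^ 2)) :=
          lintegral_mono_set inter_subset_left
      _ = ∫⁻ x in ball (0 : ℂ) 1, ENNReal.ofReal ((1 - ‖x‖ ^ 2) *
          (‖deriv g x‖ ^ 2 * ‖(1 - (starRingEnd ℂ) 0 * x)⁻¹‖ ^ 2)) := by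
          apply lintegral_congr
          intro x
          simp [mul_comm]
      _ ≤ ENNReal.ofReal (4 * Real.pi / (1 - ‖(0 : ℂ)‖ ^ 2)) := h
      _ ≤ ENNReal.ofReal (24 * Real.pi * r) := by
          apply ENNReal.ofReal_le_ofReal
          have hpi := Real.pi_pos
          simp only [norm_zero]
          norm_num
          nlinarith

end Pool.Agent.MPca0fc2.CE
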