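import Mathlib
import Pool.Agent.Lib.MP_ca0fc2_an.CE.F5
import Pool.Agent.Lib.MP_ca0fc2_an.CE.G4
import Pool.Agent.Lib.MP_ca0fc2_an.Mg.G011

set_option autoImplicit false
set_option linter.unusedSectionVars false

open Metric Set MeasureTheory Filter Topology
open scoped InnerProductSpace ENNReal ContDiff

namespace Pool.Agent.MPca0fc2.CE

open Pool.Agent.MPca0fc2.PT
open Pool.Agent.MPca0fc2.QT
open Pool.Agent.MPca0fc2.TS
open Pool.Agent.MPca0fc2.TE
open Pool.Agent.MPca0fc2.TK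
open Pool.Agent.MPca0fc2.VK
open Pool.Agent.MPca0fc2.PV

variable {E : Type*} [NormedAddCommGroup E] [InnerProductSpace ℂ E] [FiniteDimensional ℂ E]
  [MeasurableSpace E] [BorelSpace E]

private lemma G5_fderiv {e z : E} {g : ℂ → ℂ} (hg : DifferentiableAt ℂ g ⟪e, z⟫_ℂ) :
    HasFDerivAt (fun z : E => g ⟪e, z⟫_ℂ) (deriv g ⟪e, z⟫_ℂ • innerSL ℂ e) z := by
  have h1 : HasFDerivAt (fun z : E => ⟪e, z⟫_ℂ) (innerSL ℂ e : E →L[ℂ] ℂ) z :=
    (innerSL ℂ e).hasFDerivAt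
  exact hg.hasDerivAt.comp_hasFDerivAt z h1

private lemma G5_IG {e z : E} (he : ‖e‖ = 1) {g : ℂ → ℂ} (hg : DifferentiableAt ℂ g ⟪e, z⟫_ℂ) :
    IG2 (fun z : E => g ⟪e, z⟫_ℂ) z =
      (1 - ‖z‖ ^ 2) * ((1 - ‖⟪e, z⟫_ℂ‖ ^ 2) * ‖deriv g ⟪e, z⟫_ℂ‖ ^ 2) := by
  unfold IG2
  rw [(G5_fderiv hg).fderiv, norm_smul, innerSL_apply_norm, he, mul_one]
  simp only [smul_apply, innerSL_apply_apply, smul_eq_mul, norm_mul]
  ring

private lemma G5_mean {G : ℂ → ℂ} (hG : DifferentiableOn ℂ G (ball 0 1)) {lam : ℂ} {ρ : ℝ}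
    (hρ : 0 < ρ) (hl : ‖lam‖ + ρ < 1) :
    ENNReal.ofReal (‖deriv G lam‖ ^ 2) * ENNReal.ofReal (Real.pi * ρ ^ 2) ≤
      ∫⁻ x in ball lam ρ, ENNReal.ofReal (‖deriv G x‖ ^ 2) := by
  have hd : DifferentiableOn ℂ (deriv G) (ball 0 1) := hG.deriv isOpen_ball
  have hsub : ∀ y ∈ closedBall (0 : ℂ) ρ, lam + y ∈ ball (0 : ℂ) 1 := by
    intro y hy
    have hy1 : ‖y‖ ≤ ρ := by simpa using hy
    rw [mem_ball_zero_iff]
    exact lt_of_le_of_lt (norm_add_le _ _) (by linarith)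
  have hdiff : DifferentiableOn ℂ (fun y => deriv G (lam + y)) (ball 0 ρ) := by
    refine hd.comp (by fun_prop) ?_
    intro y hy
    exact hsub y (ball_subset_closedBall hy)
  have hcont : ContinuousOn (fun y => deriv G (lam + y)) (closedBall 0 ρ) :=
    hd.continuousOn.comp (by fun_prop) hsub
  obtain ⟨M, hM⟩ := (isCompact_closedBall (0 : ℂ) ρ).exists_bound_of_continuousOn hcont
  have key := DA.mean_sq (volume : Measure ℂ) (G := fun y => deriv G (lam + y)) hdiff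
    (fun y hy => hM y (ball_subset_closedBall hy))
  have e1 : (volume : Measure ℂ) (ball 0 ρ) = ENNReal.ofReal (Real.pi * ρ ^ 2) := by
    rw [Complex.volume_ball, ENNReal.ofReal_mul Real.pi_pos.le, mul_comm, ENNReal.ofReal_pow hρ.le]
    congr 1
    rw [← NNReal.coe_real_pi, ENNReal.ofReal_coe_nnreal]
  have e2 : ∫⁻ x in ball lam ρ, ENNReal.ofReal (‖deriv G x‖ ^ 2) =
      ∫⁻ y in ball (0 : ℂ) ρ, ENNReal.ofReal (‖deriv G (lam + y)‖ ^ 2) := by
    have hmp : MeasurePreserving (fun y : ℂ => lam + y) volume volume :=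
      measurePreserving_add_left volume lam
    have hemb : MeasurableEmbedding (fun y : ℂ => lam + y) := measurableEmbedding_addLeft lam
    have hpre : (fun y : ℂ => lam + y) ⁻¹' ball lam ρ = ball 0 ρ := by
      ext y
      simp
    rw [← hpre]
    exact (hmp.setLIntegral_comp_preimage_emb hemb
      (fun x => ENNReal.ofReal (‖deriv G x‖ ^ 2)) (ball lam ρ)).symm
  rw [e2, ← e1]
  simpa using key

private lemma G5_kc {e z : E} (he : ‖e‖ = 1) (hz : z ∈ ball (0 : E) 1) {x : ℂ}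
    (hx : x ∈ ball (⟪e, z⟫_ℂ) ((1 - ‖⟪e, z⟫_ℂ‖ ^ 2) / 8)) :
    (1 - ‖z‖ ^ 2) / (1 - ‖⟪e, z⟫_ℂ‖ ^ 2) / 5 ≤
      kc (1 / 8) 2 (x • e) z * (1 - ‖x‖ ^ 2) := by
  set lam : ℂ := ⟪e, z⟫_ℂ with hlam
  have hz1 : ‖z‖ < 1 := by simpa using hz
  have hl : ‖lam‖ ≤ ‖z‖ := by
    have := norm_inner_le_norm (𝕜 := ℂ) e z
    rw [he, one_mul] at this
    exact this
  set t : ℝ := 1 - ‖lam‖ ^ 2 with ht
  have hn0 := norm_nonneg lam
  have hnz := norm_nonneg z
  have ht0 : 0 < t := by rw [ht]; nlinarith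
  have ht1 : t ≤ 1 := by rw [ht]; nlinarith
  have hxl : ‖x - lam‖ < t / 8 := by simpa [dist_eq_norm] using hx
  have hxn : ‖x‖ ≤ ‖lam‖ + t / 8 := by
    have := norm_sub_norm_le x lam
    linarith
  have hx2 : 7 / 10 * t ≤ 1 - ‖x‖ ^ 2 := by
    have h0 := norm_nonneg x
    have h1 : ‖x‖ ^ 2 ≤ (‖lam‖ + t / 8) ^ 2 := by gcongr
    nlinarith
  have hinner : ⟪x • e, z⟫_ℂ = (starRingEnd ℂ) x * lam := by
    rw [inner_smul_left]
  have hD : |‖1 - ⟪x • e, z⟫_ℂ‖ - t| ≤ t / 8 := by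
    have e1 : (1 - ⟪x • e, z⟫_ℂ) - ((t : ℝ) : ℂ) = -((starRingEnd ℂ) (x - lam) * lam) := by
      rw [hinner, ht]
      push_cast
      have : (starRingEnd ℂ) lam * lam = ((‖lam‖ : ℂ)) ^ 2 := by
        rw [mul_comm, Complex.mul_conj, Complex.normSq_eq_norm_sq]
        push_cast
        rfl
      rw [map_sub]
      linear_combination (-1 : ℂ) * this
    have e2 : ‖((t : ℝ) : ℂ)‖ = t := by
      rw [Complex.norm_real, Real.norm_eq_abs, abs_of_pos ht0]
    calc |‖1 - ⟪x • e, z⟫_ℂ‖ - t| = |‖1 - ⟪x • e, z⟫_ℂ‖ - ‖((t : ℝ) : ℂ)‖| := by rw [e2]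
      _ ≤ ‖(1 - ⟪x • e, z⟫_ℂ) - ((t : ℝ) : ℂ)‖ := abs_norm_sub_norm_le _ _
      _ = ‖x - lam‖ * ‖lam‖ := by rw [e1, norm_neg, norm_mul, Complex.norm_conj]
      _ ≤ t / 8 * 1 := by
          apply mul_le_mul hxl.le (by linarith) hn0 (by positivity)
      _ = t / 8 := by ring
  rw [abs_le] at hD
  set D : ℝ := ‖1 - ⟪x • e, z⟫_ℂ‖ with hDdef
  have hD0 : 0 < D := by linarith
  have hD1 : D ≤ 9 / 8 * t := by linarith
  have hnx : ‖x • e‖ = ‖x‖ := by rw [norm_smul, he, mul_one]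
  have hτ : 0 ≤ (1 - ‖z‖ ^ 2) / t := by
    apply div_nonneg _ ht0.le
    nlinarith
  have hτ1 : (1 - ‖z‖ ^ 2) / t ≤ 1 := by
    rw [div_le_one ht0, ht]
    nlinarith
  have h1 : 8 / 9 * ((1 - ‖z‖ ^ 2) / t) ≤ ((1 - ‖z‖ ^ 2) / D) ^ (1 / 8 : ℝ) := by
    have h2 : 8 / 9 * ((1 - ‖z‖ ^ 2) / t) ≤ (1 - ‖z‖ ^ 2) / D := by
      rw [le_div_iff₀ hD0]
      have h3 : 0 ≤ 1 - ‖z‖ ^ 2 := by nlinarith
      calc 8 / 9 * ((1 - ‖z‖ ^ 2) / t) * D ≤ 8 / 9 * ((1 - ‖z‖ ^ 2) / t) * (9 / 8 * t) := by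
            gcongr
        _ = 1 - ‖z‖ ^ 2 := by field_simp
    have h4 : 8 / 9 * ((1 - ‖z‖ ^ 2) / t) ≤ (8 / 9 * ((1 - ‖z‖ ^ 2) / t)) ^ (1 / 8 : ℝ) := by
      rcases eq_or_lt_of_le hτ with h5 | h5
      · rw [← h5]
        simp
      · conv_lhs => rw [← Real.rpow_one (8 / 9 * ((1 - ‖z‖ ^ 2) / t))]
        apply Real.rpow_le_rpow_of_exponent_ge (by positivity) (by linarith) (by norm_num)
    refine h4.trans ?_
    exact Real.rpow_le_rpow (by positivity) h2 (by norm_num)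
  have h6 : 28 / 45 ≤ (1 - ‖x‖ ^ 2) / D := by
    rw [le_div_iff₀ hD0]
    linarith
  unfold kc
  rw [hnx, ← hDdef]
  have h7 : (28 / 45 : ℝ) ^ 3 ≤ ((1 - ‖x‖ ^ 2) / D) ^ 3 := by gcongr
  calc (1 - ‖z‖ ^ 2) / t / 5 ≤ (8 / 9 * ((1 - ‖z‖ ^ 2) / t)) * (28 / 45) ^ 3 := by
        nlinarith
    _ ≤ ((1 - ‖z‖ ^ 2) / D) ^ (1 / 8 : ℝ) * ((1 - ‖x‖ ^ 2) / D) ^ 3 := by
        apply mul_le_mul h1 h7 (by positivity)
        exact Real.rpow_nonneg (div_nonneg (by nlinarith) hD0.le) _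
    _ = ((1 - ‖z‖ ^ 2) / D) ^ (1 / 8 : ℝ) * ((1 - ‖x‖ ^ 2) / D) ^ 2 / D * (1 - ‖x‖ ^ 2) := by
        ring

/-- Functions of one linear variable. Proof. Scale `g` by its bound. `ν = κ` times the image under `x ↦ x • e` of the measure `‖deriv g x‖² (1 - ‖x‖²) dx` on the unit disc. For `ζ` in the unit sphere: `⟪x • e, ζ⟫ = conj x ⟪e, ζ⟫`, `c = ⟪e, ζ⟫`, `‖c‖ ≤ 1`: if `‖1 - conj x c‖ < r` then (`c ≠ 0` if `r ≤ 1`; `1 - ‖c‖ < r`) `‖1 - conj x c/‖c‖‖ < 2 r`: `carl_disc`. Lower bound: with `λ = ⟪e, z⟫`: `IG2 u z = (1 - ‖z‖²) (1 - ‖λ‖²) ‖deriv g λ‖²`; for `x` in the disc of centre `λ` and radius `(1 - ‖λ‖²)/8`: `D(x • e, z) = ‖1 - conj x λ‖` is comparable with `1 - ‖λ‖²`, so `Tc s 2 ν z ≥ c ((1 - ‖z‖²)/(1 - ‖λ‖²))^s (1 - ‖λ‖²)^(-1) ∫ ‖deriv g x‖² (1 - ‖x‖²)` over this disc `≥ c ((1 - ‖z‖²)/(1 - ‖λ‖²))^s (1 - ‖λ‖²)² ‖deriv g λ‖²` (mean value property of the subharmonic function `‖deriv g‖²`; e.g. Cauchy-Schwarz and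 the mean value property of `(deriv g)`: `Complex` circle averages, or `deriv g` squared is holomorphic and `‖(deriv g λ)²‖ ≤` the average of `‖(deriv g)²‖`); `1 - ‖z‖² ≤ 1 - ‖λ‖²`. -/
theorem Acl_disc (hE : ∃ ζ : E, ‖ζ‖ = 1) {e : E} (he : ‖e‖ = 1) {g : ℂ → ℂ}
    (hg : DifferentiableOn ℂ g (ball 0 1)) {A : ℝ} (hA : ∀ x ∈ ball (0 : ℂ) 1, ‖g x‖ ≤ A) :
    (fun z => g ⟪e, z⟫_ℂ) ∈ Acl 2 E := by
  obtain ⟨C, hC, hcarl⟩ := carl_disc
  set B : ℝ := max A 1 with hB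
  have hB0 : 0 < B := lt_of_lt_of_le one_pos (le_max_right _ _)
  set G : ℂ → ℂ := fun x => g x / B with hGdef
  have hBc : (B : ℂ) ≠ 0 := by exact_mod_cast hB0.ne'
  have hG : DifferentiableOn ℂ G (ball 0 1) := hg.div_const _
  have hGb : ∀ x ∈ ball (0 : ℂ) 1, ‖G x‖ ≤ 1 := by
    intro x hx
    rw [hGdef]
    simp only [norm_div, Complex.norm_real, Real.norm_eq_abs, abs_of_pos hB0]
    rw [div_le_one hB0]
    exact (hA x hx).trans (le_max_left _ _)
  have hdG : ∀ x, deriv G x = deriv g x / B := fun x => deriv_div_const _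
  have hcont_e : Continuous (fun x : ℂ => x • e) := by fun_prop
  set w : ℂ → ℝ := fun x => ‖deriv G x‖ ^ 2 * (1 - ‖x‖ ^ 2) with hw
  have hwm : Measurable w := by
    have := measurable_deriv G
    rw [hw]
    fun_prop
  set μ0 : Measure ℂ := (volume.restrict (ball (0 : ℂ) 1)).withDensity
    (fun x => ENNReal.ofReal (w x)) with hμ0
  have hμ0ap : ∀ S : Set ℂ, MeasurableSet S →
      μ0 S = ∫⁻ x in S ∩ ball (0 : ℂ) 1, ENNReal.ofReal (w x) := by
    intro S hS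
    rw [hμ0, withDensity_apply _ hS, Measure.restrict_restrict hS]
  set κ : ℝ := 1 / (2 * C) with hκ
  have hκ0 : 0 < κ := by positivity
  set ν : Measure E := ENNReal.ofReal κ • Measure.map (fun x : ℂ => x • e) μ0 with hν
  have hνap : ∀ T : Set E, MeasurableSet T → ν T = ENNReal.ofReal κ *
      ∫⁻ x in ((fun x : ℂ => x • e) ⁻¹' T) ∩ ball (0 : ℂ) 1, ENNReal.ofReal (w x) := by
    intro T hT
    rw [hν, Measure.smul_apply, Measure.map_apply hcont_e.measurable hT,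
      hμ0ap _ (hcont_e.measurable hT), smul_eq_mul]
  have hCar : Car ν := by
    constructor
    · rw [hνap _ measurableSet_ball.compl]
      have : ((fun x : ℂ => x • e) ⁻¹' (ball (0 : E) 1)ᶜ) ∩ ball (0 : ℂ) 1 = ∅ := by
        ext x
        simp only [mem_inter_iff, mem_preimage, mem_compl_iff, mem_ball_zero_iff, norm_smul, he,
          mul_one, mem_empty_iff_false, iff_false, not_and, not_lt]
        intro h
        exact h
      rw [this]
      simp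
    · intro ζ hζ r hr
      have hmT : MeasurableSet {u : E | ‖1 - ⟪u, ζ⟫_ℂ‖ < r} := by
        refine measurableSet_lt ?_ measurable_const
        have : Continuous (fun u : E => ‖1 - ⟪u, ζ⟫_ℂ‖) := by fun_prop
        exact this.measurable
      rw [hνap _ hmT]
      set c : ℂ := ⟪e, ζ⟫_ℂ with hc
      have hc1 : ‖c‖ ≤ 1 := by
        have := norm_inner_le_norm (𝕜 := ℂ) e ζ
        rw [he, hζ, one_mul] at this
        exact this
      obtain ⟨η, hη, hsub⟩ : ∃ η : ℂ, ‖η‖ = 1 ∧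
          ((fun x : ℂ => x • e) ⁻¹' {u : E | ‖1 - ⟪u, ζ⟫_ℂ‖ < r}) ∩ ball (0 : ℂ) 1 ⊆
            ball (0 : ℂ) 1 ∩ {x | ‖1 - x * (starRingEnd ℂ) η‖ < 2 * r} := by
        have hin : ∀ x : ℂ, ‖1 - ⟪x • e, ζ⟫_ℂ‖ = ‖1 - x * (starRingEnd ℂ) c‖ := by
          intro x
          rw [inner_smul_left, ← hc, ← Complex.norm_conj (1 - (starRingEnd ℂ) x * c)]
          simp
        by_cases hc0 : c = 0
        · refine ⟨1, by simp, ?_⟩
          rintro x ⟨hx1, hx2⟩
          refine ⟨hx2, ?_⟩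
          have h1 : ‖1 - ⟪x • e, ζ⟫_ℂ‖ < r := hx1
          rw [hin, hc0] at h1
          simp only [map_zero, mul_zero, sub_zero, norm_one] at h1
          have h2 : ‖x‖ < 1 := by simpa using hx2
          show ‖1 - x * (starRingEnd ℂ) 1‖ < 2 * r
          have h3 : ‖1 - x * (starRingEnd ℂ) 1‖ ≤ 1 + ‖x‖ := by
            refine (norm_sub_le _ _).trans ?_
            simp
          linarith
        · have hcn : 0 < ‖c‖ := norm_pos_iff.2 hc0
          refine ⟨c / ‖c‖, ?_, ?_⟩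
          · rw [norm_div, Complex.norm_real, norm_norm, div_self hcn.ne']
          rintro x ⟨hx1, hx2⟩
          refine ⟨hx2, ?_⟩
          have h1 : ‖1 - ⟪x • e, ζ⟫_ℂ‖ < r := hx1
          rw [hin] at h1
          have h2 : ‖x‖ < 1 := by simpa using hx2
          have h3 : 1 - ‖c‖ < r := by
            have h4 : 1 - ‖x * (starRingEnd ℂ) c‖ ≤ ‖1 - x * (starRingEnd ℂ) c‖ := by
              have := norm_sub_norm_le (1 : ℂ) (x * (starRingEnd ℂ) c)
              simpa using this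
            rw [norm_mul, Complex.norm_conj] at h4
            nlinarith [norm_nonneg x]
          show ‖1 - x * (starRingEnd ℂ) (c / ‖c‖)‖ < 2 * r
          have e1 : 1 - x * (starRingEnd ℂ) (c / ‖c‖) = (1 - x * (starRingEnd ℂ) c) +
              x * (starRingEnd ℂ) c * (((1 - 1 / ‖c‖ : ℝ)) : ℂ) := by
            rw [map_div₀, Complex.conj_ofReal]
            push_cast
            ring
          have e2 : ‖x * (starRingEnd ℂ) c * (((1 - 1 / ‖c‖ : ℝ)) : ℂ)‖ ≤ 1 - ‖c‖ := by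
            rw [norm_mul, norm_mul, Complex.norm_conj, Complex.norm_real, Real.norm_eq_abs]
            have h5 : |1 - 1 / ‖c‖| = 1 / ‖c‖ - 1 := by
              rw [abs_sub_comm, abs_of_nonneg]
              rw [sub_nonneg, le_div_iff₀ hcn]
              linarith
            rw [h5]
            have h6 : ‖x‖ * ‖c‖ * (1 / ‖c‖ - 1) = ‖x‖ * (1 - ‖c‖) := by
              field_simp
            rw [h6]
            nlinarith [norm_nonneg x]
          rw [e1]
          exact lt_of_le_of_lt (norm_add_le _ _) (by linarith)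
      calc ENNReal.ofReal κ * ∫⁻ x in ((fun x : ℂ => x • e) ⁻¹' {u : E | ‖1 - ⟪u, ζ⟫_ℂ‖ < r}) ∩
            ball (0 : ℂ) 1, ENNReal.ofReal (w x)
          ≤ ENNReal.ofReal κ * ∫⁻ x in ball (0 : ℂ) 1 ∩ {x | ‖1 - x * (starRingEnd ℂ) η‖ < 2 * r},
            ENNReal.ofReal (w x) := by
            gcongr
        _ ≤ ENNReal.ofReal κ * ENNReal.ofReal (C * (2 * r)) := by
            gcongr
            exact hcarl G hG hGb η hη (2 * r) (by positivity)
        _ = ENNReal.ofReal r := by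
            rw [← ENNReal.ofReal_mul hκ0.le]
            congr 1
            rw [hκ]
            field_simp
  refine ⟨?_, ⟨A, ?_⟩, 1 / 8, 320 * B ^ 2 / (κ * Real.pi), ν, by norm_num, le_rfl, by positivity,
    hCar, ?_⟩
  · intro z hz
    have hl : ⟪e, z⟫_ℂ ∈ ball (0 : ℂ) 1 := by
      rw [mem_ball_zero_iff] at hz ⊢
      have := norm_inner_le_norm (𝕜 := ℂ) e z
      rw [he, one_mul] at this
      linarith
    exact (G5_fderiv (hg.differentiableAt (isOpen_ball.mem_nhds hl))).differentiableAt.differentiableWithinAt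
  · intro z hz
    apply hA
    rw [mem_ball_zero_iff] at hz ⊢
    have := norm_inner_le_norm (𝕜 := ℂ) e z
    rw [he, one_mul] at this
    linarith
  · intro z hz
    set lam : ℂ := ⟪e, z⟫_ℂ with hlam
    have hz1 : ‖z‖ < 1 := by simpa using hz
    have hlz : ‖lam‖ ≤ ‖z‖ := by
      have := norm_inner_le_norm (𝕜 := ℂ) e z
      rw [he, one_mul] at this
      exact this
    have hl : lam ∈ ball (0 : ℂ) 1 := by
      rw [mem_ball_zero_iff]
      linarith
    have hn0 := norm_nonneg lam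
    have hnz := norm_nonneg z
    set t : ℝ := 1 - ‖lam‖ ^ 2 with ht
    have ht0 : 0 < t := by rw [ht]; nlinarith
    have hz2 : 0 ≤ 1 - ‖z‖ ^ 2 := by nlinarith
    have hIG : IG2 (fun z : E => g ⟪e, z⟫_ℂ) z = (1 - ‖z‖ ^ 2) * (t * ‖deriv g lam‖ ^ 2) :=
      G5_IG he (hg.differentiableAt (isOpen_ball.mem_nhds hl))
    rw [Real.sq_sqrt (by rw [hIG]; positivity), hIG]
    have hint := kc_int hE hCar (s := 1 / 8) (by norm_num) 2 hz
    have hnn : 0 ≤ᵐ[ν] fun u => kc (1 / 8) 2 u z := by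
      have h1 : ∀ᵐ u ∂ν, u ∈ ball (0 : E) 1 := by
        rw [ae_iff]
        exact hCar.sub
      filter_upwards [h1] with u hu
      exact kc_nonneg (mem_ball_zero_iff.1 hu).le hz1.le
    have hT : ENNReal.ofReal (Tc (1 / 8) 2 ν z) = ∫⁻ u, ENNReal.ofReal (kc (1 / 8) 2 u z) ∂ν :=
      ofReal_integral_eq_lintegral_ofReal hint hnn
    have hsubb : ball lam (t / 8) ⊆ ball (0 : ℂ) 1 := by
      intro x hx
      have hx1 : ‖x - lam‖ < t / 8 := by simpa [dist_eq_norm] using hx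
      rw [mem_ball_zero_iff]
      have h2 := norm_sub_norm_le x lam
      have h3 : t ≤ 2 * (1 - ‖lam‖) := by rw [ht]; nlinarith
      nlinarith
    have hkm : Measurable (fun u : E => ENNReal.ofReal (kc (1 / 8) 2 u z)) := by
      refine Measurable.ennreal_ofReal ?_
      have h1 : Measurable (fun u : E => ‖1 - ⟪u, z⟫_ℂ‖) := by
        have : Continuous (fun u : E => ‖1 - ⟪u, z⟫_ℂ‖) := by fun_prop
        exact this.measurable
      have h2 : Measurable (fun u : E => ‖u‖) := measurable_norm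
      show Measurable (fun u : E => ((1 - ‖z‖ ^ 2) / ‖1 - ⟪u, z⟫_ℂ‖) ^ (1 / 8 : ℝ) *
        ((1 - ‖u‖ ^ 2) / ‖1 - ⟪u, z⟫_ℂ‖) ^ 2 / ‖1 - ⟪u, z⟫_ℂ‖)
      exact (((measurable_const.div h1).pow_const _).mul
        (((measurable_const.sub (h2.pow_const 2)).div h1).pow_const 2)).div h1
    have hlow : ENNReal.ofReal (κ * ((1 - ‖z‖ ^ 2) / t / 5) * (‖deriv G lam‖ ^ 2 *
        (Real.pi * (t / 8) ^ 2))) ≤ ENNReal.ofReal (Tc (1 / 8) 2 ν z) := by
      have hwd : ∫⁻ a, ENNReal.ofReal (kc (1 / 8) 2 (a • e) z)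
            ∂(volume.restrict (ball (0 : ℂ) 1)).withDensity (fun x => ENNReal.ofReal (w x)) =
          ∫⁻ a in ball (0 : ℂ) 1, ENNReal.ofReal (w a) *
            ENNReal.ofReal (kc (1 / 8) 2 (a • e) z) := by
        have hm : Measurable (fun a : ℂ => ENNReal.ofReal (kc (1 / 8) 2 (a • e) z)) :=
          hkm.comp hcont_e.measurable
        rw [lintegral_withDensity_eq_lintegral_mul _ hwm.ennreal_ofReal hm]
        rfl
      rw [hT, hν, lintegral_smul_measure, lintegral_map hkm hcont_e.measurable, hμ0, hwd]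
      simp only [smul_eq_mul]
      calc ENNReal.ofReal (κ * ((1 - ‖z‖ ^ 2) / t / 5) * (‖deriv G lam‖ ^ 2 *
            (Real.pi * (t / 8) ^ 2)))
          = ENNReal.ofReal κ * (ENNReal.ofReal ((1 - ‖z‖ ^ 2) / t / 5) *
            (ENNReal.ofReal (‖deriv G lam‖ ^ 2) * ENNReal.ofReal (Real.pi * (t / 8) ^ 2))) := by
            rw [← ENNReal.ofReal_mul (by positivity), ← ENNReal.ofReal_mul (by positivity),
              ← ENNReal.ofReal_mul hκ0.le]
            congr 1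
            ring
        _ ≤ ENNReal.ofReal κ * (ENNReal.ofReal ((1 - ‖z‖ ^ 2) / t / 5) *
            ∫⁻ x in ball lam (t / 8), ENNReal.ofReal (‖deriv G x‖ ^ 2)) := by
            gcongr
            apply G5_mean hG (by positivity)
            have h3 : t ≤ 2 * (1 - ‖lam‖) := by rw [ht]; nlinarith
            linarith
        _ = ENNReal.ofReal κ * ∫⁻ x in ball lam (t / 8),
            ENNReal.ofReal ((1 - ‖z‖ ^ 2) / t / 5) * ENNReal.ofReal (‖deriv G x‖ ^ 2) := by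
            rw [lintegral_const_mul' _ _ ENNReal.ofReal_ne_top]
        _ ≤ ENNReal.ofReal κ * ∫⁻ x in ball lam (t / 8),
            ENNReal.ofReal (w x) * ENNReal.ofReal (kc (1 / 8) 2 (x • e) z) := by
            refine mul_le_mul_of_nonneg_left ?_ zero_le
            apply setLIntegral_mono' measurableSet_ball
            intro x hx
            have hk := G5_kc he hz hx
            have hx1 : ‖x‖ < 1 := by simpa using hsubb hx
            have hx2 : 0 ≤ 1 - ‖x‖ ^ 2 := by nlinarith [norm_nonneg x]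
            have hkn : 0 ≤ kc (1 / 8) 2 (x • e) z := by
              apply kc_nonneg _ hz1.le
              rw [norm_smul, he, mul_one]
              exact hx1.le
            rw [← ENNReal.ofReal_mul (by positivity), ← ENNReal.ofReal_mul (by positivity)]
            apply ENNReal.ofReal_le_ofReal
            rw [hw]
            calc (1 - ‖z‖ ^ 2) / t / 5 * ‖deriv G x‖ ^ 2
                ≤ (kc (1 / 8) 2 (x • e) z * (1 - ‖x‖ ^ 2)) * ‖deriv G x‖ ^ 2 :=
                  mul_le_mul_of_nonneg_right hk (by positivity)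
              _ = _ := by ring
        _ ≤ ENNReal.ofReal κ * ∫⁻ x in ball (0 : ℂ) 1,
            ENNReal.ofReal (w x) * ENNReal.ofReal (kc (1 / 8) 2 (x • e) z) := by
            gcongr
        _ = _ := rfl
    have hTn : 0 ≤ Tc (1 / 8) 2 ν z := Tc_nonneg hCar 2 hz
    have hlow2 := (ENNReal.ofReal_le_ofReal_iff hTn).1 hlow
    have hdg : ‖deriv g lam‖ ^ 2 = B ^ 2 * ‖deriv G lam‖ ^ 2 := by
      rw [hdG, norm_div, Complex.norm_real, Real.norm_eq_abs, abs_of_pos hB0]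
      field_simp
    rw [hdg]
    have hpi := Real.pi_pos
    calc (1 - ‖z‖ ^ 2) * (t * (B ^ 2 * ‖deriv G lam‖ ^ 2))
        = 320 * B ^ 2 / (κ * Real.pi) * (κ * ((1 - ‖z‖ ^ 2) / t / 5) * (‖deriv G lam‖ ^ 2 *
            (Real.pi * (t / 8) ^ 2))) := by
          field_simp
          ring
      _ ≤ 320 * B ^ 2 / (κ * Real.pi) * Tc (1 / 8) 2 ν z := by gcongr

end Pool.Agent.MPca0fc2.CE
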