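import Mathlib
import Pool.Agent.Lib.MP_ca0fc2_an.CE.F3
import Pool.Agent.Lib.MP_ca0fc2_an.CE.C1
import Pool.Agent.Lib.MP_ca0fc2_an.PV.A3
import Pool.Agent.Lib.MP_ca0fc2_an.PV.A4

set_option autoImplicit false
set_option linter.unusedSectionVars false

open Metric Set MeasureTheory Filter Topology
open scoped InnerProductSpace ENNReal ContDiff

namespace Pool.Agent.MPca0fc2.CE

open Pool.Agent.MPca0fc2.PT
open Pool.Agent.MPca0fc2.QT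
open Pool.Agent.MPca0fc2.TS
open Pool.Agent.MPca0fc2.TE
open Pool.Agent.MPca0fc2.TK
open Pool.Agent.MPca0fc2.VK
open Pool.Agent.MPca0fc2.PV

variable {E : Type*} [NormedAddCommGroup E] [InnerProductSpace ℂ E] [FiniteDimensional ℂ E]
  [MeasurableSpace E] [BorelSpace E]

omit [FiniteDimensional ℂ E] [MeasurableSpace E] [BorelSpace E] in
private theorem H0_unit {m : ℕ} (hdim : Module.finrank ℂ E = m + 1) : ∃ ζ : E, ‖ζ‖ = 1 := by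
  have hnt : Nontrivial E := Module.nontrivial_of_finrank_pos (R := ℂ) (by rw [hdim]; omega)
  obtain ⟨v, hv⟩ := exists_ne (0 : E)
  refine ⟨((‖v‖⁻¹ : ℝ) : ℂ) • v, ?_⟩
  rw [norm_smul, Complex.norm_real, norm_inv, norm_norm, inv_mul_cancel₀ (norm_ne_zero_iff.2 hv)]

omit [FiniteDimensional ℂ E] [MeasurableSpace E] [BorelSpace E] in
private theorem H0_den {y x : E} (hy : ‖y‖ < 1) (hx : ‖x‖ < 1 / 2) :
    1 / 2 ≤ ‖1 + ⟪y, x⟫_ℂ‖ ∧ ‖1 + ⟪y, x⟫_ℂ‖ ≤ 3 / 2 := by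
  have h1 : ‖⟪y, x⟫_ℂ‖ ≤ 1 / 2 := by
    have h2 := norm_inner_le_norm (𝕜 := ℂ) y x
    nlinarith [norm_nonneg y, norm_nonneg x]
  have h3 := norm_sub_norm_le (1 : ℂ) (-⟪y, x⟫_ℂ)
  rw [sub_neg_eq_add, norm_neg, norm_one] at h3
  have h4 := norm_add_le (1 : ℂ) ⟪y, x⟫_ℂ
  rw [norm_one] at h4
  exact ⟨by linarith, by linarith⟩

omit [FiniteDimensional ℂ E] [MeasurableSpace E] [BorelSpace E] in
private theorem H0_ker' {y x : E} (hy : ‖y‖ < 1) (hx : ‖x‖ < 1) :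
    ‖1 - ⟪y, gg y x⟫_ℂ‖ = (1 - ‖y‖ ^ 2) / ‖1 + ⟪y, x⟫_ℂ‖ := by
  have ha : 0 ≤ 1 - ‖y‖ ^ 2 := by nlinarith [norm_nonneg y]
  rw [inner_gg_self hy hx.le, norm_div, Complex.norm_real, Real.norm_of_nonneg ha]

omit [FiniteDimensional ℂ E] [MeasurableSpace E] [BorelSpace E] in
private theorem H0_ker {y x : E} (hy : ‖y‖ < 1) (hx : ‖x‖ < 1) :
    ‖1 - ⟪gg y x, y⟫_ℂ‖ = (1 - ‖y‖ ^ 2) / ‖1 + ⟪y, x⟫_ℂ‖ := by
  have h1 : (starRingEnd ℂ) (1 - ⟪gg y x, y⟫_ℂ) = 1 - ⟪y, gg y x⟫_ℂ := by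
    rw [map_sub, map_one, inner_conj_symm]
  rw [← H0_ker' hy hx, ← h1, Complex.norm_conj]

omit [FiniteDimensional ℂ E] [MeasurableSpace E] [BorelSpace E] in
private theorem H0_pt {y x : E} (hy : ‖y‖ < 1) (hx : ‖x‖ < 1 / 2) (M : ℕ) :
    (1 / 2) ^ (M + 1) * (1 - ‖y‖ ^ 2) ^ (-(1 / 4) : ℝ) ≤
      ‖1 - ⟪gg y x, y⟫_ℂ‖ ^ (-((M : ℝ) + 1 / 4)) * (1 - ‖gg y x‖ ^ 2) ^ M := by
  obtain ⟨hD1, hD2⟩ := H0_den hy hx
  have hx1 : ‖x‖ < 1 := by linarith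
  rw [H0_ker hy hx1, norm_gg hy hx1.le]
  have ha : 0 < 1 - ‖y‖ ^ 2 := by nlinarith [norm_nonneg y]
  have hb : 3 / 4 ≤ 1 - ‖x‖ ^ 2 := by nlinarith [norm_nonneg x]
  generalize ‖1 + ⟪y, x⟫_ℂ‖ = D at *
  generalize 1 - ‖y‖ ^ 2 = a at *
  generalize 1 - ‖x‖ ^ 2 = b at *
  have hD0 : 0 < D := by linarith
  have haD : 0 < a / D := by positivity
  have h1 : (a / D) ^ (-((M : ℝ) + 1 / 4)) = ((a / D) ^ M)⁻¹ * (a / D) ^ (-(1 / 4) : ℝ) := by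
    rw [neg_add, Real.rpow_add haD, Real.rpow_neg haD.le, Real.rpow_natCast]
  have h2 : (a * b / D ^ 2) ^ M = (a / D) ^ M * (b / D) ^ M := by
    rw [← mul_pow]
    congr 1
    field_simp
  have h3 : (1 / 2 : ℝ) ^ M ≤ (b / D) ^ M := by
    apply pow_le_pow_left₀ (by norm_num)
    rw [le_div_iff₀ hD0]
    linarith
  have h4 : 1 / 2 * a ^ (-(1 / 4) : ℝ) ≤ (a / D) ^ (-(1 / 4) : ℝ) := by
    have h5 : (2 * a) ^ (-(1 / 4) : ℝ) ≤ (a / D) ^ (-(1 / 4) : ℝ) := by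
      apply Real.rpow_le_rpow_of_nonpos haD _ (by norm_num)
      rw [div_le_iff₀ hD0]
      nlinarith
    have h6 : (1 / 2 : ℝ) ≤ 2 ^ (-(1 / 4) : ℝ) := by
      have h7 : (2 : ℝ) ^ (-1 : ℝ) ≤ 2 ^ (-(1 / 4) : ℝ) :=
        Real.rpow_le_rpow_of_exponent_le (by norm_num) (by norm_num)
      rw [Real.rpow_neg_one] at h7
      linarith
    rw [Real.mul_rpow (by norm_num) ha.le] at h5
    have h8 : 0 ≤ a ^ (-(1 / 4) : ℝ) := Real.rpow_nonneg ha.le _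
    nlinarith
  rw [h1, h2]
  have h9 : 0 ≤ a ^ (-(1 / 4) : ℝ) := Real.rpow_nonneg ha.le _
  have h10 : 0 < (a / D) ^ M := by positivity
  calc (1 / 2) ^ (M + 1) * a ^ (-(1 / 4) : ℝ) = (1 / 2 * a ^ (-(1 / 4) : ℝ)) * (1 / 2) ^ M := by
        rw [pow_succ]; ring
    _ ≤ (a / D) ^ (-(1 / 4) : ℝ) * (b / D) ^ M := by gcongr
    _ = ((a / D) ^ M)⁻¹ * (a / D) ^ (-(1 / 4) : ℝ) * ((a / D) ^ M * (b / D) ^ M) := by
        field_simp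

omit [FiniteDimensional ℂ E] in
private theorem H0_int {ν : Measure E} (hν : OnB ν) {p : ℝ} (hp : 0 ≤ p) {y : E}
    (hy : ‖y‖ < 1) : Integrable (fun x => ‖1 - ⟪x, y⟫_ℂ‖ ^ (-p)) ν := by
  have := hν.fin
  have hcont : Continuous fun x : E => ‖1 - ⟪x, y⟫_ℂ‖ := by fun_prop
  have hmeas : Measurable fun x : E => ‖1 - ⟪x, y⟫_ℂ‖ ^ (-p) := hcont.measurable.pow_const _
  refine Integrable.mono' (integrable_const ((1 - ‖y‖) ^ (-p))) hmeas.aestronglyMeasurable ?_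
  have hae : ∀ᵐ x ∂ν, x ∈ ball (0 : E) 1 := by
    rw [ae_iff]
    exact hν.supp
  filter_upwards [hae] with x hx
  rw [mem_ball_zero_iff] at hx
  rw [Real.norm_of_nonneg (Real.rpow_nonneg (norm_nonneg _) _)]
  apply Real.rpow_le_rpow_of_nonpos (by linarith) _ (by linarith)
  have h1 := norm_inner_le_norm (𝕜 := ℂ) x y
  have h2 := norm_sub_norm_le (1 : ℂ) ⟪x, y⟫_ℂ
  rw [norm_one] at h2
  nlinarith [norm_nonneg y, norm_nonneg x]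

/-- the weight on the image of the ball of radius `1/2` -/
private theorem H0_Tc (hE : ∃ ζ : E, ‖ζ‖ = 1) {s : ℝ} (hs : 0 < s) (hs1 : s ≤ 1) :
    ∃ K : ℝ, 0 < K ∧ ∀ ν : Measure E, Car ν → ∀ y x : E, ‖y‖ < 1 → ‖x‖ < 1 / 2 →
      Tc s 2 ν y ≤ K * Tc s 2 ν (gg y x) := by
  obtain ⟨C, hC, h⟩ := Tc_osc (E := E) hE hs hs1 2
  refine ⟨32 * C, by positivity, ?_⟩
  intro ν hν y x hy hx
  have hx1 : ‖x‖ < 1 := by linarith
  have hgx := gg_lt hy hx1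
  obtain ⟨hD1, hD2⟩ := H0_den hy hx
  have ha : 0 < 1 - ‖y‖ ^ 2 := by nlinarith [norm_nonneg y]
  have hβ : 3 / 4 ≤ 1 - ‖x‖ ^ 2 := by nlinarith [norm_nonneg x]
  have h1 := h ν hν y (by rwa [mem_ball_zero_iff]) (gg y x) (by rwa [mem_ball_zero_iff])
  rw [H0_ker' hy hx1, norm_gg hy hx1.le] at h1
  have hT : 0 ≤ Tc s 2 ν (gg y x) := Tc_nonneg hν 2 (by rwa [mem_ball_zero_iff])
  generalize ‖1 + ⟪y, x⟫_ℂ‖ = D at *
  generalize 1 - ‖y‖ ^ 2 = a at *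
  generalize 1 - ‖x‖ ^ 2 = β at *
  generalize Tc s 2 ν (gg y x) = T at *
  have hD0 : 0 < D := by linarith
  have hβ0 : 0 < β := by linarith
  have e1 : a / D / a = 1 / D := by field_simp
  have e2 : a / D / (a * β / D ^ 2) = D / β := by field_simp
  rw [e1, e2] at h1
  have h2 : (1 / D) ^ (2 + 2) ≤ 16 := by
    have h3 : 1 / D ≤ 2 := by
      rw [div_le_iff₀ hD0]
      linarith
    calc (1 / D) ^ (2 + 2) ≤ 2 ^ (2 + 2) := pow_le_pow_left₀ (by positivity) h3 _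
      _ = 16 := by norm_num
  have h4 : (D / β) ^ s ≤ 2 := by
    have h5 : D / β ≤ 2 := by
      rw [div_le_iff₀ hβ0]
      linarith
    calc (D / β) ^ s ≤ 2 ^ s := Real.rpow_le_rpow (by positivity) h5 hs.le
      _ ≤ 2 ^ (1 : ℝ) := Real.rpow_le_rpow_of_exponent_le (by norm_num) hs1
      _ = 2 := Real.rpow_one 2
  have h6 : 0 ≤ (D / β) ^ s := by positivity
  calc Tc s 2 ν y ≤ C * T * ((1 / D) ^ (2 + 2) * (D / β) ^ s) := h1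
    _ ≤ C * T * (16 * 2) := by gcongr
    _ = 32 * C * T := by ring

/-- the potential of the measure with a density as an integral -/
private theorem H0_rep (μ : Measure E) [μ.IsAddHaarMeasure] {m M : ℕ} {G : E → ℝ}
    (hGm : AEMeasurable G (μ.restrict (ball 0 1)))
    (hG : ∀ x ∈ ball (0 : E) 1, 0 ≤ G x) (p : ℝ) (y : E) :
    PP (nuG μ m M G) p y = ∫ x in ball (0 : E) 1,
      ((1 - ‖x‖ ^ 2) ^ M * G x / (1 - ‖x‖ ^ 2) ^ (m + 2)) * ‖1 - ⟪x, y⟫_ℂ‖ ^ (-p) ∂μ := by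
  have hgm : AEMeasurable (fun x : E => ENNReal.ofReal
      ((1 - ‖x‖ ^ 2) ^ M * G x / (1 - ‖x‖ ^ 2) ^ (m + 2))) (μ.restrict (ball 0 1)) := by
    apply AEMeasurable.ennreal_ofReal
    have h5 : Measurable fun x : E => 1 - ‖x‖ ^ 2 := measurable_const.sub (measurable_norm.pow_const 2)
    exact ((h5.pow_const M).aemeasurable.mul hGm).div (h5.pow_const (m + 2)).aemeasurable
  unfold PP nuG
  rw [integral_withDensity_eq_integral_toReal_smul₀ hgm (ae_of_all _ fun _ => ENNReal.ofReal_lt_top)]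
  refine setIntegral_congr_fun measurableSet_ball fun x hx => ?_
  have hx1 : ‖x‖ < 1 := mem_ball_zero_iff.mp hx
  have ha : 0 < 1 - ‖x‖ ^ 2 := by nlinarith [norm_nonneg x]
  have h1 : 0 ≤ (1 - ‖x‖ ^ 2) ^ M * G x / (1 - ‖x‖ ^ 2) ^ (m + 2) :=
    div_nonneg (mul_nonneg (pow_nonneg ha.le _) (hG x hx)) (pow_nonneg ha.le _)
  show (ENNReal.ofReal _).toReal • _ = _
  rw [ENNReal.toReal_ofReal h1, smul_eq_mul]

omit [FiniteDimensional ℂ E] [MeasurableSpace E] [BorelSpace E] in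
private theorem H0_lo {x y : E} (hx : ‖x‖ < 1) (hy : ‖y‖ < 1) : 0 < ‖1 - ⟪x, y⟫_ℂ‖ ∧
    1 - ‖y‖ ≤ ‖1 - ⟪x, y⟫_ℂ‖ ∧ 1 - ‖x‖ ^ 2 ≤ 2 * ‖1 - ⟪x, y⟫_ℂ‖ := by
  have h1 := norm_inner_le_norm (𝕜 := ℂ) x y
  have h2 := norm_sub_norm_le (1 : ℂ) ⟪x, y⟫_ℂ
  rw [norm_one] at h2
  have hx0 := norm_nonneg x
  have hy0 := norm_nonneg y
  have h3 : 0 ≤ ‖x‖ * (1 - ‖y‖) := mul_nonneg hx0 (by linarith)
  have h4 : 0 ≤ ‖y‖ * (1 - ‖x‖) := mul_nonneg hy0 (by linarith)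
  refine ⟨by nlinarith, by nlinarith, ?_⟩
  nlinarith [sq_nonneg (1 - ‖x‖)]

/-- integrability of the density times the kernel -/
private theorem H0_intg (μ : Measure E) [μ.IsAddHaarMeasure] {m M : ℕ} (hM : m + 2 ≤ M) {G : E → ℝ}
    (hGm : AEMeasurable G (μ.restrict (ball 0 1))) {B : ℝ}
    (hG : ∀ x ∈ ball (0 : E) 1, 0 ≤ G x ∧ G x ≤ B) {p : ℝ} (hp : 0 ≤ p) {y : E} (hy : ‖y‖ < 1) :
    IntegrableOn (fun x => ((1 - ‖x‖ ^ 2) ^ M * G x / (1 - ‖x‖ ^ 2) ^ (m + 2)) *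
      ‖1 - ⟪x, y⟫_ℂ‖ ^ (-p)) (ball (0 : E) 1) μ := by
  have hprop : ProperSpace E := FiniteDimensional.proper ℂ E
  have hfin : IsFiniteMeasure (μ.restrict (ball (0 : E) 1)) :=
    ⟨by rw [Measure.restrict_apply_univ]; exact measure_ball_lt_top⟩
  have hB0 : 0 ≤ B := (hG 0 (mem_ball_self one_pos)).1.trans (hG 0 (mem_ball_self one_pos)).2
  have hcont : Continuous fun x : E => ‖1 - ⟪x, y⟫_ℂ‖ := by fun_prop
  have h5 : Measurable fun x : E => 1 - ‖x‖ ^ 2 := measurable_const.sub (measurable_norm.pow_const 2)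
  have hm1 : AEMeasurable (fun x => ((1 - ‖x‖ ^ 2) ^ M * G x / (1 - ‖x‖ ^ 2) ^ (m + 2)) *
      ‖1 - ⟪x, y⟫_ℂ‖ ^ (-p)) (μ.restrict (ball (0 : E) 1)) :=
    (((h5.pow_const M).aemeasurable.mul hGm).div (h5.pow_const (m + 2)).aemeasurable).mul
      (hcont.measurable.pow_const _).aemeasurable
  refine Integrable.mono' (integrable_const (B * (1 - ‖y‖) ^ (-p))) hm1.aestronglyMeasurable ?_
  filter_upwards [ae_restrict_mem measurableSet_ball] with x hx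
  obtain ⟨hG0, hG1⟩ := hG x hx
  have hx1 : ‖x‖ < 1 := mem_ball_zero_iff.mp hx
  obtain ⟨hD, hD1, -⟩ := H0_lo hx1 hy
  have h0 : 0 < 1 - ‖x‖ ^ 2 := by nlinarith [norm_nonneg x]
  have h1 : 1 - ‖x‖ ^ 2 ≤ 1 := by nlinarith [norm_nonneg x]
  have hq : (1 - ‖x‖ ^ 2) ^ M ≤ (1 - ‖x‖ ^ 2) ^ (m + 2) := pow_le_pow_of_le_one h0.le h1 hM
  have h2 : (1 - ‖x‖ ^ 2) ^ M * G x / (1 - ‖x‖ ^ 2) ^ (m + 2) ≤ B := by
    rw [div_le_iff₀ (pow_pos h0 _), mul_comm]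
    exact mul_le_mul hG1 hq (pow_pos h0 _).le hB0
  have h3 : 0 ≤ (1 - ‖x‖ ^ 2) ^ M * G x / (1 - ‖x‖ ^ 2) ^ (m + 2) := by positivity
  have h4 : ‖1 - ⟪x, y⟫_ℂ‖ ^ (-p) ≤ (1 - ‖y‖) ^ (-p) :=
    Real.rpow_le_rpow_of_nonpos (by linarith) hD1 (by linarith)
  rw [Real.norm_of_nonneg (mul_nonneg h3 (Real.rpow_nonneg hD.le _))]
  exact mul_le_mul h2 h4 (Real.rpow_nonneg hD.le _) hB0

/-- `Om` written as an integral against `μ` (see `PV.pv_Om'`, PV/A3.lean, `M8c_PP`); `(1 - ‖x‖²)/‖1 - ⟪x, y⟫‖ ≤ 2`. -/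
theorem Om_succ (μ : Measure E) [μ.IsAddHaarMeasure] {m M : ℕ} (hM : m + 2 ≤ M) {G : E → ℝ}
    (hGm : AEMeasurable G (μ.restrict (ball 0 1))) {B : ℝ}
    (hG : ∀ x ∈ ball (0 : E) 1, 0 ≤ G x ∧ G x ≤ B) {y : E} (hy : y ∈ ball (0 : E) 1) :
    Om (nuG μ m (M + 1) G) (M + 1) y ≤ 2 * Om (nuG μ m M G) M y := by
  have hy1 : ‖y‖ < 1 := mem_ball_zero_iff.mp hy
  have hb : 0 < 1 - ‖y‖ ^ 2 := by nlinarith [norm_nonneg y]
  have hG0 : ∀ x ∈ ball (0 : E) 1, 0 ≤ G x := fun x hx => (hG x hx).1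
  unfold Om
  rw [H0_rep μ hGm hG0, H0_rep μ hGm hG0]
  have h1 : ∫ x in ball (0 : E) 1, ((1 - ‖x‖ ^ 2) ^ (M + 1) * G x / (1 - ‖x‖ ^ 2) ^ (m + 2)) *
      ‖1 - ⟪x, y⟫_ℂ‖ ^ (-(((M + 1 : ℕ) : ℝ) + 1 / 4)) ∂μ ≤
      ∫ x in ball (0 : E) 1, 2 * (((1 - ‖x‖ ^ 2) ^ M * G x / (1 - ‖x‖ ^ 2) ^ (m + 2)) *
      ‖1 - ⟪x, y⟫_ℂ‖ ^ (-((M : ℝ) + 1 / 4))) ∂μ := by
    refine setIntegral_mono_on (H0_intg μ (by omega) hGm hG (by positivity) hy1)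
      ((H0_intg μ hM hGm hG (by positivity) hy1).const_mul 2) measurableSet_ball fun x hx => ?_
    obtain ⟨hG0, hG1⟩ := hG x hx
    have hx1 : ‖x‖ < 1 := mem_ball_zero_iff.mp hx
    obtain ⟨hD, -, hD2⟩ := H0_lo hx1 hy1
    have h0 : 0 < 1 - ‖x‖ ^ 2 := by nlinarith [norm_nonneg x]
    generalize ‖1 - ⟪x, y⟫_ℂ‖ = D at *
    generalize 1 - ‖x‖ ^ 2 = a at *
    have e1 : D ^ (-((M : ℝ) + 1 / 4)) = D * D ^ (-(((M + 1 : ℕ) : ℝ) + 1 / 4)) := by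
      nth_rewrite 2 [← Real.rpow_one D]
      rw [← Real.rpow_add hD]
      congr 1
      push_cast
      ring
    have h3 : 0 ≤ D ^ (-(((M + 1 : ℕ) : ℝ) + 1 / 4)) := Real.rpow_nonneg hD.le _
    have h4 : 0 ≤ a ^ M * G x / a ^ (m + 2) := by positivity
    rw [e1]
    calc a ^ (M + 1) * G x / a ^ (m + 2) * D ^ (-(((M + 1 : ℕ) : ℝ) + 1 / 4))
        = a * (a ^ M * G x / a ^ (m + 2) * D ^ (-(((M + 1 : ℕ) : ℝ) + 1 / 4))) := by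
          rw [pow_succ]; ring
      _ ≤ (2 * D) * (a ^ M * G x / a ^ (m + 2) * D ^ (-(((M + 1 : ℕ) : ℝ) + 1 / 4))) :=
          mul_le_mul_of_nonneg_right hD2 (mul_nonneg h4 h3)
      _ = _ := by ring
  rw [integral_const_mul] at h1
  have hc : 0 ≤ (1 - ‖y‖ ^ 2) ^ (1 / 4 : ℝ) := Real.rpow_nonneg hb.le _
  have h2 := mul_le_mul_of_nonneg_left h1 hc
  linarith

theorem OmG_add (μ : Measure E) [μ.IsAddHaarMeasure] {m M : ℕ} (hM : m + 2 ≤ M) {G G' : E → ℝ}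
    (hGm : AEMeasurable G (μ.restrict (ball 0 1))) (hGm' : AEMeasurable G' (μ.restrict (ball 0 1)))
    {B : ℝ} (hG : ∀ x ∈ ball (0 : E) 1, 0 ≤ G x ∧ G x ≤ B)
    (hG' : ∀ x ∈ ball (0 : E) 1, 0 ≤ G' x ∧ G' x ≤ B) {y : E} (hy : y ∈ ball (0 : E) 1) :
    Om (nuG μ m M (fun x => G x + G' x)) M y = Om (nuG μ m M G) M y + Om (nuG μ m M G') M y := by
  have hy1 : ‖y‖ < 1 := mem_ball_zero_iff.mp hy
  unfold Om
  have hGs : AEMeasurable (fun x => G x + G' x) (μ.restrict (ball 0 1)) := hGm.add hGm'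
  rw [H0_rep μ hGs fun x hx => add_nonneg (hG x hx).1 (hG' x hx).1,
    H0_rep μ hGm fun x hx => (hG x hx).1, H0_rep μ hGm' fun x hx => (hG' x hx).1, ← mul_add,
    ← integral_add (H0_intg μ hM hGm hG (by positivity) hy1)
      (H0_intg μ hM hGm' hG' (by positivity) hy1)]
  congr 1
  refine setIntegral_congr_fun measurableSet_ball fun x _ => ?_
  ring

theorem OmG_mono (μ : Measure E) [μ.IsAddHaarMeasure] {m M : ℕ} (hM : m + 2 ≤ M) {G G' : E → ℝ}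
    {B : ℝ} (hG : ∀ x ∈ ball (0 : E) 1, 0 ≤ G x ∧ G x ≤ G' x ∧ G' x ≤ B) {y : E}
    (hy : y ∈ ball (0 : E) 1) :
    Om (nuG μ m M G) M y ≤ Om (nuG μ m M G') M y := by
  have hy1 : ‖y‖ < 1 := mem_ball_zero_iff.mp hy
  have hb : 0 < 1 - ‖y‖ ^ 2 := by nlinarith [norm_nonneg y]
  have hOn : OnB (nuG μ m M G') := nuG_OnB μ hM
    fun x hx => ⟨(hG x hx).1.trans (hG x hx).2.1, (hG x hx).2.2⟩
  unfold Om
  refine mul_le_mul_of_nonneg_left ?_ (Real.rpow_nonneg hb.le _)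
  unfold PP
  refine integral_mono_measure ?_ (ae_of_all _ fun x => Real.rpow_nonneg (norm_nonneg _) _)
    (H0_int hOn (by positivity) hy1)
  unfold nuG
  refine withDensity_mono ?_
  filter_upwards [ae_restrict_mem measurableSet_ball] with x hx
  obtain ⟨h0, h1, h2⟩ := hG x hx
  have hx1 : ‖x‖ < 1 := mem_ball_zero_iff.mp hx
  have ha : 0 < 1 - ‖x‖ ^ 2 := by nlinarith [norm_nonneg x]
  apply ENNReal.ofReal_le_ofReal
  gcongr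

theorem OmG_smul (μ : Measure E) [μ.IsAddHaarMeasure] {m M : ℕ} (hM : m + 2 ≤ M) {G : E → ℝ}
    (hGm : AEMeasurable G (μ.restrict (ball 0 1))) {B : ℝ}
    (hG : ∀ x ∈ ball (0 : E) 1, 0 ≤ G x ∧ G x ≤ B) {c : ℝ} (hc : 0 ≤ c) {y : E}
    (hy : y ∈ ball (0 : E) 1) :
    Om (nuG μ m M (fun x => c * G x)) M y = c * Om (nuG μ m M G) M y := by
  have hy1 : ‖y‖ < 1 := mem_ball_zero_iff.mp hy
  unfold Om
  rw [H0_rep μ (hGm.const_mul c) fun x hx => mul_nonneg hc (hG x hx).1,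
    H0_rep μ hGm fun x hx => (hG x hx).1]
  have h1 : ∫ x in ball (0 : E) 1, ((1 - ‖x‖ ^ 2) ^ M * (c * G x) / (1 - ‖x‖ ^ 2) ^ (m + 2)) *
      ‖1 - ⟪x, y⟫_ℂ‖ ^ (-((M : ℝ) + 1 / 4)) ∂μ =
      c * ∫ x in ball (0 : E) 1, ((1 - ‖x‖ ^ 2) ^ M * G x / (1 - ‖x‖ ^ 2) ^ (m + 2)) *
      ‖1 - ⟪x, y⟫_ℂ‖ ^ (-((M : ℝ) + 1 / 4)) ∂μ := by
    rw [← integral_const_mul]
    refine setIntegral_congr_fun measurableSet_ball fun x _ => ?_
    ring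
  rw [h1]
  ring

/-- Bounded densities. `((1 - ‖x‖²)/D) ≤ 2` and `PV.pv_ker` (PV/A2.lean) with `c = 1/4`. -/
theorem OmG_bdd (μ : Measure E) [μ.IsAddHaarMeasure] {m : ℕ} (hm : 1 ≤ m)
    (hdim : Module.finrank ℂ E = m + 1) : ∃ C : ℝ, 0 < C ∧ ∀ (G : E → ℝ) (B : ℝ),
      (∀ x ∈ ball (0 : E) 1, 0 ≤ G x ∧ G x ≤ B) → ∀ y ∈ ball (0 : E) 1,
        Om (nuG μ m (m + 3) G) (m + 3) y ≤ C * B := by
  obtain ⟨C1, hC1, hk1⟩ := pv_ker μ hm hdim (c := 1 / 4) (by norm_num) (by norm_num)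
  refine ⟨2 * C1, by positivity, ?_⟩
  intro G B hG y hyb
  have hB0 : 0 ≤ B := (hG 0 (mem_ball_self one_pos)).1.trans (hG 0 (mem_ball_self one_pos)).2
  refine (OmG_mono μ (by omega) (G' := fun _ => B) (B := B)
    (fun x hx => ⟨(hG x hx).1, (hG x hx).2, le_refl _⟩) hyb).trans ?_
  have hy : ‖y‖ < 1 := mem_ball_zero_iff.mp hyb
  have hb : 0 < 1 - ‖y‖ ^ 2 := by nlinarith [norm_nonneg y]
  have hcont : Continuous fun x : E => ‖1 - ⟪x, y⟫_ℂ‖ := by fun_prop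
  have hkr : ∀ p : ℝ, Measurable fun x : E => ‖1 - ⟪x, y⟫_ℂ‖ ^ p := fun p =>
    hcont.measurable.pow_const _
  have hkm : ∀ p : ℝ, Measurable fun x : E => ENNReal.ofReal (‖1 - ⟪x, y⟫_ℂ‖ ^ p) := fun p =>
    ENNReal.measurable_ofReal.comp (hkr p)
  have hgm : AEMeasurable (fun x : E => ENNReal.ofReal
      ((1 - ‖x‖ ^ 2) ^ (m + 3) * B / (1 - ‖x‖ ^ 2) ^ (m + 2))) (μ.restrict (ball 0 1)) := by
    apply AEMeasurable.ennreal_ofReal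
    have h5 : Measurable fun x : E => 1 - ‖x‖ ^ 2 := measurable_const.sub (measurable_norm.pow_const 2)
    exact ((h5.pow_const (m + 3)).aemeasurable.mul aemeasurable_const).div
      (h5.pow_const (m + 2)).aemeasurable
  have hle : ∫⁻ x, ENNReal.ofReal (‖1 - ⟪x, y⟫_ℂ‖ ^ (-(((m + 3 : ℕ) : ℝ) + 1 / 4)))
      ∂(nuG μ m (m + 3) (fun _ => B)) ≤
        ENNReal.ofReal (2 * B * (C1 * (1 - ‖y‖ ^ 2) ^ (-(1 / 4) : ℝ))) := by
    unfold nuG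
    rw [lintegral_withDensity_eq_lintegral_mul₀ hgm (hkm _).aemeasurable]
    have h1 : ∀ x ∈ ball (0 : E) 1, ((fun x : E => ENNReal.ofReal
        ((1 - ‖x‖ ^ 2) ^ (m + 3) * B / (1 - ‖x‖ ^ 2) ^ (m + 2))) *
        fun x : E => ENNReal.ofReal (‖1 - ⟪x, y⟫_ℂ‖ ^ (-(((m + 3 : ℕ) : ℝ) + 1 / 4)))) x ≤
        ENNReal.ofReal (2 * B) * ENNReal.ofReal (‖1 - ⟪x, y⟫_ℂ‖ ^ (-((m : ℝ) + 2 + 1 / 4))) := by
      intro x hx
      have hx1 : ‖x‖ < 1 := mem_ball_zero_iff.mp hx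
      obtain ⟨hD, -, hD2⟩ := H0_lo hx1 hy
      have ha : 0 < 1 - ‖x‖ ^ 2 := by nlinarith [norm_nonneg x]
      rw [Pi.mul_apply, ← ENNReal.ofReal_mul (by positivity), ← ENNReal.ofReal_mul (by positivity)]
      apply ENNReal.ofReal_le_ofReal
      generalize ‖1 - ⟪x, y⟫_ℂ‖ = D at *
      generalize 1 - ‖x‖ ^ 2 = a at *
      have e1 : D ^ (-((m : ℝ) + 2 + 1 / 4)) = D * D ^ (-(((m + 3 : ℕ) : ℝ) + 1 / 4)) := by
        nth_rewrite 2 [← Real.rpow_one D]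
        rw [← Real.rpow_add hD]
        congr 1
        push_cast
        ring
      have e2 : a ^ (m + 3) * B / a ^ (m + 2) = a * B := by
        rw [pow_succ a (m + 2)]
        field_simp
      have h3 : 0 ≤ D ^ (-(((m + 3 : ℕ) : ℝ) + 1 / 4)) := Real.rpow_nonneg hD.le _
      rw [e1, e2]
      calc a * B * D ^ (-(((m + 3 : ℕ) : ℝ) + 1 / 4))
          = a * (B * D ^ (-(((m + 3 : ℕ) : ℝ) + 1 / 4))) := by ring
        _ ≤ (2 * D) * (B * D ^ (-(((m + 3 : ℕ) : ℝ) + 1 / 4))) :=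
          mul_le_mul_of_nonneg_right hD2 (mul_nonneg hB0 h3)
        _ = _ := by ring
    calc _ ≤ ∫⁻ x in ball (0 : E) 1, ENNReal.ofReal (2 * B) *
          ENNReal.ofReal (‖1 - ⟪x, y⟫_ℂ‖ ^ (-((m : ℝ) + 2 + 1 / 4))) ∂μ :=
          setLIntegral_mono' measurableSet_ball h1
      _ = ENNReal.ofReal (2 * B) *
          ∫⁻ x in ball (0 : E) 1, ENNReal.ofReal (‖1 - ⟪x, y⟫_ℂ‖ ^ (-((m : ℝ) + 2 + 1 / 4))) ∂μ :=
          lintegral_const_mul _ (hkm _)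
      _ ≤ ENNReal.ofReal (2 * B) * ENNReal.ofReal (C1 * (1 - ‖y‖ ^ 2) ^ (-(1 / 4) : ℝ)) :=
          mul_le_mul_right (hk1 y hyb) _
      _ = _ := by rw [← ENNReal.ofReal_mul (by positivity)]
  have hPP : PP (nuG μ m (m + 3) (fun _ => B)) (((m + 3 : ℕ) : ℝ) + 1 / 4) y ≤
      2 * B * (C1 * (1 - ‖y‖ ^ 2) ^ (-(1 / 4) : ℝ)) := by
    unfold PP
    rw [integral_eq_lintegral_of_nonneg_ae (ae_of_all _ fun _ => Real.rpow_nonneg (norm_nonneg _) _)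
      (hkr _).aestronglyMeasurable]
    exact ENNReal.toReal_le_of_le_ofReal (by positivity) hle
  unfold Om
  calc (1 - ‖y‖ ^ 2) ^ (1 / 4 : ℝ) * PP (nuG μ m (m + 3) (fun _ => B)) (((m + 3 : ℕ) : ℝ) + 1 / 4) y
      ≤ (1 - ‖y‖ ^ 2) ^ (1 / 4 : ℝ) * (2 * B * (C1 * (1 - ‖y‖ ^ 2) ^ (-(1 / 4) : ℝ))) := by
        gcongr
    _ = 2 * C1 * B * ((1 - ‖y‖ ^ 2) ^ (1 / 4 : ℝ) * (1 - ‖y‖ ^ 2) ^ (-(1 / 4) : ℝ)) := by ring
    _ = 2 * C1 * B := by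
        rw [← Real.rpow_add hb]
        norm_num

/-- `OmG_Tc` (CE/F3.lean) and `Om_succ` -/
theorem OmG_Tc3 (μ : Measure E) [μ.IsAddHaarMeasure] {m : ℕ} (hm : 1 ≤ m)
    (hdim : Module.finrank ℂ E = m + 1) {s : ℝ} (hs : 0 < s) (hs1 : s ≤ 1 / 8) :
    ∃ C : ℝ, 0 < C ∧ ∀ ν : Measure E, Car ν → ∀ y ∈ ball (0 : E) 1,
      Om (nuG μ m (m + 3) (Tc s 2 ν)) (m + 3) y ≤ C * Tc s 1 ν y := by
  obtain ⟨C, hC, h⟩ := OmG_Tc μ hm hdim hs hs1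
  have hE := H0_unit hdim
  obtain ⟨B, hB, hTB⟩ := Tc_le (E := E) hE hs 2
  refine ⟨2 * C, by positivity, fun ν hν y hy => ?_⟩
  have h1 := Om_succ μ (m := m) (M := m + 2) le_rfl
    ((Tc_cont hE hν hs 2).aemeasurable measurableSet_ball) (B := B)
    (fun x hx => ⟨Tc_nonneg hν 2 hx, hTB ν hν x hx⟩) hy
  have h2 := h ν hν y hy
  have h3 : Om (nuG μ m (m + 3) (Tc s 2 ν)) (m + 3) y ≤
      2 * Om (nuG μ m (m + 2) (Tc s 2 ν)) (m + 2) y := h1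
  linarith

/-- as `OmG_low` (CE/F3.lean), for `M = m + 3` (see `PV.pv_low'`, PV/A4.lean) -/
theorem OmG_low3 (μ : Measure E) [μ.IsAddHaarMeasure] {m : ℕ} (hm : 1 ≤ m)
    (hdim : Module.finrank ℂ E = m + 1) {s : ℝ} (hs : 0 < s) (hs1 : s ≤ 1 / 8) :
    ∃ C : ℝ, 0 < C ∧ ∀ ν : Measure E, Car ν → ∀ y ∈ ball (0 : E) 1,
      Tc s 2 ν y ≤ C * Om (nuG μ m (m + 3) (Tc s 2 ν)) (m + 3) y := by
  have hprop : ProperSpace E := FiniteDimensional.proper ℂ E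
  have hE := H0_unit hdim
  obtain ⟨K, hK, hTK⟩ := H0_Tc (E := E) hE hs (by linarith)
  obtain ⟨B, hB, hTB⟩ := Tc_le (E := E) hE hs 2
  obtain ⟨M, hM⟩ : ∃ M : ℕ, M = m + 3 := ⟨_, rfl⟩
  rw [← hM]
  set V : ℝ := μ.real (ball (0 : E) (1 / 2)) with hV
  have hV0 : 0 < V :=
    ENNReal.toReal_pos (measure_ball_pos μ 0 (by norm_num)).ne' measure_ball_lt_top.ne
  have hVV : μ (ball (0 : E) (1 / 2)) = ENNReal.ofReal V := by
    rw [hV, ofReal_measureReal]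
  refine ⟨K * 2 ^ (M + 1) / V, by positivity, ?_⟩
  intro ν hν y hyb
  have hy : ‖y‖ < 1 := by rwa [mem_ball_zero_iff] at hyb
  have hG : ∀ x ∈ ball (0 : E) 1, 0 ≤ Tc s 2 ν x ∧ Tc s 2 ν x ≤ B := fun x hx =>
    ⟨Tc_nonneg hν 2 hx, hTB ν hν x hx⟩
  have hBn : OnB (nuG μ m M (Tc s 2 ν)) := nuG_OnB μ (by omega) hG
  have ha : 0 < 1 - ‖y‖ ^ 2 := by nlinarith [norm_nonneg y]
  obtain ⟨T, hT⟩ : ∃ T, T = Tc s 2 ν y := ⟨_, rfl⟩
  have hT0 : 0 ≤ T := by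
    rw [hT]
    exact Tc_nonneg hν 2 hyb
  obtain ⟨Q, hQ⟩ : ∃ Q, Q = PP (nuG μ m M (Tc s 2 ν)) ((M : ℝ) + 1 / 4) y := ⟨_, rfl⟩
  have hQ0 : 0 ≤ Q := by
    rw [hQ]
    exact integral_nonneg fun x => Real.rpow_nonneg (norm_nonneg _) _
  obtain ⟨c, hc⟩ : ∃ c : ℝ, c = (1 / 2) ^ (M + 1) * (1 - ‖y‖ ^ 2) ^ (-(1 / 4) : ℝ) := ⟨_, rfl⟩
  have hc0 : 0 < c := by
    rw [hc]
    have := Real.rpow_pos_of_pos ha (-(1 / 4) : ℝ)
    positivity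
  have hdm : AEMeasurable (fun x : E => ENNReal.ofReal ((1 - ‖x‖ ^ 2) ^ M * Tc s 2 ν x /
      (1 - ‖x‖ ^ 2) ^ (m + 2))) (μ.restrict (ball 0 1)) := by
    apply AEMeasurable.ennreal_ofReal
    have h5 : Measurable fun x : E => 1 - ‖x‖ ^ 2 := measurable_const.sub (measurable_norm.pow_const 2)
    exact ((h5.pow_const M).aemeasurable.mul
      ((Tc_cont hE hν hs 2).aemeasurable measurableSet_ball)).div
      (h5.pow_const (m + 2)).aemeasurable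
  have hkm : Measurable fun x : E => ENNReal.ofReal (‖1 - ⟪x, y⟫_ℂ‖ ^ (-((M : ℝ) + 1 / 4))) := by
    have hcont : Continuous fun x : E => ‖1 - ⟪x, y⟫_ℂ‖ := by fun_prop
    exact ENNReal.measurable_ofReal.comp (hcont.measurable.pow_const _)
  have h2 : ENNReal.ofReal Q = ∫⁻ x in ball (0 : E) 1,
      ENNReal.ofReal (((1 - ‖y‖ ^ 2) / ‖1 + ⟪y, x⟫_ℂ‖ ^ 2) ^ (m + 2)) *
        (ENNReal.ofReal ((1 - ‖gg y x‖ ^ 2) ^ M * Tc s 2 ν (gg y x) /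
          (1 - ‖gg y x‖ ^ 2) ^ (m + 2)) *
          ENNReal.ofReal (‖1 - ⟪gg y x, y⟫_ℂ‖ ^ (-((M : ℝ) + 1 / 4)))) ∂μ := by
    rw [hQ, PP, ofReal_integral_eq_lintegral_ofReal (H0_int hBn (by positivity) hy)
      (ae_of_all _ fun _ => Real.rpow_nonneg (norm_nonneg _) _), nuG,
      lintegral_withDensity_eq_lintegral_mul₀ hdm hkm.aemeasurable, lintegral_gg μ hdim hy]
    rfl
  have h3 : ENNReal.ofReal (c * (T / K)) * ENNReal.ofReal V ≤ ENNReal.ofReal Q := by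
    rw [h2, ← hVV, ← setLIntegral_const]
    refine le_trans ?_ (lintegral_mono_set (ball_subset_ball (by norm_num : (1 : ℝ) / 2 ≤ 1)))
    apply setLIntegral_mono' measurableSet_ball
    intro x hx
    rw [mem_ball_zero_iff] at hx
    have hx1 : ‖x‖ < 1 := by linarith
    have hgx := gg_lt hy hx1
    have hw : 0 < 1 - ‖gg y x‖ ^ 2 := by nlinarith [norm_nonneg (gg y x)]
    have hS0 : 0 ≤ Tc s 2 ν (gg y x) := Tc_nonneg hν 2 (by rwa [mem_ball_zero_iff])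
    have hTT := hTK ν hν y x hy hx
    rw [← hT] at hTT
    have hpos3 : 0 < ‖1 + ⟪y, x⟫_ℂ‖ := norm_pos_iff.mpr (one_add_ne hy hx1.le)
    have hk := H0_pt hy hx M
    rw [← hc] at hk
    have hk0 : 0 ≤ ‖1 - ⟪gg y x, y⟫_ℂ‖ ^ (-((M : ℝ) + 1 / 4)) := Real.rpow_nonneg (norm_nonneg _) _
    have hng := norm_gg hy hx1.le
    have hbx : 0 < 1 - ‖x‖ ^ 2 := by nlinarith [norm_nonneg x]
    have hbx1 : 1 - ‖x‖ ^ 2 ≤ 1 := by nlinarith [norm_nonneg x]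
    rw [← ENNReal.ofReal_mul (by positivity), ← ENNReal.ofReal_mul (by positivity)]
    apply ENNReal.ofReal_le_ofReal
    generalize ‖1 - ⟪gg y x, y⟫_ℂ‖ ^ (-((M : ℝ) + 1 / 4)) = κ at *
    generalize Tc s 2 ν (gg y x) = S at *
    generalize 1 - ‖gg y x‖ ^ 2 = w at *
    generalize ‖1 + ⟪y, x⟫_ℂ‖ = D at *
    generalize 1 - ‖x‖ ^ 2 = β at *
    generalize 1 - ‖y‖ ^ 2 = a at *
    have e1 : (a / D ^ 2) ^ (m + 2) * (w ^ M * S / w ^ (m + 2) * κ) =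
        (κ * w ^ M) * S / β ^ (m + 2) := by
      have e2 : (a / D ^ 2) ^ (m + 2) = w ^ (m + 2) / β ^ (m + 2) := by
        rw [← div_pow, hng]
        congr 1
        field_simp
      rw [e2]
      field_simp
    rw [e1, le_div_iff₀ (by positivity)]
    have e3 : β ^ (m + 2) ≤ 1 := pow_le_one₀ hbx.le hbx1
    have e4 : T / K ≤ S := by
      rw [div_le_iff₀ hK]
      linarith
    have e5 : 0 ≤ T / K := by positivity
    calc c * (T / K) * β ^ (m + 2) ≤ c * (T / K) * 1 := by gcongr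
      _ = c * (T / K) := mul_one _
      _ ≤ κ * w ^ M * S := by gcongr
  rw [← ENNReal.ofReal_mul (by positivity), ENNReal.ofReal_le_ofReal_iff hQ0] at h3
  unfold Om
  rw [← hT, ← hQ]
  have h7 : (1 - ‖y‖ ^ 2) ^ (1 / 4 : ℝ) = ((1 / 2) ^ (M + 1)) / c := by
    rw [hc, Real.rpow_neg ha.le]
    have := Real.rpow_pos_of_pos ha (1 / 4 : ℝ)
    field_simp
  rw [h7]
  have h8 : K * 2 ^ (M + 1) / V * ((1 / 2) ^ (M + 1) / c * Q) = K * Q / (c * V) := by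
    have h9 : (2 : ℝ) ^ (M + 1) * (1 / 2) ^ (M + 1) = 1 := by
      rw [← mul_pow]; norm_num
    calc _ = K * Q * ((2 : ℝ) ^ (M + 1) * (1 / 2) ^ (M + 1)) / (c * V) := by
          field_simp
      _ = _ := by rw [h9, mul_one]
  rw [h8, le_div_iff₀ (by positivity)]
  have h10 : T / K * K = T := div_mul_cancel₀ T hK.ne'
  calc T * (c * V) = (T / K * K) * (c * V) := by rw [h10]
    _ = c * (T / K) * V * K := by ring
    _ ≤ Q * K := by gcongr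
    _ = K * Q := mul_comm _ _


end Pool.Agent.MPca0fc2.CE
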