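import Mathlib
import Pool.Agent.Lib.MP_ca0fc2_an.CE.C1
import Pool.Agent.Lib.MP_ca0fc2_an.CE.C3
import Pool.Agent.Lib.MP_ca0fc2_an.CE.B1
import Pool.Agent.Lib.MP_ca0fc2_an.PV.M8
import Pool.Agent.Lib.MP_ca0fc2_an.PV.A3
import Pool.Agent.Lib.MP_ca0fc2_an.PV.T1

set_option autoImplicit false
set_option linter.unusedSectionVars false

open Metric Set MeasureTheory Filter Topology
open scoped InnerProductSpace ENNReal ContDiff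

namespace Pool.Agent.MPca0fc2.CE

open Pool.Agent.MPca0fc2.PT
open Pool.Agent.MPca0fc2.QT
open Pool.Agent.MPca0fc2.TS
open Pool.Agent.MPca0fc2.TE
open Pool.Agent.MPca0fc2.TK
open Pool.Agent.MPca0fc2.VK
open Pool.Agent.MPca0fc2.PV

variable {E : Type*} [NormedAddCommGroup E] [InnerProductSpace ℂ E] [FiniteDimensional ℂ E]
  [MeasurableSpace E] [BorelSpace E]

omit [FiniteDimensional ℂ E] [MeasurableSpace E] [BorelSpace E] in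
private theorem H1_dist {x y : E} (hx : ‖x‖ < 1) (hy : ‖y‖ < 1) :
    0 < 1 - ‖x‖ ^ 2 ∧ 0 < 1 - ‖y‖ ^ 2 ∧ 1 - ‖x‖ ^ 2 ≤ 2 * ‖1 - ⟪x, y⟫_ℂ‖ ∧
      1 - ‖y‖ ^ 2 ≤ 2 * ‖1 - ⟪x, y⟫_ℂ‖ := by
  have h1 : ‖(1 : ℂ)‖ - ‖⟪x, y⟫_ℂ‖ ≤ ‖1 - ⟪x, y⟫_ℂ‖ := norm_sub_norm_le _ _
  have h2 : ‖⟪x, y⟫_ℂ‖ ≤ ‖x‖ * ‖y‖ := norm_inner_le_norm x y
  rw [norm_one] at h1
  have h3 := norm_nonneg x
  have h4 := norm_nonneg y
  refine ⟨by nlinarith, by nlinarith, ?_, ?_⟩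
  · nlinarith [sq_nonneg (‖x‖ - ‖y‖)]
  · nlinarith [sq_nonneg (‖x‖ - ‖y‖)]

private theorem H1_pow1 {U s : ℝ} (hU : 1 / 2 ≤ U) (hs : 0 < s) (hs1 : s ≤ 1 / 8) :
    U ^ s ≤ 2 * U := by
  rcases le_total 1 U with h | h
  · calc U ^ s ≤ U ^ (1 : ℝ) := Real.rpow_le_rpow_of_exponent_le h (by linarith)
      _ = U := Real.rpow_one U
      _ ≤ 2 * U := by linarith
  · have h1 : U ^ s ≤ 1 := Real.rpow_le_one (by linarith) h hs.le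
    linarith

private theorem H1_pow2 {W s : ℝ} (hW : 1 / 2 ≤ W) (hs : 0 < s) (hs1 : s ≤ 1 / 8) :
    W ^ s ≤ 2 * W ^ (1 / 8 : ℝ) := by
  rcases le_total 1 W with h | h
  · have h1 : W ^ s ≤ W ^ (1 / 8 : ℝ) := Real.rpow_le_rpow_of_exponent_le h hs1
    have h2 : 0 ≤ W ^ (1 / 8 : ℝ) := by positivity
    linarith
  · have h1 : W ^ s ≤ 1 := Real.rpow_le_one (by linarith) h hs.le
    have h2 : W ≤ W ^ (1 / 8 : ℝ) := by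
      calc W = W ^ (1 : ℝ) := (Real.rpow_one W).symm
        _ ≤ W ^ (1 / 8 : ℝ) := Real.rpow_le_rpow_of_exponent_ge (by linarith) h (by norm_num)
    linarith

/-- `U ^ j ≤ 2 ^ n * U ^ n` for `j ≤ n` and `U ≥ 1/2` -/
private theorem H1_powJ {U : ℝ} (hU : 1 / 2 ≤ U) {j n : ℕ} (h : j ≤ n) :
    U ^ j ≤ 2 ^ n * U ^ n := by
  have h1 : (1 : ℝ) ≤ 2 * U := by linarith
  have h2 : (0 : ℝ) < U := by linarith
  have h3 : (1 : ℝ) ≤ 2 ^ j := one_le_pow₀ (by norm_num)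
  calc U ^ j ≤ 2 ^ j * U ^ j := le_mul_of_one_le_left (pow_nonneg h2.le j) h3
    _ = (2 * U) ^ j := (mul_pow _ _ _).symm
    _ ≤ (2 * U) ^ n := pow_le_pow_right₀ h1 h
    _ = 2 ^ n * U ^ n := mul_pow _ _ _

private theorem H1_real {a X Y A B d δ : ℝ} (ha : 0 ≤ a) (ha1 : a ≤ 1) (hY : 0 ≤ Y) (hY1 : Y ≤ 1)
    (hδ : 0 < δ) (hδ1 : δ ≤ 1) (hA : δ ≤ A) (hB : δ ≤ B) (hA2 : A ≤ 2) (hB2 : B ≤ 2)
    (hd : 0 ≤ d) (hAB : B ≤ A + d) (hXY : X ≤ Y + 2 * d) :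
    a * X / A ^ 2 ≤ a * Y / B ^ 2 + 6 / δ ^ 4 * d := by
  have hA0 : 0 < A := by linarith
  have hB0 : 0 < B := by linarith
  have h1 : a * X / A ^ 2 ≤ a * Y / A ^ 2 + 2 * d / δ ^ 2 := by
    have e1 : a * X / A ^ 2 ≤ a * (Y + 2 * d) / A ^ 2 := by gcongr
    have e2 : a * (Y + 2 * d) / A ^ 2 = a * Y / A ^ 2 + a * (2 * d) / A ^ 2 := by ring
    have e3 : a * (2 * d) / A ^ 2 ≤ 2 * d / δ ^ 2 := by
      apply div_le_div₀ (by positivity) ?_ (by positivity) (by gcongr)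
      nlinarith
    linarith
  have h2 : a * Y / A ^ 2 ≤ a * Y / B ^ 2 + 4 * d / δ ^ 4 := by
    have e1 : a * Y / A ^ 2 - a * Y / B ^ 2 = (a * Y) * ((B - A) * (B + A)) / (A ^ 2 * B ^ 2) := by
      field_simp
      ring
    have e2 : (a * Y) * ((B - A) * (B + A)) / (A ^ 2 * B ^ 2) ≤ 4 * d / δ ^ 4 := by
      have e3 : δ ^ 4 ≤ A ^ 2 * B ^ 2 := by
        calc δ ^ 4 = δ ^ 2 * δ ^ 2 := by ring
          _ ≤ A ^ 2 * B ^ 2 := by gcongr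
      apply div_le_div₀ (by positivity) ?_ (by positivity) e3
      have e4 : (B - A) * (B + A) ≤ 4 * d := by nlinarith
      have e5 : a * Y ≤ 1 := by nlinarith
      have e6 : 0 ≤ a * Y := by positivity
      nlinarith
    linarith
  have h3 : 2 * d / δ ^ 2 ≤ 2 * d / δ ^ 4 := by
    apply div_le_div_of_nonneg_left (by positivity) (by positivity)
    exact pow_le_pow_of_le_one hδ.le hδ1 (by norm_num)
  have h4 : 6 / δ ^ 4 * d = 2 * d / δ ^ 4 + 4 * d / δ ^ 4 := by ring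
  linarith

omit [FiniteDimensional ℂ E] [MeasurableSpace E] [BorelSpace E] in
private theorem H1_hh {b x y : E} {r : ℝ} (hb : ‖b‖ < 1) (hr0 : 0 ≤ r) (hr : r < 1) (hx : ‖x‖ ≤ r)
    (hy : ‖y‖ ≤ r) : HH b x ≤ HH b y + 6 / (1 - r) ^ 4 * ‖x - y‖ := by
  have hb0 := norm_nonneg b
  have hx0 := norm_nonneg x
  have hy0 := norm_nonneg y
  have hin : ∀ z : E, ‖z‖ ≤ r → 1 - r ≤ ‖1 - ⟪b, z⟫_ℂ‖ ∧ ‖1 - ⟪b, z⟫_ℂ‖ ≤ 2 := by
    intro z hz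
    have h1 : ‖(1 : ℂ)‖ - ‖⟪b, z⟫_ℂ‖ ≤ ‖1 - ⟪b, z⟫_ℂ‖ := norm_sub_norm_le _ _
    have h2 : ‖⟪b, z⟫_ℂ‖ ≤ ‖b‖ * ‖z‖ := norm_inner_le_norm b z
    have h3 : ‖1 - ⟪b, z⟫_ℂ‖ ≤ ‖(1 : ℂ)‖ + ‖⟪b, z⟫_ℂ‖ := norm_sub_le _ _
    rw [norm_one] at h1 h3
    have h4 := norm_nonneg z
    constructor <;> nlinarith
  obtain ⟨hA, hA2⟩ := hin x hx
  obtain ⟨hB, hB2⟩ := hin y hy
  have hAB : ‖1 - ⟪b, y⟫_ℂ‖ ≤ ‖1 - ⟪b, x⟫_ℂ‖ + ‖x - y‖ := by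
    have e1 : 1 - ⟪b, y⟫_ℂ = (1 - ⟪b, x⟫_ℂ) + ⟪b, x - y⟫_ℂ := by rw [inner_sub_right]; ring
    have e2 : ‖⟪b, x - y⟫_ℂ‖ ≤ ‖b‖ * ‖x - y‖ := norm_inner_le_norm b (x - y)
    have e3 := norm_add_le (1 - ⟪b, x⟫_ℂ) (⟪b, x - y⟫_ℂ)
    rw [← e1] at e3
    have e4 := norm_nonneg (x - y)
    nlinarith
  have hXY : 1 - ‖x‖ ^ 2 ≤ 1 - ‖y‖ ^ 2 + 2 * ‖x - y‖ := by
    have e1 : ‖y‖ - ‖x‖ ≤ ‖x - y‖ := by
      rw [← norm_neg (x - y), neg_sub]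
      exact norm_sub_norm_le _ _
    have e4 := norm_nonneg (x - y)
    nlinarith
  unfold HH
  exact H1_real (by nlinarith) (by nlinarith) (by nlinarith) (by nlinarith) (by linarith)
    (by linarith) hA hB hA2 hB2 (norm_nonneg _) hAB hXY


omit [MeasurableSpace E] [BorelSpace E] in
/-- Proof. For `‖x‖, ‖y‖ ≤ r < 1` and `‖b‖ < 1`: `|HH b x - HH b y| ≤ C_r ‖x - y‖` with a constant which does not depend on `b` (`‖1 - ⟪b, x⟫‖ ≥ 1 - r`), so the suprema differ by at most this. -/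
theorem HS_cont {S : Set E} (hS : (S ∩ ball 0 1).Nonempty) : ContinuousOn (HS S) (ball 0 1) := by
  intro z₀ hz₀
  have hz₀' : ‖z₀‖ < 1 := mem_ball_zero_iff.1 hz₀
  have hz0 := norm_nonneg z₀
  set r : ℝ := (1 + ‖z₀‖) / 2 with hr
  have hr0 : 0 ≤ r := by rw [hr]; linarith
  have hr1 : r < 1 := by rw [hr]; linarith
  have hr2 : ‖z₀‖ < r := by rw [hr]; linarith
  have hk : 0 ≤ 6 / (1 - r) ^ 4 := by
    have : 0 < 1 - r := by linarith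
    positivity
  have hL : LipschitzOnWith (⟨6 / (1 - r) ^ 4, hk⟩ : NNReal) (HS S) (ball 0 r) := by
    refine LipschitzOnWith.of_le_add_mul _ fun x hx y hy => ?_
    have hx' : ‖x‖ < r := mem_ball_zero_iff.1 hx
    have hy' : ‖y‖ < r := mem_ball_zero_iff.1 hy
    refine HS_le hS fun b hb hb1 => ?_
    rw [dist_eq_norm]
    calc HH b x ≤ HH b y + 6 / (1 - r) ^ 4 * ‖x - y‖ := H1_hh hb1 hr0 hr1 hx'.le hy'.le
      _ ≤ HS S y + 6 / (1 - r) ^ 4 * ‖x - y‖ := by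
        gcongr
        exact HS_ge (by linarith) hb hb1
  exact (hL.continuousOn.continuousAt
    (isOpen_ball.mem_nhds (mem_ball_zero_iff.2 hr2))).continuousWithinAt

/-- the functions `ρ` which are comparable as the depths are -/
def Cm2 {E : Type*} [NormedAddCommGroup E] [InnerProductSpace ℂ E] (ρ : E → ℝ) : Prop :=
  ∀ x y : E, ‖x‖ < 1 → ‖y‖ < 1 → 0 < ρ x ∧
    ρ x ≤ 64 * (‖1 - ⟪x, y⟫_ℂ‖ / (1 - ‖x‖ ^ 2)) * (‖1 - ⟪x, y⟫_ℂ‖ / (1 - ‖y‖ ^ 2)) * ρ y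

omit [FiniteDimensional ℂ E] [MeasurableSpace E] [BorelSpace E] in
/-- `HS_mul`, `HS_pos` (PV/M8.lean) -/
theorem Cm2_HS {S : Set E} (hS : (S ∩ ball 0 1).Nonempty) : Cm2 (HS S) := by
  intro x y hx hy
  refine ⟨(HS_pos hS hx).1, ?_⟩
  obtain ⟨hX, hY, hDX, hDY⟩ := H1_dist hx hy
  have hD : 0 < ‖1 - ⟪x, y⟫_ℂ‖ := by linarith
  have h1 := HS_mul hS hx hy
  have h2 := (HS_pos hS hy).1
  unfold HH at h1
  rw [mul_div_assoc', div_le_iff₀ (by positivity)] at h1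
  have h3 : HS S x ≤ 4 * HS S y * ‖1 - ⟪x, y⟫_ℂ‖ ^ 2 / ((1 - ‖x‖ ^ 2) * (1 - ‖y‖ ^ 2)) := by
    rw [le_div_iff₀ (by positivity)]
    exact h1
  have h4 : 4 * HS S y * ‖1 - ⟪x, y⟫_ℂ‖ ^ 2 / ((1 - ‖x‖ ^ 2) * (1 - ‖y‖ ^ 2)) =
      4 * (‖1 - ⟪x, y⟫_ℂ‖ / (1 - ‖x‖ ^ 2)) * (‖1 - ⟪x, y⟫_ℂ‖ / (1 - ‖y‖ ^ 2)) * HS S y := by
    field_simp
  rw [h4] at h3
  refine h3.trans ?_
  gcongr
  norm_num

omit [FiniteDimensional ℂ E] [MeasurableSpace E] [BorelSpace E] in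
/-- `ro_cmp`, `ro_pos` (used in `ro_Cmp`, PV/A3.lean); `‖1 - ⟪x, y⟫‖/(1 - ‖x‖²) ≥ 1/2` -/
theorem Cm2_ro {P : E →L[ℂ] E} (h : Prj P) : Cm2 (ro P) := by
  intro x y hx hy
  refine ⟨(ro_pos h hx).1, ?_⟩
  obtain ⟨hX, hY, hDX, hDY⟩ := H1_dist hx hy
  have hD : 0 < ‖1 - ⟪x, y⟫_ℂ‖ := by linarith
  have h1 := (ro_cmp h hx hy).1
  have h2 := (ro_pos h hy).1
  rw [div_le_iff₀ h2] at h1
  refine h1.trans ?_
  have h3 : 1 ≤ 2 * (‖1 - ⟪x, y⟫_ℂ‖ / (1 - ‖x‖ ^ 2)) := by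
    rw [← mul_div_assoc, le_div_iff₀ hX]
    linarith
  have h4 : 0 < ‖1 - ⟪x, y⟫_ℂ‖ / (1 - ‖y‖ ^ 2) := div_pos hD hY
  have h5 : 0 ≤ 32 * (‖1 - ⟪x, y⟫_ℂ‖ / (1 - ‖y‖ ^ 2)) * ro P y := by positivity
  calc 32 * (‖1 - ⟪x, y⟫_ℂ‖ / (1 - ‖y‖ ^ 2)) * ro P y
      ≤ (2 * (‖1 - ⟪x, y⟫_ℂ‖ / (1 - ‖x‖ ^ 2))) *
        (32 * (‖1 - ⟪x, y⟫_ℂ‖ / (1 - ‖y‖ ^ 2)) * ro P y) := le_mul_of_one_le_left h5 h3
    _ = 64 * (‖1 - ⟪x, y⟫_ℂ‖ / (1 - ‖x‖ ^ 2)) * (‖1 - ⟪x, y⟫_ℂ‖ / (1 - ‖y‖ ^ 2)) * ro P y := by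
      ring

omit [MeasurableSpace E] [BorelSpace E] in
/-- `Th_cmp`, `Th_cont` (PV/T1.lean); `x^(1/32) ≤ 2 x^(1/8)`, `x^(1/32) ≤ 2 x` for `x ≥ 1/2` -/
theorem VW_Th {ρ : E → ℝ} (hρ : Cm2 ρ) (hc : ContinuousOn ρ (ball 0 1)) {W : ℕ → ℝ}
    (hW0 : ∀ i, 0 ≤ W i) (hW : Summable W) (hW1 : 0 < W 0) :
    ∃ C : ℝ, 0 < C ∧ VW 1 C (fun z => Th W (ρ z)) := by
  refine ⟨8 * (64 : ℝ) ^ (1 / 32 : ℝ), by positivity, ?_, ?_, ?_⟩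
  · exact (Th_cont hW0 hW).comp hc fun z hz =>
      (hρ z z (mem_ball_zero_iff.1 hz) (mem_ball_zero_iff.1 hz)).1
  · intro z hz
    have hz' := mem_ball_zero_iff.1 hz
    have h1 := (hρ z z hz' hz').1
    have h2 : W 0 * qq (2 ^ 0 * ρ z) ≤ Th W (ρ z) :=
      (Th_sum hW0 hW h1).le_tsum 0 fun i _ => mul_nonneg (hW0 i) (qq_pos (by positivity)).1.le
    exact lt_of_lt_of_le (mul_pos hW1 (qq_pos (by positivity)).1) h2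
  · intro x hx y hy
    have hx' := mem_ball_zero_iff.1 hx
    have hy' := mem_ball_zero_iff.1 hy
    obtain ⟨hρx, hxy⟩ := hρ x y hx' hy'
    obtain ⟨hρy, hyx⟩ := hρ y x hy' hx'
    have hsym : ‖1 - ⟪y, x⟫_ℂ‖ = ‖1 - ⟪x, y⟫_ℂ‖ := by
      rw [← inner_conj_symm x y, ← Complex.norm_conj]
      simp
    rw [hsym] at hyx
    obtain ⟨hX, hY, hDX, hDY⟩ := H1_dist hx' hy'
    have hT := Th_cmp hW0 hW hρx hρy
    have hTy := Th_nonneg hW0 hρy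
    set D : ℝ := ‖1 - ⟪x, y⟫_ℂ‖ with hDdef
    have hD0 : 0 < D := by linarith
    set U : ℝ := D / (1 - ‖x‖ ^ 2) with hUdef
    set V : ℝ := D / (1 - ‖y‖ ^ 2) with hVdef
    have hU0 : 0 < U := div_pos hD0 hX
    have hV0 : 0 < V := div_pos hD0 hY
    have hU : 1 / 2 ≤ U := by
      rw [hUdef, le_div_iff₀ hX]; linarith
    have hV : 1 / 2 ≤ V := by
      rw [hVdef, le_div_iff₀ hY]; linarith
    have h1 : ρ x / ρ y ≤ 64 * (U * V) := by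
      rw [div_le_iff₀ hρy]
      calc ρ x ≤ 64 * U * V * ρ y := hxy
        _ = 64 * (U * V) * ρ y := by ring
    have h2 : ρ y / ρ x ≤ 64 * (U * V) := by
      rw [div_le_iff₀ hρx]
      calc ρ y ≤ 64 * V * U * ρ x := hyx
        _ = 64 * (U * V) * ρ x := by ring
    have h3 : (64 * (U * V)) ^ (1 / 32 : ℝ) ≤ 4 * (64 : ℝ) ^ (1 / 32 : ℝ) *
        (U * V ^ (1 / 8 : ℝ)) := by
      rw [Real.mul_rpow (by norm_num) (by positivity), Real.mul_rpow hU0.le hV0.le]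
      have h4 := H1_pow1 hU (s := 1 / 32) (by norm_num) (by norm_num)
      have h5 := H1_pow2 hV (s := 1 / 32) (by norm_num) (by norm_num)
      calc (64 : ℝ) ^ (1 / 32 : ℝ) * (U ^ (1 / 32 : ℝ) * V ^ (1 / 32 : ℝ))
          ≤ (64 : ℝ) ^ (1 / 32 : ℝ) * ((2 * U) * (2 * V ^ (1 / 8 : ℝ))) := by gcongr
        _ = _ := by ring
    have h6 : (ρ x / ρ y) ^ (1 / 32 : ℝ) + (ρ y / ρ x) ^ (1 / 32 : ℝ) ≤
        8 * (64 : ℝ) ^ (1 / 32 : ℝ) * (U * V ^ (1 / 8 : ℝ)) := by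
      have h7 : (ρ x / ρ y) ^ (1 / 32 : ℝ) ≤ (64 * (U * V)) ^ (1 / 32 : ℝ) :=
        Real.rpow_le_rpow (by positivity) h1 (by norm_num)
      have h8 : (ρ y / ρ x) ^ (1 / 32 : ℝ) ≤ (64 * (U * V)) ^ (1 / 32 : ℝ) :=
        Real.rpow_le_rpow (by positivity) h2 (by norm_num)
      linarith
    calc Th W (ρ x) ≤ ((ρ x / ρ y) ^ (1 / 32 : ℝ) + (ρ y / ρ x) ^ (1 / 32 : ℝ)) * Th W (ρ y) := hT
      _ ≤ (8 * (64 : ℝ) ^ (1 / 32 : ℝ) * (U * V ^ (1 / 8 : ℝ))) * Th W (ρ y) := by gcongr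
      _ = 8 * (64 : ℝ) ^ (1 / 32 : ℝ) * Th W (ρ y) * (U ^ 1 * V ^ (1 / 8 : ℝ)) := by
        rw [pow_one]; ring

omit [FiniteDimensional ℂ E] [MeasurableSpace E] [BorelSpace E] in
private theorem H1_Cpos {J : ℕ} {C : ℝ} {Q : E → ℝ} (h : VW J C Q) : 0 < C := by
  have h0 : (0 : E) ∈ ball (0 : E) 1 := mem_ball_self (by norm_num)
  have h1 := h.osc 0 h0 0 h0
  have h2 := h.pos 0 h0
  have h3 : (‖1 - ⟪(0 : E), 0⟫_ℂ‖ / (1 - ‖(0 : E)‖ ^ 2)) ^ J *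
      (‖1 - ⟪(0 : E), 0⟫_ℂ‖ / (1 - ‖(0 : E)‖ ^ 2)) ^ (1 / 8 : ℝ) = 1 := by
    simp
  rw [h3, mul_one] at h1
  by_contra hn
  nlinarith

omit [FiniteDimensional ℂ E] [MeasurableSpace E] [BorelSpace E] in
private theorem H1_smul {J : ℕ} {C : ℝ} {Q : E → ℝ} (h : VW J C Q) {Λ : ℝ} (hΛ : 0 < Λ) :
    VW J C fun z => Λ * Q z := by
  refine ⟨continuousOn_const.mul h.cont, fun z hz => mul_pos hΛ (h.pos z hz),
    fun x hx y hy => ?_⟩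
  have h1 := mul_le_mul_of_nonneg_left (h.osc x hx y hy) hΛ.le
  refine h1.trans (le_of_eq ?_)
  ring

omit [FiniteDimensional ℂ E] [MeasurableSpace E] [BorelSpace E] in
theorem VW_add {J J' : ℕ} {C C' : ℝ} {Q Q' : E → ℝ} (h : VW J C Q) (h' : VW J' C' Q') :
    ∃ C'' : ℝ, 0 < C'' ∧ VW (max J J') C'' (fun z => Q z + Q' z) := by
  have hC : 0 < C := H1_Cpos h
  have hC' : 0 < C' := H1_Cpos h'
  refine ⟨2 ^ max J J' * (C + C'), by positivity, h.cont.add h'.cont,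
    fun z hz => add_pos (h.pos z hz) (h'.pos z hz), fun x hx y hy => ?_⟩
  have h1 := h.osc x hx y hy
  have h2 := h'.osc x hx y hy
  have hQ := h.pos y hy
  have hQ' := h'.pos y hy
  obtain ⟨hX, hY, hDX, hDY⟩ := H1_dist (mem_ball_zero_iff.1 hx) (mem_ball_zero_iff.1 hy)
  set D : ℝ := ‖1 - ⟪x, y⟫_ℂ‖ with hDdef
  have hD0 : 0 < D := by linarith
  set U : ℝ := D / (1 - ‖x‖ ^ 2) with hUdef
  have hU0 : 0 < U := div_pos hD0 hX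
  have hU : 1 / 2 ≤ U := by
    rw [hUdef, le_div_iff₀ hX]; linarith
  set V : ℝ := (D / (1 - ‖y‖ ^ 2)) ^ (1 / 8 : ℝ) with hVdef
  have hV0 : 0 < V := Real.rpow_pos_of_pos (div_pos hD0 hY) _
  have h3 := H1_powJ hU (le_max_left J J')
  have h4 := H1_powJ hU (le_max_right J J')
  set M : ℝ := 2 ^ max J J' with hM
  set P : ℝ := U ^ max J J' with hP
  have hM0 : 0 < M := by positivity
  have hP0 : 0 < P := by positivity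
  calc Q x + Q' x ≤ C * Q y * (U ^ J * V) + C' * Q' y * (U ^ J' * V) := add_le_add h1 h2
    _ ≤ C * Q y * ((M * P) * V) + C' * Q' y * ((M * P) * V) := by gcongr
    _ ≤ C * Q y * ((M * P) * V) + C' * Q' y * ((M * P) * V) +
        (C * Q' y * ((M * P) * V) + C' * Q y * ((M * P) * V)) :=
      le_add_of_nonneg_right (by positivity)
    _ = M * (C + C') * (Q y + Q' y) * (P * V) := by ring

/-- `fc_exp`, `fc_holo` -/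
theorem VW_exp (hE : ∃ ζ : E, ‖ζ‖ = 1) {J : ℕ} {C : ℝ} {Q : E → ℝ} (h : VW J C Q)
    {ν : Measure E} (hν : Car ν) :
    ∃ (J' : ℕ) (C' : ℝ), 0 < C' ∧ VW J' C' (fun z => Q z * Real.exp (Fc ν z).re) := by
  obtain ⟨J2, C2, hC2, h2⟩ := fc_exp (E := E) hE
  have hC : 0 < C := H1_Cpos h
  refine ⟨J + J2, C * C2, by positivity, ?_, fun z hz => mul_pos (h.pos z hz) (Real.exp_pos _),
    fun x hx y hy => ?_⟩
  · exact h.cont.mul (Real.continuous_exp.comp_continuousOn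
      (Complex.continuous_re.comp_continuousOn (fc_holo hE hν).continuousOn))
  · have h1 := h.osc x hx y hy
    have hF := h2 ν hν x hx y hy
    have hQ := h.pos y hy
    obtain ⟨hX, hY, hDX, hDY⟩ := H1_dist (mem_ball_zero_iff.1 hx) (mem_ball_zero_iff.1 hy)
    set D : ℝ := ‖1 - ⟪x, y⟫_ℂ‖ with hDdef
    have hD0 : 0 < D := by linarith
    set U : ℝ := D / (1 - ‖x‖ ^ 2) with hUdef
    have hU0 : 0 < U := div_pos hD0 hX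
    set V : ℝ := (D / (1 - ‖y‖ ^ 2)) ^ (1 / 8 : ℝ) with hVdef
    have hV0 : 0 < V := Real.rpow_pos_of_pos (div_pos hD0 hY) _
    have hEy := Real.exp_pos (Fc ν y).re
    have hEx := Real.exp_pos (Fc ν x).re
    have hE' : Real.exp (Fc ν x).re ≤ C2 * U ^ J2 * Real.exp (Fc ν y).re := by
      have h3 : Real.exp (Fc ν x).re =
          Real.exp ((Fc ν x).re - (Fc ν y).re) * Real.exp (Fc ν y).re := by
        rw [← Real.exp_add]; congr 1; ring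
      rw [h3]
      exact mul_le_mul_of_nonneg_right hF hEy.le
    calc Q x * Real.exp (Fc ν x).re
        ≤ (C * Q y * (U ^ J * V)) * (C2 * U ^ J2 * Real.exp (Fc ν y).re) :=
          mul_le_mul h1 hE' hEx.le (by positivity)
      _ = C * C2 * (Q y * Real.exp (Fc ν y).re) * (U ^ (J + J2) * V) := by
          rw [pow_add]; ring

/-- `VW_Tc` (CE/C3.lean), `VW_Th`, `VW_exp`, `VW_add` -/
theorem VW_mix (hE : ∃ ζ : E, ‖ζ‖ = 1) {ρ : E → ℝ} (hρ : Cm2 ρ) (hc : ContinuousOn ρ (ball 0 1))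
    {W : ℕ → ℝ} (hW0 : ∀ i, 0 ≤ W i) (hW : Summable W) (hW1 : 0 < W 0) (r : ℕ) {Cb s : ℝ}
    (hCb : 0 < Cb) (hs : 0 < s) (hs1 : s ≤ 1 / 8) {b : Fin r → E → ℝ} (hb : ∀ i, Dst Cb (b i))
    {ν : Measure E} (hν : Car ν) (h0 : ν ≠ 0) {Λ : ℝ} (hΛ : 0 < Λ) :
    ∃ (J : ℕ) (C : ℝ), 0 < C ∧ VW J C fun z =>
      Λ * (Th W (ρ z) + Tc s 1 ν z + Psi s b z) * Real.exp (Fc ν z).re := by
  obtain ⟨C1, -, h1⟩ := VW_Th hρ hc hW0 hW hW1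
  obtain ⟨J2, C2, -, h2⟩ := VW_exp hE (H1_smul h1 hΛ) hν
  obtain ⟨J3, C3, -, h3⟩ := VW_Tc hE r hCb hs hs1
  obtain ⟨C4, hC4, h4⟩ := VW_add h2 (h3 ν hν h0 b hb Λ hΛ)
  refine ⟨max J2 J3, C4, hC4, ?_⟩
  have e : (fun z => Λ * (Th W (ρ z) + Tc s 1 ν z + Psi s b z) * Real.exp (Fc ν z).re) =
      fun z => Λ * Th W (ρ z) * Real.exp (Fc ν z).re +
        Λ * (Tc s 1 ν z + Psi s b z) * Real.exp (Fc ν z).re := by
    funext z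
    ring
  rw [e]
  exact h4

end Pool.Agent.MPca0fc2.CE
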