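import Mathlib
import Pool.Agent.Lib.MP_ca0fc2_an.CE.B4
import Pool.Agent.Lib.MP_ca0fc2_an.CE.C1
import Pool.Agent.Lib.MP_ca0fc2_an.PV.T2

set_option autoImplicit false
set_option linter.unusedSectionVars false

open Metric Set MeasureTheory Filter Topology
open scoped InnerProductSpace ENNReal ContDiff

namespace Pool.Agent.MPca0fc2.CE

open Pool.Agent.MPca0fc2.PT
open Pool.Agent.MPca0fc2.QT
open Pool.Agent.MPca0fc2.TS
open Pool.Agent.MPca0fc2.TE
open Pool.Agent.MPca0fc2.TK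
open Pool.Agent.MPca0fc2.VK
open Pool.Agent.MPca0fc2.PV

variable {E : Type*} [NormedAddCommGroup E] [InnerProductSpace ℂ E] [FiniteDimensional ℂ E]
  [MeasurableSpace E] [BorelSpace E]


private theorem H2_mem {P : E →L[ℂ] E} (hP : Prj P) {z : E} (hz : z ∈ ball (0 : E) 1) {t : ℝ}
    (ht : t ∈ Icc (0 : ℝ) 1) : pt P t z ∈ ball (0 : E) 1 := by
  have hz' : ‖z‖ < 1 := by simpa using hz
  obtain ⟨h1, -, h2, -⟩ := Dp_anti hP hz' ht.1 le_rfl ht.2
  have h3 := Dp_eq hP t z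
  rw [mem_ball_zero_iff]
  have h4 : ‖pt P t z‖ ^ 2 < 1 := by linarith
  nlinarith [norm_nonneg (pt P t z)]

private theorem H2_cont (P : E →L[ℂ] E) (z : E) : Continuous fun t : ℝ => pt P t z := by
  unfold pt
  fun_prop

/-- Proof. `tc_path` (both parts): `GI` is the integral over `t ∈ [0,1]` of the values at `pt P t z` with the kernel `rr P z/(1 - t² rr²)`; the product is `∫ Θ exp (Re Fc (pt P t z) - Re Fc z) k + ∫ Tc s 1 ν exp (...) k ≤ exp C ∫ Θ k + C` (everything is continuous in `t`, so integrable). -/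
theorem GI_mix (hE : ∃ ζ : E, ‖ζ‖ = 1) {s : ℝ} (hs : 0 < s) (hs1 : s ≤ 1) :
    ∃ C : ℝ, 0 < C ∧ ∀ ν : Measure E, Car ν → ∀ P : E →L[ℂ] E, Prj P → ∀ Θ : E → ℝ,
      ContinuousOn Θ (ball 0 1) → (∀ x ∈ ball (0 : E) 1, 0 ≤ Θ x) → ∀ z ∈ ball (0 : E) 1,
      Real.exp (-(Fc ν z).re) *
        GI (fun x => (Θ x + Tc s 1 ν x) * Real.exp (Fc ν x).re) P z ≤ C * (1 + GI Θ P z) := by
  obtain ⟨C, hC, h⟩ := tc_path (E := E) hE hs hs1
  refine ⟨Real.exp C + C, by positivity, fun ν hν P hP Θ hΘ hΘ0 z hz => ?_⟩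
  obtain ⟨h1, h2⟩ := h ν hν P hP z hz
  have hz' : ‖z‖ < 1 := by simpa using hz
  obtain ⟨hr0, hr1, -, -, -⟩ := rr_facts hP hz' 1
  have hden : ∀ t ∈ Icc (0 : ℝ) 1, 0 < 1 - t ^ 2 * rr P z ^ 2 := by
    intro t ht
    have h3 : t * rr P z < 1 := by nlinarith [ht.1, ht.2]
    have h4 : 0 ≤ t * rr P z := mul_nonneg ht.1 hr0
    nlinarith
  have hmaps : MapsTo (fun t : ℝ => pt P t z) (Icc (0 : ℝ) 1) (ball (0 : E) 1) :=
    fun t ht => H2_mem hP hz ht
  have hkc : ContinuousOn (fun t : ℝ => rr P z / (1 - t ^ 2 * rr P z ^ 2)) (Icc 0 1) :=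
    ContinuousOn.div continuousOn_const (by fun_prop) fun t ht => (hden t ht).ne'
  have hk0 : ∀ t ∈ Icc (0 : ℝ) 1, 0 ≤ rr P z / (1 - t ^ 2 * rr P z ^ 2) := fun t ht =>
    div_nonneg hr0 (hden t ht).le
  have hgc : ContinuousOn (fun t : ℝ => Real.exp ((Fc ν (pt P t z)).re - (Fc ν z).re))
      (Icc 0 1) := by
    have h3 : ContinuousOn (fun t : ℝ => Fc ν (pt P t z)) (Icc 0 1) :=
      (fc_holo hE hν).continuousOn.comp (H2_cont P z).continuousOn hmaps
    exact ((Complex.continuous_re.comp_continuousOn h3).sub continuousOn_const).rexp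
  have hTc : ContinuousOn (fun t : ℝ => Tc s 1 ν (pt P t z)) (Icc 0 1) :=
    (Tc_cont hE hν hs 1).comp (H2_cont P z).continuousOn hmaps
  have hTh : ContinuousOn (fun t : ℝ => Θ (pt P t z)) (Icc 0 1) :=
    hΘ.comp (H2_cont P z).continuousOn hmaps
  have hi1 : IntegrableOn (fun t : ℝ => Θ (pt P t z) * (rr P z / (1 - t ^ 2 * rr P z ^ 2)))
      (Icc 0 1) := (hTh.mul hkc).integrableOn_compact isCompact_Icc
  have hi2 : IntegrableOn (fun t : ℝ => Tc s 1 ν (pt P t z) *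
      Real.exp ((Fc ν (pt P t z)).re - (Fc ν z).re) * (rr P z / (1 - t ^ 2 * rr P z ^ 2)))
      (Icc 0 1) := ((hTc.mul hgc).mul hkc).integrableOn_compact isCompact_Icc
  have hi3 : IntegrableOn (fun t : ℝ => Θ (pt P t z) *
      Real.exp ((Fc ν (pt P t z)).re - (Fc ν z).re) * (rr P z / (1 - t ^ 2 * rr P z ^ 2)))
      (Icc 0 1) := ((hTh.mul hgc).mul hkc).integrableOn_compact isCompact_Icc
  have hGI0 : 0 ≤ GI Θ P z := by
    unfold GI
    exact setIntegral_nonneg measurableSet_Icc fun t ht =>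
      mul_nonneg (hΘ0 _ (hmaps ht)) (hk0 t ht)
  have heq : Real.exp (-(Fc ν z).re) *
      GI (fun x => (Θ x + Tc s 1 ν x) * Real.exp (Fc ν x).re) P z =
      ∫ t in Icc (0 : ℝ) 1, (Θ (pt P t z) *
        Real.exp ((Fc ν (pt P t z)).re - (Fc ν z).re) * (rr P z / (1 - t ^ 2 * rr P z ^ 2)) +
        Tc s 1 ν (pt P t z) *
        Real.exp ((Fc ν (pt P t z)).re - (Fc ν z).re) * (rr P z / (1 - t ^ 2 * rr P z ^ 2))) := by
    unfold GI
    rw [← integral_const_mul]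
    refine setIntegral_congr_fun measurableSet_Icc fun t _ => ?_
    simp only
    rw [show (Fc ν (pt P t z)).re - (Fc ν z).re = -(Fc ν z).re + (Fc ν (pt P t z)).re by ring,
      Real.exp_add]
    ring
  rw [heq, integral_add hi3 hi2]
  have h3 : ∫ t in Icc (0 : ℝ) 1, Θ (pt P t z) *
        Real.exp ((Fc ν (pt P t z)).re - (Fc ν z).re) * (rr P z / (1 - t ^ 2 * rr P z ^ 2)) ≤
      Real.exp C * GI Θ P z := by
    unfold GI
    rw [← integral_const_mul]
    refine setIntegral_mono_on hi3 (hi1.const_mul _) measurableSet_Icc fun t ht => ?_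
    have h4 : 0 ≤ Θ (pt P t z) * (rr P z / (1 - t ^ 2 * rr P z ^ 2)) :=
      mul_nonneg (hΘ0 _ (hmaps ht)) (hk0 t ht)
    have h5 := mul_le_mul_of_nonneg_right (Real.exp_le_exp.2 (h2 t ht)) h4
    linarith
  have h4 : 0 < Real.exp C := Real.exp_pos C
  nlinarith [mul_nonneg hC.le hGI0]

end Pool.Agent.MPca0fc2.CE
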