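import Mathlib
import Pool.Agent.Lib.MP_ca0fc2_an.CE.A3
import Pool.Agent.Lib.MP_ca0fc2_an.CE.C1
import Pool.Agent.Lib.MP_ca0fc2_an.VK.E3
import Pool.Agent.Lib.MP_ca0fc2_an.CGInv
import Pool.Agent.Lib.MP_ca0fc2_an.Mg.G049

set_option autoImplicit false
set_option linter.unusedSectionVars false

open Metric Set MeasureTheory Filter Topology
open scoped InnerProductSpace ENNReal ContDiff

namespace Pool.Agent.MPca0fc2.CE

open Pool.Agent.MPca0fc2.PT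
open Pool.Agent.MPca0fc2.QT
open Pool.Agent.MPca0fc2.TS
open Pool.Agent.MPca0fc2.TE
open Pool.Agent.MPca0fc2.TK
open Pool.Agent.MPca0fc2.VK

variable {E : Type*} [NormedAddCommGroup E] [InnerProductSpace ℂ E] [FiniteDimensional ℂ E]
  [MeasurableSpace E] [BorelSpace E]


private theorem H5_gm (c : E) : Measurable (gg c : E → E) := by
  unfold gg AA
  fun_prop

private theorem H5_self {x : E} (hx : ‖x‖ ≤ 1) : ‖1 - ⟪x, x⟫_ℂ‖ = 1 - ‖x‖ ^ 2 := by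
  have h1 : (1 : ℂ) - ⟪x, x⟫_ℂ = ((1 - ‖x‖ ^ 2 : ℝ) : ℂ) := by
    rw [geo_self]; push_cast; ring
  rw [h1, Complex.norm_real, Real.norm_of_nonneg]
  nlinarith [norm_nonneg x]

private theorem H5_unit {c ζ : E} (hc : ‖c‖ < 1) (h1 : ‖ζ‖ = 1) : ‖gg c ζ‖ = 1 := by
  have h2 := norm_gg hc h1.le
  rw [h1] at h2
  have h3 : ‖gg c ζ‖ ^ 2 = 1 := by
    have : (1 - ‖c‖ ^ 2) * (1 - (1 : ℝ) ^ 2) / ‖1 + ⟪c, ζ⟫_ℂ‖ ^ 2 = 0 := by simp
    linarith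
  nlinarith [norm_nonneg (gg c ζ)]

private theorem H5_dpos {x y : E} (hx : ‖x‖ ≤ 1) (hy : ‖y‖ < 1) : 0 < ‖1 - ⟪x, y⟫_ℂ‖ := by
  have h1 : ‖(1 : ℂ)‖ - ‖⟪x, y⟫_ℂ‖ ≤ ‖1 - ⟪x, y⟫_ℂ‖ := norm_sub_norm_le _ _
  have h2 : ‖⟪x, y⟫_ℂ‖ ≤ ‖x‖ * ‖y‖ := norm_inner_le_norm x y
  rw [norm_one] at h1
  have h3 := norm_nonneg x
  have h4 := norm_nonneg y
  nlinarith

private theorem H5_kc {c : E} (hc : ‖c‖ < 1) {K : ℝ} (hK1 : 1 ≤ K)
    (hK : ∀ x y : E, ‖x‖ ≤ 1 → ‖y‖ ≤ 1 →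
      ‖1 - ⟪gg c x, gg c y⟫_ℂ‖ ≤ K * ‖1 - ⟪x, y⟫_ℂ‖ ∧
      ‖1 - ⟪x, y⟫_ℂ‖ ≤ K * ‖1 - ⟪gg c x, gg c y⟫_ℂ‖) {s : ℝ} (hs : 0 ≤ s) (hs1 : s ≤ 1)
    {x w : E} (hx : ‖x‖ < 1) (hw : ‖w‖ < 1) :
    kc s 2 (gg c x) (gg c w) ≤ K ^ 7 * kc s 2 x w := by
  have hK0 : 0 < K := by linarith
  have hgx := gg_lt hc hx
  have hgw := gg_lt hc hw
  have hD := H5_dpos hx.le hw
  have hD' := H5_dpos hgx.le hgw
  have a1 : 1 - ‖gg c w‖ ^ 2 ≤ K * (1 - ‖w‖ ^ 2) := by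
    rw [← H5_self hgw.le, ← H5_self hw.le]
    exact (hK w w hw.le hw.le).1
  have a2 : 1 - ‖gg c x‖ ^ 2 ≤ K * (1 - ‖x‖ ^ 2) := by
    rw [← H5_self hgx.le, ← H5_self hx.le]
    exact (hK x x hx.le hx.le).1
  have a3 := (hK x w hx.le hw.le).2
  have b1 : 0 ≤ 1 - ‖gg c w‖ ^ 2 := by nlinarith [norm_nonneg (gg c w)]
  have b2 : 0 ≤ 1 - ‖gg c x‖ ^ 2 := by nlinarith [norm_nonneg (gg c x)]
  have b3 : 0 ≤ 1 - ‖w‖ ^ 2 := by nlinarith [norm_nonneg w]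
  have b4 : 0 ≤ 1 - ‖x‖ ^ 2 := by nlinarith [norm_nonneg x]
  unfold kc
  set D := ‖1 - ⟪x, w⟫_ℂ‖
  set D' := ‖1 - ⟪gg c x, gg c w⟫_ℂ‖
  have hinv : 1 / D' ≤ K / D := by
    rw [div_le_div_iff₀ hD' hD]; linarith
  have q1 : (1 - ‖gg c w‖ ^ 2) / D' ≤ K ^ 2 * ((1 - ‖w‖ ^ 2) / D) := by
    calc (1 - ‖gg c w‖ ^ 2) / D' = (1 - ‖gg c w‖ ^ 2) * (1 / D') := by ring
      _ ≤ (K * (1 - ‖w‖ ^ 2)) * (K / D) := mul_le_mul a1 hinv (by positivity) (by positivity)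
      _ = K ^ 2 * ((1 - ‖w‖ ^ 2) / D) := by ring
  have q2 : (1 - ‖gg c x‖ ^ 2) / D' ≤ K ^ 2 * ((1 - ‖x‖ ^ 2) / D) := by
    calc (1 - ‖gg c x‖ ^ 2) / D' = (1 - ‖gg c x‖ ^ 2) * (1 / D') := by ring
      _ ≤ (K * (1 - ‖x‖ ^ 2)) * (K / D) := mul_le_mul a2 hinv (by positivity) (by positivity)
      _ = K ^ 2 * ((1 - ‖x‖ ^ 2) / D) := by ring
  have c1 : ((1 - ‖gg c w‖ ^ 2) / D') ^ s ≤ K ^ 2 * ((1 - ‖w‖ ^ 2) / D) ^ s := by
    calc ((1 - ‖gg c w‖ ^ 2) / D') ^ s ≤ (K ^ 2 * ((1 - ‖w‖ ^ 2) / D)) ^ s :=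
          Real.rpow_le_rpow (by positivity) q1 hs
      _ = (K ^ 2) ^ s * ((1 - ‖w‖ ^ 2) / D) ^ s :=
          Real.mul_rpow (by positivity) (by positivity)
      _ ≤ K ^ 2 * ((1 - ‖w‖ ^ 2) / D) ^ s := by
          refine mul_le_mul_of_nonneg_right ?_ (by positivity)
          calc (K ^ 2) ^ s ≤ (K ^ 2) ^ (1 : ℝ) :=
                Real.rpow_le_rpow_of_exponent_le (by nlinarith) hs1
            _ = K ^ 2 := Real.rpow_one _
  have c2 : ((1 - ‖gg c x‖ ^ 2) / D') ^ 2 ≤ K ^ 4 * ((1 - ‖x‖ ^ 2) / D) ^ 2 := by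
    calc ((1 - ‖gg c x‖ ^ 2) / D') ^ 2 ≤ (K ^ 2 * ((1 - ‖x‖ ^ 2) / D)) ^ 2 :=
          pow_le_pow_left₀ (by positivity) q2 2
      _ = K ^ 4 * ((1 - ‖x‖ ^ 2) / D) ^ 2 := by ring
  calc ((1 - ‖gg c w‖ ^ 2) / D') ^ s * ((1 - ‖gg c x‖ ^ 2) / D') ^ 2 / D'
      = ((1 - ‖gg c w‖ ^ 2) / D') ^ s * ((1 - ‖gg c x‖ ^ 2) / D') ^ 2 * (1 / D') := by ring
    _ ≤ (K ^ 2 * ((1 - ‖w‖ ^ 2) / D) ^ s) * (K ^ 4 * ((1 - ‖x‖ ^ 2) / D) ^ 2) * (K / D) := by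
        refine mul_le_mul (mul_le_mul c1 c2 (by positivity) (by positivity)) hinv
          (by positivity) (by positivity)
    _ = K ^ 7 * (((1 - ‖w‖ ^ 2) / D) ^ s * ((1 - ‖x‖ ^ 2) / D) ^ 2 / D) := by ring

private theorem H5_km (s : ℝ) (w : E) : Measurable fun u : E => kc s 2 u w := by
  unfold kc
  fun_prop

/-- The energies and the automorphisms. Proof. `ker_gg` (VK/E3.lean): `‖1 - ⟪gg c x, gg c y⟫‖` is comparable with `‖1 - ⟪x, y⟫‖` (constant `K`, `‖x‖, ‖y‖ ≤ 1`), so `kc s 2 (gg c u) (gg c w) ≤ C kc s 2 u w` on the ball (`1 - ‖x‖² = ‖1 - ⟪x, x⟫‖`). `ν' = (1/K') • ν.map (gg (-c))`: the preimage of `{u | ‖1 - ⟪u, ζ⟫‖ < r}` under `gg (-c)` is, in the ball, contained in `{u | ‖1 - ⟪u, gg c ζ⟫‖ < K r}` (`gg_gg_neg`: `gg (-c) (gg c ζ) = ζ`), `‖gg c ζ‖ = 1`. `gg (-c)` is measurable; off the ball `ν` is zero. `Tc s 2 ν (gg c w) = ∫ kc s 2 u (gg c w) dν(u)`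 with `u = gg c (gg (-c) u)` on the ball. -/
theorem Tc_gg {c : E} (hc : ‖c‖ < 1) : ∃ C : ℝ, 0 < C ∧ ∀ ν : Measure E, Car ν →
    ∃ ν' : Measure E, Car ν' ∧ ∀ s : ℝ, 0 ≤ s → s ≤ 1 → ∀ w ∈ ball (0 : E) 1,
      Tc s 2 ν (gg c w) ≤ C * Tc s 2 ν' w := by
  obtain ⟨K, hK1, hK⟩ := ker_gg hc
  have hK0 : 0 < K := by linarith
  have hc' : ‖-c‖ < 1 := by rwa [norm_neg]
  have hgm : Measurable (gg (-c) : E → E) := H5_gm (-c)
  refine ⟨K ^ 8, by positivity, fun ν hν => ?_⟩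
  have hae : ∀ᵐ u ∂ν, u ∈ ball (0 : E) 1 := by
    rw [ae_iff]; exact hν.sub
  have hcar : Car (ENNReal.ofReal K⁻¹ • ν.map (gg (-c))) := by
    refine ⟨?_, ?_⟩
    · rw [Measure.smul_apply, Measure.map_apply hgm measurableSet_ball.compl]
      have h1 : ν (gg (-c) ⁻¹' (ball (0 : E) 1)ᶜ) = 0 := by
        refine measure_mono_null ?_ hν.sub
        intro u hu hu'
        apply hu
        have h2 : ‖u‖ < 1 := by simpa using hu'
        simpa using gg_lt hc' h2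
      rw [h1, smul_zero]
    · intro ζ hζ r hr
      have hms : MeasurableSet {u : E | ‖1 - ⟪u, ζ⟫_ℂ‖ < r} := by
        refine measurableSet_lt ?_ measurable_const
        fun_prop
      rw [Measure.smul_apply, Measure.map_apply hgm hms]
      have h1 : ν (gg (-c) ⁻¹' {u : E | ‖1 - ⟪u, ζ⟫_ℂ‖ < r}) ≤ ENNReal.ofReal (K * r) := by
        refine le_trans ?_ (hν.car (gg c ζ) (H5_unit hc hζ) (K * r) (by positivity))
        refine measure_mono_ae ?_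
        filter_upwards [hae] with u hu hu2
        have hu1 : ‖u‖ < 1 := by simpa using hu
        have hu3 : ‖1 - ⟪gg (-c) u, ζ⟫_ℂ‖ < r := hu2
        have h2 := (hK (gg (-c) u) ζ (gg_le hc' hu1.le) hζ.le).1
        rw [CG.gg_gg_neg hc hu1.le] at h2
        show ‖1 - ⟪u, gg c ζ⟫_ℂ‖ < K * r
        exact lt_of_le_of_lt h2 (mul_lt_mul_of_pos_left hu3 hK0)
      calc ENNReal.ofReal K⁻¹ • ν (gg (-c) ⁻¹' {u : E | ‖1 - ⟪u, ζ⟫_ℂ‖ < r})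
          ≤ ENNReal.ofReal K⁻¹ * ENNReal.ofReal (K * r) := by
            rw [smul_eq_mul]; exact mul_le_mul_right h1 _
        _ = ENNReal.ofReal r := by
            rw [← ENNReal.ofReal_mul (by positivity)]
            congr 1
            field_simp
  refine ⟨_, hcar, ?_⟩
  intro s hs hs1 w hw
  have hw1 : ‖w‖ < 1 := by simpa using hw
  have e1 : Tc s 2 (ENNReal.ofReal K⁻¹ • ν.map (gg (-c))) w =
      K⁻¹ * ∫ u, kc s 2 (gg (-c) u) w ∂ν := by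
    unfold Tc
    rw [integral_smul_measure, integral_map hgm.aemeasurable
      (H5_km s w).aestronglyMeasurable, ENNReal.toReal_ofReal (by positivity), smul_eq_mul]
  have hpt : ∀ᵐ u ∂ν, kc s 2 u (gg c w) ≤ K ^ 7 * kc s 2 (gg (-c) u) w := by
    filter_upwards [hae] with u hu
    have hu1 : ‖u‖ < 1 := by simpa using hu
    have h2 := H5_kc hc hK1 hK hs hs1 (gg_lt hc' hu1) hw1
    rwa [CG.gg_gg_neg hc hu1.le] at h2
  have hmain : Tc s 2 ν (gg c w) ≤ K ^ 7 * ∫ u, kc s 2 (gg (-c) u) w ∂ν := by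
    by_cases hE : ∃ ζ : E, ‖ζ‖ = 1
    · have i1 : Integrable (fun u => kc s 2 u (gg c w)) ν :=
        kc_int hE hν hs 2 (by simpa using gg_lt hc hw1)
      have i2 : Integrable (fun u => kc s 2 (gg (-c) u) w) ν := by
        have h3 := kc_int hE hcar hs 2 hw
        have h4 : Integrable (fun u => kc s 2 u w) (ν.map (gg (-c))) := by
          refine (integrable_smul_measure ?_ ENNReal.ofReal_ne_top).1 h3
          simpa using hK0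
        exact (integrable_map_measure (H5_km s w).aestronglyMeasurable hgm.aemeasurable).1 h4
      unfold Tc
      rw [← integral_const_mul]
      exact integral_mono_ae i1 (i2.const_mul _) hpt
    · have hsub : Subsingleton E := by
        refine ⟨fun x y => ?_⟩
        have h0 : ∀ x : E, x = 0 := by
          intro x
          by_contra hx
          have hx' : ‖x‖ ≠ 0 := norm_ne_zero_iff.2 hx
          refine hE ⟨((‖x‖⁻¹ : ℝ) : ℂ) • x, ?_⟩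
          rw [norm_smul, Complex.norm_real, norm_inv, norm_norm, inv_mul_cancel₀ hx']
        rw [h0 x, h0 y]
      have h5 : ∀ u : E, kc s 2 u (gg c w) = kc s 2 (gg (-c) u) w := by
        intro u
        rw [Subsingleton.elim (gg c w) w, Subsingleton.elim (gg (-c) u) u]
      unfold Tc
      simp only [h5]
      have h6 : 0 ≤ ∫ u, kc s 2 (gg (-c) u) w ∂ν := by
        refine integral_nonneg_of_ae ?_
        filter_upwards [hae] with u hu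
        have hu1 : ‖u‖ < 1 := by simpa using hu
        exact kc_nonneg (gg_lt hc' hu1).le hw1.le
      have h7 : (1 : ℝ) ≤ K ^ 7 := one_le_pow₀ hK1
      nlinarith
  rw [e1]
  calc Tc s 2 ν (gg c w) ≤ K ^ 7 * ∫ u, kc s 2 (gg (-c) u) w ∂ν := hmain
    _ = K ^ 8 * (K⁻¹ * ∫ u, kc s 2 (gg (-c) u) w ∂ν) := by
        field_simp

end Pool.Agent.MPca0fc2.CE
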