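import Mathlib
import Pool.Agent.Lib.MP_ca0fc2_an.CE.C1
import Pool.Agent.Lib.MP_ca0fc2_an.PV.V3
import Pool.Agent.Lib.MP_ca0fc2_an.TS.Gr
import Pool.Agent.Lib.MP_ca0fc2_an.PV.M8
import Pool.Agent.Lib.MP_ca0fc2_an.PV.Defs
import Pool.Agent.Lib.MP_ca0fc2_an.Mg.G049

set_option autoImplicit false
set_option linter.unusedSectionVars false

open Metric Set MeasureTheory Filter Topology
open scoped InnerProductSpace ENNReal ContDiff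

namespace Pool.Agent.MPca0fc2.CE

open Pool.Agent.MPca0fc2.PT
open Pool.Agent.MPca0fc2.QT
open Pool.Agent.MPca0fc2.TS
open Pool.Agent.MPca0fc2.TE
open Pool.Agent.MPca0fc2.TK
open Pool.Agent.MPca0fc2.VK
open Pool.Agent.MPca0fc2.PV

variable {E : Type*} [NormedAddCommGroup E] [InnerProductSpace ℂ E] [FiniteDimensional ℂ E]
  [MeasurableSpace E] [BorelSpace E]


/-- Near `p` the power `κ` of the invariant gradient is bounded by a summable function of the hyperbolic distance to `S`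
and a one-dimensional Carleson energy. -/
def MixN (κ : ℝ) (S : Set E) (p : E) (u : E → ℂ) : Prop :=
  DifferentiableOn ℂ u (ball 0 1) ∧ (∃ C : ℝ, ∀ z ∈ ball (0 : E) 1, ‖u z‖ ≤ C) ∧
    ∃ r : ℝ, 0 < r ∧ ∃ (W : ℕ → ℝ) (s L : ℝ) (ν : Measure E), Summable W ∧ 0 < s ∧ s ≤ 1 / 8 ∧
      0 < L ∧ Car ν ∧ ∀ (k : ℕ) (z : E), z ∈ ball (0 : E) 1 → ‖z - p‖ < r →
        (∀ b ∈ S, ‖b‖ < 1 → 2 ^ k * HH b z ≤ 1) → IG2 u z ^ (κ / 2) ≤ W k + L * Tc s 2 ν z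

open Pool.Agent.Lib.MP_ca0fc2_an in
/-- Characters over `p` see the cells of `A1`, and have joint cluster values for `A1`, `A2`. -/
structure GoodC (p : E) (A1 A2 : Set (E → ℂ)) : Prop where
  /-- data with bounded solutions on a cell are not in the kernel -/
  sol : ∀ X : Char Unit E, Over X p → ∀ (m : ℕ) (a : Fin m → E → ℂ), (∀ i, a i ∈ A1) →
    ∀ s : ℝ, 0 < s → ∀ (N : ℕ) (f k : Fin N → E → ℂ) (B : ℝ),
    (∀ j, DifferentiableOn ℂ (f j) (ball 0 1)) → (∀ j, ∀ z ∈ ball (0 : E) 1, ‖f j z‖ ≤ B) →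
    (∀ j, DifferentiableOn ℂ (k j) {z | z ∈ ball (0 : E) 1 ∧ ‖z - p‖ < s ∧
      ∀ i, ‖a i z - X.φ (fun _ => a i)‖ < s}) →
    (∀ z ∈ ball (0 : E) 1, ‖z - p‖ < s → (∀ i, ‖a i z - X.φ (fun _ => a i)‖ < s) →
      ∑ j, f j z * k j z = 1 ∧ ∀ j, ‖k j z‖ ≤ B) → ∃ j, X.φ (fun _ => f j) ≠ 0
  /-- joint cluster values -/
  near : ∀ X : Char Unit E, Over X p → ∀ (m : ℕ) (a : Fin m → E → ℂ),
    (∀ i, a i ∈ A1) → ∀ (N : ℕ) (v : Fin N → E → ℂ), (∀ j, v j ∈ A2) →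
    ∀ s : ℝ, 0 < s → ∃ z ∈ ball (0 : E) 1, ‖z - p‖ < s ∧
      (∀ i, ‖a i z - X.φ (fun _ => a i)‖ < s) ∧ ∀ j, ‖v j z - X.φ (fun _ => v j)‖ < s
  /-- bounded holomorphic functions -/
  bh : ∀ u ∈ A1 ∪ A2, DifferentiableOn ℂ u (ball 0 1) ∧ ∃ C : ℝ, ∀ z ∈ ball (0 : E) 1, ‖u z‖ ≤ C
  /-- constants -/
  const : ∀ c : ℂ, (fun _ : E => c) ∈ A1

/-- the bounded holomorphic functions which are near `p` uniform limits of functions in `A` -/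
def RegC (A : Set (E → ℂ)) (p : E) : Set (E → ℂ) :=
  {u | DifferentiableOn ℂ u (ball 0 1) ∧ (∃ C : ℝ, ∀ z ∈ ball (0 : E) 1, ‖u z‖ ≤ C) ∧
    ∀ ε : ℝ, 0 < ε → ∃ F ∈ A, ∃ s : ℝ, 0 < s ∧
      ∀ z ∈ ball (0 : E) 1, ‖z - p‖ < s → ‖u z - F z‖ ≤ ε}

end Pool.Agent.MPca0fc2.CE
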