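import Mathlib
import Pool.Agent.Lib.MP_ca0fc2_an.CE.HD
import Pool.Agent.Lib.MP_ca0fc2_an.CE.H5
import Pool.Agent.Lib.MP_ca0fc2_an.CE.C1
import Pool.Agent.Lib.MP_ca0fc2_an.PV.V3
import Pool.Agent.Lib.MP_ca0fc2_an.PV.M12
import Pool.Agent.Lib.MP_ca0fc2_an.PV.M10b

set_option autoImplicit false
set_option linter.unusedSectionVars false

open Metric Set MeasureTheory Filter Topology
open scoped InnerProductSpace ENNReal ContDiff

namespace Pool.Agent.MPca0fc2.CE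

open Pool.Agent.MPca0fc2.PT
open Pool.Agent.MPca0fc2.QT
open Pool.Agent.MPca0fc2.TS
open Pool.Agent.MPca0fc2.TE
open Pool.Agent.MPca0fc2.TK
open Pool.Agent.MPca0fc2.VK
open Pool.Agent.MPca0fc2.PV

variable {E : Type*} [NormedAddCommGroup E] [InnerProductSpace ℂ E] [FiniteDimensional ℂ E]
  [MeasurableSpace E] [BorelSpace E]

private theorem H6_zero : Car (0 : Measure E) :=
  ⟨by simp, fun ζ _ r _ => by simp⟩

private theorem H6_half {ν ν' : Measure E} (h : Car ν) (h' : Car ν') :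
    Car ((2⁻¹ : ℝ≥0∞) • (ν + ν')) := by
  refine ⟨?_, ?_⟩
  · rw [Measure.smul_apply, Measure.add_apply, h.sub, h'.sub]
    simp
  · intro ζ hζ r hr
    rw [Measure.smul_apply, Measure.add_apply, smul_eq_mul]
    have h1 := add_le_add (h.car ζ hζ r hr) (h'.car ζ hζ r hr)
    refine (mul_le_mul_right h1 _).trans ?_
    rw [← two_mul, ← mul_assoc, ENNReal.inv_mul_cancel two_ne_zero ENNReal.ofNat_ne_top, one_mul]

private theorem H6_ae {ν : Measure E} (h : Car ν) : ∀ᵐ u ∂ν, u ∈ ball (0 : E) 1 := by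
  rw [ae_iff]
  exact h.sub

private theorem H6_kc {s s' : ℝ} (hs' : 0 < s') (hss : s' ≤ s) (hs1 : s ≤ 1 / 8) {u z : E}
    (hu : u ∈ ball (0 : E) 1) (hz : z ∈ ball (0 : E) 1) : kc s 2 u z ≤ 2 * kc s' 2 u z := by
  have hu1 : ‖u‖ < 1 := mem_ball_zero_iff.mp hu
  have hz1 : ‖z‖ < 1 := mem_ball_zero_iff.mp hz
  obtain ⟨h1, h2, -⟩ := a_pos hu1.le hz1
  have h0 : 0 < 1 - ‖z‖ ^ 2 := by nlinarith [norm_nonneg z]
  have h0' : 0 < 1 - ‖u‖ ^ 2 := by nlinarith [norm_nonneg u]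
  unfold kc
  set q : ℝ := (1 - ‖z‖ ^ 2) / ‖1 - ⟪u, z⟫_ℂ‖ with hq
  have hq0 : 0 < q := div_pos h0 h1
  have hq2 : q ≤ 2 := by
    rw [hq, div_le_iff₀ h1]
    exact h2
  have h3 : q ^ s ≤ 2 * q ^ s' := by
    have h4 : q ^ s = q ^ s' * q ^ (s - s') := by
      rw [← Real.rpow_add hq0]
      congr 1
      ring
    have h5 : q ^ (s - s') ≤ 2 := by
      calc q ^ (s - s') ≤ 2 ^ (s - s') := Real.rpow_le_rpow hq0.le hq2 (by linarith)
        _ ≤ 2 ^ (1 : ℝ) := Real.rpow_le_rpow_of_exponent_le (by norm_num) (by linarith)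
        _ = 2 := Real.rpow_one 2
    rw [h4]
    nlinarith [Real.rpow_pos_of_pos hq0 s']
  have h6 : 0 ≤ ((1 - ‖u‖ ^ 2) / ‖1 - ⟪u, z⟫_ℂ‖) ^ 2 := sq_nonneg _
  rw [mul_div_assoc, mul_div_assoc, ← mul_assoc]
  exact mul_le_mul_of_nonneg_right h3 (div_nonneg h6 h1.le)

private theorem H6_Tc (hE : ∃ ζ : E, ‖ζ‖ = 1) {s s' : ℝ} (hs' : 0 < s') (hss : s' ≤ s)
    (hs1 : s ≤ 1 / 8) {ν : Measure E} (hν : Car ν) {z : E} (hz : z ∈ ball (0 : E) 1) :
    Tc s 2 ν z ≤ 2 * Tc s' 2 ν z := by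
  unfold Tc
  rw [← integral_const_mul]
  refine integral_mono_ae (kc_int hE hν (hs'.le.trans hss) 2 hz)
    ((kc_int hE hν hs'.le 2 hz).const_mul 2) ?_
  filter_upwards [H6_ae hν] with u hu
  exact H6_kc hs' hss hs1 hu hz

private theorem H6_Tch (hE : ∃ ζ : E, ‖ζ‖ = 1) {s : ℝ} (hs : 0 < s) {ν ν' : Measure E}
    (h : Car ν) (h' : Car ν') {z : E} (hz : z ∈ ball (0 : E) 1) :
    Tc s 2 ((2⁻¹ : ℝ≥0∞) • (ν + ν')) z = 2⁻¹ * (Tc s 2 ν z + Tc s 2 ν' z) := by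
  unfold Tc
  rw [integral_smul_measure, integral_add_measure (kc_int hE h hs.le 2 hz)
    (kc_int hE h' hs.le 2 hz), smul_eq_mul]
  congr 1
  simp

private theorem H6_pow1 {u : E → ℂ} {z : E} :
    IG2 u z ^ ((1 : ℝ) / 2) = Real.sqrt (IG2 u z) := (Real.sqrt_eq_rpow _).symm

private theorem H6_pow2 {u : E → ℂ} {z : E} (hz : z ∈ ball (0 : E) 1) :
    IG2 u z ^ ((2 : ℝ) / 2) = Real.sqrt (IG2 u z) ^ 2 := by
  rw [Real.sq_sqrt (gd_IG_nonneg (mem_ball_zero_iff.mp hz)), div_self two_ne_zero, Real.rpow_one]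

/-- `W = 0`, `ν = 0` -/
theorem MixN.const {κ : ℝ} (hκ : 0 < κ) (S : Set E) (p : E) (c : ℂ) :
    MixN κ S p (fun _ => c) := by
  refine ⟨differentiableOn_const c, ⟨‖c‖, fun _ _ => le_rfl⟩, 1, one_pos, fun _ => 0, 1 / 8, 1, 0,
    summable_zero, by norm_num, le_rfl, one_pos, H6_zero, fun k z _ _ _ => ?_⟩
  have h1 : IG2 (fun _ : E => c) z = 0 := by
    unfold IG2
    simp
  rw [h1, Real.zero_rpow (by positivity)]
  unfold Tc
  simp

theorem MixN.mono {κ : ℝ} {S S' : Set E} (hS : S ⊆ S') {p : E} {u : E → ℂ}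
    (h : MixN κ S p u) : MixN κ S' p u := by
  obtain ⟨hd, hb, r, hr, W, s, L, ν, hW, hs, hs1, hL, hν, hk⟩ := h
  exact ⟨hd, hb, r, hr, W, s, L, ν, hW, hs, hs1, hL, hν, fun k z hz hzp hS' =>
    hk k z hz hzp fun b hb1 hb2 => hS' b (hS hb1) hb2⟩

/-- `ν = 0`, `s = 1/8`, `L = 1` -/
theorem MixN.of_calm {κ : ℝ} {S : Set E} {p : E} {u : E → ℂ} (h : CalmN κ S p u) :
    MixN κ S p u := by
  obtain ⟨hd, hb, r, hr, W, hW, hk⟩ := h
  refine ⟨hd, hb, r, hr, W, 1 / 8, 1, 0, hW, by norm_num, le_rfl, one_pos, H6_zero,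
    fun k z hz hzp hS => ?_⟩
  have h1 : Tc (1 / 8) 2 (0 : Measure E) z = 0 := by
    unfold Tc
    simp
  rw [h1, mul_zero, add_zero]
  exact hk k z hz hzp hS

theorem MixN.sub_const {κ : ℝ} {S : Set E} {p : E} {u : E → ℂ} (h : MixN κ S p u) (c : ℂ) :
    MixN κ S p (fun z => u z - c) := by
  obtain ⟨h1, ⟨C, hC⟩, r, hr, W, s, L, ν, hW, hs, hs1, hL, hν, hk⟩ := h
  refine ⟨h1.sub_const c, ⟨C + ‖c‖, fun z hz => (norm_sub_le _ _).trans (by linarith [hC z hz])⟩,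
    r, hr, W, s, L, ν, hW, hs, hs1, hL, hν, fun k z hz hzp hb => ?_⟩
  have hI : IG2 (fun z => u z - c) z = IG2 u z := by
    unfold IG2
    rw [fderiv_sub_const]
  rw [hI]
  exact hk k z hz hzp hb

/-- `IG2 ≤ (W + L Tc)² ≤ 2 W² + 2 L² Tc²`, `Tc ≤ C` (`Tc_le`); see `CalmN.one_two` (PV/M12.lean) -/
theorem MixN.one_two (hE : ∃ ζ : E, ‖ζ‖ = 1) {S : Set E} {p : E} {u : E → ℂ}
    (h : MixN 1 S p u) : MixN 2 S p u := by
  obtain ⟨h1, hC, r, hr, W, s, L, ν, hW, hs, hs1, hL, hν, hk⟩ := h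
  obtain ⟨C, hC0, hCT⟩ := Tc_le hE hs 2
  refine ⟨h1, hC, r, hr, fun k => 2 * W k ^ 2, s, 2 * L ^ 2 * C, ν, ?_, hs, hs1, by positivity,
    hν, fun k z hz hzp hb => ?_⟩
  · refine Summable.mul_left 2 ?_
    refine Summable.of_norm_bounded_eventually_nat hW.norm ?_
    have h0 := hW.norm.tendsto_atTop_zero
    filter_upwards [h0.eventually_le_const zero_lt_one] with i hi
    rw [norm_pow]
    nlinarith [norm_nonneg (W i)]
  · have h3 := hk k z hz hzp hb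
    rw [H6_pow1] at h3
    rw [H6_pow2 hz]
    have h4 := Real.sqrt_nonneg (IG2 u z)
    have h5 := Tc_nonneg hν (s := s) 2 hz
    have h6 := hCT ν hν z hz
    have h7 : Real.sqrt (IG2 u z) ^ 2 ≤ (W k + L * Tc s 2 ν z) ^ 2 := pow_le_pow_left₀ h4 h3 2
    have h8 : (L * Tc s 2 ν z) ^ 2 ≤ L ^ 2 * (C * Tc s 2 ν z) := by
      rw [mul_pow, sq (Tc s 2 ν z)]
      exact mul_le_mul_of_nonneg_left (mul_le_mul_of_nonneg_right h6 h5) (sq_nonneg L)
    nlinarith [sq_nonneg (W k - L * Tc s 2 ν z)]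

/-- Finitely many functions have common parameters. Proof. `r = min r_i`, `s = min s_i`, `W = ∑ |W_i|`, `ν = (1/k) ∑ ν_i`, as in `Acl_common` (CE/F5.lean). -/
theorem Mix_common (hE : ∃ ζ : E, ‖ζ‖ = 1) {κ : ℝ} {S : Set E} {p : E} {k : ℕ}
    {a : Fin k → E → ℂ} (ha : ∀ i, MixN κ S p (a i)) :
    ∃ (r : ℝ) (W : ℕ → ℝ) (s L : ℝ) (ν : Measure E), 0 < r ∧ (∀ i, 0 ≤ W i) ∧ Summable W ∧
      0 < s ∧ s ≤ 1 / 8 ∧ 0 < L ∧ Car ν ∧ ∀ i, ∀ (k : ℕ) (z : E), z ∈ ball (0 : E) 1 →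
        ‖z - p‖ < r → (∀ b ∈ S, ‖b‖ < 1 → 2 ^ k * HH b z ≤ 1) →
          IG2 (a i) z ^ (κ / 2) ≤ W k + L * Tc s 2 ν z := by
  induction k with
  | zero =>
    exact ⟨1, fun _ => 0, 1 / 8, 1, 0, one_pos, fun _ => le_rfl, summable_zero, by norm_num,
      le_rfl, one_pos, H6_zero, fun i => i.elim0⟩
  | succ k ih =>
    obtain ⟨r, W, s, L, ν, hr, hW0, hW, hs, hs1, hL, hν, h⟩ :=
      ih (a := fun i => a i.castSucc) fun i => ha _
    obtain ⟨-, -, r', hr', W', s', L', ν', hW', hs', hs1', hL', hν', h'⟩ := ha (Fin.last k)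
    have hm : 0 < min s s' := lt_min hs hs'
    refine ⟨min r r', fun n => W n + |W' n|, min s s', 4 * (L + L'), (2⁻¹ : ℝ≥0∞) • (ν + ν'),
      lt_min hr hr', fun n => add_nonneg (hW0 n) (abs_nonneg _), hW.add hW'.abs, hm,
      (min_le_left _ _).trans hs1, by positivity, H6_half hν hν', ?_⟩
    intro i n z hz hzp hb
    have e1 := H6_Tc hE hm (min_le_left s s') hs1 hν hz
    have e2 := H6_Tc hE hm (min_le_right s s') hs1' hν' hz
    have e3 := Tc_nonneg hν (s := min s s') 2 hz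
    have e4 := Tc_nonneg hν' (s := min s s') 2 hz
    have e5 := hW0 n
    have e6 := le_abs_self (W' n)
    have e7 := abs_nonneg (W' n)
    rw [H6_Tch hE hm hν hν' hz]
    refine Fin.lastCases ?_ (fun j => ?_) i
    · refine (h' n z hz (hzp.trans_le (min_le_right _ _)) hb).trans ?_
      nlinarith [mul_le_mul_of_nonneg_left e2 hL'.le, mul_nonneg hL.le e3, mul_nonneg hL.le e4,
        mul_nonneg hL'.le e3]
    · refine (h j n z hz (hzp.trans_le (min_le_left _ _)) hb).trans ?_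
      nlinarith [mul_le_mul_of_nonneg_left e1 hL.le, mul_nonneg hL.le e4, mul_nonneg hL'.le e3,
        mul_nonneg hL'.le e4]

/-- `IG_add` (PV/V3.lean), `Mix_common` for the two functions -/
theorem MixN.add (hE : ∃ ζ : E, ‖ζ‖ = 1) {κ : ℝ} (hκ : κ = 1 ∨ κ = 2) {S : Set E} {p : E}
    {u v : E → ℂ} (hu : MixN κ S p u) (hv : MixN κ S p v) :
    MixN κ S p (fun z => u z + v z) := by
  obtain ⟨r, W, s, L, ν, hr, hW0, hW, hs, hs1, hL, hν, h⟩ := Mix_common hE (κ := κ) (S := S)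
    (p := p) (a := ![u, v]) (by
      intro i
      fin_cases i
      · exact hu
      · exact hv)
  have hu' := h 0
  have hv' := h 1
  simp only [Matrix.cons_val_zero, Matrix.cons_val_one] at hu' hv'
  obtain ⟨hud, ⟨Cu, hCu⟩, -⟩ := hu
  obtain ⟨hvd, ⟨Cv, hCv⟩, -⟩ := hv
  refine ⟨hud.add hvd, ⟨Cu + Cv, fun z hz => (norm_add_le _ _).trans
    (add_le_add (hCu z hz) (hCv z hz))⟩, r, hr, fun n => 4 * W n, s, 4 * L, ν, hW.mul_left 4, hs,
    hs1, by positivity, hν, ?_⟩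
  intro k z hz hzp hb
  have e0 := IG_add hud hvd (mem_ball_zero_iff.mp hz)
  have e1 := hu' k z hz hzp hb
  have e2 := hv' k z hz hzp hb
  have e3 := mul_nonneg hL.le (Tc_nonneg hν (s := s) 2 hz)
  have e4 := Real.sqrt_nonneg (IG2 (fun z => u z + v z) z)
  have e5 := Real.sqrt_nonneg (IG2 u z)
  have e6 := Real.sqrt_nonneg (IG2 v z)
  have e8 := hW0 k
  rcases hκ with rfl | rfl
  · rw [H6_pow1] at e1 e2 ⊢
    linarith
  · rw [H6_pow2 hz] at e1 e2 ⊢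
    have e7 : Real.sqrt (IG2 (fun z => u z + v z) z) ^ 2 ≤
        (Real.sqrt (IG2 u z) + Real.sqrt (IG2 v z)) ^ 2 := pow_le_pow_left₀ e4 e0 2
    nlinarith [sq_nonneg (Real.sqrt (IG2 u z) - Real.sqrt (IG2 v z))]

/-- `IG_mul` (PV/V3.lean) -/
theorem MixN.mul (hE : ∃ ζ : E, ‖ζ‖ = 1) {κ : ℝ} (hκ : κ = 1 ∨ κ = 2) {S : Set E} {p : E}
    {u v : E → ℂ} (hu : MixN κ S p u) (hv : MixN κ S p v) :
    MixN κ S p (fun z => u z * v z) := by
  obtain ⟨r, W, s, L, ν, hr, hW0, hW, hs, hs1, hL, hν, h⟩ := Mix_common hE (κ := κ) (S := S)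
    (p := p) (a := ![u, v]) (by
      intro i
      fin_cases i
      · exact hu
      · exact hv)
  have hu' := h 0
  have hv' := h 1
  simp only [Matrix.cons_val_zero, Matrix.cons_val_one] at hu' hv'
  obtain ⟨hud, ⟨Cu, hCu⟩, -⟩ := hu
  obtain ⟨hvd, ⟨Cv, hCv⟩, -⟩ := hv
  obtain ⟨K, hKd⟩ : ∃ K : ℝ, K = |Cu| + |Cv| + 1 := ⟨_, rfl⟩
  have hK1 : 1 ≤ K := by
    have := abs_nonneg Cu
    have := abs_nonneg Cv
    linarith
  have hKu : ∀ z ∈ ball (0 : E) 1, ‖u z‖ ≤ K := fun z hz => by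
    have := hCu z hz
    have := le_abs_self Cu
    have := abs_nonneg Cv
    linarith
  have hKv : ∀ z ∈ ball (0 : E) 1, ‖v z‖ ≤ K := fun z hz => by
    have := hCv z hz
    have := le_abs_self Cv
    have := abs_nonneg Cu
    linarith
  refine ⟨hud.mul hvd, ⟨K * K, fun z hz => ?_⟩, r, hr, fun n => 4 * K ^ 2 * W n, s,
    4 * K ^ 2 * L, ν, hW.mul_left _, hs, hs1, by positivity, hν, ?_⟩
  · rw [norm_mul]
    exact mul_le_mul (hKu z hz) (hKv z hz) (norm_nonneg _) (by linarith)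
  intro k z hz hzp hb
  have e0 := IG_mul hud hvd (mem_ball_zero_iff.mp hz)
  have e1 := hu' k z hz hzp hb
  have e2 := hv' k z hz hzp hb
  have e3 := mul_nonneg hL.le (Tc_nonneg hν (s := s) 2 hz)
  have e4 := Real.sqrt_nonneg (IG2 (fun z => u z * v z) z)
  have e5 := Real.sqrt_nonneg (IG2 u z)
  have e6 := Real.sqrt_nonneg (IG2 v z)
  have e7 := hW0 k
  have e8 : Real.sqrt (IG2 (fun z => u z * v z) z) ≤
      K * (Real.sqrt (IG2 u z) + Real.sqrt (IG2 v z)) := by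
    refine e0.trans ?_
    nlinarith [mul_le_mul_of_nonneg_right (hKu z hz) e6, mul_le_mul_of_nonneg_right (hKv z hz) e5]
  have e9 : 4 * K ^ 2 * W k + 4 * K ^ 2 * L * Tc s 2 ν z =
      4 * K ^ 2 * (W k + L * Tc s 2 ν z) := by ring
  rw [e9]
  have hKK : K ≤ K ^ 2 := by nlinarith
  have e10 : 0 ≤ W k + L * Tc s 2 ν z := by linarith
  rcases hκ with rfl | rfl
  · rw [H6_pow1] at e1 e2 ⊢
    set x := Real.sqrt (IG2 u z) with hx
    set y := Real.sqrt (IG2 v z) with hy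
    set w := Real.sqrt (IG2 (fun z => u z * v z) z) with hw
    set T := W k + L * Tc s 2 ν z with hT
    calc w ≤ K * (x + y) := e8
      _ ≤ K * (2 * T) := mul_le_mul_of_nonneg_left (by linarith) (by linarith)
      _ ≤ K ^ 2 * (2 * T) := mul_le_mul_of_nonneg_right hKK (by linarith)
      _ ≤ 4 * K ^ 2 * T := by nlinarith [mul_nonneg (sq_nonneg K) e10]
  · rw [H6_pow2 hz] at e1 e2 ⊢
    set x := Real.sqrt (IG2 u z) with hx
    set y := Real.sqrt (IG2 v z) with hy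
    set w := Real.sqrt (IG2 (fun z => u z * v z) z) with hw
    set T := W k + L * Tc s 2 ν z with hT
    calc w ^ 2 ≤ (K * (x + y)) ^ 2 := pow_le_pow_left₀ e4 e8 2
      _ = K ^ 2 * (x + y) ^ 2 := by ring
      _ ≤ K ^ 2 * (4 * T) :=
        mul_le_mul_of_nonneg_left (by nlinarith [sq_nonneg (x - y)]) (sq_nonneg K)
      _ = 4 * K ^ 2 * T := by ring

/-- as `CalmN_gg` (PV/M10b.lean), with `Tc_gg` (CE/H5.lean) -/
theorem Mix_gg {κ : ℝ} (hκ : 0 ≤ κ) {c p : E} (hc : ‖c‖ < 1) (hp : ‖p‖ = 1) {A : Set E}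
    (hA : ∀ a ∈ A, ‖a‖ < 1) {u : E → ℂ} (hu : MixN κ (linU A p) p u) :
    MixN κ (linU (gg (-c) '' A) (gg (-c) p)) (gg (-c) p) (fun w => u (gg c w)) := by
  have hc' : ‖-c‖ < 1 := by rwa [norm_neg]
  obtain ⟨hu1, ⟨C, hC⟩, r, hr, W, s, L, ν, hW, hs, hs1, hL, hν, hk⟩ := hu
  obtain ⟨r', hr', hcont⟩ := gg_cont hc hp hr
  obtain ⟨C', hC'0, hC'⟩ := Tc_gg (E := E) hc
  obtain ⟨ν', hν', hT⟩ := hC' ν hν
  refine ⟨hu1.comp (CG.gg_holo hc) fun w hw => CG.gg_maps hc hw,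
    ⟨C, fun w hw => hC _ (CG.gg_maps hc hw)⟩, r', hr', W, s, L * C', ν', hW, hs, hs1,
    by positivity, hν', fun k w hw hws hb => ?_⟩
  have hw1 : ‖w‖ < 1 := mem_ball_zero_iff.mp hw
  refine (Real.rpow_le_rpow (gd_IG_nonneg hw1) (CG.IG_aut hu1 (gg_aut hc) hw1)
    (by positivity)).trans ?_
  refine (hk k (gg c w) (CG.gg_maps hc hw) (hcont w hw1 hws) fun b hbS hb1 => ?_).trans ?_
  · have hb' : ‖gg (-c) b‖ < 1 := gg_lt hc' hb1
    have h1 : HH b (gg c w) = HH (gg (-c) b) w := by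
      have h := HH_gg hc hb' hw1
      rwa [CG.gg_gg_neg hc hb1.le] at h
    rw [h1]
    exact hb _ (gg_linU hc hp hA hbS hb1) hb'
  · have h2 := mul_le_mul_of_nonneg_left (hT s hs.le (by linarith) w hw) hL.le
    rw [mul_assoc]
    linarith

end Pool.Agent.MPca0fc2.CE
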