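import Mathlib
import Pool.Agent.Lib.MP_ca0fc2_an.CE.H0
import Pool.Agent.Lib.MP_ca0fc2_an.CE.H1
import Pool.Agent.Lib.MP_ca0fc2_an.PV.M8b
import Pool.Agent.Lib.MP_ca0fc2_an.PV.M8c
import Pool.Agent.Lib.MP_ca0fc2_an.VK.D1

set_option autoImplicit false
set_option linter.unusedSectionVars false

open Metric Set MeasureTheory Filter Topology
open scoped InnerProductSpace ENNReal ContDiff

namespace Pool.Agent.MPca0fc2.CE

open Pool.Agent.MPca0fc2.PT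
open Pool.Agent.MPca0fc2.QT
open Pool.Agent.MPca0fc2.TS
open Pool.Agent.MPca0fc2.TE
open Pool.Agent.MPca0fc2.TK
open Pool.Agent.MPca0fc2.VK
open Pool.Agent.MPca0fc2.PV

variable {E : Type*} [NormedAddCommGroup E] [InnerProductSpace ℂ E] [FiniteDimensional ℂ E]
  [MeasurableSpace E] [BorelSpace E]


/-- Proof. `G₁ x = min (G x) (Th W (HS S x))` for `‖x - p‖ < r₀` and `G₁ = G` elsewhere, `G₂ = G - G₁`, so `0 ≤ G₂ ≤ L Tc s 2 ν` (`HS_cont`, `Th_cont` for the measurability). `OmG_add`; `pv_OmN` (PV/M8c.lean) for `G₁`; `OmG_mono`, `OmG_smul`, `OmG_Tc3` for `G₂` (`Tc_le`, `Tc_cont`). -/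
theorem OmN_mix (μ : Measure E) [μ.IsAddHaarMeasure] {m : ℕ} (hm : 1 ≤ m)
    (hdim : Module.finrank ℂ E = m + 1) {p : E} (hp : ‖p‖ = 1) {r₀ : ℝ} (hr₀ : 0 < r₀) {B s : ℝ}
    (hs : 0 < s) (hs1 : s ≤ 1 / 8) :
    ∃ C r' : ℝ, 0 < C ∧ 0 < r' ∧ ∀ S : Set E, (S ∩ ball 0 1).Nonempty → ∀ W : ℕ → ℝ,
      (∀ i, 0 ≤ W i) → Summable W → ∀ ν : Measure E, Car ν → ∀ L : ℝ, 0 ≤ L → ∀ G : E → ℝ,
      AEMeasurable G (μ.restrict (ball 0 1)) →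
      (∀ x ∈ ball (0 : E) 1, 0 ≤ G x ∧ G x ≤ B) →
      (∀ x ∈ ball (0 : E) 1, ‖x - p‖ < r₀ → G x ≤ Th W (HS S x) + L * Tc s 2 ν x) →
      ∀ y : E, ‖y‖ < 1 → ‖y - p‖ < r' → Om (nuG μ m (m + 3) G) (m + 3) y ≤
        C * (Th W (HS S y) + L * Tc s 1 ν y + (1 - ‖y‖ ^ 2) ^ (1 / 4 : ℝ)) := by
  have hE : ∃ ζ : E, ‖ζ‖ = 1 := ⟨p, hp⟩
  obtain ⟨C1, r1, hC1, hr1, hk⟩ := pv_OmN μ hm hdim hp hr₀ (B := B)
  obtain ⟨C3, hC3, h3⟩ := OmG_Tc3 μ hm hdim hs hs1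
  obtain ⟨Ct, hCt, hct⟩ := Tc_le (E := E) hE hs 2
  refine ⟨C1 + C3, r1, by positivity, hr1, ?_⟩
  intro S hS W hW0 hW ν hν L hL G hGm hG hG1 y hy hyp
  have hyb : y ∈ ball (0 : E) 1 := by rwa [mem_ball_zero_iff]
  have hThm : AEMeasurable (fun x => Th W (HS S x)) (μ.restrict (ball 0 1)) := by
    refine ContinuousOn.aemeasurable ?_ measurableSet_ball
    refine (Th_cont hW0 hW).comp (HS_cont hS) ?_
    intro x hx
    rw [mem_ball_zero_iff] at hx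
    exact (HS_pos hS hx).1
  obtain ⟨G2, hG2d⟩ : ∃ G2 : E → ℝ,
    G2 = (ball p r₀).indicator (fun x => G x - min (G x) (Th W (HS S x))) := ⟨_, rfl⟩
  obtain ⟨G1, hG1d⟩ : ∃ G1 : E → ℝ, G1 = fun x => G x - G2 x := ⟨_, rfl⟩
  have hG2m : AEMeasurable G2 (μ.restrict (ball 0 1)) := by
    rw [hG2d]
    exact (hGm.sub (hGm.min hThm)).indicator measurableSet_ball
  have hG1m : AEMeasurable G1 (μ.restrict (ball 0 1)) := by
    rw [hG1d]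
    exact hGm.sub hG2m
  have hin : ∀ x, x ∈ ball p r₀ → G2 x = G x - min (G x) (Th W (HS S x)) := by
    intro x hx
    rw [hG2d]
    exact Set.indicator_of_mem hx _
  have hout : ∀ x, x ∉ ball p r₀ → G2 x = 0 := by
    intro x hx
    rw [hG2d]
    exact Set.indicator_of_notMem hx _
  have hT0 : ∀ x ∈ ball (0 : E) 1, 0 ≤ Th W (HS S x) := by
    intro x hx
    rw [mem_ball_zero_iff] at hx
    exact Th_nonneg hW0 (HS_pos hS hx).1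
  have hG2b : ∀ x ∈ ball (0 : E) 1, 0 ≤ G2 x ∧ G2 x ≤ G x := by
    intro x hx
    by_cases h : x ∈ ball p r₀
    · rw [hin x h]
      have h1 : min (G x) (Th W (HS S x)) ≤ G x := min_le_left _ _
      have h2 : 0 ≤ min (G x) (Th W (HS S x)) := le_min (hG x hx).1 (hT0 x hx)
      constructor <;> linarith
    · rw [hout x h]
      exact ⟨le_rfl, (hG x hx).1⟩
  have hG2B : ∀ x ∈ ball (0 : E) 1, 0 ≤ G2 x ∧ G2 x ≤ B := fun x hx =>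
    ⟨(hG2b x hx).1, (hG2b x hx).2.trans (hG x hx).2⟩
  have hG1B : ∀ x ∈ ball (0 : E) 1, 0 ≤ G1 x ∧ G1 x ≤ B := by
    intro x hx
    have h1 := hG2b x hx
    have h2 := hG x hx
    rw [hG1d]
    constructor
    · show 0 ≤ G x - G2 x
      linarith
    · show G x - G2 x ≤ B
      linarith
  have hG1T : ∀ x ∈ ball (0 : E) 1, ‖x - p‖ < r₀ → G1 x ≤ Th W (HS S x) := by
    intro x hx hxp
    have h : x ∈ ball p r₀ := by rwa [mem_ball, dist_eq_norm]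
    rw [hG1d]
    show G x - G2 x ≤ _
    rw [hin x h]
    have h1 : min (G x) (Th W (HS S x)) ≤ Th W (HS S x) := min_le_right _ _
    linarith
  have hTc0 : ∀ x ∈ ball (0 : E) 1, 0 ≤ Tc s 2 ν x := fun x hx => Tc_nonneg hν 2 hx
  have hG2T : ∀ x ∈ ball (0 : E) 1, G2 x ≤ L * Tc s 2 ν x := by
    intro x hx
    have h0 := mul_nonneg hL (hTc0 x hx)
    by_cases h : x ∈ ball p r₀
    · rw [hin x h]
      rw [mem_ball, dist_eq_norm] at h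
      have h1 := hG1 x hx h
      rcases min_choice (G x) (Th W (HS S x)) with h2 | h2
      · rw [h2]; linarith
      · rw [h2]; linarith
    · rw [hout x h]
      exact h0
  have hGe : G = fun x => G1 x + G2 x := by
    funext x
    rw [hG1d]
    ring
  have e1 : Om (nuG μ m (m + 3) G) (m + 3) y =
      Om (nuG μ m (m + 3) G1) (m + 3) y + Om (nuG μ m (m + 3) G2) (m + 3) y := by
    have h := OmG_add μ (m := m) (M := m + 3) (by omega) hG1m hG2m hG1B hG2B hyb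
    rw [← hGe] at h
    exact h
  have e2 := hk S hS W hW0 hW G1 hG1m hG1B hG1T y hy hyp
  have hTcm : AEMeasurable (Tc s 2 ν) (μ.restrict (ball 0 1)) :=
    (Tc_cont hE hν hs 2).aemeasurable measurableSet_ball
  have e3 : Om (nuG μ m (m + 3) G2) (m + 3) y ≤
      Om (nuG μ m (m + 3) (fun x => L * Tc s 2 ν x)) (m + 3) y := by
    refine OmG_mono μ (m := m) (M := m + 3) (B := L * Ct) (by omega) (fun x hx => ?_) hyb
    exact ⟨(hG2b x hx).1, hG2T x hx, mul_le_mul_of_nonneg_left (hct ν hν x hx) hL⟩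
  have e4 := OmG_smul μ (m := m) (M := m + 3) (by omega) hTcm (B := Ct)
    (fun x hx => ⟨hTc0 x hx, hct ν hν x hx⟩) hL hyb
  have e5 := mul_le_mul_of_nonneg_left (h3 ν hν y hyb) hL
  have hTy := hT0 y hyb
  have hTc1 : 0 ≤ L * Tc s 1 ν y := mul_nonneg hL (Tc_nonneg hν 1 hyb)
  have hb : 0 < 1 - ‖y‖ ^ 2 := by nlinarith [norm_nonneg y]
  have hb4 : 0 < (1 - ‖y‖ ^ 2) ^ (1 / 4 : ℝ) := Real.rpow_pos_of_pos hb _
  have f1 : 0 ≤ C3 * (Th W (HS S y) + (1 - ‖y‖ ^ 2) ^ (1 / 4 : ℝ)) := by positivity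
  have f2 : 0 ≤ C1 * (L * Tc s 1 ν y) := by positivity
  rw [e1]
  calc _ ≤ C1 * (Th W (HS S y) + (1 - ‖y‖ ^ 2) ^ (1 / 4 : ℝ)) + L * (C3 * Tc s 1 ν y) := by
        linarith
    _ ≤ _ := by nlinarith

/-- The depth relative to the far part `K` of the sphere: `b = dk K`, `K = {ζ | ‖ζ‖ = 1, r ≤ ‖ζ - p‖}`. Proof. `Dst_dk` (VK/D1.lean). For `‖x - p‖ < c`: `re (1 - ⟪ζ, x⟫) = re (1 - ⟪ζ, p⟫) + re ⟪ζ, p - x⟫ ≥ r²/2 - c ≥ c`. For `‖x - p‖ ≥ r'`: if `‖x‖ ≤ 1/2` then `1 - ‖x‖² ≥ 3/4`, `b ≤ 2`; otherwise, `ζ = x/‖x‖`: `‖1 - ⟪ζ, x⟫‖ = 1 - ‖x‖`; if `ζ ∈ K` then `b x ≤ 1 - ‖x‖ ≤ 1 - ‖x‖²`; if `ζ ∉ K`, `‖ζ - p‖ < r ≤ r'/2` and `‖x - p‖ ≥ r'` give `1 - ‖x‖ = ‖ζ - x‖ ≥ r'/2`. So take `r = min (r'/2) 1` (then `-p ∈ K`) and `c = min (r²/4) (r'/4)` (and `c ≤ 3/8`). -/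
theorem far_b {p : E} (hp : ‖p‖ = 1) {r' : ℝ} (hr' : 0 < r') : ∃ (C c : ℝ) (b : E → ℝ),
    0 < C ∧ 0 < c ∧ Dst C b ∧ (∀ x ∈ ball (0 : E) 1, ‖x - p‖ < c → c ≤ b x) ∧
      ∀ x ∈ ball (0 : E) 1, r' ≤ ‖x - p‖ → c * b x ≤ 1 - ‖x‖ ^ 2 := by
  obtain ⟨r, hrd⟩ : ∃ r : ℝ, r = min (r' / 2) 1 := ⟨_, rfl⟩
  have hr0 : 0 < r := by rw [hrd]; exact lt_min (by positivity) one_pos
  have hr1 : r ≤ 1 := by rw [hrd]; exact min_le_right _ _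
  have hr2 : r ≤ r' / 2 := by rw [hrd]; exact min_le_left _ _
  obtain ⟨c, hcd⟩ : ∃ c : ℝ, c = min (min (r ^ 2 / 4) (r' / 4)) (3 / 8) := ⟨_, rfl⟩
  have hc0 : 0 < c := by
    rw [hcd]; exact lt_min (lt_min (by positivity) (by positivity)) (by norm_num)
  have hc1 : c ≤ r ^ 2 / 4 := by rw [hcd]; exact (min_le_left _ _).trans (min_le_left _ _)
  have hc2 : c ≤ r' / 4 := by rw [hcd]; exact (min_le_left _ _).trans (min_le_right _ _)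
  have hc3 : c ≤ 3 / 8 := by rw [hcd]; exact min_le_right _ _
  obtain ⟨K, hKd⟩ : ∃ K : Set E, K = {ζ | ‖ζ‖ = 1 ∧ r ≤ ‖ζ - p‖} := ⟨_, rfl⟩
  have hKp : -p ∈ K := by
    rw [hKd]
    refine ⟨by rw [norm_neg, hp], ?_⟩
    have e : -p - p = -((2 : ℂ) • p) := by rw [two_smul]; abel
    rw [e, norm_neg, norm_smul, hp]
    norm_num
    linarith
  have hKs : K ⊆ sphere 0 1 := by
    rw [hKd]
    intro ζ hζ
    simpa using hζ.1
  have hKn : K.Nonempty := ⟨_, hKp⟩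
  have hD := Dst_dk hKn hKs
  have hbd : ∀ z : E, BddBelow ((fun ζ => ‖1 - ⟪ζ, z⟫_ℂ‖) '' K) := fun z =>
    ⟨0, by rintro _ ⟨ζ, _, rfl⟩; exact norm_nonneg _⟩
  have hle : ∀ z : E, ∀ ζ ∈ K, dk K z ≤ ‖1 - ⟪ζ, z⟫_ℂ‖ := fun z ζ hζ =>
    csInf_le (hbd z) ⟨ζ, hζ, rfl⟩
  refine ⟨4, c, dk K, by norm_num, hc0, hD, ?_, ?_⟩
  · intro x hx hxp
    refine le_csInf (hKn.image _) ?_
    rintro _ ⟨ζ, hζ, rfl⟩
    rw [hKd] at hζ
    obtain ⟨hζ1, hζr⟩ := hζ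
    show c ≤ ‖1 - ⟪ζ, x⟫_ℂ‖
    have h1 : ‖ζ - p‖ ^ 2 = ‖ζ‖ ^ 2 - 2 * (⟪ζ, p⟫_ℂ).re + ‖p‖ ^ 2 := by
      have := @norm_sub_sq ℂ E _ _ _ ζ p
      simpa using this
    rw [hp, hζ1] at h1
    have h2 : r ^ 2 ≤ ‖ζ - p‖ ^ 2 := by gcongr
    have h3 : ‖⟪ζ, p - x⟫_ℂ‖ ≤ ‖x - p‖ := by
      have h4 := norm_inner_le_norm (𝕜 := ℂ) ζ (p - x)
      rwa [norm_sub_rev p x, hζ1, one_mul] at h4
    have h5 : (1 - ⟪ζ, x⟫_ℂ).re = (1 - (⟪ζ, p⟫_ℂ).re) + (⟪ζ, p - x⟫_ℂ).re := by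
      rw [inner_sub_right, Complex.sub_re, Complex.sub_re, Complex.one_re]
      ring
    have h6 : -‖⟪ζ, p - x⟫_ℂ‖ ≤ (⟪ζ, p - x⟫_ℂ).re :=
      (abs_le.1 (Complex.abs_re_le_norm (⟪ζ, p - x⟫_ℂ))).1
    have h7 : (1 - ⟪ζ, x⟫_ℂ).re ≤ ‖1 - ⟪ζ, x⟫_ℂ‖ := Complex.re_le_norm _
    linarith
  · intro x hx hxp
    rw [mem_ball_zero_iff] at hx
    have hx0 := norm_nonneg x
    have hb2 : dk K x ≤ 2 := by
      refine (hle x _ hKp).trans ?_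
      have h1 : ‖1 - ⟪-p, x⟫_ℂ‖ ≤ ‖(1 : ℂ)‖ + ‖⟪-p, x⟫_ℂ‖ := norm_sub_le _ _
      have h2 : ‖⟪-p, x⟫_ℂ‖ ≤ ‖-p‖ * ‖x‖ := norm_inner_le_norm _ _
      rw [norm_neg, hp] at h2
      rw [norm_one] at h1
      linarith
    have hsq : ‖x‖ ^ 2 ≤ ‖x‖ := by nlinarith
    rcases le_or_gt ‖x‖ (1 / 2) with h | h
    · have h1 : c * dk K x ≤ c * 2 := mul_le_mul_of_nonneg_left hb2 hc0.le
      nlinarith
    · have hxp0 : 0 < ‖x‖ := by linarith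
      obtain ⟨ζ, hζd⟩ : ∃ ζ : E, ζ = ((‖x‖⁻¹ : ℝ) : ℂ) • x := ⟨_, rfl⟩
      have hζ1 : ‖ζ‖ = 1 := by
        rw [hζd, norm_smul, Complex.norm_real, norm_inv, norm_norm, inv_mul_cancel₀ hxp0.ne']
      have hζx : ‖1 - ⟪ζ, x⟫_ℂ‖ = 1 - ‖x‖ := by
        have e1 : ⟪ζ, x⟫_ℂ = ((‖x‖ : ℝ) : ℂ) := by
          rw [hζd, inner_smul_left, inner_self_eq_norm_sq_to_K, Complex.conj_ofReal]
          push_cast
          have : ((‖x‖ : ℝ) : ℂ) ≠ 0 := by exact_mod_cast hxp0.ne'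
          field_simp
          rfl
        rw [e1, ← Complex.ofReal_one, ← Complex.ofReal_sub, Complex.norm_real,
          Real.norm_of_nonneg (by linarith)]
      by_cases hK : ζ ∈ K
      · have h1 := hle x ζ hK
        rw [hζx] at h1
        have h2 : c * dk K x ≤ c * (1 - ‖x‖) := mul_le_mul_of_nonneg_left h1 hc0.le
        nlinarith
      · have h1 : ‖ζ - p‖ < r := by
          by_contra h2
          push Not at h2
          apply hK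
          rw [hKd]
          exact ⟨hζ1, h2⟩
        have h2 : ‖x - ζ‖ = 1 - ‖x‖ := by
          have e1 : x - ζ = ((1 - ‖x‖⁻¹ : ℝ) : ℂ) • x := by
            rw [hζd]
            push_cast
            rw [sub_smul, one_smul]
          have e2 : 1 ≤ ‖x‖⁻¹ := (one_le_inv₀ hxp0).2 hx.le
          rw [e1, norm_smul, Complex.norm_real, Real.norm_of_nonpos (by linarith)]
          field_simp
          ring
        have h3 : ‖x - p‖ ≤ ‖x - ζ‖ + ‖ζ - p‖ := norm_sub_le_norm_sub_add_norm_sub _ _ _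
        have h4 : c * dk K x ≤ c * 2 := mul_le_mul_of_nonneg_left hb2 hc0.le
        linarith

end Pool.Agent.MPca0fc2.CE
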