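import Mathlib
import Pool.Agent.Lib.MP_ca0fc2_an.VK.V6

set_option autoImplicit false
set_option linter.unusedSectionVars false

open Metric Set MeasureTheory Filter Topology
open scoped InnerProductSpace ENNReal ContDiff

namespace Pool.Agent.MPca0fc2.CE

open Pool.Agent.MPca0fc2.PT
open Pool.Agent.MPca0fc2.QT
open Pool.Agent.MPca0fc2.TS
open Pool.Agent.MPca0fc2.TE
open Pool.Agent.MPca0fc2.TK
open Pool.Agent.MPca0fc2.VK

variable {E : Type*} [NormedAddCommGroup E] [InnerProductSpace ℂ E] [FiniteDimensional ℂ E]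
  [MeasurableSpace E] [BorelSpace E]


private theorem HV_rt {θ : ℝ} (h0 : 0 < θ) (h1 : θ < 1) :
    Tendsto (fun K : ℕ => PT.rt θ K) atTop (𝓝 1) := by
  have h := (tendsto_pow_atTop_nhds_zero_of_lt_one h0.le h1).const_sub 1
  rw [sub_zero] at h
  exact h

private theorem HV_pt {θ : ℝ} (h0 : 0 < θ) (h1 : θ < 1) (z : E) :
    Tendsto (fun K : ℕ => ((PT.rt θ K : ℝ) : ℂ) • z) atTop (𝓝 z) := by
  have h2 : Tendsto (fun K : ℕ => ((PT.rt θ K : ℝ) : ℂ)) atTop (𝓝 ((1 : ℝ) : ℂ)) :=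
    (Complex.continuous_ofReal.tendsto 1).comp (HV_rt h0 h1)
  have h3 := h2.smul_const z
  rw [Complex.ofReal_one, one_smul] at h3
  exact h3

private theorem HV_lim {θ : ℝ} (h0 : 0 < θ) (h1 : θ < 1) {F : Type*} [TopologicalSpace F] {Φ : E → F}
    (hΦ : ContinuousOn Φ (ball 0 1)) {z : E} (hz : z ∈ ball (0 : E) 1) :
    Tendsto (fun K : ℕ => Φ (((PT.rt θ K : ℝ) : ℂ) • z)) atTop (𝓝 (Φ z)) :=
  ((hΦ.continuousAt (isOpen_ball.mem_nhds hz)).tendsto).comp (HV_pt h0 h1 z)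

/-- `VK.extendV` (VK/V6.lean) for every `M ≥ m + 2` instead of `m + 2`. The same proof (`LD_exists`, `levelV`, `nuE_OnB` are stated for general `M`; if some private lemma of V6.lean is stated for `m + 2` only, copy and generalize it, prefix `HV_`). -/
theorem extendV_M (μ : Measure E) [μ.IsAddHaarMeasure] {m : ℕ} (hm : 1 ≤ m)
    (hdim : Module.finrank ℂ E = m + 1) {M : ℕ} (hM : m + 2 ≤ M) (N : ℕ) {δ A : ℝ} (hδ : 0 < δ)
    (hA : 0 < A) (J : ℕ) {C : ℝ} (hC : 0 < C) : ∃ C' : ℝ, 0 < C' ∧ ∀ f : Fin N → E → ℂ,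
      (∀ j, DifferentiableOn ℂ (f j) (ball 0 1)) →
      (∀ z ∈ ball (0 : E) 1, δ ≤ ∑ j, ‖f j z‖ ^ 2 ∧ ∑ j, ‖f j z‖ ^ 2 ≤ 1) →
      ∀ P : E →L[ℂ] E, Prj P → ∀ g : Fin N → E → ℂ,
      (∀ j, DifferentiableOn ℂ (fun z => g j (P z)) (ball 0 1)) →
      (∀ z ∈ ball (0 : E) 1, ∑ j, f j (P z) * g j (P z) = 1 ∧ ∑ j, ‖g j (P z)‖ ^ 2 ≤ A ^ 2) →
      ∀ G : E → ℂ, DifferentiableOn ℂ G (ball 0 1) → (∀ z ∈ ball (0 : E) 1, G z ≠ 0) →
      (∃ (a : ℕ) (c : ℝ), ∀ z ∈ ball (0 : E) 1, ‖G z‖ ≤ c * (1 / (1 - ‖z‖ ^ 2)) ^ a) →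
      ∀ Q : E → ℝ, VW J C Q →
      (∀ y ∈ ball (0 : E) 1, Om (nuE μ m M f) M y ≤ Q y * ‖G y‖) →
      ∃ h : Fin N → E → ℂ, (∀ j, DifferentiableOn ℂ (h j) (ball 0 1)) ∧
        ∀ z ∈ ball (0 : E) 1, ∑ j, f j z * h j z = 1 ∧ (∀ j, h j (P z) = g j (P z)) ∧
          ∀ j, ‖h j z‖ ≤ C' * (1 + ‖G z‖ * (Q z + GI Q P z)) := by
  obtain ⟨θ, h0, h1, hTD⟩ := exists_theta (E := E) N hδ
  obtain ⟨C₀, hC₀, hLD⟩ := LD_exists μ hm hdim hM N hδ hA (δ' := δ) h0 h1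
  obtain ⟨C₁, hC₁, hlev⟩ := levelV μ hm hdim N h0 h1 hC₀ M J hC
  obtain ⟨B₂, hB₂, hGI⟩ := GI_upV μ hm hdim J hC
  refine ⟨C₁ * (1 + B₂), by positivity,
    fun f hf hfδ P hP g hg hg1 G hG hG0 hGp Q hQ hOm => ?_⟩
  obtain ⟨a, c, hloc⟩ := locV μ hm hdim h0 h1 J hC hGp hQ
  have hfM : ∀ j, ∀ z ∈ ball (0 : E) 1, ‖f j z‖ ≤ 1 := by
    intro j z hz
    have e1 : ‖f j z‖ ^ 2 ≤ 1 :=
      (Finset.single_le_sum (f := fun j => ‖f j z‖ ^ 2) (fun i _ => sq_nonneg _)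
        (Finset.mem_univ j)).trans (hfδ z hz).2
    have e2 : 0 ≤ ‖f j z‖ := norm_nonneg _
    nlinarith
  have hT : TD f δ θ := hTD f hf hfM fun z hz => (hfδ z hz).1
  have hν : OnB (nuE μ m M f) := nuE_OnB μ hM hf hfM
  have hνQ : OnB (nuV μ J Q) := nuV_OnB μ hQ
  have hpos : ∀ z ∈ ball (0 : E) 1, 0 < 1 - ‖z‖ ^ 2 := by
    intro z hz
    rw [mem_ball_zero_iff] at hz
    nlinarith [norm_nonneg z]
  have hΦc : ContinuousOn (fun z : E => C₁ * (1 + c * (1 / (1 - ‖z‖ ^ 2)) ^ a)) (ball 0 1) := by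
    refine continuousOn_const.mul (continuousOn_const.add (continuousOn_const.mul
      ((continuousOn_const.div ?_ ?_).pow a)))
    · exact (continuous_const.sub (continuous_norm.pow 2)).continuousOn
    · intro z hz
      exact (hpos z hz).ne'
  obtain ⟨h, hh, hh'⟩ := limitE (f := f) (θ := θ) h0 h1 hf hP hg
    (B := fun K z => C₁ * (1 + ‖G ((PT.rt θ K : ℂ) • z)‖ *
      (Wk (nuV μ J Q) (m + 2 + J) θ K z + GI (Wk (nuV μ J Q) (m + 2 + J) θ K) P z)))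
    (B' := fun z => C₁ * (1 + ‖G z‖ *
      (Om (nuV μ J Q) (m + 2 + J) z + GI (Om (nuV μ J Q) (m + 2 + J)) P z)))
    (Φ := fun z => C₁ * (1 + c * (1 / (1 - ‖z‖ ^ 2)) ^ a)) hΦc
    (fun K z hz => by
      have h4 := hloc P hP K z hz
      exact mul_le_mul_of_nonneg_left (by linarith) hC₁.le)
    (fun z hz => by
      have hz1 : ‖z‖ < 1 := mem_ball_zero_iff.mp hz
      have e1 := (HV_lim h0 h1 hG.continuousOn hz).norm
      have e2 : Tendsto (fun K => Wk (nuV μ J Q) (m + 2 + J) θ K z) atTop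
          (𝓝 (Om (nuV μ J Q) (m + 2 + J) z)) := by
        have e3 := HV_lim h0 h1 (Om_cont hνQ (m + 2 + J)) hz
        refine e3.congr fun K => ?_
        rw [Wk_eq]
      have e4 := GI_lim hP hνQ (m + 2 + J) h0 h1 hz1
      exact (tendsto_const_nhds.add (e1.mul (e2.add e4))).const_mul C₁)
    (fun K hK => by
      obtain ⟨σ, hσ, hσP⟩ := hLD f hf hfδ hT P hP g hg hg1 K hK
      obtain ⟨H, hH, hH'⟩ := hlev _ hν K hK P σ (FF f θ K) hσ G hG hG0 Q hQ hOm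
      refine ⟨H, hH, fun z hz => ?_⟩
      obtain ⟨a1, a2, a3⟩ := hH' z hz
      refine ⟨?_, fun j => ?_, a3⟩
      · rw [← a1]
        unfold FF
        simp only [ContinuousLinearMap.sum_apply, ContinuousLinearMap.smul_apply,
          ContinuousLinearMap.proj_apply, smul_eq_mul]
      · rw [a2 j, hσP z hz j])
  refine ⟨h, hh, fun z hz => ?_⟩
  obtain ⟨a1, a2, a3⟩ := hh' z hz
  refine ⟨a1, a2, fun j => (a3 j).trans ?_⟩
  have hz1 : ‖z‖ < 1 := mem_ball_zero_iff.mp hz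
  have b1 := hGI Q hQ P hP z hz
  have b3 : 0 ≤ GI Q P z := GI_nonneg hP (fun y hy => (hQ.pos y hy).le) hz1
  have b4 : 0 ≤ Q z := (hQ.pos z hz).le
  have b5 := mul_le_mul_of_nonneg_left b1 (norm_nonneg (G z))
  have b6 : 0 ≤ ‖G z‖ * (Q z + GI Q P z) := mul_nonneg (norm_nonneg _) (add_nonneg b4 b3)
  change C₁ * (1 + ‖G z‖ * (Om (nuV μ J Q) (m + 2 + J) z +
    GI (Om (nuV μ J Q) (m + 2 + J)) P z)) ≤ _
  rw [mul_assoc]
  refine mul_le_mul_of_nonneg_left ?_ hC₁.le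
  nlinarith

end Pool.Agent.MPca0fc2.CE
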