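import Mathlib
import Pool.Agent.Lib.MP_ca0fc2_an.CE.HV
import Pool.Agent.Lib.MP_ca0fc2_an.CE.H2
import Pool.Agent.Lib.MP_ca0fc2_an.CE.H6
import Pool.Agent.Lib.MP_ca0fc2_an.CE.H8
import Pool.Agent.Lib.MP_ca0fc2_an.CE.D1
import Pool.Agent.Lib.MP_ca0fc2_an.PV.M9

set_option autoImplicit false
set_option linter.unusedSectionVars false

open Metric Set MeasureTheory Filter Topology
open scoped InnerProductSpace ENNReal ContDiff

namespace Pool.Agent.MPca0fc2.CE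

open Pool.Agent.MPca0fc2.PT
open Pool.Agent.MPca0fc2.QT
open Pool.Agent.MPca0fc2.TS
open Pool.Agent.MPca0fc2.TE
open Pool.Agent.MPca0fc2.TK
open Pool.Agent.MPca0fc2.VK
open Pool.Agent.MPca0fc2.PV

variable {E : Type*} [NormedAddCommGroup E] [InnerProductSpace ℂ E] [FiniteDimensional ℂ E]
  [MeasurableSpace E] [BorelSpace E]


private theorem H9_Pp {p : E} (hp : ‖p‖ = 1) : Pe p p = p := by
  have h2 : Pe p p = ⟪p, p⟫_ℂ • p := rfl
  rw [h2, inner_self_eq_norm_sq_to_K, hp]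
  simp

/-- the points of the path are not farther from `p` -/
private theorem H9_dist {p z : E} (hp : ‖p‖ = 1) {t : ℝ} (h0 : 0 ≤ t) (h1 : t ≤ 1) :
    ‖pt (Pe p) t z - p‖ ≤ ‖z - p‖ := by
  have hP := Pe_prj hp
  have e1 := pyth hP (z - p)
  have e2 := pyth hP (pt (Pe p) t z - p)
  have e3 : Pe p (pt (Pe p) t z - p) = Pe p (z - p) := by
    unfold pt
    rw [map_sub, map_add, map_smul, map_sub, hP.idem, sub_self, smul_zero, add_zero, map_sub]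
  have e4 : pt (Pe p) t z - p - Pe p (z - p) = (t : ℂ) • (z - p - Pe p (z - p)) := by
    unfold pt
    rw [map_sub, H9_Pp hp, show z - p - (Pe p z - p) = z - Pe p z by abel]
    abel
  rw [e3, e4, norm_smul, Complex.norm_real, Real.norm_of_nonneg h0] at e2
  have e5 : (t * ‖z - p - Pe p (z - p)‖) ^ 2 ≤ ‖z - p - Pe p (z - p)‖ ^ 2 := by
    apply pow_le_pow_left₀ (mul_nonneg h0 (norm_nonneg _))
    exact mul_le_of_le_one_left (norm_nonneg _) h1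
  have e6 : ‖pt (Pe p) t z - p‖ ^ 2 ≤ ‖z - p‖ ^ 2 := by linarith
  exact le_of_sq_le_sq e6 (norm_nonneg _)

private theorem H9_lt {P : E →L[ℂ] E} (hP : Prj P) {z : E} (hz : ‖z‖ < 1) {t : ℝ} (h0 : 0 ≤ t)
    (h1 : t ≤ 1) : ‖pt P t z‖ < 1 := by
  obtain ⟨a1, -, a3, -⟩ := Dp_anti hP hz h0 h1 le_rfl
  have a4 := (Dp_anti hP hz h0 h1 le_rfl).2.2.2
  rw [← Dp_eq hP t z] at a4
  by_contra hcon
  push Not at hcon
  nlinarith [norm_nonneg (pt P t z)]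

/-- the two depths are comparable where the line through `0` is the nearest one -/
private theorem H9_HS {p : E} (hp : ‖p‖ = 1) {A : Set E} (h0 : (0 : E) ∈ A) {K : ℝ} {y : E}
    (hy : ‖y‖ < 1) (hN : Nr K A p y) :
    ro (Pe p) y ≤ HS (linU A p) y ∧ HS (linU A p) y ≤ K * ro (Pe p) y := by
  have hne : (linU A p ∩ ball (0 : E) 1).Nonempty :=
    ⟨0, ⟨0, h0, 0, by simp⟩, mem_ball_self one_pos⟩
  refine ⟨?_, HS_le hne hN⟩
  obtain ⟨b, hb, hb1, hb2⟩ := HH_lin_eq (a := 0) hp (by simp) hy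
  rw [rs_zero hp hy] at hb2
  rw [← hb2]
  exact HS_ge hy ⟨0, h0, hb⟩ hb1

/-- the profile of the depths, where they are comparable -/
private theorem H9_Th {W : ℕ → ℝ} (hW0 : ∀ i, 0 ≤ W i) (hW : Summable W) {ρ σ K : ℝ} (hσ : 0 < σ)
    (h1 : σ ≤ ρ) (h2 : ρ ≤ K * σ) : Th W ρ ≤ (K + 1) * Th W σ := by
  have hρ : 0 < ρ := lt_of_lt_of_le hσ h1
  have e1 := Th_cmp hW0 hW hρ hσ
  have e2 : (ρ / σ) ^ (1 / 32 : ℝ) ≤ K := by
    have f1 : ρ / σ ≤ K := by rw [div_le_iff₀ hσ]; exact h2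
    have f2 : 1 ≤ ρ / σ := by rw [le_div_iff₀ hσ]; linarith
    calc (ρ / σ) ^ (1 / 32 : ℝ) ≤ (ρ / σ) ^ (1 : ℝ) :=
          Real.rpow_le_rpow_of_exponent_le f2 (by norm_num)
      _ = ρ / σ := Real.rpow_one _
      _ ≤ K := f1
  have e3 : (σ / ρ) ^ (1 / 32 : ℝ) ≤ 1 := by
    apply Real.rpow_le_one (by positivity) _ (by norm_num)
    rw [div_le_one hρ]
    exact h1
  refine e1.trans (mul_le_mul_of_nonneg_right (by linarith) (Th_nonneg hW0 hσ))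

private theorem H9_quarter {P : E →L[ℂ] E} (hP : Prj P) {y : E} (hy : ‖y‖ < 1) {W : ℕ → ℝ}
    (hW0 : ∀ i, 0 ≤ W i) (hW : Summable W) (hW1 : 1 ≤ W 0) :
    (1 - ‖y‖ ^ 2) ^ (1 / 4 : ℝ) ≤ Th W (ro P y) := by
  obtain ⟨r0, r1⟩ := ro_pos hP hy
  obtain ⟨-, -, hb, -, -⟩ := rr_facts hP hy 0
  have hd : 0 < 1 - ‖y‖ ^ 2 := by nlinarith [norm_nonneg y]
  have e1 : 1 - ‖y‖ ^ 2 ≤ ro P y := by
    unfold ro
    rw [le_div_iff₀ hb]
    have : 1 - ‖P y‖ ^ 2 ≤ 1 := by nlinarith [norm_nonneg (P y)]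
    nlinarith
  calc (1 - ‖y‖ ^ 2) ^ (1 / 4 : ℝ) ≤ (ro P y) ^ (1 / 4 : ℝ) :=
        Real.rpow_le_rpow hd.le e1 (by norm_num)
    _ ≤ (ro P y) ^ (1 / 32 : ℝ) := Real.rpow_le_rpow_of_exponent_ge r0 r1 (by norm_num)
    _ ≤ W 0 * (ro P y) ^ (1 / 32 : ℝ) := le_mul_of_one_le_left (Real.rpow_nonneg r0.le _) hW1
    _ ≤ Th W (ro P y) := Th_low hW0 hW r0 r1

private theorem H9_min {N : ℕ} {s : Fin N → ℝ} (hs : ∀ j, 0 < s j) :
    ∃ s₀ : ℝ, 0 < s₀ ∧ ∀ j, s₀ ≤ s j := by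
  have hsum : 0 ≤ ∑ j, (s j)⁻¹ := Finset.sum_nonneg fun j _ => (inv_pos.2 (hs j)).le
  refine ⟨(1 + ∑ j, (s j)⁻¹)⁻¹, by positivity, fun j => ?_⟩
  have h1 : (s j)⁻¹ ≤ ∑ j, (s j)⁻¹ :=
    Finset.single_le_sum (f := fun j => (s j)⁻¹) (fun i _ => (inv_pos.2 (hs i)).le)
      (Finset.mem_univ j)
  rw [inv_le_comm₀ (by positivity) (hs j)]
  linarith


/-- the profile of the geometric sequence -/
private theorem H9_geo {s : ℝ} (hs : 0 < s) : ∃ V : ℕ → ℝ, (∀ i, 0 ≤ V i) ∧ Summable V ∧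
    ∀ ρ : ℝ, 0 < ρ → ρ ≤ 1 → ρ ^ s ≤ 2 * Th V ρ := by
  have h2 : (1 : ℝ) < 2 ^ s := Real.one_lt_rpow (by norm_num) hs
  have h20 : (0 : ℝ) < 2 ^ s := by positivity
  have hV0 : ∀ i : ℕ, (0 : ℝ) ≤ ((2 : ℝ) ^ s)⁻¹ ^ i := fun i => by positivity
  have hVs : Summable fun i : ℕ => ((2 : ℝ) ^ s)⁻¹ ^ i :=
    summable_geometric_of_lt_one (by positivity) (inv_lt_one_of_one_lt₀ h2)
  refine ⟨fun i => ((2 : ℝ) ^ s)⁻¹ ^ i, hV0, hVs, fun ρ hρ hρ1 => ?_⟩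
  obtain ⟨k, hk1, hk2⟩ := Th_ge hV0 hVs hρ hρ1
  refine le_trans ?_ hk2
  have e1 : ((2 : ℝ) ^ k * ρ) ^ s ≤ 1 := Real.rpow_le_one (by positivity) hk1 hs.le
  have e2 : ((2 : ℝ) ^ k * ρ) ^ s = ((2 : ℝ) ^ s) ^ k * ρ ^ s := by
    rw [Real.mul_rpow (by positivity) hρ.le]
    congr 1
    rw [← Real.rpow_natCast, ← Real.rpow_mul (by norm_num), ← Real.rpow_natCast,
      ← Real.rpow_mul (by norm_num), mul_comm]
  rw [e2] at e1
  rw [inv_pow]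
  have e3 : (0 : ℝ) < ((2 : ℝ) ^ s) ^ k := by positivity
  rw [← one_div, le_div_iff₀ e3, mul_comm]
  exact e1

private theorem H9_Thadd {W V : ℕ → ℝ} (hW0 : ∀ i, 0 ≤ W i) (hW : Summable W)
    (hV0 : ∀ i, 0 ≤ V i) (hV : Summable V) {ρ : ℝ} (hρ : 0 < ρ) :
    Th (fun i => W i + V i) ρ = Th W ρ + Th V ρ := by
  unfold Th
  rw [← (Th_sum hW0 hW hρ).tsum_add (Th_sum hV0 hV hρ)]
  exact tsum_congr fun i => by ring

private theorem H9_quarterS {p : E} (hp : ‖p‖ = 1) {A : Set E} (h0 : (0 : E) ∈ A) {y : E}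
    (hy : ‖y‖ < 1) {W : ℕ → ℝ} (hW0 : ∀ i, 0 ≤ W i) (hW : Summable W) (hW1 : 1 ≤ W 0) :
    (1 - ‖y‖ ^ 2) ^ (1 / 4 : ℝ) ≤ Th W (HS (linU A p) y) := by
  have hP := Pe_prj hp
  have hne : (linU A p ∩ ball (0 : E) 1).Nonempty :=
    ⟨0, ⟨0, h0, 0, by simp⟩, mem_ball_self one_pos⟩
  have hro : ro (Pe p) y ≤ HS (linU A p) y := by
    obtain ⟨b, hb, hb1, hb2⟩ := HH_lin_eq (a := 0) hp (by simp) hy
    rw [rs_zero hp hy] at hb2
    rw [← hb2]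
    exact HS_ge hy ⟨0, h0, hb⟩ hb1
  obtain ⟨r0, r1⟩ := ro_pos hP hy
  obtain ⟨t0, t1⟩ := HS_pos hne hy
  obtain ⟨-, -, hb, -, -⟩ := rr_facts hP hy 0
  have hd : 0 < 1 - ‖y‖ ^ 2 := by nlinarith [norm_nonneg y]
  have e1 : 1 - ‖y‖ ^ 2 ≤ ro (Pe p) y := by
    unfold ro
    rw [le_div_iff₀ hb]
    have : 1 - ‖Pe p y‖ ^ 2 ≤ 1 := by nlinarith [norm_nonneg (Pe p y)]
    nlinarith
  calc (1 - ‖y‖ ^ 2) ^ (1 / 4 : ℝ) ≤ (HS (linU A p) y) ^ (1 / 4 : ℝ) :=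
        Real.rpow_le_rpow hd.le (e1.trans hro) (by norm_num)
    _ ≤ (HS (linU A p) y) ^ (1 / 32 : ℝ) :=
        Real.rpow_le_rpow_of_exponent_ge t0 t1 (by norm_num)
    _ ≤ W 0 * (HS (linU A p) y) ^ (1 / 32 : ℝ) :=
        le_mul_of_one_le_left (Real.rpow_nonneg t0.le _) hW1
    _ ≤ Th W (HS (linU A p) y) := Th_low hW0 hW t0 t1

private theorem H9_dist_pos {C : ℝ} {b : E → ℝ} (h : Dst C b) (hC : 0 < C) {y : E}
    (hy : y ∈ ball (0 : E) 1) : 0 < b y := by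
  have h1 := h.lo y hy
  have hy1 : ‖y‖ < 1 := mem_ball_zero_iff.1 hy
  have h2 : 0 < 1 - ‖y‖ ^ 2 := by nlinarith [norm_nonneg y]
  by_contra hcon
  push Not at hcon
  nlinarith

private theorem H9_Psi (s : ℝ) (b : E → ℝ) (y : E) :
    Psi s (fun _ : Fin 1 => b) y = ((1 - ‖y‖ ^ 2) / b y) ^ s := by
  unfold Psi
  simp

/-- Proof. As `PV.near_E` (PV/M9.lean; copy its private lemmas, prefix `H9_`), with `extendV_M` (CE/HV.lean) instead of `extend_N`. `Mix_common` gives `r₀, W, s, L, ν` for the `f j`; `car_half` (replace `ν`), so `ν ≠ 0`. As there: `G x = ∑ j, IG2 (F j) x ≤ Th W₂ (HS S x) + L' Tc s 2 ν x` for `‖x - p‖ < r₀`, `W₂ 0 ≥ 1`, `G ≤ N`. `OmN_mix` gives `C₂, r'`: `Om ≤ C₂ (Th W₂ (HS S y) + L' Tc s 1 ν y + (1 - ‖y‖²)^(1/4))` for `‖y - p‖ < r'`, and `OmG_bdd`: `Om ≤ C₀` on the ball. `far_b` for `r'`: `b`. With `Q y = Λ (Th W₂ (HS S y) + Tc s 1 ν y + Psi s ![b]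 y) exp (re Fc ν y)` and `G y = exp (- Fc ν y)`: `Om ≤ Q ‖G‖` on the ball (near `p`: `(1 - ‖y‖²)^(1/4) ≤ C Th W₂ (HS S y)`, see `M9_quarter`; far from `p`: `Psi s b ≥ c^s`). `VW_mix` (`Cm2_HS`, `HS_cont`). For `‖z - p‖ < s'` (small), `Nr K A p z`: `extendV_M` and `GI_mix` with `Θ = Λ(Th W₂ ∘ HS S + Psi s b)` reduce the bound to `GI Θ P z ≤ C`: on the path `ro P ≤ HS S ≤ K ro P` (as in `near_E`) and `Psi s b y ≤ (c⁻¹ (1 - ‖y‖²))^s ≤ C Th W₂ (ro P y)` (`b ≥ c` near `p`; `(1 - ‖y‖²)^s ≤ C (ro P y)^(1/32)`; for `s < 1/32` enlarge: use that `(1 - ‖y‖²)^s` is integrable over the path: add the sequence `W i = 2^(-s i)`, or replace `s` in `Psi` by `1/8` - `VW_mix` needs the same `s`, so use instead a second sequence `W₃ i = W₂ i + 2^(-s i)` in `Th`, for which `(ro P y)^s ≤ C Th W₃ (ro P y)`); `GI_at`. -/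
theorem near_EH (hE : 2 ≤ Module.finrank ℂ E) {p : E} (hp : ‖p‖ = 1) {A : Set E}
    (h0 : (0 : E) ∈ A) (hA : ∀ a ∈ A, ‖a‖ < 1) {K : ℝ} (hK : 1 ≤ K) {N : ℕ} {f : Fin N → E → ℂ}
    (hf : ∀ j, MixN 2 (linU A p) p (f j)) {δ : ℝ} (hδ : 0 < δ)
    (hδf : ∀ z ∈ ball (0 : E) 1, δ ≤ ∑ j, ‖f j z‖ ^ 2) :
    ∃ (h : Fin N → E → ℂ) (s C : ℝ), 0 < s ∧ (∀ j, DifferentiableOn ℂ (h j) (ball 0 1)) ∧
      ∀ z ∈ ball (0 : E) 1, ∑ j, f j z * h j z = 1 ∧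
        (‖z - p‖ < s → Nr K A p z → ∀ j, ‖h j z‖ ≤ C) := by
  have hprop : ProperSpace E := FiniteDimensional.proper ℂ E
  obtain ⟨m, hm, hdim⟩ : ∃ m : ℕ, 1 ≤ m ∧ Module.finrank ℂ E = m + 1 :=
    ⟨Module.finrank ℂ E - 1, by omega, by omega⟩
  let μ : Measure E := Measure.addHaar
  have hE' : ∃ ζ : E, ‖ζ‖ = 1 := ⟨p, hp⟩
  have hfd : ∀ j, DifferentiableOn ℂ (f j) (ball 0 1) := fun j => (hf j).1
  choose Bj hBj using fun j => (hf j).2.1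
  obtain ⟨s₀, W, s, L, ν₀, hs₀, hW0, hWs, hs, hs1, hL, hν₀, hfW⟩ := Mix_common hE' hf
  obtain ⟨ν, hν, hνne, hν2⟩ := car_half hE' hν₀
  obtain ⟨B, hBdef⟩ : ∃ B : ℝ, B = ∑ j, |Bj j| := ⟨_, rfl⟩
  have hB : ∀ j, ∀ z ∈ ball (0 : E) 1, ‖f j z‖ ≤ B := by
    intro j z hz
    have e1 : |Bj j| ≤ ∑ j, |Bj j| :=
      Finset.single_le_sum (f := fun j => |Bj j|) (fun i _ => abs_nonneg _) (Finset.mem_univ j)
    rw [hBdef]
    exact (hBj j z hz).trans ((le_abs_self _).trans e1)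
  obtain ⟨S, hSdef⟩ : ∃ S : Set E, S = linU A p := ⟨_, rfl⟩
  have hSne : (S ∩ ball (0 : E) 1).Nonempty := by
    rw [hSdef]
    exact ⟨0, ⟨0, h0, 0, by simp⟩, mem_ball_self one_pos⟩
  obtain ⟨B', hB'⟩ : ∃ B' : ℝ, B' = Real.sqrt N * |B| + 1 := ⟨_, rfl⟩
  have hs0 : 0 ≤ Real.sqrt N * |B| := by positivity
  have hB1 : 1 ≤ B' := by rw [hB']; linarith
  have hB0 : 0 < B' := by linarith
  obtain ⟨P, hPdef⟩ : ∃ P : E →L[ℂ] E, P = (innerSL ℂ p).smulRight p := ⟨_, rfl⟩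
  have hPe : P = Pe p := hPdef
  have hP : Prj P := by rw [hPdef]; exact prj_line hp
  obtain ⟨F, hFdef⟩ : ∃ F : Fin N → E → ℂ, F = fun j z => ((B' : ℝ) : ℂ)⁻¹ * f j z := ⟨_, rfl⟩
  have hFa : ∀ j z, F j z = ((B' : ℝ) : ℂ)⁻¹ * f j z := fun j z => by rw [hFdef]
  have hFn : ∀ j z, ‖F j z‖ ^ 2 = ‖f j z‖ ^ 2 / B' ^ 2 := by
    intro j z
    rw [hFa, norm_mul, norm_inv, Complex.norm_real, Real.norm_of_nonneg hB0.le]
    field_simp
  have hFd : ∀ j, DifferentiableOn ℂ (F j) (ball 0 1) := by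
    intro j
    rw [hFdef]
    exact (hfd j).const_mul _
  have hFs : ∀ z ∈ ball (0 : E) 1, δ / B' ^ 2 ≤ ∑ j, ‖F j z‖ ^ 2 ∧ ∑ j, ‖F j z‖ ^ 2 ≤ 1 := by
    intro z hz
    have e1 : ∑ j, ‖F j z‖ ^ 2 = (∑ j, ‖f j z‖ ^ 2) / B' ^ 2 := by
      rw [Finset.sum_div]
      exact Finset.sum_congr rfl fun j _ => hFn j z
    rw [e1]
    refine ⟨div_le_div_of_nonneg_right (hδf z hz) (by positivity), ?_⟩
    rw [div_le_one (by positivity)]
    have e2 : ∑ j, ‖f j z‖ ^ 2 ≤ ∑ _j : Fin N, |B| ^ 2 := by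
      apply Finset.sum_le_sum
      intro j _
      exact pow_le_pow_left₀ (norm_nonneg _) ((hB j z hz).trans (le_abs_self B)) 2
    rw [Finset.sum_const, Finset.card_univ, Fintype.card_fin, nsmul_eq_mul] at e2
    have e3 : (Real.sqrt N * |B|) ^ 2 = N * |B| ^ 2 := by
      rw [mul_pow, Real.sq_sqrt (Nat.cast_nonneg N)]
    have e4 : (Real.sqrt N * |B|) ^ 2 ≤ B' ^ 2 :=
      pow_le_pow_left₀ hs0 (by rw [hB']; linarith) 2
    linarith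
  have hF1 : ∀ j, ∀ z ∈ ball (0 : E) 1, ‖F j z‖ ≤ 1 := by
    intro j z hz
    have e1 : ‖F j z‖ ^ 2 ≤ ∑ j, ‖F j z‖ ^ 2 :=
      Finset.single_le_sum (f := fun j => ‖F j z‖ ^ 2) (fun i _ => by positivity)
        (Finset.mem_univ j)
    have e2 := (hFs z hz).2
    have e3 : ‖F j z‖ ^ 2 ≤ 1 ^ 2 := by linarith
    exact le_of_sq_le_sq e3 zero_le_one
  obtain ⟨A₁, hA₁, hline⟩ := line_sol (E := E) N (δ := δ / B' ^ 2) (by positivity)
  obtain ⟨g, hgd, hg⟩ := hline p hp F hFd hFs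
  rw [← hPdef] at hgd hg
  obtain ⟨L', hL'def⟩ : ∃ L' : ℝ, L' = N * (2 * L) := ⟨_, rfl⟩
  have hL'0 : 0 ≤ L' := by rw [hL'def]; positivity
  obtain ⟨C2, s', hC2, hs', hOm⟩ := OmN_mix μ hm hdim hp hs₀ (B := (N : ℝ)) hs hs1
  obtain ⟨C0, hC0, hOmb⟩ := OmG_bdd μ hm hdim
  obtain ⟨W₁, hW₁⟩ : ∃ W₁ : ℕ → ℝ, W₁ = fun i => N * W i + (if i = 0 then 1 else 0) :=
    ⟨_, rfl⟩
  have hW₁0 : ∀ i, 0 ≤ W₁ i := fun i => by
    rw [hW₁]
    have e1 : 0 ≤ N * W i := mul_nonneg (Nat.cast_nonneg N) (hW0 i)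
    have e2 : (0 : ℝ) ≤ (if i = 0 then 1 else 0) := by split_ifs <;> norm_num
    exact add_nonneg e1 e2
  have hW₁s : Summable W₁ := by
    rw [hW₁]
    refine Summable.add (hWs.mul_left _) ?_
    exact summable_of_ne_finset_zero (s := {0}) fun i hi => by
      rw [if_neg (by simpa using hi)]
  obtain ⟨W₂, hW₂⟩ : ∃ W₂ : ℕ → ℝ, W₂ = fun i => 2 * W₁ i := ⟨_, rfl⟩
  have hW₂0 : ∀ i, 0 ≤ W₂ i := fun i => by
    rw [hW₂]
    exact mul_nonneg (by norm_num) (hW₁0 i)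
  have hW₂s : Summable W₂ := by rw [hW₂]; exact hW₁s.mul_left _
  have hW₂1 : 1 ≤ W₂ 0 := by
    have e1 : 0 ≤ N * W 0 := mul_nonneg (Nat.cast_nonneg N) (hW0 0)
    simp only [hW₂, hW₁, if_true]
    linarith
  have hIG : ∀ (j : Fin N) (x : E), ‖x‖ < 1 → IG2 (F j) x ≤ IG2 (f j) x := by
    intro j x hx
    have hd : DifferentiableAt ℂ (f j) x :=
      (hfd j).differentiableAt (isOpen_ball.mem_nhds (by rw [mem_ball_zero_iff]; exact hx))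
    have e1 : fderiv ℂ (F j) x = ((B' : ℝ) : ℂ)⁻¹ • fderiv ℂ (f j) x := by
      rw [hFdef]
      exact fderiv_const_mul hd _
    have e2 : IG2 (F j) x = IG2 (f j) x / B' ^ 2 := by
      unfold IG2
      rw [e1, norm_smul, ContinuousLinearMap.smul_apply, norm_smul, norm_inv, Complex.norm_real,
        Real.norm_of_nonneg hB0.le]
      field_simp
    rw [e2]
    apply div_le_self (gd_IG_nonneg hx)
    exact one_le_pow₀ hB1
  have hG1 : ∀ x ∈ ball (0 : E) 1, 0 ≤ (∑ j, IG2 (F j) x) ∧ (∑ j, IG2 (F j) x) ≤ (N : ℝ) := by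
    intro x hx
    rw [mem_ball_zero_iff] at hx
    refine ⟨Finset.sum_nonneg fun j _ => gd_IG_nonneg hx, ?_⟩
    calc ∑ j, IG2 (F j) x ≤ ∑ _j : Fin N, (1 : ℝ) :=
          Finset.sum_le_sum fun j _ => IG2_le (hFd j) (hF1 j) hx
      _ = N := by
        rw [Finset.sum_const, Finset.card_univ, Fintype.card_fin, nsmul_eq_mul, mul_one]
  have hG2 : ∀ x ∈ ball (0 : E) 1, ‖x - p‖ < s₀ →
      (∑ j, IG2 (F j) x) ≤ Th W₂ (HS S x) + L' * Tc s 2 ν x := by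
    intro x hxb hxs
    have hx := hxb
    rw [mem_ball_zero_iff] at hx
    obtain ⟨hr0, hr1⟩ := HS_pos hSne hx
    obtain ⟨k, hk1, hk2⟩ := Th_ge hW₁0 hW₁s hr0 hr1
    have hk4 : ∀ j, IG2 (F j) x ≤ W k + 2 * L * Tc s 2 ν x := by
      intro j
      have e1 := hfW j k x hxb hxs (fun b hb hb1 => by
        have e2 : PT.HH b x ≤ HS S x := HS_ge hx (by rw [hSdef]; exact hb) hb1
        have e3 : (2 : ℝ) ^ k * PT.HH b x ≤ 2 ^ k * HS S x := by gcongr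
        exact e3.trans hk1)
      rw [show (2 : ℝ) / 2 = 1 by norm_num, Real.rpow_one] at e1
      have e4 : L * Tc s 2 ν₀ x ≤ L * (2 * Tc s 2 ν x) :=
        mul_le_mul_of_nonneg_left (hν2 s hs.le 2 x hxb) hL.le
      have e5 := hIG j x hx
      linarith
    calc ∑ j, IG2 (F j) x ≤ ∑ _j : Fin N, (W k + 2 * L * Tc s 2 ν x) :=
          Finset.sum_le_sum fun j _ => hk4 j
      _ = N * W k + L' * Tc s 2 ν x := by
        rw [Finset.sum_const, Finset.card_univ, Fintype.card_fin, nsmul_eq_mul, hL'def]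
        ring
      _ ≤ W₁ k + L' * Tc s 2 ν x := by
        rw [hW₁]
        have e2 : (0 : ℝ) ≤ (if k = 0 then 1 else 0) := by split_ifs <;> norm_num
        have e3 : N * W k ≤ N * W k + (if k = 0 then 1 else 0) := le_add_of_nonneg_right e2
        exact add_le_add_left e3 _
      _ ≤ 2 * Th W₁ (HS S x) + L' * Tc s 2 ν x := by gcongr
      _ = Th W₂ (HS S x) + L' * Tc s 2 ν x := by rw [hW₂, Th_smul]
  have hGm : AEMeasurable (fun x => ∑ j, IG2 (F j) x) (μ.restrict (ball 0 1)) :=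
    (Finset.measurable_fun_sum _ fun j _ => gd_IG_meas (F j)).aemeasurable
  have hOm1 := hOm S hSne W₂ hW₂0 hW₂s ν hν L' hL'0 _ hGm hG1 hG2
  obtain ⟨Cb, c, b, hCb, hc, hDb, hbn, hbf⟩ := far_b hp hs'
  have hb0 : ∀ y ∈ ball (0 : E) 1, 0 < b y := fun y hy => H9_dist_pos hDb hCb hy
  have hcs : 0 < c ^ s := Real.rpow_pos_of_pos hc s
  obtain ⟨Λ, hΛdef⟩ : ∃ Λ : ℝ, Λ = C2 * (2 + L') + C0 * N / c ^ s := ⟨_, rfl⟩
  have hΛ1 : C2 * (2 + L') ≤ Λ := by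
    rw [hΛdef]
    exact le_add_of_nonneg_right (by positivity)
  have hΛ2 : C0 * N / c ^ s ≤ Λ := by
    rw [hΛdef]
    exact le_add_of_nonneg_left (by positivity)
  have hΛ : 0 < Λ := lt_of_lt_of_le (by positivity) hΛ1
  obtain ⟨J, CV, hCV, hVW⟩ := VW_mix hE' (Cm2_HS hSne) (HS_cont hSne) hW₂0 hW₂s
    (lt_of_lt_of_le one_pos hW₂1) 1 hCb hs hs1 (b := fun _ : Fin 1 => b) (fun _ => hDb) hν hνne hΛ
  obtain ⟨C1, hC1, hext⟩ := extendV_M μ hm hdim (M := m + 3) (by omega) N (δ := δ / B' ^ 2)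
    (A := A₁) (by positivity) hA₁ J hCV
  obtain ⟨Φ, hΦdef⟩ : ∃ Φ : E → ℝ, Φ = fun z => Th W₂ (HS S z) + Tc s 1 ν z +
      Psi s (fun _ : Fin 1 => b) z := ⟨_, rfl⟩
  have hGn : ∀ z : E, ‖Complex.exp (-(Fc ν z))‖ = Real.exp (-(Fc ν z).re) := fun z => by
    rw [Complex.norm_exp, Complex.neg_re]
  have hexp : ∀ z : E, Real.exp (Fc ν z).re * Real.exp (-(Fc ν z).re) = 1 := fun z => by
    rw [← Real.exp_add, add_neg_cancel, Real.exp_zero]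
  have hTh0 : ∀ y ∈ ball (0 : E) 1, 0 ≤ Th W₂ (HS S y) := fun y hy =>
    Th_nonneg hW₂0 (HS_pos hSne (mem_ball_zero_iff.1 hy)).1
  have hTc0 : ∀ y ∈ ball (0 : E) 1, 0 ≤ Tc s 1 ν y := fun y hy => Tc_nonneg hν 1 hy
  have hPs0 : ∀ y ∈ ball (0 : E) 1, 0 ≤ Psi s (fun _ : Fin 1 => b) y := fun y hy => by
    rw [H9_Psi]
    have e1 : ‖y‖ < 1 := mem_ball_zero_iff.1 hy
    have e2 : 0 ≤ 1 - ‖y‖ ^ 2 := by nlinarith [norm_nonneg y]
    exact Real.rpow_nonneg (div_nonneg e2 (hb0 y hy).le) s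
  have hOmΦ : ∀ y ∈ ball (0 : E) 1, Om (nuE μ m (m + 3) F) (m + 3) y ≤ Λ * Φ y := by
    intro y hy
    have hy1 : ‖y‖ < 1 := mem_ball_zero_iff.1 hy
    rw [nuE_eq]
    by_cases hys : ‖y - p‖ < s'
    · have e1 := hOm1 y hy1 hys
      have e2 : (1 - ‖y‖ ^ 2) ^ (1 / 4 : ℝ) ≤ Th W₂ (HS S y) := by
        rw [hSdef]
        exact H9_quarterS hp h0 hy1 hW₂0 hW₂s hW₂1
      have e3 := hTh0 y hy
      have e4 := hTc0 y hy
      have e5 := hPs0 y hy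
      calc _ ≤ _ := e1
        _ ≤ C2 * ((2 + L') * (Th W₂ (HS S y) + Tc s 1 ν y +
            Psi s (fun _ : Fin 1 => b) y)) := by
          refine mul_le_mul_of_nonneg_left ?_ hC2.le
          nlinarith [mul_nonneg hL'0 e3, mul_nonneg hL'0 e5]
        _ = C2 * (2 + L') * Φ y := by rw [hΦdef]; ring
        _ ≤ Λ * Φ y := by
          refine mul_le_mul_of_nonneg_right hΛ1 ?_
          rw [hΦdef]
          positivity
    · push Not at hys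
      have e1 := hOmb _ _ hG1 y hy
      have e2 := hbf y hy hys
      have e3 : c ≤ (1 - ‖y‖ ^ 2) / b y := by
        rw [le_div_iff₀ (hb0 y hy)]
        exact e2
      have e4 : c ^ s ≤ Psi s (fun _ : Fin 1 => b) y := by
        rw [H9_Psi]
        exact Real.rpow_le_rpow hc.le e3 hs.le
      have e5 := hTh0 y hy
      have e6 := hTc0 y hy
      calc _ ≤ C0 * N := e1
        _ = C0 * N / c ^ s * c ^ s := by field_simp
        _ ≤ Λ * Φ y := by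
          refine mul_le_mul hΛ2 ?_ hcs.le hΛ.le
          rw [hΦdef]
          simp only
          linarith
  obtain ⟨h, hhd, hh⟩ := hext F hFd hFs P hP g hgd hg (fun z => Complex.exp (-(Fc ν z)))
    (fc_holo hE' hν).neg.cexp (fun z _ => Complex.exp_ne_zero _)
    ⟨0, 1, fun z hz => by
      rw [hGn, pow_zero, mul_one]
      exact Real.exp_le_one_iff.2 (by linarith [(fc_re hE' hν hz).2.1])⟩ _ hVW (by
      intro y hy
      have e1 := hOmΦ y hy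
      rw [hGn]
      calc _ ≤ _ := e1
        _ = Λ * Φ y * (Real.exp (Fc ν y).re * Real.exp (-(Fc ν y).re)) := by
          rw [hexp, mul_one]
        _ = _ := by rw [hΦdef]; ring)
  obtain ⟨CT, hCT, hTle⟩ := Tc_le hE' hs 1
  obtain ⟨CM, hCM, hGI⟩ := GI_mix hE' hs (hs1.trans (by norm_num))
  obtain ⟨V, hV0, hVs, hV⟩ := H9_geo hs
  obtain ⟨W₃, hW₃⟩ : ∃ W₃ : ℕ → ℝ, W₃ = fun i => W₂ i + V i := ⟨_, rfl⟩
  have hW₃0 : ∀ i, 0 ≤ W₃ i := fun i => by rw [hW₃]; exact add_nonneg (hW₂0 i) (hV0 i)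
  have hW₃s : Summable W₃ := by rw [hW₃]; exact hW₂s.add hVs
  obtain ⟨Θ, hΘdef⟩ : ∃ Θ : E → ℝ, Θ = fun z => Th W₂ (HS S z) +
      Psi s (fun _ : Fin 1 => b) z := ⟨_, rfl⟩
  have hΘ0 : ∀ y ∈ ball (0 : E) 1, 0 ≤ Θ y := fun y hy => by
    rw [hΘdef]
    exact add_nonneg (hTh0 y hy) (hPs0 y hy)
  have hΘc : ContinuousOn Θ (ball 0 1) := by
    rw [hΘdef]
    refine ContinuousOn.add ?_ ?_
    · refine (Th_cont hW₂0 hW₂s).comp (f := fun x => HS S x) (HS_cont hSne) ?_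
      intro x hx
      exact (HS_pos hSne (mem_ball_zero_iff.1 hx)).1
    · have e1 : Psi s (fun _ : Fin 1 => b) =
          fun z => ((1 - ‖z‖ ^ 2) / b z) ^ s := by
        funext z
        exact H9_Psi s b z
      rw [e1]
      refine ContinuousOn.rpow_const (ContinuousOn.div
        (continuousOn_const.sub ((continuous_norm.pow 2).continuousOn)) hDb.cont
        fun x hx => (hb0 x hx).ne') fun x _ => Or.inr hs.le
  have hA30 : 0 ≤ K + 1 + 2 / c ^ s := by positivity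
  have hGIΘ : ∀ z ∈ ball (0 : E) 1, ‖z - p‖ < c → Nr K A p z →
      GI Θ P z ≤ 200 * (K + 1 + 2 / c ^ s) * ∑' i, W₃ i := by
    intro z hz hzs hzN
    rw [mem_ball_zero_iff] at hz
    refine GI_at hP hA30 hW₃0 hW₃s (fun y hy => hΘ0 y (mem_ball_zero_iff.2 hy)) hz
      (fun t ht0 ht1 => ?_)
    obtain ⟨y, hy⟩ : ∃ y : E, y = pt P t z := ⟨_, rfl⟩
    rw [← hy]
    have hy1 : ‖y‖ < 1 := by rw [hy]; exact H9_lt hP hz ht0 ht1
    have hyb : y ∈ ball (0 : E) 1 := mem_ball_zero_iff.2 hy1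
    have hys : ‖y - p‖ < c := by
      rw [hy, hPe]
      exact lt_of_le_of_lt (H9_dist hp ht0 ht1) hzs
    have hyN : Nr K A p y := by
      rw [hy, hPe]
      exact Nr_pt hp hA hK hz hzN ht0 ht1
    obtain ⟨a1, a2⟩ := H9_HS hp h0 hy1 hyN
    rw [← hSdef, ← hPe] at a1 a2
    obtain ⟨r0, r1⟩ := ro_pos hP hy1
    have b2 := H9_Th hW₂0 hW₂s r0 a1 a2
    have b3 : Psi s (fun _ : Fin 1 => b) y ≤ 2 / c ^ s * Th V (ro P y) := by
      rw [H9_Psi]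
      have e0 : 0 < 1 - ‖y‖ ^ 2 := by nlinarith [norm_nonneg y]
      have e1 : 1 - ‖y‖ ^ 2 ≤ ro P y := by
        obtain ⟨-, -, hb, -, -⟩ := rr_facts hP hy1 0
        unfold ro
        rw [le_div_iff₀ hb]
        have : 1 - ‖P y‖ ^ 2 ≤ 1 := by nlinarith [norm_nonneg (P y)]
        nlinarith
      have e2 : (1 - ‖y‖ ^ 2) / b y ≤ ro P y / c :=
        div_le_div₀ r0.le e1 hc (hbn y hyb hys)
      calc ((1 - ‖y‖ ^ 2) / b y) ^ s ≤ (ro P y / c) ^ s :=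
            Real.rpow_le_rpow (div_nonneg e0.le (hb0 y hyb).le) e2 hs.le
        _ = (ro P y) ^ s / c ^ s := Real.div_rpow r0.le hc.le s
        _ ≤ 2 * Th V (ro P y) / c ^ s :=
            div_le_div_of_nonneg_right (hV _ r0 r1) hcs.le
        _ = _ := by ring
    have b4 : Th W₃ (ro P y) = Th W₂ (ro P y) + Th V (ro P y) := by
      rw [hW₃]
      exact H9_Thadd hW₂0 hW₂s hV0 hVs r0
    have b5 := Th_nonneg hW₂0 r0
    have b6 := Th_nonneg hV0 r0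
    rw [hΘdef, b4]
    simp only
    have b7 : 0 ≤ 2 / c ^ s * Th W₂ (ro P y) := by positivity
    have b8 : 0 ≤ (K + 1) * Th V (ro P y) := by positivity
    linarith [mul_add (K + 1 + 2 / c ^ s) (Th W₂ (ro P y)) (Th V (ro P y)),
      add_mul (K + 1) (2 / c ^ s) (Th W₂ (ro P y)), add_mul (K + 1) (2 / c ^ s) (Th V (ro P y))]
  have hQI : ∀ z : E, GI (fun z => Λ * (Th W₂ (HS S z) + Tc s 1 ν z +
      Psi s (fun _ : Fin 1 => b) z) * Real.exp (Fc ν z).re) P z =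
      Λ * GI (fun x => (Θ x + Tc s 1 ν x) * Real.exp (Fc ν x).re) P z := by
    intro z
    unfold GI
    rw [← integral_const_mul]
    congr 1
    funext t
    rw [hΘdef]
    ring
  refine ⟨fun j z => ((B' : ℝ) : ℂ)⁻¹ * h j z, c,
    C1 * (1 + (Λ * (∑' i, W₂ i + CT + Cb ^ s) +
      Λ * (CM * (1 + 200 * (K + 1 + 2 / c ^ s) * ∑' i, W₃ i)))), hc,
    fun j => (hhd j).const_mul _, fun z hz => ⟨?_, fun hzs hzN j => ?_⟩⟩
  · rw [← (hh z hz).1]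
    apply Finset.sum_congr rfl
    intro j _
    rw [hFa]
    ring
  · have e1 := (hh z hz).2.2 j
    have e2 : ‖((B' : ℝ) : ℂ)⁻¹ * h j z‖ ≤ ‖h j z‖ := by
      rw [norm_mul, norm_inv, Complex.norm_real, Real.norm_of_nonneg hB0.le]
      have e3 : B'⁻¹ ≤ 1 := inv_le_one_of_one_le₀ hB1
      calc B'⁻¹ * ‖h j z‖ ≤ 1 * ‖h j z‖ := by gcongr
        _ = ‖h j z‖ := one_mul _
    refine e2.trans (e1.trans (mul_le_mul_of_nonneg_left ?_ hC1.le))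
    rw [hGn, hQI, mul_add]
    have f1 : Real.exp (-(Fc ν z).re) * (Λ * (Th W₂ (HS S z) + Tc s 1 ν z +
        Psi s (fun _ : Fin 1 => b) z) * Real.exp (Fc ν z).re) ≤
        Λ * (∑' i, W₂ i + CT + Cb ^ s) := by
      have g1 : Real.exp (-(Fc ν z).re) * (Λ * (Th W₂ (HS S z) + Tc s 1 ν z +
        Psi s (fun _ : Fin 1 => b) z) * Real.exp (Fc ν z).re) =
        Λ * (Th W₂ (HS S z) + Tc s 1 ν z + Psi s (fun _ : Fin 1 => b) z) := by
        calc _ = Λ * (Th W₂ (HS S z) + Tc s 1 ν z + Psi s (fun _ : Fin 1 => b) z) *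
              (Real.exp (Fc ν z).re * Real.exp (-(Fc ν z).re)) := by ring
          _ = _ := by rw [hexp, mul_one]
      rw [g1]
      refine mul_le_mul_of_nonneg_left ?_ hΛ.le
      have g2 := Th_le hW₂0 hW₂s (HS_pos hSne (mem_ball_zero_iff.1 hz)).1
      have g3 := hTle ν hν z hz
      have g4 : Psi s (fun _ : Fin 1 => b) z ≤ Cb ^ s := by
        rw [H9_Psi]
        have e0 : 0 ≤ 1 - ‖z‖ ^ 2 := by
          have := mem_ball_zero_iff.1 hz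
          nlinarith [norm_nonneg z]
        refine Real.rpow_le_rpow (div_nonneg e0 (hb0 z hz).le) ?_ hs.le
        rw [div_le_iff₀ (hb0 z hz)]
        exact hDb.lo z hz
      linarith
    have f2 : Real.exp (-(Fc ν z).re) * (Λ * GI (fun x => (Θ x + Tc s 1 ν x) *
        Real.exp (Fc ν x).re) P z) ≤
        Λ * (CM * (1 + 200 * (K + 1 + 2 / c ^ s) * ∑' i, W₃ i)) := by
      have g1 := hGI ν hν P hP Θ hΘc hΘ0 z hz
      have g2 := hGIΘ z hz hzs hzN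
      calc _ = Λ * (Real.exp (-(Fc ν z).re) * GI (fun x => (Θ x + Tc s 1 ν x) *
            Real.exp (Fc ν x).re) P z) := by ring
        _ ≤ Λ * (CM * (1 + GI Θ P z)) := mul_le_mul_of_nonneg_left g1 hΛ.le
        _ ≤ _ := by gcongr
    linarith

end Pool.Agent.MPca0fc2.CE
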