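import Mathlib
import Pool.Agent.Lib.MP_ca0fc2_an.CE.H0
import Pool.Agent.Lib.MP_ca0fc2_an.CE.H1
import Pool.Agent.Lib.MP_ca0fc2_an.CE.H2
import Pool.Agent.Lib.MP_ca0fc2_an.CE.F2
import Pool.Agent.Lib.MP_ca0fc2_an.CE.D1
import Pool.Agent.Lib.MP_ca0fc2_an.PV.M6
import Pool.Agent.Lib.MP_ca0fc2_an.PV.Q4

set_option autoImplicit false
set_option linter.unusedSectionVars false

open Metric Set MeasureTheory Filter Topology
open scoped InnerProductSpace ENNReal ContDiff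

namespace Pool.Agent.MPca0fc2.CE

open Pool.Agent.MPca0fc2.PT
open Pool.Agent.MPca0fc2.QT
open Pool.Agent.MPca0fc2.TS
open Pool.Agent.MPca0fc2.TE
open Pool.Agent.MPca0fc2.TK
open Pool.Agent.MPca0fc2.VK
open Pool.Agent.MPca0fc2.PV

variable {E : Type*} [NormedAddCommGroup E] [InnerProductSpace ℂ E] [FiniteDimensional ℂ E]
  [MeasurableSpace E] [BorelSpace E]


private theorem H3_low {n : ℕ} {F R : Fin n → ℂ} {C : ℝ} (h : ∑ j, F j * R j = 1)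
    (hR : ∀ j, ‖R j‖ ≤ C) : ((C ^ 2 + 1) * (n + 1))⁻¹ ≤ ∑ j, ‖F j‖ ^ 2 := by
  have h1 : (1 : ℝ) ≤ C * ∑ j, ‖F j‖ := by
    calc (1 : ℝ) = ‖∑ j, F j * R j‖ := by rw [h, norm_one]
      _ ≤ ∑ j, ‖F j * R j‖ := norm_sum_le _ _
      _ ≤ ∑ j, C * ‖F j‖ := by
          refine Finset.sum_le_sum fun j _ => ?_
          rw [norm_mul, mul_comm]
          exact mul_le_mul_of_nonneg_right (hR j) (norm_nonneg _)
      _ = C * ∑ j, ‖F j‖ := by rw [Finset.mul_sum]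
  have h2 : (∑ j, ‖F j‖) ^ 2 ≤ n * ∑ j, ‖F j‖ ^ 2 := by
    have := sq_sum_le_card_mul_sum_sq (s := (Finset.univ : Finset (Fin n))) (f := fun j => ‖F j‖)
    simpa using this
  have h0 : 0 ≤ ∑ j, ‖F j‖ := Finset.sum_nonneg fun j _ => norm_nonneg _
  have hS : 0 ≤ ∑ j, ‖F j‖ ^ 2 := Finset.sum_nonneg fun j _ => sq_nonneg _
  have h3 : (1 : ℝ) ≤ C ^ 2 * (n * ∑ j, ‖F j‖ ^ 2) := by
    calc (1 : ℝ) ≤ (C * ∑ j, ‖F j‖) ^ 2 := by nlinarith
      _ = C ^ 2 * (∑ j, ‖F j‖) ^ 2 := by ring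
      _ ≤ C ^ 2 * (n * ∑ j, ‖F j‖ ^ 2) := mul_le_mul_of_nonneg_left h2 (sq_nonneg _)
  have hn : (0 : ℝ) ≤ n := Nat.cast_nonneg n
  rw [inv_le_iff_one_le_mul₀' (by positivity)]
  nlinarith [mul_nonneg (sq_nonneg C) hS, mul_nonneg hn hS]

omit [MeasurableSpace E] [BorelSpace E] in
/-- Corona on the slice without normalisation. -/
private theorem H3_slice {n : ℕ} {e : E} (he : ‖e‖ = 1) {F : Fin n → E → ℂ}
    (hF : ∀ j, DifferentiableOn ℂ (F j) (ball 0 1)) {B δ : ℝ} (hδ : 0 < δ)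
    (hFB : ∀ j, ∀ z ∈ ball (0 : E) 1, ‖F j z‖ ≤ B)
    (hFδ : ∀ z ∈ ball (0 : E) 1, δ ≤ ∑ j, ‖F j z‖ ^ 2) :
    ∃ (g : Fin n → E → ℂ) (A : ℝ),
      (∀ j, DifferentiableOn ℂ (fun z => g j (((innerSL ℂ e).smulRight e) z)) (ball 0 1)) ∧
      ∀ z ∈ ball (0 : E) 1,
        ∑ j, F j (((innerSL ℂ e).smulRight e) z) * g j (((innerSL ℂ e).smulRight e) z) = 1 ∧
        ∀ j, ‖g j (((innerSL ℂ e).smulRight e) z)‖ ≤ A := by
  set lam : ℝ := Real.sqrt n * |B| + 1 with hlam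
  have hlam0 : 0 < lam := by positivity
  have hlam1 : 1 ≤ lam := by
    have : 0 ≤ Real.sqrt n * |B| := by positivity
    linarith
  have hlamC : (lam : ℂ) ≠ 0 := by
    exact_mod_cast hlam0.ne'
  have hδ' : 0 < δ / lam ^ 2 := by positivity
  obtain ⟨A, hA, hline⟩ := line_sol (E := E) n hδ'
  have hnorm : ∀ j z, ‖(lam : ℂ)⁻¹ * F j z‖ ^ 2 = ‖F j z‖ ^ 2 / lam ^ 2 := by
    intro j z
    rw [norm_mul, norm_inv, Complex.norm_real, Real.norm_of_nonneg hlam0.le]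
    field_simp
  obtain ⟨g, hg1, hg2⟩ := hline e he (fun j z => (lam : ℂ)⁻¹ * F j z)
    (fun j => (hF j).const_mul _) (by
      intro z hz
      simp only [hnorm]
      rw [← Finset.sum_div]
      constructor
      · exact div_le_div_of_nonneg_right (hFδ z hz) (by positivity)
      · rw [div_le_one (by positivity)]
        calc ∑ j, ‖F j z‖ ^ 2 ≤ ∑ _j : Fin n, |B| ^ 2 := by
              refine Finset.sum_le_sum fun j _ => ?_
              exact pow_le_pow_left₀ (norm_nonneg _) ((hFB j z hz).trans (le_abs_self B)) 2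
          _ = n * |B| ^ 2 := by simp
          _ = (Real.sqrt n * |B|) ^ 2 := by
              rw [mul_pow, Real.sq_sqrt (Nat.cast_nonneg n)]
          _ ≤ lam ^ 2 := by
              refine pow_le_pow_left₀ (by positivity) ?_ 2
              rw [hlam]
              linarith)
  refine ⟨fun j z => (lam : ℂ)⁻¹ * g j z, A, fun j => (hg1 j).const_mul _, ?_⟩
  intro z hz
  obtain ⟨h1, h2⟩ := hg2 z hz
  constructor
  · rw [← h1]
    refine Finset.sum_congr rfl fun j _ => ?_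
    ring
  · intro j
    have h3 : ‖g j (((innerSL ℂ e).smulRight e) z)‖ ^ 2 ≤ A ^ 2 :=
      (Finset.single_le_sum (f := fun j => ‖g j (((innerSL ℂ e).smulRight e) z)‖ ^ 2)
        (fun i _ => sq_nonneg _) (Finset.mem_univ j)).trans h2
    have h4 : ‖g j (((innerSL ℂ e).smulRight e) z)‖ ≤ A := by
      have := abs_le_of_sq_le_sq h3 hA.le
      exact (le_abs_self _).trans this
    have h5 : ‖(lam : ℂ)⁻¹‖ ≤ 1 := by
      rw [norm_inv, Complex.norm_real, Real.norm_of_nonneg hlam0.le]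
      exact inv_le_one_of_one_le₀ hlam1
    calc ‖(lam : ℂ)⁻¹ * g j (((innerSL ℂ e).smulRight e) z)‖
        = ‖(lam : ℂ)⁻¹‖ * ‖g j (((innerSL ℂ e).smulRight e) z)‖ := norm_mul _ _
      _ ≤ 1 * A := mul_le_mul h5 h4 (norm_nonneg _) zero_le_one
      _ = A := one_mul A

private theorem H3_Th_mono {W W' : ℕ → ℝ} (hW0 : ∀ i, 0 ≤ W i) (hW : Summable W)
    (hW' : Summable W') (h : ∀ i, W i ≤ W' i) {ρ : ℝ} (hρ : 0 < ρ) : Th W ρ ≤ Th W' ρ := by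
  have hW'0 : ∀ i, 0 ≤ W' i := fun i => (hW0 i).trans (h i)
  exact (Th_sum hW0 hW hρ).tsum_le_tsum
    (fun i => mul_le_mul_of_nonneg_right (h i) (qq_pos (by positivity)).1.le)
    (Th_sum hW'0 hW' hρ)

/-- From a smooth solution on the ball to a holomorphic one. Proof. As `PV.pv_smooth` (PV/M7.lean; copy `M7_low`, `M7_slice`, prefix `H3_`), with the density `Φ x = Th W (ro (Pe e) x) + Tc s 2 ν x` instead of `Th W (ro (Pe e) x)` and `coreV` (CE/F2.lean) instead of `core`. First replace `ν` by the measure of `car_half` (CE/D1.lean) and `W` by `W + 1_{i = 0}` (`Th` is monotone in `W`), so that `ν ≠ 0`, `0 < W 0`. `M = m + 3`, `ν' = nuG μ m (m + 3) Φ`: `OnB` (`nuG_OnB`, `Th_le`, `Tc_le`); `Om ν' M ≤ Λ (Th W (ro P) + Tc s 1 ν)` (`OmG_add`, `pv_Om`, `OmG_Tc3`, `Th_aem`); `Φ ≤ C Om ν' M` (`pv_low`, `OmG_low3`, `OmG_mono`). `G = exp (- Fc ν)` (norm `exp (- re) ≤ 1`), `Q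 z = Λ (Th W (ro P z) + Tc s 1 ν z + Psi s (b : Fin 0) z) exp (re Fc ν z)` (`VW_mix` with `r = 0`; `Psi` of the empty family is `0`; `Cm2_ro`, `ro_cont`), `‖G z‖ (Q z + GI Q P z) ≤ C`: `GI_mix` with `Θ = Th W ∘ ro P`, `pv_GI` (or `GI_at`, PV/M9.lean). -/
theorem smoothH (hE : 2 ≤ Module.finrank ℂ E) {e : E} (he : ‖e‖ = 1) {n : ℕ}
    {F : Fin n → E → ℂ} (hF : ∀ j, DifferentiableOn ℂ (F j) (ball 0 1)) {B : ℝ}
    (hFB : ∀ j, ∀ z ∈ ball (0 : E) 1, ‖F j z‖ ≤ B) {W : ℕ → ℝ} (hW0 : ∀ i, 0 ≤ W i)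
    (hW : Summable W) {s : ℝ} (hs : 0 < s) (hs1 : s ≤ 1 / 8) {ν : Measure E} (hν : Car ν)
    {R : E → Fin n → ℂ} (hR2 : ContDiffOn ℝ 2 R (ball 0 1))
    (hR : ∀ z ∈ ball (0 : E) 1, ∑ j, F j z * R z j = 1 ∧ ‖R z‖ ≤ B ∧
      ∀ ξ : E, ‖D01 R z ξ‖ ≤
        B * (Th W (ro (Pe e) z) + Tc s 2 ν z) * gau (1 - ‖z‖ ^ 2) z ξ) :
    ∃ (h : Fin n → E → ℂ) (C : ℝ), (∀ j, DifferentiableOn ℂ (h j) (ball 0 1)) ∧
      ∀ z ∈ ball (0 : E) 1, ∑ j, F j z * h j z = 1 ∧ ∀ j, ‖h j z‖ ≤ C := by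
  obtain ⟨m, hdim⟩ : ∃ m, Module.finrank ℂ E = m + 1 := ⟨Module.finrank ℂ E - 1, by omega⟩
  have hm : 1 ≤ m := by omega
  have hE1 : ∃ ζ : E, ‖ζ‖ = 1 := ⟨e, he⟩
  have hnt : Nontrivial E := Module.nontrivial_of_finrank_pos (R := ℂ) (by omega)
  set μ : Measure E := Measure.addHaar with hμ
  set P : E →L[ℂ] E := (innerSL ℂ e).smulRight e with hPdef
  have hP : Prj P := prj_line he
  have hPe : Pe e = P := rfl
  rw [hPe] at hR
  have hδ₀ : 0 < ((B ^ 2 + 1) * ((n : ℝ) + 1))⁻¹ := by positivity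
  obtain ⟨g, A, hg1, hg2⟩ := H3_slice he hF hδ₀ hFB (fun z hz =>
    H3_low (hR z hz).1 (fun j => (norm_le_pi_norm (R z) j).trans (hR z hz).2.1))
  have hro : ∀ z : E, ‖z‖ < 1 → 0 < ro P z := fun z hz => (ro_pos hP hz).1
  -- the new measure and the new sequence
  obtain ⟨ν', hν', hν'0, hTT⟩ := car_half hE1 hν
  obtain ⟨W', hW'def⟩ : ∃ W' : ℕ → ℝ, W' = fun i => W i + (if i = 0 then 1 else 0) := ⟨_, rfl⟩
  have hWW' : ∀ i, W i ≤ W' i := by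
    intro i
    rw [hW'def]
    show W i ≤ W i + (if i = 0 then 1 else 0)
    split_ifs <;> linarith
  have hW'0 : ∀ i, 0 ≤ W' i := fun i => (hW0 i).trans (hWW' i)
  have hW's : Summable W' := by
    rw [hW'def]
    refine hW.add ?_
    refine summable_of_ne_finset_zero (s := {0}) ?_
    intro i hi
    rw [Finset.mem_singleton] at hi
    rw [if_neg hi]
  have hW'1 : 0 < W' 0 := by
    rw [hW'def]
    show 0 < W 0 + (if (0 : ℕ) = 0 then (1 : ℝ) else 0)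
    rw [if_pos rfl]
    linarith [hW0 0]
  have hT0 : ∀ z : E, ‖z‖ < 1 → 0 ≤ Th W' (ro P z) := fun z hz => Th_nonneg hW'0 (hro z hz)
  have hS : 0 ≤ ∑' i, W' i := tsum_nonneg hW'0
  have hTle : ∀ z : E, ‖z‖ < 1 → Th W' (ro P z) ≤ ∑' i, W' i := fun z hz =>
    Th_le hW'0 hW's (hro z hz)
  obtain ⟨C2, hC2, hTc2⟩ := Tc_le (E := E) hE1 hs 2
  obtain ⟨C1, hC1, hTc1⟩ := Tc_le (E := E) hE1 hs 1
  have hG2 : ∀ x ∈ ball (0 : E) 1, 0 ≤ Tc s 2 ν' x ∧ Tc s 2 ν' x ≤ (∑' i, W' i) + C2 := by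
    intro x hx
    refine ⟨Tc_nonneg hν' 2 hx, ?_⟩
    linarith [hTc2 ν' hν' x hx]
  have hG1 : ∀ x ∈ ball (0 : E) 1, 0 ≤ Th W' (ro P x) ∧
      Th W' (ro P x) ≤ (∑' i, W' i) + C2 := by
    intro x hx
    refine ⟨hT0 x (mem_ball_zero_iff.mp hx), ?_⟩
    linarith [hTle x (mem_ball_zero_iff.mp hx)]
  have haem1 : AEMeasurable (fun x => Th W' (ro P x)) (μ.restrict (ball 0 1)) :=
    Th_aem μ hP hW'0 hW's
  have haem2 : AEMeasurable (Tc s 2 ν') (μ.restrict (ball 0 1)) :=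
    (Tc_cont hE1 hν' hs 2).aemeasurable measurableSet_ball
  obtain ⟨Φ, hΦdef⟩ : ∃ Φ : E → ℝ, Φ = fun x => Th W' (ro P x) + Tc s 2 ν' x := ⟨_, rfl⟩
  have hΦB : ∀ x ∈ ball (0 : E) 1, 0 ≤ Φ x ∧ Φ x ≤ 2 * ((∑' i, W' i) + C2) := by
    intro x hx
    rw [hΦdef]
    constructor
    · exact add_nonneg (hG1 x hx).1 (hG2 x hx).1
    · show Th W' (ro P x) + Tc s 2 ν' x ≤ _
      linarith [(hG1 x hx).2, (hG2 x hx).2]
  have hνB : OnB (nuG μ m (m + 3) Φ) := nuG_OnB μ (by omega) hΦB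
  obtain ⟨CO, hCO, hOm⟩ := pv_Om μ hm hdim
  obtain ⟨CL, hCL, hlow⟩ := pv_low μ hm hdim
  obtain ⟨CT, hCT, hOT⟩ := OmG_Tc3 μ hm hdim hs hs1
  obtain ⟨CM, hCM, hlowT⟩ := OmG_low3 μ hm hdim hs hs1
  have hsum : ∀ y ∈ ball (0 : E) 1, Om (nuG μ m (m + 3) Φ) (m + 3) y =
      Om (nuG μ m (m + 3) (fun x => Th W' (ro P x))) (m + 3) y +
        Om (nuG μ m (m + 3) (Tc s 2 ν')) (m + 3) y := by
    intro y hy
    rw [hΦdef]
    exact OmG_add μ (by omega) haem1 haem2 hG1 hG2 hy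
  obtain ⟨Λ, hΛdef⟩ : ∃ Λ : ℝ, Λ = CO + CT := ⟨_, rfl⟩
  have hΛ : 0 < Λ := by rw [hΛdef]; linarith
  have hOmΛ : ∀ y ∈ ball (0 : E) 1, Om (nuG μ m (m + 3) Φ) (m + 3) y ≤
      Λ * (Th W' (ro P y) + Tc s 1 ν' y) := by
    intro y hy
    have hy1 : ‖y‖ < 1 := mem_ball_zero_iff.mp hy
    have h1 := hOm P hP W' hW'0 hW's _ haem1
      (fun x hx => ⟨hT0 x (mem_ball_zero_iff.mp hx), le_rfl⟩) y hy1
    have h2 := hOT ν' hν' y hy
    have h3 := hT0 y hy1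
    have h4 : 0 ≤ Tc s 1 ν' y := Tc_nonneg hν' 1 hy
    rw [hsum y hy, hΛdef]
    nlinarith [mul_nonneg hCO.le h4, mul_nonneg hCT.le h3]
  have hΦlow : ∀ y ∈ ball (0 : E) 1, Φ y ≤ (CL + CM) * Om (nuG μ m (m + 3) Φ) (m + 3) y := by
    intro y hy
    have hy1 : ‖y‖ < 1 := mem_ball_zero_iff.mp hy
    have h1 := hlow P hP W' hW'0 hW's y hy1
    have h2 := hlowT ν' hν' y hy
    have h3 : 0 ≤ Om (nuG μ m (m + 3) (fun x => Th W' (ro P x))) (m + 3) y := Om_nonneg hy1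
    have h4 : 0 ≤ Om (nuG μ m (m + 3) (Tc s 2 ν')) (m + 3) y := Om_nonneg hy1
    rw [hsum y hy, hΦdef]
    show Th W' (ro P y) + Tc s 2 ν' y ≤ _
    nlinarith [mul_nonneg hCL.le h4, mul_nonneg hCM.le h3]
  -- the compensating function
  obtain ⟨G, hGdef⟩ : ∃ G : E → ℂ, G = fun z => Complex.exp (-(Fc ν' z)) := ⟨_, rfl⟩
  have hGh : DifferentiableOn ℂ G (ball 0 1) := by
    rw [hGdef]
    exact (fc_holo hE1 hν').neg.cexp
  have hG0 : ∀ z ∈ ball (0 : E) 1, G z ≠ 0 := by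
    intro z _
    rw [hGdef]
    exact Complex.exp_ne_zero _
  have hGn : ∀ z : E, ‖G z‖ = Real.exp (-(Fc ν' z).re) := by
    intro z
    rw [hGdef]
    show ‖Complex.exp (-(Fc ν' z))‖ = _
    rw [Complex.norm_exp, Complex.neg_re]
  have hGn1 : ∀ z ∈ ball (0 : E) 1, ‖G z‖ ≤ 1 := by
    intro z hz
    rw [hGn z]
    have := (fc_re hE1 hν' hz).2.1
    exact Real.exp_le_one_iff.mpr (by linarith)
  have hGp : ∃ (a : ℕ) (c : ℝ), ∀ z ∈ ball (0 : E) 1, ‖G z‖ ≤ c * (1 / (1 - ‖z‖ ^ 2)) ^ a := by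
    refine ⟨0, 1, fun z hz => ?_⟩
    rw [pow_zero, mul_one]
    exact hGn1 z hz
  -- the weight
  obtain ⟨b, hb⟩ : ∃ b : Fin 0 → E → ℝ, ∀ i, Dst 1 (b i) := ⟨fun i => i.elim0, fun i => i.elim0⟩
  obtain ⟨J, CQ, hCQ, hVW⟩ := VW_mix hE1 (Cm2_ro hP) (ro_cont hP) hW'0 hW's hW'1 0
    one_pos hs hs1 hb hν' hν'0 hΛ
  have hPsi : ∀ z : E, Psi s b z = 0 := by
    intro z
    unfold Psi
    exact Finset.sum_of_isEmpty _
  obtain ⟨Q, hQdef⟩ : ∃ Q : E → ℝ, Q = fun z =>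
      Λ * (Th W' (ro P z) + Tc s 1 ν' z + Psi s b z) * Real.exp (Fc ν' z).re := ⟨_, rfl⟩
  have hQ : VW J CQ Q := by
    rw [hQdef]
    exact hVW
  have hQe : ∀ z : E, Q z = Λ * ((Th W' (ro P z) + Tc s 1 ν' z) * Real.exp (Fc ν' z).re) := by
    intro z
    rw [hQdef]
    show Λ * (Th W' (ro P z) + Tc s 1 ν' z + Psi s b z) * Real.exp (Fc ν' z).re = _
    rw [hPsi z]
    ring
  have hexp : ∀ z : E, Real.exp (Fc ν' z).re * Real.exp (-(Fc ν' z).re) = 1 := by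
    intro z
    rw [← Real.exp_add]
    simp
  have hQG : ∀ z : E, Q z * ‖G z‖ = Λ * (Th W' (ro P z) + Tc s 1 ν' z) := by
    intro z
    rw [hQe z, hGn z]
    calc Λ * ((Th W' (ro P z) + Tc s 1 ν' z) * Real.exp (Fc ν' z).re) *
          Real.exp (-(Fc ν' z).re)
        = Λ * (Th W' (ro P z) + Tc s 1 ν' z) *
          (Real.exp (Fc ν' z).re * Real.exp (-(Fc ν' z).re)) := by ring
      _ = _ := by rw [hexp z, mul_one]
  have hOQ : ∀ y ∈ ball (0 : E) 1, Om (nuG μ m (m + 3) Φ) (m + 3) y ≤ Q y * ‖G y‖ := by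
    intro y hy
    rw [hQG y]
    exact hOmΛ y hy
  -- the integral along the geodesic
  obtain ⟨CG, hCG, hmix⟩ := GI_mix (E := E) hE1 hs (by linarith : s ≤ 1)
  have hTcont : ContinuousOn (fun x => Th W' (ro P x)) (ball (0 : E) 1) :=
    (Th_cont hW'0 hW's).comp (f := fun x => ro P x) (ro_cont hP)
      (fun x hx => hro x (mem_ball_zero_iff.mp hx))
  have hGIQ : ∀ z : E, GI Q P z = Λ * GI (fun x => (Th W' (ro P x) + Tc s 1 ν' x) *
      Real.exp (Fc ν' x).re) P z := by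
    intro z
    unfold GI
    rw [← integral_const_mul]
    refine integral_congr_ae (Filter.Eventually.of_forall fun t => ?_)
    show Q (pt P t z) * (rr P z / (1 - t ^ 2 * rr P z ^ 2)) = _
    rw [hQe]
    ring
  have hGIT : ∀ z ∈ ball (0 : E) 1, GI (fun x => Th W' (ro P x)) P z ≤
      200 * 1 * ∑' i, W' i := fun z hz =>
    pv_GI hP zero_le_one hW'0 hW's hT0 (fun y _ => by rw [one_mul]) (mem_ball_zero_iff.mp hz)
  obtain ⟨K, hKdef⟩ : ∃ K : ℝ, K = Λ * ((∑' i, W' i) + C1) +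
      Λ * (CG * (1 + 200 * 1 * ∑' i, W' i)) := ⟨_, rfl⟩
  have hK1 : 0 ≤ Λ * ((∑' i, W' i) + C1) := by positivity
  have hK2 : 0 ≤ Λ * (CG * (1 + 200 * 1 * ∑' i, W' i)) := by positivity
  have hK0 : 0 ≤ K := by rw [hKdef]; linarith
  have hGIK : ∀ z ∈ ball (0 : E) 1, ‖G z‖ * (Q z + GI Q P z) ≤ K := by
    intro z hz
    have hz1 : ‖z‖ < 1 := mem_ball_zero_iff.mp hz
    have h1 : ‖G z‖ * Q z ≤ Λ * ((∑' i, W' i) + C1) := by
      rw [mul_comm, hQG z]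
      refine mul_le_mul_of_nonneg_left ?_ hΛ.le
      linarith [hTle z hz1, hTc1 ν' hν' z hz]
    have h2 := hmix ν' hν' P hP (fun x => Th W' (ro P x)) hTcont
      (fun x hx => hT0 x (mem_ball_zero_iff.mp hx)) z hz
    have h3 : CG * (1 + GI (fun x => Th W' (ro P x)) P z) ≤
        CG * (1 + 200 * 1 * ∑' i, W' i) :=
      mul_le_mul_of_nonneg_left (by linarith [hGIT z hz]) hCG.le
    have h4 : ‖G z‖ * GI Q P z ≤ Λ * (CG * (1 + 200 * 1 * ∑' i, W' i)) := by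
      rw [hGIQ z, hGn z]
      calc Real.exp (-(Fc ν' z).re) * (Λ * GI (fun x => (Th W' (ro P x) + Tc s 1 ν' x) *
            Real.exp (Fc ν' x).re) P z)
          = Λ * (Real.exp (-(Fc ν' z).re) * GI (fun x => (Th W' (ro P x) + Tc s 1 ν' x) *
            Real.exp (Fc ν' x).re) P z) := by ring
        _ ≤ _ := mul_le_mul_of_nonneg_left (h2.trans h3) hΛ.le
    rw [hKdef, mul_add]
    linarith
  -- the constant
  have hBL : 0 ≤ 2 * |B| * (CL + CM) := by positivity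
  have hOmC : ∀ y ∈ ball (0 : E) 1, Om (nuG μ m (m + 3) Φ) (m + 3) y ≤
      K + |B| + 2 * |B| * (CL + CM) := by
    intro y hy
    have h1 := hOmΛ y hy
    have h2 : Λ * (Th W' (ro P y) + Tc s 1 ν' y) ≤ Λ * ((∑' i, W' i) + C1) := by
      refine mul_le_mul_of_nonneg_left ?_ hΛ.le
      linarith [hTle y (mem_ball_zero_iff.mp hy), hTc1 ν' hν' y hy]
    have h3 : Λ * ((∑' i, W' i) + C1) ≤ K := by rw [hKdef]; linarith
    linarith [abs_nonneg B]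
  have hRC : ∀ z ∈ ball (0 : E) 1, ‖R z‖ ≤ K + |B| + 2 * |B| * (CL + CM) := by
    intro z hz
    have h1 := (hR z hz).2.1.trans (le_abs_self B)
    linarith
  have hRD : ∀ z ∈ ball (0 : E) 1, ∀ ξ : E,
      ‖D01 R z ξ‖ ≤ (K + |B| + 2 * |B| * (CL + CM)) *
        Om (nuG μ m (m + 3) Φ) (m + 3) z * gau (1 - ‖z‖ ^ 2) z ξ := by
    intro z hz ξ
    have hz1 : ‖z‖ < 1 := mem_ball_zero_iff.mp hz
    have hd : 0 ≤ 1 - ‖z‖ ^ 2 := by nlinarith [norm_nonneg z]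
    have hg : 0 ≤ gau (1 - ‖z‖ ^ 2) z ξ := by
      rw [gau]
      positivity
    have hO : 0 ≤ Om (nuG μ m (m + 3) Φ) (m + 3) z := Om_nonneg hz1
    refine ((hR z hz).2.2 ξ).trans (mul_le_mul_of_nonneg_right ?_ hg)
    have ht0 : 0 ≤ Th W (ro P z) := Th_nonneg hW0 (hro z hz1)
    have ht1 : Th W (ro P z) ≤ Th W' (ro P z) := H3_Th_mono hW0 hW hW's hWW' (hro z hz1)
    have ht2 : 0 ≤ Tc s 2 ν z := Tc_nonneg hν 2 hz
    have ht3 : Tc s 2 ν z ≤ 2 * Tc s 2 ν' z := hTT s hs.le 2 z hz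
    have ht4 : Th W (ro P z) + Tc s 2 ν z ≤ 2 * Φ z := by
      rw [hΦdef]
      show Th W (ro P z) + Tc s 2 ν z ≤ 2 * (Th W' (ro P z) + Tc s 2 ν' z)
      linarith [hT0 z hz1]
    calc B * (Th W (ro P z) + Tc s 2 ν z) ≤ |B| * (Th W (ro P z) + Tc s 2 ν z) :=
          mul_le_mul_of_nonneg_right (le_abs_self _) (by linarith)
      _ ≤ |B| * (2 * Φ z) := mul_le_mul_of_nonneg_left ht4 (abs_nonneg _)
      _ ≤ |B| * (2 * ((CL + CM) * Om (nuG μ m (m + 3) Φ) (m + 3) z)) :=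
          mul_le_mul_of_nonneg_left (mul_le_mul_of_nonneg_left (hΦlow z hz) two_pos.le)
            (abs_nonneg _)
      _ = 2 * |B| * (CL + CM) * Om (nuG μ m (m + 3) Φ) (m + 3) z := by ring
      _ ≤ _ := by
          refine mul_le_mul_of_nonneg_right ?_ hO
          linarith [abs_nonneg B]
  have hGIC : ∀ z ∈ ball (0 : E) 1, ‖G z‖ * (Q z + GI Q P z) ≤
      K + |B| + 2 * |B| * (CL + CM) := by
    intro z hz
    linarith [hGIK z hz, abs_nonneg B]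
  obtain ⟨h, C, hh, hhz⟩ := coreV μ hm hdim hF hFB hP hg1
    (fun z hz => hg2 z hz) hνB hOmC hR2 hRC (fun z hz => (hR z hz).1) hRD hCQ hGh hG0 hGp hQ
    hOQ hGIC
  exact ⟨h, C, hh, fun z hz => ⟨(hhz z hz).1, (hhz z hz).2.2⟩⟩

end Pool.Agent.MPca0fc2.CE
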