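import Mathlib
import Pool.Agent.Lib.MP_ca0fc2_an.CE.H4
import Pool.Agent.Lib.MP_ca0fc2_an.CE.H6
import Pool.Agent.Lib.MP_ca0fc2_an.PV.U2

set_option autoImplicit false
set_option linter.unusedSectionVars false

open Metric Set MeasureTheory Filter Topology
open scoped InnerProductSpace ENNReal ContDiff

namespace Pool.Agent.MPca0fc2.CE

open Pool.Agent.MPca0fc2.PT
open Pool.Agent.MPca0fc2.QT
open Pool.Agent.MPca0fc2.TS
open Pool.Agent.MPca0fc2.TE
open Pool.Agent.MPca0fc2.TK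
open Pool.Agent.MPca0fc2.VK
open Pool.Agent.MPca0fc2.PV

variable {E : Type*} [NormedAddCommGroup E] [InnerProductSpace ℂ E] [FiniteDimensional ℂ E]
  [MeasurableSpace E] [BorelSpace E]


/-- The cell theorem. Proof. Copy of `PV.cellN` (PV/M11.lean) with `Mix_gg` instead of `CalmN_gg` (first `Mix_common` for the functions `b i ∘ gg c`: common radius, sequence, exponent, measure) and `cell2H` instead of `pv_cell2`. -/
theorem cellNH (hE : 2 ≤ Module.finrank ℂ E) {p c : E} (hp : ‖p‖ = 1) (hc : ‖c‖ < 1) {A : Set E}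
    (hA : ∀ a ∈ A, ‖a‖ < 1) (hcA : c ∈ A) {N l q : ℕ} {f : Fin N → E → ℂ} {b : Fin l → E → ℂ}
    {u : Fin q → E → ℂ} (hf : ∀ j, DifferentiableOn ℂ (f j) (ball 0 1)) {B : ℝ}
    (hfB : ∀ j, ∀ z ∈ ball (0 : E) 1, ‖f j z‖ ≤ B) (hb : ∀ i, MixN 1 (linU A p) p (b i))
    (hu : ∀ i, Calm 1 (lin c p) (u i)) {s K : ℝ} (hs : 0 < s) (hK : 1 ≤ K)
    (hreg : ∀ z ∈ ball (0 : E) 1, (∀ i, ‖u i z‖ < s) →
      ∃ b₀ ∈ lin c p, ‖b₀‖ < 1 ∧ ∀ b ∈ linU A p, ‖b‖ < 1 → PT.HH b z ≤ K * PT.HH b₀ z)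
    {k : Fin N → E → ℂ} (hk : ∀ j, DifferentiableOn ℂ (k j)
      {z | z ∈ ball (0 : E) 1 ∧ ‖z - p‖ < s ∧ ∀ i, ‖b i z‖ < s})
    (hkz : ∀ z ∈ ball (0 : E) 1, ‖z - p‖ < s → (∀ i, ‖b i z‖ < s) →
      ∑ j, f j z * k j z = 1 ∧ ∀ j, ‖k j z‖ ≤ B) :
    ∃ (h : Fin N → E → ℂ) (h' : Fin l → E → ℂ) (h'' : Fin q → E → ℂ) (h₀ : E → ℂ) (C : ℝ),
      (∀ j, DifferentiableOn ℂ (h j) (ball 0 1)) ∧ (∀ i, DifferentiableOn ℂ (h' i) (ball 0 1)) ∧
      (∀ i, DifferentiableOn ℂ (h'' i) (ball 0 1)) ∧ DifferentiableOn ℂ h₀ (ball 0 1) ∧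
      ∀ z ∈ ball (0 : E) 1, ∑ j, f j z * h j z + ∑ i, b i z * h' i z + ∑ i, u i z * h'' i z +
        (1 - ⟪p, z⟫_ℂ) * h₀ z = 1 ∧
          (∀ j, ‖h j z‖ ≤ C) ∧ (∀ i, ‖h' i z‖ ≤ C) ∧ (∀ i, ‖h'' i z‖ ≤ C) ∧ ‖h₀ z‖ ≤ C := by
  classical
  have hp' : ‖gg (-c) p‖ = 1 := gg_one (by rwa [norm_neg]) hp
  have hnc : ‖-c‖ < 1 := by rwa [norm_neg]
  have haut : Pool.Agent.Lib.MP_ca0fc2_an.IsBallAut (gg c) (gg (-c)) := gg_aut hc
  have hK0 : 0 ≤ K := le_trans zero_le_one hK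
  -- the functions `u` and `1 - ⟪p, ·⟫`
  set v : Fin (q + 1) → E → ℂ := Fin.snoc (α := fun _ => E → ℂ) u (fun z => 1 - ⟪p, z⟫_ℂ) with hv
  have hv1 : ∀ i : Fin q, v i.castSucc = u i := fun i => by
    rw [hv]; exact Fin.snoc_castSucc (α := fun _ => E → ℂ) _ _ _
  have hv2 : v (Fin.last q) = fun z => 1 - ⟪p, z⟫_ℂ := by
    rw [hv]; exact Fin.snoc_last (α := fun _ => E → ℂ) _ _
  have hvC : ∀ i, Calm 1 (lin c p) (v i) := by
    intro i
    refine Fin.lastCases ?_ (fun i => ?_) i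
    · rw [hv2]; exact calm_affine hc p p
    · rw [hv1]; exact hu i
  have hvL := fun i => calm_line hc hp (hvC i)
  choose Wu hWu hWu' using hvL
  have hbN := fun i => Mix_gg (κ := 1) zero_le_one hc hp hA (hb i)
  obtain ⟨t, Wb, s2, L2, ν, ht0, hWb0, hWbs, hs2, hs28, hL2, hν, hWb⟩ :=
    Mix_common ⟨p, hp⟩ hbN
  choose hb1 hb2 hb3 using hbN
  choose Cb hCb using hb2
  choose hv3 hv4 hv5 using hvC
  choose Cv hCv using hv4
  have hgp : gg c (gg (-c) p) = p := CG.gg_gg_neg hc hp.le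
  obtain ⟨t', ht'0, ht'⟩ := gg_cont (c := -c) (p := gg (-c) p) hnc hp' ht0
  rw [neg_neg, hgp] at ht'
  obtain ⟨d, hd⟩ := pow_unbounded_of_one_lt K (one_lt_two)
  set r : ℝ := min s (min (s ^ 2 / 2) (t' ^ 2 / 2)) with hr
  have hr0 : 0 < r := by
    rw [hr]
    refine lt_min hs (lt_min (by positivity) (by positivity))
  have hrs : r ≤ s := min_le_left _ _
  have hrs2 : r ≤ s ^ 2 / 2 := (min_le_right _ _).trans (min_le_left _ _)
  have hrt2 : r ≤ t' ^ 2 / 2 := (min_le_right _ _).trans (min_le_right _ _)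
  -- the cell
  have hcell : ∀ w ∈ ball (0 : E) 1, ∑ i, ‖v i (gg c w)‖ ^ 2 < r ^ 2 →
      (∀ i, ‖u i (gg c w)‖ < s) ∧ ‖gg c w - p‖ < s ∧ ‖gg c w - p‖ < t' := by
    intro w hw hsum
    have hz : gg c w ∈ ball (0 : E) 1 := haut.map w hw
    have hz1 : ‖gg c w‖ < 1 := mem_ball_zero_iff.1 hz
    have h1 : ∀ i, ‖v i (gg c w)‖ < r := by
      intro i
      have h2 : ‖v i (gg c w)‖ ^ 2 ≤ ∑ i, ‖v i (gg c w)‖ ^ 2 :=
        Finset.single_le_sum (f := fun i => ‖v i (gg c w)‖ ^ 2) (fun i _ => by positivity)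
          (Finset.mem_univ i)
      exact lt_of_pow_lt_pow_left₀ 2 hr0.le (h2.trans_lt hsum)
    have h2 : ‖1 - ⟪p, gg c w⟫_ℂ‖ < r := by
      have := h1 (Fin.last q)
      rw [hv2] at this
      exact this
    have h3 : ‖gg c w - p‖ ^ 2 ≤ 2 * ‖1 - ⟪p, gg c w⟫_ℂ‖ := by
      have e1 : ‖gg c w - p‖ ^ 2 = ‖gg c w‖ ^ 2 - 2 * (⟪p, gg c w⟫_ℂ).re + ‖p‖ ^ 2 := by
        have h4 := norm_sub_sq (𝕜 := ℂ) (gg c w) p
        rw [h4]
        have h5 : RCLike.re ⟪gg c w, p⟫_ℂ = (⟪p, gg c w⟫_ℂ).re := inner_re_symm _ _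
        rw [h5]
      have e2 : (1 - ⟪p, gg c w⟫_ℂ).re ≤ ‖1 - ⟪p, gg c w⟫_ℂ‖ := Complex.re_le_norm _
      rw [Complex.sub_re, Complex.one_re] at e2
      have e3 : ‖gg c w‖ ^ 2 ≤ 1 := by
        have := norm_nonneg (gg c w)
        nlinarith
      rw [e1, hp]
      nlinarith
    refine ⟨fun i => ?_, ?_, ?_⟩
    · have := h1 i.castSucc
      rw [hv1] at this
      exact this.trans_le hrs
    · refine lt_of_pow_lt_pow_left₀ 2 hs.le ?_
      linarith
    · refine lt_of_pow_lt_pow_left₀ 2 ht'0.le ?_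
      linarith
  -- bounds
  set B' : ℝ := |B| + ∑ i, |Cb i| + ∑ i, |Cv i| with hB'
  have n1 : 0 ≤ ∑ i, |Cb i| := Finset.sum_nonneg fun i _ => abs_nonneg _
  have n2 : 0 ≤ ∑ i, |Cv i| := Finset.sum_nonneg fun i _ => abs_nonneg _
  have n3 : B ≤ B' := by
    have := le_abs_self B
    rw [hB']; linarith
  have n4 : ∀ i, Cb i ≤ B' := fun i => by
    have h2 : |Cb i| ≤ ∑ i, |Cb i| :=
      Finset.single_le_sum (f := fun i => |Cb i|) (fun i _ => abs_nonneg _) (Finset.mem_univ i)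
    have h3 := abs_nonneg B
    have h4 := le_abs_self (Cb i)
    rw [hB']; linarith
  have n5 : ∀ i, Cv i ≤ B' := fun i => by
    have h2 : |Cv i| ≤ ∑ i, |Cv i| :=
      Finset.single_le_sum (f := fun i => |Cv i|) (fun i _ => abs_nonneg _) (Finset.mem_univ i)
    have h3 := abs_nonneg B
    have h4 := le_abs_self (Cv i)
    rw [hB']; linarith
  -- the sequence
  set W : ℕ → ℝ := fun n => ∑ i, |Wu i n| + Wb (n - d) with hW
  have hWs : Summable W := by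
    refine Summable.add (summable_sum fun i _ => (hWu i).abs) ?_
    rw [← summable_nat_add_iff d]
    simpa using hWbs
  obtain ⟨h, h', h'', C, g1, g2, g3, g4⟩ := cell2H hE hp' (f := fun j w => f j (gg c w))
    (b := fun i w => b i (gg c w)) (u := fun i w => v i (gg c w)) (B := B')
    (fun j => (hf j).comp haut.hol fun w hw => haut.map w hw) hb1
    (fun i => (hv3 i).comp haut.hol fun w hw => haut.map w hw)
    (fun j w hw => (hfB j _ (haut.map w hw)).trans n3)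
    (fun i w hw => (hCb i w hw).trans (n4 i))
    (fun i w hw => (hCv i _ (haut.map w hw)).trans (n5 i)) hr0
    (k := fun j w => k j (gg c w))
    (fun j => (hk j).comp (haut.hol.mono fun w hw => hw.1) fun w hw => by
      obtain ⟨c1, c2, c3⟩ := hcell w hw.1 hw.2.1
      refine ⟨haut.map w hw.1, c2, fun i => ?_⟩
      have h2 : ‖b i (gg c w)‖ ^ 2 ≤ ∑ i, ‖b i (gg c w)‖ ^ 2 :=
        Finset.single_le_sum (f := fun i => ‖b i (gg c w)‖ ^ 2) (fun i _ => by positivity)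
          (Finset.mem_univ i)
      exact (lt_of_pow_lt_pow_left₀ 2 hr0.le (h2.trans_lt hw.2.2)).trans_le hrs)
    (fun w hw hw1 hw2 => by
      obtain ⟨c1, c2, c3⟩ := hcell w hw hw1
      obtain ⟨k1, k2⟩ := hkz _ (haut.map w hw) c2 (fun i => by
        have h2 : ‖b i (gg c w)‖ ^ 2 ≤ ∑ i, ‖b i (gg c w)‖ ^ 2 :=
          Finset.single_le_sum (f := fun i => ‖b i (gg c w)‖ ^ 2) (fun i _ => by positivity)
            (Finset.mem_univ i)
        exact (lt_of_pow_lt_pow_left₀ 2 hr0.le (h2.trans_lt hw2)).trans_le hrs)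
      exact ⟨k1, fun j => (k2 j).trans n3⟩) hWs hs2 hs28 hL2 hν
    (by
      intro n w hw hn i
      have h1 := hWu' i n w hw hn
      have h2 : |Wu i n| ≤ ∑ i, |Wu i n| :=
        Finset.single_le_sum (f := fun i => |Wu i n|) (fun i _ => abs_nonneg _) (Finset.mem_univ i)
      have h3 : 0 ≤ Wb (n - d) := hWb0 _
      have h4 := le_abs_self (Wu i n)
      have h5 : 0 ≤ L2 * Tc s2 2 ν w := mul_nonneg hL2.le (Tc_nonneg hν 2 hw)
      rw [hW]
      show _ ≤ ∑ i, |Wu i n| + Wb (n - d) + L2 * Tc s2 2 ν w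
      linarith)
    (by
      intro n w hw hsum hn i
      have hw1 : ‖w‖ < 1 := mem_ball_zero_iff.1 hw
      obtain ⟨c1, c2, c3⟩ := hcell w hw hsum
      have hNr := Nr_gg hc hp hw1 hA hK0 (hreg _ (haut.map w hw) c1)
      have hw2 : ‖w - gg (-c) p‖ < t := by
        have h1 := ht' (gg c w) (mem_ball_zero_iff.1 (haut.map w hw)) c3
        rw [haut.left w hw] at h1
        exact h1
      have hro : ∀ b' ∈ linU (gg (-c) '' A) (gg (-c) p), ‖b'‖ < 1 →
          2 ^ (n - d) * PT.HH b' w ≤ 1 := by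
        intro b' hb' hb'1
        rcases le_total d n with hdn | hdn
        · have h1 := hNr b' hb' hb'1
          have h2 : (2 : ℝ) ^ n = 2 ^ (n - d) * 2 ^ d := by
            rw [← pow_add, Nat.sub_add_cancel hdn]
          have h0 : 0 < PT.HH b' w := HH_pos hb'1 hw1
          have h3 : 0 ≤ ro (Pe (gg (-c) p)) w := by
            by_contra hneg
            push Not at hneg
            nlinarith
          calc (2 : ℝ) ^ (n - d) * PT.HH b' w ≤ 2 ^ (n - d) * (K * ro (Pe (gg (-c) p)) w) := by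
                gcongr
            _ ≤ 2 ^ (n - d) * (2 ^ d * ro (Pe (gg (-c) p)) w) := by
                gcongr
            _ = 2 ^ n * ro (Pe (gg (-c) p)) w := by rw [h2]; ring
            _ ≤ 1 := hn
        · rw [Nat.sub_eq_zero_of_le hdn, pow_zero, one_mul]
          exact HH_le_one hb'1 hw1
      have h1 := hWb i (n - d) w hw hw2 hro
      rw [← Real.sqrt_eq_rpow] at h1
      have h3 : 0 ≤ ∑ i, |Wu i n| := Finset.sum_nonneg fun i _ => abs_nonneg _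
      rw [hW]
      show _ ≤ ∑ i, |Wu i n| + Wb (n - d) + L2 * Tc s2 2 ν w
      linarith)
  refine ⟨fun j z => h j (gg (-c) z), fun i z => h' i (gg (-c) z),
    fun i z => h'' i.castSucc (gg (-c) z), fun z => h'' (Fin.last q) (gg (-c) z), C,
    fun j => (g1 j).comp haut.hol' fun z hz => haut.map' z hz,
    fun i => (g2 i).comp haut.hol' fun z hz => haut.map' z hz,
    fun i => (g3 _).comp haut.hol' fun z hz => haut.map' z hz,
    (g3 _).comp haut.hol' fun z hz => haut.map' z hz, ?_⟩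
  intro z hz
  obtain ⟨e1, e2, e3, e4⟩ := g4 (gg (-c) z) (haut.map' z hz)
  refine ⟨?_, e2, e3, fun i => e4 _, e4 _⟩
  rw [Fin.sum_univ_castSucc (f := fun i => v i (gg c (gg (-c) z)) * h'' i (gg (-c) z))] at e1
  simp only [haut.right z hz, hv1, hv2] at e1
  refine Eq.trans ?_ e1
  ring

end Pool.Agent.MPca0fc2.CE
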