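import Mathlib
import Pool.Agent.Lib.MP_ca0fc2_an.CE.H7
import Pool.Agent.Lib.MP_ca0fc2_an.CE.H10
import Pool.Agent.Lib.MP_ca0fc2_an.PV.M5

set_option autoImplicit false
set_option linter.unusedSectionVars false

open Metric Set MeasureTheory Filter Topology
open scoped InnerProductSpace ENNReal ContDiff

namespace Pool.Agent.MPca0fc2.CE

open Pool.Agent.MPca0fc2.PT
open Pool.Agent.MPca0fc2.QT
open Pool.Agent.MPca0fc2.TS
open Pool.Agent.MPca0fc2.TE
open Pool.Agent.MPca0fc2.TK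
open Pool.Agent.MPca0fc2.VK
open Pool.Agent.MPca0fc2.PV

variable {E : Type*} [NormedAddCommGroup E] [InnerProductSpace ℂ E] [FiniteDimensional ℂ E]
  [MeasurableSpace E] [BorelSpace E]


open Pool.Agent.Lib.MP_ca0fc2_an

private theorem H11_BH {u : E → ℂ} (hu : DifferentiableOn ℂ u (ball 0 1)) {C : ℝ}
    (hC : ∀ z ∈ ball (0 : E) 1, ‖u z‖ ≤ C) : BH (fun _ : Unit => u) :=
  ⟨fun _ => hu, C, fun _ z hz => hC z hz⟩

private theorem H11_BH_calm {κ : ℝ} {S : Set E} {u : E → ℂ} (hu : Calm κ S u) :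
    BH (fun _ : Unit => u) := by
  obtain ⟨h1, ⟨C, hC⟩, -⟩ := hu
  exact H11_BH h1 hC

/-- sums of products with functions in the kernel are in the kernel -/
private theorem H11_char (X : Char Unit E) {N : ℕ} {b h : Fin N → E → ℂ}
    (hb : ∀ i, BH (fun _ : Unit => b i)) (hh : ∀ i, BH (fun _ : Unit => h i))
    (h0 : ∀ i, X.φ (fun _ => b i) = 0) :
    BH (fun (_ : Unit) z => ∑ i, b i z * h i z) ∧ X.φ (fun _ z => ∑ i, b i z * h i z) = 0 := by
  have h1 : ∀ k ∈ (Finset.univ : Finset (Fin N)), BH (fun (_ : Unit) z => b k z * h k z) :=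
    fun k _ => (hb k).mul (hh k)
  refine ⟨BH.sum h1, ?_⟩
  rw [X.map_sum h1]
  apply Finset.sum_eq_zero
  intro k _
  rw [X.map_mul (hb k) (hh k), h0 k, zero_mul]

/-- the function `1 - ⟪p, z⟫` is in the kernel of the characters over `p` -/
private theorem H11_over {p : E} (hp : ‖p‖ = 1) {X : Char Unit E} (hX : Over X p) :
    X.φ (fun _ z => 1 - ⟪p, z⟫_ℂ) = 0 := by
  have h1 := X.map_sub (BH.const (I := Unit) (E := E) 1) (BH.inner (I := Unit) p)
  have h2 : X.φ (fun _ z => 1 - ⟪p, z⟫_ℂ) = X.φ (fun _ _ => (1 : ℂ)) - X.φ (fun _ z => ⟪p, z⟫_ℂ) := h1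
  rw [h2, X.map_const, hX p, inner_self_eq_norm_sq_to_K, hp]
  norm_num

private theorem H11_sub {X : Char Unit E} {u : E → ℂ} (hu : BH (fun _ : Unit => u)) :
    X.φ (fun _ z => u z - X.φ (fun _ => u)) = 0 := by
  have h1 := X.map_sub hu (BH.const (I := Unit) (E := E) (X.φ (fun _ => u)))
  have h2 : X.φ (fun _ z => u z - X.φ (fun _ => u)) =
      X.φ (fun _ => u) - X.φ (fun _ _ => X.φ (fun _ => u)) := h1
  rw [h2, X.map_const, sub_self]

/-- the distance to `p` is controlled by `1 - ⟪p, z⟫` -/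
private theorem H11_dist {p z : E} (hp : ‖p‖ = 1) (hz : ‖z‖ < 1) {s : ℝ} (hs : 0 < s)
    (h : ‖1 - ⟪p, z⟫_ℂ‖ < s ^ 2 / 2) : ‖z - p‖ < s := by
  have h1 : ‖z - p‖ ^ 2 = ‖z‖ ^ 2 - 2 * RCLike.re ⟪z, p⟫_ℂ + ‖p‖ ^ 2 := norm_sub_sq z p
  have h2 : RCLike.re ⟪z, p⟫_ℂ = (⟪p, z⟫_ℂ).re := by
    rw [← inner_conj_symm z p]; exact Complex.conj_re _
  have h3 : (1 - ⟪p, z⟫_ℂ).re ≤ ‖1 - ⟪p, z⟫_ℂ‖ := Complex.re_le_norm _
  rw [Complex.sub_re, Complex.one_re] at h3
  rw [h2, hp] at h1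
  have h4 : ‖z‖ ^ 2 < 1 := by
    have := norm_nonneg z
    nlinarith
  have h5 : ‖z - p‖ ^ 2 < s ^ 2 := by rw [h1]; nlinarith
  exact lt_of_pow_lt_pow_left₀ 2 hs.le h5

private theorem H11_BH_mix {κ : ℝ} {S : Set E} {p : E} {u : E → ℂ} (hu : MixN κ S p u) :
    BH (fun _ : Unit => u) := by
  obtain ⟨h1, ⟨C, hC⟩, -⟩ := hu
  exact H11_BH h1 hC

/-- Proof. Copy of `PV.good_linN` (PV/M12b.lean; its private lemmas with the prefix `H11_`) with `cellNH`, `nearNH`; `bh`, `const`: definitions, `MixN.const`. -/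
theorem good_linH (hE : 2 ≤ Module.finrank ℂ E) {p : E} (hp : ‖p‖ = 1) {A : Set E}
    (hAf : A.Finite) (hne : A.Nonempty) (hA : ∀ a ∈ A, ‖a‖ < 1) :
    GoodC p {u | MixN 1 (linU A p) p u} {u | MixN 2 (linU A p) p u} := by
  obtain ⟨a₀', ha₀'⟩ := hne
  have hne' : A.Nonempty := ⟨a₀', ha₀'⟩
  refine ⟨?_, ?_, ?_, fun c => MixN.const one_pos _ p c⟩
  · intro X hX m a ha s hs N f k B hf hfB hk hfk
    by_contra hno
    push Not at hno
    obtain ⟨c₀, hc₀, l, u, s₁, K, hs₁, hK, huC, hreg⟩ := region_char hp X hAf hne' hA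
    set c : Fin m → ℂ := fun i => X.φ (fun _ => a i) with hc
    have hbX : ∀ i : Fin m, X.φ (fun _ z => a i z - c i) = 0 := fun i =>
      H11_sub (H11_BH_mix (ha i))
    have huX : ∀ i : Fin l, X.φ (fun _ z => u i z - X.φ (fun _ => u i)) = 0 := fun i =>
      H11_sub (H11_BH_calm (huC i))
    have hs₂ : 0 < min s s₁ := lt_min hs hs₁
    have hbC : ∀ i : Fin m, MixN 1 (linU A p) p (fun z => a i z - c i) := fun i =>
      MixN.sub_const (ha i) _
    have huC' : ∀ i : Fin l, Calm 1 (lin c₀ p) (fun z => u i z - X.φ (fun _ => u i)) := fun i =>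
      (huC i).sub_const _
    obtain ⟨h, h', h'', h₀, C, hh, hh', hh'', hh₀, hfin⟩ := cellNH hE hp (hA c₀ hc₀) hA hc₀
      (f := f) (b := fun i z => a i z - c i) (u := fun i z => u i z - X.φ (fun _ => u i)) hf hfB
      hbC huC' hs₂ hK
      (fun z hz h => hreg z hz fun i => (h i).trans_le (min_le_right _ _))
      (k := k) (fun j => (hk j).mono fun z hz => ⟨hz.1, hz.2.1.trans_le (min_le_left _ _),
        fun i => (hz.2.2 i).trans_le (min_le_left _ _)⟩)
      (fun z hz hz1 hz2 => hfk z hz (hz1.trans_le (min_le_left _ _))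
        fun i => (hz2 i).trans_le (min_le_left _ _))
    obtain ⟨e1, e2⟩ := H11_char X (b := f) (h := h) (fun j => H11_BH (hf j) (hfB j))
      (fun j => H11_BH (hh j) fun z hz => (hfin z hz).2.1 j) hno
    obtain ⟨e3, e4⟩ := H11_char X (b := fun i z => a i z - c i) (h := h')
      (fun i => H11_BH_mix (hbC i))
      (fun i => H11_BH (hh' i) fun z hz => (hfin z hz).2.2.1 i) hbX
    obtain ⟨e5, e6⟩ := H11_char X (b := fun i z => u i z - X.φ (fun _ => u i)) (h := h'')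
      (fun i => H11_BH_calm (huC' i))
      (fun i => H11_BH (hh'' i) fun z hz => (hfin z hz).2.2.2.1 i) huX
    have hb1 : BH (fun (_ : Unit) (z : E) => 1 - ⟪p, z⟫_ℂ) := BH.sub (BH.const 1) (BH.inner p)
    have hb2 : BH (fun (_ : Unit) (z : E) => h₀ z) :=
      H11_BH hh₀ fun z hz => (hfin z hz).2.2.2.2
    have e7 : BH (fun (_ : Unit) (z : E) => (1 - ⟪p, z⟫_ℂ) * h₀ z) := hb1.mul hb2
    have e8 : X.φ (fun _ z => (1 - ⟪p, z⟫_ℂ) * h₀ z) = 0 := by
      rw [X.map_mul hb1 hb2, H11_over hp hX, zero_mul]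
    have h1 := X.map_add e1 e3
    have h2 := X.map_add (e1.add e3) e5
    have h3 := X.map_add ((e1.add e3).add e5) e7
    rw [h2, h1, e2, e4, e6, e8, add_zero, add_zero, add_zero] at h3
    have h4 : X.φ (fun _ z => (∑ j, f j z * h j z) + (∑ i, (a i z - c i) * h' i z) +
        (∑ i, (u i z - X.φ (fun _ => u i)) * h'' i z) + (1 - ⟪p, z⟫_ℂ) * h₀ z) =
        X.φ (fun _ _ => (1 : ℂ)) :=
      X.congr (BH.const 1) fun _ z hz => (hfin z hz).1
    rw [X.map_const] at h4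
    exact one_ne_zero (h4.symm.trans h3)
  · intro X hX m a ha N v hv s hs
    by_contra hno
    push Not at hno
    obtain ⟨c₀, hc₀, l, u, s₁, K, hs₁, hK, huC, hreg⟩ := region_char hp X hAf hne' hA
    set c : Fin m → ℂ := fun i => X.φ (fun _ => a i) with hc
    set d : Fin N → ℂ := fun j => X.φ (fun _ => v j) with hd
    set s' : ℝ := min s (s ^ 2 / 2) with hs'
    have hs'0 : 0 < s' := lt_min hs (by positivity)
    set b' : Fin (m + N) → E → ℂ := Fin.append (fun i z => a i z - c i) (fun j z => v j z - d j) with hb'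
    have hb'l : ∀ i : Fin m, b' (Fin.castAdd N i) = fun z => a i z - c i := fun i =>
      Fin.append_left _ _ i
    have hb'r : ∀ j : Fin N, b' (Fin.natAdd m j) = fun z => v j z - d j := fun j =>
      Fin.append_right _ _ j
    set b : Fin (m + N + 1) → E → ℂ :=
      Fin.cons (α := fun _ => E → ℂ) (fun z => 1 - ⟪p, z⟫_ℂ) b' with hb
    have hb0 : b 0 = fun z => 1 - ⟪p, z⟫_ℂ := rfl
    have hbs : ∀ i, b (Fin.succ i) = b' i := fun i => rfl
    have hbC : ∀ i, MixN 2 (linU A p) p (b i) := by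
      intro i
      refine Fin.cases ?_ (fun i => ?_) i
      · rw [hb0]; exact MixN.of_calm (calmN_affine hne' hA p p).one_two
      · rw [hbs]
        refine Fin.addCases (fun i => ?_) (fun j => ?_) i
        · rw [hb'l]; exact MixN.one_two ⟨p, hp⟩ (MixN.sub_const (ha i) _)
        · rw [hb'r]; exact MixN.sub_const (hv j) _
    have hbX : ∀ i, X.φ (fun _ => b i) = 0 := by
      intro i
      refine Fin.cases ?_ (fun i => ?_) i
      · rw [hb0]; exact H11_over hp hX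
      · rw [hbs]
        refine Fin.addCases (fun i => ?_) (fun j => ?_) i
        · rw [hb'l]; exact H11_sub (H11_BH_mix (ha i))
        · rw [hb'r]; exact H11_sub (H11_BH_mix (hv j))
    have hlow : ∀ z ∈ ball (0 : E) 1, s' ^ 2 ≤ ∑ i, ‖b i z‖ ^ 2 := by
      intro z hz
      have hge : ∀ i, s' ≤ ‖b i z‖ → s' ^ 2 ≤ ∑ i, ‖b i z‖ ^ 2 := by
        intro i hi
        have h1 : ‖b i z‖ ^ 2 ≤ ∑ i, ‖b i z‖ ^ 2 :=
          Finset.single_le_sum (f := fun i => ‖b i z‖ ^ 2) (fun _ _ => by positivity)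
            (Finset.mem_univ i)
        exact (pow_le_pow_left₀ hs'0.le hi 2).trans h1
      by_cases h0 : s' ≤ ‖1 - ⟪p, z⟫_ℂ‖
      · exact hge 0 h0
      push Not at h0
      have hzp : ‖z - p‖ < s :=
        H11_dist hp (by simpa using hz) hs (h0.trans_le (min_le_right _ _))
      by_cases ha' : ∃ i, s ≤ ‖a i z - c i‖
      · obtain ⟨i, hi⟩ := ha'
        refine hge (Fin.succ (Fin.castAdd N i)) ?_
        rw [hbs, hb'l]
        exact (min_le_left _ _).trans hi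
      push Not at ha'
      obtain ⟨j, hj⟩ := hno z hz hzp ha'
      refine hge (Fin.succ (Fin.natAdd m j)) ?_
      rw [hbs, hb'r]
      exact (min_le_left _ _).trans hj
    have huX : ∀ i : Fin l, X.φ (fun _ z => u i z - X.φ (fun _ => u i)) = 0 := fun i =>
      H11_sub (H11_BH_calm (huC i))
    have huC' : ∀ i : Fin l, Calm 1 (lin c₀ p) (fun z => u i z - X.φ (fun _ => u i)) := fun i =>
      (huC i).sub_const _
    obtain ⟨h, h'', h₀, C, hh, hh'', hh₀, hfin⟩ := nearNH hE hp (hA c₀ hc₀) hA hc₀ hbC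
      (δ := s' ^ 2) (by positivity) hlow (u := fun i z => u i z - X.φ (fun _ => u i)) huC' hs₁ hK
      hreg
    obtain ⟨e1, e2⟩ := H11_char X (b := b) (h := h) (fun i => H11_BH_mix (hbC i))
      (fun i => H11_BH (hh i) fun z hz => (hfin z hz).2.1 i) hbX
    obtain ⟨e5, e6⟩ := H11_char X (b := fun i z => u i z - X.φ (fun _ => u i)) (h := h'')
      (fun i => H11_BH_calm (huC' i))
      (fun i => H11_BH (hh'' i) fun z hz => (hfin z hz).2.2.1 i) huX
    have hb1 : BH (fun (_ : Unit) (z : E) => 1 - ⟪p, z⟫_ℂ) := BH.sub (BH.const 1) (BH.inner p)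
    have hb2 : BH (fun (_ : Unit) (z : E) => h₀ z) :=
      H11_BH hh₀ fun z hz => (hfin z hz).2.2.2
    have e7 : BH (fun (_ : Unit) (z : E) => (1 - ⟪p, z⟫_ℂ) * h₀ z) := hb1.mul hb2
    have e8 : X.φ (fun _ z => (1 - ⟪p, z⟫_ℂ) * h₀ z) = 0 := by
      rw [X.map_mul hb1 hb2, H11_over hp hX, zero_mul]
    have h1 := X.map_add e1 e5
    have h3 := X.map_add (e1.add e5) e7
    rw [h1, e2, e6, e8, add_zero, add_zero] at h3
    have h4 : X.φ (fun _ z => (∑ i, b i z * h i z) +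
        (∑ i, (u i z - X.φ (fun _ => u i)) * h'' i z) + (1 - ⟪p, z⟫_ℂ) * h₀ z) =
        X.φ (fun _ _ => (1 : ℂ)) :=
      X.congr (BH.const 1) fun _ z hz => (hfin z hz).1
    rw [X.map_const] at h4
    exact one_ne_zero (h4.symm.trans h3)
  · rintro u (hu | hu)
    · exact ⟨hu.1, hu.2.1⟩
    · exact ⟨hu.1, hu.2.1⟩

/-- Directed families of finite sets of lines. Proof. Finitely many functions belong to one set of the family (`MixN.mono`, `linU (A ∪ A') p = linU A p ∪ linU A' p`). -/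
theorem goodC_fam (hE : 2 ≤ Module.finrank ℂ E) {p : E} (hp : ‖p‖ = 1) :
    GoodC p {u | ∃ A : Set E, A.Finite ∧ A.Nonempty ∧ (∀ a ∈ A, ‖a‖ < 1) ∧ MixN 1 (linU A p) p u}
      {u | ∃ A : Set E, A.Finite ∧ A.Nonempty ∧ (∀ a ∈ A, ‖a‖ < 1) ∧ MixN 2 (linU A p) p u} := by
  classical
  -- a common set of lines
  have hcom : ∀ (κ : ℝ) (l : ℕ) (w : Fin l → E → ℂ), (∀ i, ∃ A : Set E, A.Finite ∧ A.Nonempty ∧
      (∀ a ∈ A, ‖a‖ < 1) ∧ MixN κ (linU A p) p (w i)) → ∃ A : Set E, A.Finite ∧ A.Nonempty ∧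
      (∀ a ∈ A, ‖a‖ < 1) ∧ ∀ i, MixN κ (linU A p) p (w i) := by
    intro κ l w hw
    choose A hA1 hA2 hA3 hA4 using hw
    refine ⟨{0} ∪ ⋃ i, A i, (finite_singleton 0).union (finite_iUnion hA1), ⟨0, Or.inl rfl⟩, ?_, ?_⟩
    · rintro a (ha | ha)
      · rw [mem_singleton_iff.1 ha, norm_zero]; exact one_pos
      · obtain ⟨i, hi⟩ := mem_iUnion.1 ha
        exact hA3 i a hi
    · intro i
      refine MixN.mono ?_ (hA4 i)
      rintro b ⟨a, ha, hb⟩
      exact ⟨a, Or.inr (mem_iUnion.2 ⟨i, ha⟩), hb⟩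
  refine ⟨?_, ?_, ?_, ?_⟩
  · intro X hX m a ha s hs N f k B hf hfB hk hfk
    obtain ⟨A, hA1, hA2, hA3, hA4⟩ := hcom 1 m a ha
    exact (good_linH hE hp hA1 hA2 hA3).sol X hX m a hA4 s hs N f k B hf hfB hk hfk
  · intro X hX m a ha N v hv s hs
    obtain ⟨A, hA1, hA2, hA3, hA4⟩ := hcom 1 m a ha
    obtain ⟨A', hA1', hA2', hA3', hA4'⟩ := hcom 2 N v hv
    have hl : linU A p ⊆ linU (A ∪ A') p := by
      rintro b ⟨a, ha, hb⟩
      exact ⟨a, Or.inl ha, hb⟩
    have hr : linU A' p ⊆ linU (A ∪ A') p := by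
      rintro b ⟨a, ha, hb⟩
      exact ⟨a, Or.inr ha, hb⟩
    refine (good_linH hE hp (hA1.union hA1') (hA2.mono subset_union_left) ?_).near X hX m a
      (fun i => MixN.mono hl (hA4 i)) N v (fun j => MixN.mono hr (hA4' j)) s hs
    rintro b (hb | hb)
    · exact hA3 b hb
    · exact hA3' b hb
  · rintro u (hu | hu)
    · obtain ⟨A, hA1, hA2, hA3, hA4⟩ := hu
      exact ⟨hA4.1, hA4.2.1⟩
    · obtain ⟨A, hA1, hA2, hA3, hA4⟩ := hu
      exact ⟨hA4.1, hA4.2.1⟩
  · intro c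
    refine ⟨{0}, finite_singleton 0, singleton_nonempty 0, ?_, MixN.const one_pos _ p c⟩
    intro a ha
    rw [mem_singleton_iff.1 ha, norm_zero]
    exact one_pos

end Pool.Agent.MPca0fc2.CE
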