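import Mathlib
import Pool.Agent.Lib.MP_ca0fc2_an.CE.HD
import Pool.Agent.Lib.MP_ca0fc2_an.PV.W9

set_option autoImplicit false
set_option linter.unusedSectionVars false

open Metric Set MeasureTheory Filter Topology
open scoped InnerProductSpace ENNReal ContDiff

namespace Pool.Agent.MPca0fc2.CE

open Pool.Agent.MPca0fc2.PT
open Pool.Agent.MPca0fc2.QT
open Pool.Agent.MPca0fc2.TS
open Pool.Agent.MPca0fc2.TE
open Pool.Agent.MPca0fc2.TK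
open Pool.Agent.MPca0fc2.VK
open Pool.Agent.MPca0fc2.PV

variable {n : ℕ}

open Pool.Agent.Lib.MP_ca0fc2_an

/-- `PV.char_cellN` (PV/W2.lean) for the classes -/
theorem char_cellC {p : EuclideanSpace ℂ (Fin n)} {A1 A2 : Set (EuclideanSpace ℂ (Fin n) → ℂ)}
    (hS : GoodC p A1 A2) (X : Char Unit (EuclideanSpace ℂ (Fin n))) (hX : Over X p) {m : ℕ}
    {a : Fin m → EuclideanSpace ℂ (Fin n) → ℂ} (ha : ∀ i, a i ∈ A1) {s : ℝ} (hs : 0 < s)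
    {u : EuclideanSpace ℂ (Fin n) → ℂ} (hu : DifferentiableOn ℂ u (ball 0 1)) {B : ℝ}
    (huB : ∀ z ∈ ball (0 : EuclideanSpace ℂ (Fin n)) 1, ‖u z‖ ≤ B) {κ : ℝ}
    (hκ : 0 ≤ κ) (h : ∀ z ∈ ball (0 : EuclideanSpace ℂ (Fin n)) 1, ‖z - p‖ < s →
      (∀ i, ‖a i z - X.φ (fun _ => a i)‖ < s) → ‖u z‖ ≤ κ) : ‖X.φ (fun _ => u)‖ ≤ κ := by
  by_contra hcon
  push Not at hcon
  have hBu : BH fun (_ : Unit) => u := ⟨fun _ => hu, B, fun _ => huB⟩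
  obtain ⟨lam, hlam⟩ : ∃ lam : ℂ, lam = X.φ (fun _ => u) := ⟨_, rfl⟩
  rw [← hlam] at hcon
  have hlpos : 0 < ‖lam‖ := hκ.trans_lt hcon
  have hl0 : lam ≠ 0 := norm_pos_iff.1 hlpos
  have hlow : 0 < 1 - ‖lam‖⁻¹ * κ := by
    have : ‖lam‖⁻¹ * κ < 1 := by
      rw [inv_mul_lt_iff₀ hlpos, mul_one]
      exact hcon
    linarith
  have hnorm : ∀ z ∈ ball (0 : EuclideanSpace ℂ (Fin n)) 1, ‖z - p‖ < s → (∀ i, ‖a i z - X.φ (fun _ => a i)‖ < s) →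
      1 - ‖lam‖⁻¹ * κ ≤ ‖1 - lam⁻¹ * u z‖ := by
    intro z hz h1 h2
    have h3 := h z hz h1 h2
    have h4 : ‖lam⁻¹ * u z‖ ≤ ‖lam‖⁻¹ * κ := by
      rw [norm_mul, norm_inv]
      exact mul_le_mul_of_nonneg_left h3 (inv_nonneg.2 hlpos.le)
    have h5 := norm_sub_norm_le (1 : ℂ) (lam⁻¹ * u z)
    rw [norm_one] at h5
    linarith
  have hne : ∀ z ∈ {z | z ∈ ball (0 : EuclideanSpace ℂ (Fin n)) 1 ∧ ‖z - p‖ < s ∧
      ∀ i, ‖a i z - X.φ (fun _ => a i)‖ < s}, 1 - lam⁻¹ * u z ≠ 0 := by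
    rintro z ⟨h1, h2, h3⟩ h4
    have h5 := hnorm z h1 h2 h3
    rw [h4, norm_zero] at h5
    linarith
  have hdf : DifferentiableOn ℂ (fun z => 1 - lam⁻¹ * u z) (ball 0 1) :=
    (differentiableOn_const _).sub ((differentiableOn_const _).mul hu)
  obtain ⟨j, hj⟩ := hS.sol X hX m a ha s hs 1 (fun _ z => 1 - lam⁻¹ * u z)
    (fun _ z => (1 - lam⁻¹ * u z)⁻¹) (max (1 + ‖lam‖⁻¹ * B) (1 - ‖lam‖⁻¹ * κ)⁻¹)
    (fun _ => hdf) (fun _ z hz => by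
      refine le_trans ?_ (le_max_left _ _)
      refine (norm_sub_le _ _).trans ?_
      rw [norm_one, norm_mul, norm_inv]
      have := mul_le_mul_of_nonneg_left (huB z hz) (inv_nonneg.2 hlpos.le)
      linarith)
    (fun _ => (hdf.mono fun z hz => hz.1).inv hne)
    (fun z hz h1 h2 => by
      refine ⟨?_, fun _ => ?_⟩
      · rw [Fin.sum_univ_one]
        exact mul_inv_cancel₀ (hne z ⟨hz, h1, h2⟩)
      · refine le_trans ?_ (le_max_right _ _)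
        rw [norm_inv]
        exact inv_anti₀ hlow (hnorm z hz h1 h2))
  refine hj ?_
  have h1 := X.map_sub (BH.const 1) ((BH.const (I := Unit) (E := EuclideanSpace ℂ (Fin n)) lam⁻¹).mul hBu)
  have h2 := X.map_smul lam⁻¹ hBu
  have h3 := X.map_const 1
  calc X.φ (fun _ z => 1 - lam⁻¹ * u z) = X.φ (fun _ _ => 1) - X.φ (fun _ z => lam⁻¹ * u z) := h1
    _ = 1 - lam⁻¹ * X.φ (fun _ => u) := by rw [h2, h3]
    _ = 0 := by rw [← hlam, inv_mul_cancel₀ hl0, sub_self]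

/-- Functions which are continuous at `p`. Proof. The constant `c` is in `A1` (`GoodC.const`). -/
theorem regC_of_tendsto {p : EuclideanSpace ℂ (Fin n)}
    {A1 A2 : Set (EuclideanSpace ℂ (Fin n) → ℂ)} (hS : GoodC p A1 A2)
    {u : EuclideanSpace ℂ (Fin n) → ℂ} (hu : IsHinf (ball 0 1) u) {c : ℂ}
    (h : Tendsto u (𝓝[ball 0 1] p) (𝓝 c)) : u ∈ RegC A1 p := by
  refine ⟨hu.1, hu.2, fun ε hε => ⟨fun _ => c, hS.const c, ?_⟩⟩
  obtain ⟨d, hd, h1⟩ := Metric.tendsto_nhdsWithin_nhds.1 h ε hε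
  refine ⟨d, hd, fun z hz hzp => ?_⟩
  have h2 := h1 hz (by rw [dist_eq_norm]; exact hzp)
  rw [dist_eq_norm] at h2
  exact h2.le

end Pool.Agent.MPca0fc2.CE
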