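import Mathlib
import Pool.Agent.Lib.MP_ca0fc2_an.CE.C1
import Pool.Agent.Lib.MP_ca0fc2_an.CGInv

set_option autoImplicit false
set_option linter.unusedSectionVars false

open Metric Set MeasureTheory Filter Topology
open scoped InnerProductSpace ENNReal ContDiff

namespace Pool.Agent.MPca0fc2.CE

open Pool.Agent.MPca0fc2.PT
open Pool.Agent.Lib.MP_ca0fc2_an

variable {E : Type*} [NormedAddCommGroup E] [InnerProductSpace ℂ E] [FiniteDimensional ℂ E]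
  [MeasurableSpace E] [BorelSpace E]

private theorem K1_ae {ν : Measure E} (hν : Car ν) : ∀ᵐ u ∂ν, u ∈ ball (0 : E) 1 := by
  rw [ae_iff]
  exact hν.sub

/-- `t ≤ λ + t^m/λ^(m-1)` -/
private theorem K1_young {a l : ℝ} (ha : 0 ≤ a) (hl : 0 < l) (m : ℕ) :
    a ≤ l + a ^ (m + 1) / l ^ m := by
  rcases le_total a l with h | h
  · have : 0 ≤ a ^ (m + 1) / l ^ m := by positivity
    linarith
  · have h1 : a * l ^ m ≤ a ^ (m + 1) := by
      rw [pow_succ, mul_comm (a ^ m)]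
      exact mul_le_mul_of_nonneg_left (pow_le_pow_left₀ hl.le h m) ha
    have h2 : a ≤ a ^ (m + 1) / l ^ m := by
      rw [le_div_iff₀ (by positivity)]
      exact h1
    linarith

/-- the kernels -/
private theorem K1_ker {s : ℝ} (hs : 0 < s) {m : ℕ} (hm : 2 ≤ ((m : ℝ) + 2) * (s / 2)) {l : ℝ}
    (hl : 0 < l) {u z : E} (hu : ‖u‖ < 1) (hz : ‖z‖ < 1) :
    kc s 2 u z ≤ l * kc (s / 2) 1 u z +
      (2 ^ (((m : ℝ) + 2) * (s / 2)) * 2 ^ (m + 1)) / l ^ m * kc 2 1 u z := by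
  obtain ⟨hD0, hD1, hD2⟩ := a_pos hu.le hz
  have hD3 := (a_pos' hu hz.le).2.1
  have hzz : 0 < 1 - ‖z‖ ^ 2 := by nlinarith [norm_nonneg z]
  have huu : 0 < 1 - ‖u‖ ^ 2 := by nlinarith [norm_nonneg u]
  unfold kc
  obtain ⟨D, hD⟩ : ∃ D, D = ‖1 - ⟪u, z⟫_ℂ‖ := ⟨_, rfl⟩
  rw [← hD] at hD0 hD1 hD2 hD3 ⊢
  obtain ⟨X, hX⟩ : ∃ X, X = (1 - ‖z‖ ^ 2) / D := ⟨_, rfl⟩
  obtain ⟨Y, hY⟩ : ∃ Y, Y = (1 - ‖u‖ ^ 2) / D := ⟨_, rfl⟩
  rw [← hX, ← hY]
  have hX0 : 0 < X := by rw [hX]; positivity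
  have hY0 : 0 < Y := by rw [hY]; positivity
  have hX2 : X ≤ 2 := by rw [hX, div_le_iff₀ hD0]; exact hD1
  have hY2 : Y ≤ 2 := by rw [hY, div_le_iff₀ hD0]; exact hD3
  have hs2 : 0 < s / 2 := by positivity
  -- `X^s = X^(s/2) X^(s/2)`
  have e1 : X ^ s = X ^ (s / 2) * X ^ (s / 2) := by
    rw [← Real.rpow_add hX0]
    congr 1
    ring
  have hP0 : 0 < X ^ (s / 2) := by positivity
  have h1 := K1_young (a := X ^ (s / 2) * Y) (by positivity) hl m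
  have h2 : (X ^ (s / 2) * Y) ^ (m + 1) * (X ^ (s / 2) * Y) ≤
      2 ^ (((m : ℝ) + 2) * (s / 2)) * 2 ^ (m + 1) * (X ^ (2 : ℝ) * Y ^ 1) := by
    have e2 : (X ^ (s / 2) * Y) ^ (m + 1) * (X ^ (s / 2) * Y) =
        X ^ (((m : ℝ) + 2) * (s / 2)) * (Y ^ (m + 1) * Y) := by
      have e3 : X ^ (((m : ℝ) + 2) * (s / 2)) = (X ^ (s / 2)) ^ (m + 2) := by
        rw [← Real.rpow_natCast, ← Real.rpow_mul hX0.le]
        congr 1
        push_cast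
        ring
      rw [e3]
      ring
    have e4 : X ^ (((m : ℝ) + 2) * (s / 2)) ≤ 2 ^ (((m : ℝ) + 2) * (s / 2)) * X ^ (2 : ℝ) := by
      have e5 : X ^ (((m : ℝ) + 2) * (s / 2)) =
          X ^ (((m : ℝ) + 2) * (s / 2) - 2) * X ^ (2 : ℝ) := by
        rw [← Real.rpow_add hX0]
        congr 1
        ring
      rw [e5]
      refine mul_le_mul_of_nonneg_right ?_ (by positivity)
      calc X ^ (((m : ℝ) + 2) * (s / 2) - 2) ≤ 2 ^ (((m : ℝ) + 2) * (s / 2) - 2) :=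
            Real.rpow_le_rpow hX0.le hX2 (by linarith)
        _ ≤ 2 ^ (((m : ℝ) + 2) * (s / 2)) :=
            Real.rpow_le_rpow_of_exponent_le (by norm_num) (by linarith)
    have e6 : Y ^ (m + 1) ≤ 2 ^ (m + 1) := pow_le_pow_left₀ hY0.le hY2 _
    rw [e2]
    calc X ^ (((m : ℝ) + 2) * (s / 2)) * (Y ^ (m + 1) * Y) ≤
          (2 ^ (((m : ℝ) + 2) * (s / 2)) * X ^ (2 : ℝ)) * (2 ^ (m + 1) * Y) := by gcongr
      _ = _ := by ring
  have h3 : X ^ s * Y ^ 2 ≤ l * (X ^ (s / 2) * Y ^ 1) +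
      (2 ^ (((m : ℝ) + 2) * (s / 2)) * 2 ^ (m + 1)) / l ^ m * (X ^ (2 : ℝ) * Y ^ 1) := by
    have e7 : X ^ s * Y ^ 2 = (X ^ (s / 2) * Y) * (X ^ (s / 2) * Y) := by rw [e1]; ring
    have h4 := mul_le_mul_of_nonneg_right h1 (by positivity : 0 ≤ X ^ (s / 2) * Y)
    have h5 : (X ^ (s / 2) * Y) ^ (m + 1) / l ^ m * (X ^ (s / 2) * Y) ≤
        2 ^ (((m : ℝ) + 2) * (s / 2)) * 2 ^ (m + 1) / l ^ m * (X ^ (2 : ℝ) * Y ^ 1) := by
      rw [div_mul_eq_mul_div, div_mul_eq_mul_div]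
      exact div_le_div_of_nonneg_right h2 (by positivity)
    rw [e7]
    calc (X ^ (s / 2) * Y) * (X ^ (s / 2) * Y) ≤
          (l + (X ^ (s / 2) * Y) ^ (m + 1) / l ^ m) * (X ^ (s / 2) * Y) := h4
      _ = l * (X ^ (s / 2) * Y ^ 1) +
          (X ^ (s / 2) * Y) ^ (m + 1) / l ^ m * (X ^ (s / 2) * Y) := by ring
      _ ≤ _ := by gcongr
  have h6 := div_le_div_of_nonneg_right h3 hD0.le
  calc X ^ s * Y ^ 2 / D ≤ _ := h6
    _ = _ := by ring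

/-- the powers of the energy -/
private theorem K1_pow (hE : ∃ ζ : E, ‖ζ‖ = 1) {s : ℝ} (hs : 0 < s) {m : ℕ}
    (hm : 2 ≤ ((m : ℝ) + 2) * (s / 2)) : ∃ C : ℝ, 0 < C ∧ ∀ ν : Measure E, Car ν →
      ∀ z ∈ ball (0 : E) 1, Tc s 2 ν z ^ (m + 1) ≤ C * Tc 2 1 ν z := by
  obtain ⟨C, hC, hT⟩ := Tc_le (E := E) hE (s := s / 2) (by positivity) 1
  obtain ⟨κ, hκ⟩ : ∃ κ : ℝ, κ = 2 ^ (((m : ℝ) + 2) * (s / 2)) * 2 ^ (m + 1) := ⟨_, rfl⟩
  have hκ0 : 0 < κ := by rw [hκ]; positivity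
  refine ⟨2 * (2 * C) ^ m * κ, by positivity, fun ν hν z hz => ?_⟩
  have hz1 := mem_ball_zero_iff.1 hz
  obtain ⟨e, he⟩ : ∃ e, e = Tc s 2 ν z := ⟨_, rfl⟩
  have he0 : 0 ≤ e := by rw [he]; exact Tc_nonneg hν 2 hz
  have hG0 : 0 ≤ Tc 2 1 ν z := Tc_nonneg hν 1 hz
  rw [← he]
  rcases he0.eq_or_lt with h0 | h0
  · rw [← h0, zero_pow (by omega)]
    positivity
  obtain ⟨l, hl⟩ : ∃ l, l = e / (2 * C) := ⟨_, rfl⟩
  have hl0 : 0 < l := by rw [hl]; positivity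
  have h1 : e ≤ l * Tc (s / 2) 1 ν z + κ / l ^ m * Tc 2 1 ν z := by
    rw [he]
    unfold Tc
    rw [← integral_const_mul, ← integral_const_mul, ← integral_add
      ((kc_int hE hν (by positivity) 1 hz).const_mul _)
      ((kc_int hE hν (by norm_num) 1 hz).const_mul _)]
    refine integral_mono_ae (kc_int hE hν hs.le 2 hz)
      (((kc_int hE hν (by positivity) 1 hz).const_mul _).add
        ((kc_int hE hν (by norm_num) 1 hz).const_mul _)) ?_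
    filter_upwards [K1_ae hν] with u hu
    rw [hκ]
    exact K1_ker hs hm hl0 (mem_ball_zero_iff.1 hu) hz1
  have h2 : l * Tc (s / 2) 1 ν z ≤ e / 2 := by
    calc l * Tc (s / 2) 1 ν z ≤ l * C := mul_le_mul_of_nonneg_left (hT ν hν z hz) hl0.le
      _ = e / 2 := by rw [hl]; field_simp
  have h3 : e / 2 ≤ κ / l ^ m * Tc 2 1 ν z := by linarith
  have h4 : e / 2 * l ^ m ≤ κ * Tc 2 1 ν z := by
    have h5 := mul_le_mul_of_nonneg_right h3 (by positivity : 0 ≤ l ^ m)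
    calc e / 2 * l ^ m ≤ κ / l ^ m * Tc 2 1 ν z * l ^ m := h5
      _ = κ * Tc 2 1 ν z := by field_simp
  have h6 : e ^ (m + 1) = 2 * (2 * C) ^ m * (e / 2 * l ^ m) := by
    rw [hl, div_pow]
    field_simp
    ring
  rw [h6]
  calc 2 * (2 * C) ^ m * (e / 2 * l ^ m) ≤ 2 * (2 * C) ^ m * (κ * Tc 2 1 ν z) := by gcongr
    _ = _ := by ring

/-- the measure `κ ν/(1 - |u|²)` -/
private noncomputable def K1_nu (κ : ℝ) (ν : Measure E) : Measure E :=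
  ν.withDensity fun u => ((Real.toNNReal (κ / (1 - ‖u‖ ^ 2)) : NNReal) : ℝ≥0∞)

private theorem K1_meas (κ : ℝ) : Measurable fun u : E => Real.toNNReal (κ / (1 - ‖u‖ ^ 2)) := by
  refine Measurable.real_toNNReal ?_
  fun_prop

private theorem K1_int {κ : ℝ} (hκ : 0 < κ) {ν : Measure E} (hν : Car ν) {z : E}
    (hz : z ∈ ball (0 : E) 1) :
    ∫ u in ball (0 : E) 1, invKer z u ^ 2 ∂(K1_nu κ ν) = κ * Tc 2 1 ν z := by
  have hz1 := mem_ball_zero_iff.1 hz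
  unfold K1_nu
  rw [restrict_withDensity measurableSet_ball,
    integral_withDensity_eq_integral_smul (K1_meas κ)]
  unfold Tc
  rw [← integral_const_mul]
  have hr : ν.restrict (ball (0 : E) 1) = ν := Measure.restrict_eq_self_of_ae_mem (K1_ae hν)
  rw [hr]
  refine integral_congr_ae ?_
  filter_upwards [K1_ae hν] with u hu
  have hu1 := mem_ball_zero_iff.1 hu
  have huu : 0 < 1 - ‖u‖ ^ 2 := by nlinarith [norm_nonneg u]
  have hzz : 0 < 1 - ‖z‖ ^ 2 := by nlinarith [norm_nonneg z]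
  have hD0 := (a_pos hu1.le hz1).1
  have hsy : ‖1 - ⟪z, u⟫_ℂ‖ = ‖1 - ⟪u, z⟫_ℂ‖ := by
    rw [← Complex.norm_conj, map_sub, map_one, inner_conj_symm]
  show (Real.toNNReal (κ / (1 - ‖u‖ ^ 2)) : NNReal) • invKer z u ^ 2 = κ * kc 2 1 u z
  rw [NNReal.smul_def, Real.coe_toNNReal _ (by positivity), smul_eq_mul]
  unfold invKer kc
  rw [hsy]
  have e : ((1 - ‖z‖ ^ 2) / ‖1 - ⟪u, z⟫_ℂ‖) ^ (2 : ℝ) = ((1 - ‖z‖ ^ 2) / ‖1 - ⟪u, z⟫_ℂ‖) ^ 2 := by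
    rw [← Real.rpow_natCast]
    norm_num
  rw [e]
  field_simp

/-- From the energy to the local potentials: functions with `|Du|^q ≤ L Tc s 2 ν` satisfy
`CarlesonGradient p A`, with `p`, `A` depending on `q, s, L` only. -/
theorem cg_of_energy (hE : ∃ ζ : E, ‖ζ‖ = 1) {q s L : ℝ} (hq : 0 < q) (hs : 0 < s) (hL : 0 < L) :
    ∃ p A : ℝ, 1 ≤ p ∧ ∀ (u : E → ℂ) (ν : Measure E), Car ν →
      (∀ z ∈ ball (0 : E) 1, IG2 u z ^ (q / 2) ≤ L * Tc s 2 ν z) → CarlesonGradient p A u := by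
  obtain ⟨m, hm1, hm2⟩ : ∃ m : ℕ, 2 ≤ ((m : ℝ) + 2) * (s / 2) ∧ 1 ≤ q * ((m : ℝ) + 1) := by
    obtain ⟨m, hm⟩ := exists_nat_ge (max (4 / s) (1 / q))
    refine ⟨m, ?_, ?_⟩
    · have h1 : 4 / s ≤ m := (le_max_left _ _).trans hm
      rw [div_le_iff₀ hs] at h1
      nlinarith
    · have h1 : 1 / q ≤ m := (le_max_right _ _).trans hm
      rw [div_le_iff₀ hq] at h1
      nlinarith
  obtain ⟨C, hC, hpow⟩ := K1_pow (E := E) hE hs hm1
  obtain ⟨C₂, hC₂, hfar⟩ := car_far (E := E) hE (p := 2) (by norm_num)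
  obtain ⟨κ, hκ⟩ : ∃ κ : ℝ, κ = L ^ (m + 1) * C := ⟨_, rfl⟩
  have hκ0 : 0 < κ := by rw [hκ]; positivity
  refine ⟨q * (m + 1), κ * (2 * C₂), hm2, fun u ν hν hu => ⟨K1_nu κ ν, ?_, ?_⟩⟩
  · intro w hw
    have hw1 := mem_ball_zero_iff.1 hw
    have hww : 0 < 1 - ‖w‖ ^ 2 := by nlinarith [norm_nonneg w]
    unfold K1_nu
    rw [restrict_withDensity measurableSet_ball,
      lintegral_withDensity_eq_lintegral_mul₀' (K1_meas κ).coe_nnreal_ennreal.aemeasurable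
        (by
          refine (Measurable.ennreal_ofReal ?_).aemeasurable
          unfold invKer
          fun_prop)]
    have hr : ν.restrict (ball (0 : E) 1) = ν := Measure.restrict_eq_self_of_ae_mem (K1_ae hν)
    rw [hr]
    have h1 := hfar ν hν w hw ((1 - ‖w‖ ^ 2) / 2) (by positivity)
    have h2 : ∫⁻ ξ, ((fun u : E => ((Real.toNNReal (κ / (1 - ‖u‖ ^ 2)) : NNReal) : ℝ≥0∞)) *
        fun ξ => ENNReal.ofReal (invKer w ξ)) ξ ∂ν ≤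
        ENNReal.ofReal (κ * (1 - ‖w‖ ^ 2)) *
          ∫⁻ ξ in {ξ | (1 - ‖w‖ ^ 2) / 2 ≤ ‖1 - ⟪ξ, w⟫_ℂ‖},
            ENNReal.ofReal (‖1 - ⟪ξ, w⟫_ℂ‖ ^ (-2 : ℝ)) ∂ν := by
      have hset : ν.restrict {ξ : E | (1 - ‖w‖ ^ 2) / 2 ≤ ‖1 - ⟪ξ, w⟫_ℂ‖} = ν := by
        refine Measure.restrict_eq_self_of_ae_mem ?_
        filter_upwards [K1_ae hν] with ξ hξ
        have h3 := (a_pos (mem_ball_zero_iff.1 hξ).le hw1).2.1
        show (1 - ‖w‖ ^ 2) / 2 ≤ ‖1 - ⟪ξ, w⟫_ℂ‖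
        linarith
      rw [hset, ← lintegral_const_mul _ (by
        refine Measurable.ennreal_ofReal ?_
        fun_prop)]
      refine lintegral_mono_ae ?_
      filter_upwards [K1_ae hν] with ξ hξ
      have hξ1 := mem_ball_zero_iff.1 hξ
      have hξξ : 0 < 1 - ‖ξ‖ ^ 2 := by nlinarith [norm_nonneg ξ]
      have hD0 := (a_pos hξ1.le hw1).1
      have hsy : ‖1 - ⟪w, ξ⟫_ℂ‖ = ‖1 - ⟪ξ, w⟫_ℂ‖ := by
        rw [← Complex.norm_conj, map_sub, map_one, inner_conj_symm]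
      show ((Real.toNNReal (κ / (1 - ‖ξ‖ ^ 2)) : NNReal) : ℝ≥0∞) * ENNReal.ofReal (invKer w ξ) ≤ _
      rw [← ENNReal.ofReal_mul (by positivity)]
      have e1 : ((Real.toNNReal (κ / (1 - ‖ξ‖ ^ 2)) : NNReal) : ℝ≥0∞) =
          ENNReal.ofReal (κ / (1 - ‖ξ‖ ^ 2)) := rfl
      rw [e1, ← ENNReal.ofReal_mul (by positivity)]
      refine le_of_eq ?_
      congr 1
      unfold invKer
      rw [hsy, Real.rpow_neg hD0.le]
      have e2 : ‖1 - ⟪ξ, w⟫_ℂ‖ ^ (2 : ℝ) = ‖1 - ⟪ξ, w⟫_ℂ‖ ^ 2 := by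
        rw [← Real.rpow_natCast]
        norm_num
      rw [e2]
      field_simp
    refine h2.trans ((mul_le_mul_right h1 _).trans ?_)
    rw [← ENNReal.ofReal_mul (by positivity)]
    refine ENNReal.ofReal_le_ofReal (le_of_eq ?_)
    have e3 : ((1 - ‖w‖ ^ 2) / 2) ^ (1 - 2 : ℝ) = 2 / (1 - ‖w‖ ^ 2) := by
      rw [show (1 - 2 : ℝ) = -1 by norm_num, Real.rpow_neg_one, inv_div]
    rw [e3]
    field_simp
  · intro z hz
    have hz1 := mem_ball_zero_iff.1 hz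
    rw [K1_int hκ0 hν hz]
    have h0 : 0 ≤ IG2 u z := gd_IG_nonneg hz1
    have h1 : invGrad2 u z = IG2 u z := rfl
    have h2 : IG2 u z ^ (q * ((m : ℝ) + 1) / 2) = (IG2 u z ^ (q / 2)) ^ (m + 1) := by
      rw [← Real.rpow_natCast, ← Real.rpow_mul h0]
      congr 1
      push_cast
      ring
    rw [h1, h2]
    calc (IG2 u z ^ (q / 2)) ^ (m + 1) ≤ (L * Tc s 2 ν z) ^ (m + 1) :=
          pow_le_pow_left₀ (Real.rpow_nonneg h0 _) (hu z hz) _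
      _ = L ^ (m + 1) * Tc s 2 ν z ^ (m + 1) := mul_pow _ _ _
      _ ≤ L ^ (m + 1) * (C * Tc 2 1 ν z) := by
          refine mul_le_mul_of_nonneg_left (hpow ν hν z hz) (by positivity)
      _ = κ * Tc 2 1 ν z := by rw [hκ]; ring

end Pool.Agent.MPca0fc2.CE
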