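import Pool.Agent.Lib.MP_ca0fc2_an.GW.I6

/-! Compositions with functions whose gradient satisfies a Carleson condition. (The proof is that of
`comp_carl`, GW/I6.lean.) -/

set_option autoImplicit false

open Metric Set MeasureTheory Filter Topology
open scoped InnerProductSpace ENNReal

namespace Pool.Agent.MPca0fc2.GW

open Pool.Agent.MPca0fc2.FD
open Pool.Agent.Lib.MP_ca0fc2_an

variable {n : ℕ}

private theorem K2_cau {V : Type*} [NormedAddCommGroup V] [NormedSpace ℂ V] {F : Ec n → V}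
    {p : Ec n} {r η K : ℝ} (hη : 0 < η) (hF : DifferentiableOn ℂ F (ball p (r + η)))
    (hK : ∀ z ∈ ball p (r + η), ‖F z‖ ≤ K) (hK0 : 0 ≤ K) :
    ∀ z ∈ ball p r, ‖fderiv ℂ F z‖ ≤ K / η := by
  intro z hz
  have hz' : ‖z - p‖ < r := by rwa [mem_ball, dist_eq_norm] at hz
  refine ContinuousLinearMap.opNorm_le_bound _ (by positivity) fun X => ?_
  by_cases hX : X = 0
  · subst hX
    simp
  have hXn : 0 < ‖X‖ := norm_pos_iff.2 hX
  have hr : 0 < η / ‖X‖ := by positivity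
  have hin : ∀ l : ℂ, ‖l‖ ≤ η / ‖X‖ → z + l • X ∈ ball p (r + η) := by
    intro l hl
    have hl' : ‖l‖ * ‖X‖ ≤ η := by rwa [le_div_iff₀ hXn] at hl
    rw [mem_ball, dist_eq_norm, show z + l • X - p = (z - p) + l • X by abel]
    refine (norm_add_le _ _).trans_lt ?_
    rw [norm_smul]
    linarith
  have hd : ∀ l : ℂ, ‖l‖ ≤ η / ‖X‖ → DifferentiableAt ℂ (fun l : ℂ => F (z + l • X)) l := by
    intro l hl
    have h1 : DifferentiableAt ℂ F (z + l • X) :=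
      hF.differentiableAt (isOpen_ball.mem_nhds (hin l hl))
    have h2 : DifferentiableAt ℂ (fun l : ℂ => z + l • X) l :=
      (differentiableAt_id.smul_const X).const_add z
    exact h1.comp l h2
  have hdc : DiffContOnCl ℂ (fun l : ℂ => F (z + l • X)) (ball 0 (η / ‖X‖)) := by
    apply DifferentiableOn.diffContOnCl
    rw [closure_ball _ hr.ne']
    intro l hl
    exact (hd l (by simpa using hl)).differentiableWithinAt
  have hcau := Complex.norm_deriv_le_of_forall_mem_sphere_norm_le hr hdc (C := K) (by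
    intro l hl
    exact hK _ (hin l (by simpa using (mem_sphere_zero_iff_norm.1 hl).le)))
  have hder : deriv (fun l : ℂ => F (z + l • X)) 0 = fderiv ℂ F z X := by
    have h1 : HasFDerivAt F (fderiv ℂ F z) (z + (0 : ℂ) • X) := by
      rw [zero_smul, add_zero]
      have h0 := hin 0 (by rw [norm_zero]; exact hr.le)
      rw [zero_smul, add_zero] at h0
      exact (hF.differentiableAt (isOpen_ball.mem_nhds h0)).hasFDerivAt
    have h2 : HasDerivAt (fun l : ℂ => z + l • X) X 0 := by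
      simpa using ((hasDerivAt_id (0 : ℂ)).smul_const X).const_add z
    exact (h1.comp_hasDerivAt (0 : ℂ) h2).deriv
  rw [hder] at hcau
  refine hcau.trans (le_of_eq ?_)
  field_simp

private theorem K2_bd {k : ℕ} {p : Ec n} {r r' : ℝ} (hr : r' < r)
    {Q : Ec n → Ec k} (hQ : DifferentiableOn ℂ Q (ball p r)) :
    ∃ K : ℝ, 0 ≤ K ∧ ∀ z ∈ ball p r', ‖Q z‖ ≤ K ∧ ‖fderiv ℂ Q z‖ ≤ K := by
  have hη : 0 < (r - r') / 2 := by linarith
  have hsub : closedBall p (r' + (r - r') / 2) ⊆ ball p r := by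
    apply closedBall_subset_ball
    linarith
  obtain ⟨M, hM⟩ := (isCompact_closedBall p (r' + (r - r') / 2)).exists_bound_of_continuousOn
    (hQ.continuousOn.mono hsub)
  have hc := K2_cau (p := p) (r := r') (K := |M|) hη
    (hQ.mono (ball_subset_closedBall.trans hsub))
    (fun z hz => (hM z (ball_subset_closedBall hz)).trans (le_abs_self _)) (abs_nonneg _)
  have h0 : 0 ≤ |M| / ((r - r') / 2) := by positivity
  refine ⟨|M| + |M| / ((r - r') / 2), by positivity, fun z hz => ⟨?_, ?_⟩⟩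
  · have h1 : ‖Q z‖ ≤ |M| := (hM z (mem_closedBall.2 (by
      have := mem_ball.1 hz
      linarith))).trans (le_abs_self _)
    linarith
  · have h1 := hc z hz
    have h2 := abs_nonneg M
    linarith

theorem comp_carl_cg (hn : 1 ≤ n) {D U : Set (Ec n)} {ρ : Ec n → ℝ} {h : Ec n → Ec n → Fin n → ℂ}
    {c : ℝ} (hs : SupportData D U ρ h c) {p : Ec n} {r r' : ℝ} (hr : r' < r) {u : Ec n → ℂ}
    {k : ℕ} {Q : Ec n → Ec k} {g : Ec k → ℂ} {q A M : ℝ} (hq : 1 ≤ q)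
    (hQ : DifferentiableOn ℂ Q (ball p r)) (hQ1 : ∀ z ∈ D ∩ ball p r, ‖Q z‖ < 1)
    (hgd : DifferentiableOn ℂ g (ball 0 1)) (hgM : ∀ z ∈ ball (0 : Ec k) 1, ‖g z‖ ≤ M)
    (hcg : CarlesonGradient q A g) (hug : ∀ z ∈ D ∩ ball p r, u z = g (Q z)) :
    u ∈ CarlOn D (ball p r') := by
  obtain ⟨ν, hν1, hν2⟩ := hcg
  obtain ⟨a, w, C, haw, hC1, hC2⟩ := disc_measure ν hν1
  obtain ⟨K₀, hK0, hhopf⟩ := hopf_loc hn hs hr hQ hQ1
  obtain ⟨K₃, hK3, hbb⟩ := bb_disc hn hs hr hQ hQ1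
  obtain ⟨K₁, hK1, hbd⟩ := K2_bd hr hQ
  obtain ⟨L, hL1, hL⟩ := rho_le_dist hn hs
  have hsub : D ∩ ball p r' ⊆ D ∩ ball p r := inter_subset_inter_right _ (ball_subset_ball hr.le)
  have hmaps : ∀ z ∈ D ∩ ball p r', Q z ∈ ball (0 : Ec k) 1 := fun z hz =>
    mem_ball_zero_iff.2 (hQ1 z (hsub hz))
  -- the constants
  obtain ⟨K', hK'⟩ : ∃ K', K' = K₃ ^ (q / 2) * K₀ ^ (q / 2) * 4 := ⟨_, rfl⟩
  have hK'0 : 0 ≤ K' := by rw [hK']; positivity
  have hC0 : 0 ≤ |C| := abs_nonneg _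
  -- facts about `V i z`
  have hVre : ∀ i, ∀ z, ‖Q z‖ < 1 → 1 - ‖a i‖ ≤ (1 - ⟪a i, Q z⟫_ℂ).re ∧
      1 - ‖Q z‖ ≤ (1 - ⟪a i, Q z⟫_ℂ).re := by
    intro i z hz
    have h1 : (⟪a i, Q z⟫_ℂ).re ≤ ‖a i‖ * ‖Q z‖ :=
      (Complex.re_le_norm _).trans (norm_inner_le_norm _ _)
    have h2 := (haw i).1
    have h3 := norm_nonneg (a i)
    have h4 := norm_nonneg (Q z)
    rw [Complex.sub_re, Complex.one_re]
    constructor <;> nlinarith
  have hVn : ∀ i, ∀ z, (1 - ⟪a i, Q z⟫_ℂ).re ≤ ‖1 - ⟪a i, Q z⟫_ℂ‖ := fun i z =>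
    Complex.re_le_norm _
  have hcon : ∀ i, ∀ z, ‖1 - ⟪Q z, a i⟫_ℂ‖ = ‖1 - ⟪a i, Q z⟫_ℂ‖ := by
    intro i z
    rw [← inner_conj_symm (Q z) (a i), ← RCLike.norm_conj (1 - ⟪a i, Q z⟫_ℂ), map_sub, map_one]
  have hker : ∀ i, ∀ z, invKer (Q z) (a i) =
      (1 - ‖Q z‖ ^ 2) * (1 - ‖a i‖ ^ 2) / ‖1 - ⟪a i, Q z⟫_ℂ‖ ^ 2 := by
    intro i z
    rw [invKer, hcon]
  have hN : ∀ i, 0 < 1 - ‖a i‖ ^ 2 ∧ 1 - ‖a i‖ ^ 2 ≤ 2 * (1 - ‖a i‖) := by
    intro i
    have h2 := (haw i).1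
    have h3 := norm_nonneg (a i)
    constructor <;> nlinarith
  refine ⟨⟨?_, M, ?_⟩, max (max (1 + K₁) (2 + K₀)) (K' * K₀ * |C|), q,
    fun i z => 1 - ⟪a i, Q z⟫_ℂ, fun i => 1 - ‖a i‖ ^ 2, fun i => K' * w i, hq, ⟨?_, ?_, ?_, ?_, ?_⟩,
    ?_⟩
  · refine (hgd.comp (hQ.mono (inter_subset_right.trans (ball_subset_ball hr.le))) hmaps).congr
      fun z hz => hug z (hsub hz)
  · intro z hz
    rw [hug z (hsub hz)]
    exact hgM _ (hmaps z hz)
  · exact fun i => ⟨(hN i).1, mul_nonneg hK'0 (haw i).2⟩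
  · intro i
    have h1 : DifferentiableOn ℂ (fun z => ⟪a i, Q z⟫_ℂ) (ball p r') :=
      ((innerSL ℂ (a i)).differentiable.comp_differentiableOn
        (hQ.mono (ball_subset_ball hr.le)))
    exact (differentiableOn_const _).sub h1
  · intro i z hz
    have h1 := (hbd z hz).1
    have h2 := (haw i).1
    refine le_trans ?_ ((le_max_left _ _).trans (le_max_left _ _))
    calc ‖(1 : ℂ) - ⟪a i, Q z⟫_ℂ‖ ≤ ‖(1 : ℂ)‖ + ‖⟪a i, Q z⟫_ℂ‖ := norm_sub_le _ _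
      _ ≤ 1 + ‖a i‖ * ‖Q z‖ := by
          rw [norm_one]
          gcongr
          exact norm_inner_le_norm _ _
      _ ≤ 1 + 1 * K₁ := by gcongr
      _ = 1 + K₁ := by ring
  · intro i z hz
    have h1 := hVre i z (hQ1 z (hsub hz))
    have h2 := hhopf z hz
    have h3 := (hN i).2
    have h4 : 0 ≤ (1 - ⟪a i, Q z⟫_ℂ).re := by
      have := (haw i).1
      linarith [h1.1]
    calc 1 - ‖a i‖ ^ 2 + infDist z Dᶜ ≤ 2 * (1 - ‖a i‖) + K₀ * (1 - ‖Q z‖) := by linarith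
      _ ≤ 2 * (1 - ⟪a i, Q z⟫_ℂ).re + K₀ * (1 - ⟪a i, Q z⟫_ℂ).re := by
          gcongr
          · exact h1.1
          · exact h1.2
      _ = (2 + K₀) * (1 - ⟪a i, Q z⟫_ℂ).re := by ring
      _ ≤ _ := by
          refine mul_le_mul_of_nonneg_right ?_ h4
          exact (le_max_right _ _).trans (le_max_left _ _)
  · intro z hz m
    have hz1 := hQ1 z (hsub hz)
    refine le_trans ?_ (le_max_right _ _)
    have h2 := hhopf z hz
    have h5 : infDist z Dᶜ ≤ K₀ * (1 - ‖Q z‖ ^ 2) := by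
      refine h2.trans (mul_le_mul_of_nonneg_left ?_ (by linarith))
      nlinarith [norm_nonneg (Q z)]
    calc ∑ i ∈ Finset.range m, K' * w i * (1 - ‖a i‖ ^ 2) * infDist z Dᶜ /
          ‖1 - ⟪a i, Q z⟫_ℂ‖ ^ 2
        ≤ ∑ i ∈ Finset.range m, K' * K₀ * (w i * invKer (Q z) (a i)) := by
          refine Finset.sum_le_sum fun i _ => ?_
          rw [hker]
          have e1 : K' * w i * (1 - ‖a i‖ ^ 2) * infDist z Dᶜ ≤
              K' * w i * (1 - ‖a i‖ ^ 2) * (K₀ * (1 - ‖Q z‖ ^ 2)) := by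
            refine mul_le_mul_of_nonneg_left h5 ?_
            exact mul_nonneg (mul_nonneg hK'0 (haw i).2) (hN i).1.le
          calc K' * w i * (1 - ‖a i‖ ^ 2) * infDist z Dᶜ / ‖1 - ⟪a i, Q z⟫_ℂ‖ ^ 2
              ≤ K' * w i * (1 - ‖a i‖ ^ 2) * (K₀ * (1 - ‖Q z‖ ^ 2)) /
                ‖1 - ⟪a i, Q z⟫_ℂ‖ ^ 2 := div_le_div_of_nonneg_right e1 (by positivity)
            _ = _ := by ring
      _ = K' * K₀ * ∑ i ∈ Finset.range m, w i * invKer (Q z) (a i) := by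
          rw [Finset.mul_sum]
      _ ≤ K' * K₀ * |C| := by
          refine mul_le_mul_of_nonneg_left ?_ (mul_nonneg hK'0 (by linarith))
          exact (hC1 (Q z) (mem_ball_zero_iff.2 hz1) m).trans (le_abs_self _)
  · intro φ hφ hφD
    have h0 := hφD 0 (mem_ball_self one_pos)
    have hQx := hQ1 (φ 0) (hsub h0)
    have hQx' : Q (φ 0) ∈ ball (0 : Ec k) 1 := mem_ball_zero_iff.2 hQx
    obtain ⟨X, hX⟩ : ∃ X, X = fderiv ℂ Q (φ 0) (deriv φ 0) := ⟨_, rfl⟩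
    -- the chain rule
    have hder : deriv (fun x => u (φ x)) 0 = fderiv ℂ g (Q (φ 0)) X := by
      have e0 : (fun x => u (φ x)) =ᶠ[𝓝 0] fun x => g (Q (φ x)) := by
        filter_upwards [isOpen_ball.mem_nhds (mem_ball_self (x := (0 : ℂ)) one_pos)] with x hx
        exact hug (φ x) (hsub (hφD x hx))
      rw [e0.deriv_eq, hX]
      have e1 : HasDerivAt φ (deriv φ 0) 0 :=
        (hφ.differentiableAt (isOpen_ball.mem_nhds (mem_ball_self one_pos))).hasDerivAt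
      have e2 : HasFDerivAt Q (fderiv ℂ Q (φ 0)) (φ 0) :=
        (hQ.differentiableAt (isOpen_ball.mem_nhds (hsub h0).2)).hasFDerivAt
      have e3 : HasFDerivAt g (fderiv ℂ g (Q (φ 0))) (Q (φ 0)) :=
        (hgd.differentiableAt (isOpen_ball.mem_nhds hQx')).hasFDerivAt
      have e4 : HasDerivAt (fun x => Q (φ x)) (fderiv ℂ Q (φ 0) (deriv φ 0)) 0 :=
        e2.comp_hasDerivAt (0 : ℂ) e1
      exact (e3.comp_hasDerivAt (0 : ℂ) e4).deriv
    obtain ⟨s, hsd⟩ : ∃ s, s = 1 - ‖Q (φ 0)‖ ^ 2 := ⟨_, rfl⟩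
    obtain ⟨d, hdd⟩ : ∃ d, d = infDist (φ 0) Dᶜ := ⟨_, rfl⟩
    have hs0 : 0 < s := by rw [hsd]; nlinarith [norm_nonneg (Q (φ 0))]
    have hd0 : 0 < d := by rw [hdd]; exact (hL _ h0.1).2.1
    have hds : d ≤ K₀ * s := by
      rw [hdd, hsd]
      refine (hhopf _ h0).trans (mul_le_mul_of_nonneg_left ?_ (by linarith))
      nlinarith [norm_nonneg (Q (φ 0))]
    have hBB := hbb φ hφ hφD
    rw [← hsd, ← hdd, ← hX] at hBB
    obtain ⟨IG, hIG⟩ : ∃ IG, IG = PT.IG2 g (Q (φ 0)) := ⟨_, rfl⟩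
    have hIG0 : 0 ≤ IG := by rw [hIG]; exact PT.gd_IG_nonneg hQx
    have h1 : ‖fderiv ℂ g (Q (φ 0)) X‖ ^ 2 ≤ IG * (K₃ * (d / s)) := by
      refine (CP.BB_IG hQx X).trans ?_
      rw [← hIG]
      exact mul_le_mul_of_nonneg_left hBB hIG0
    have h2 : IG ^ (q / 2) ≤ ∑' i, w i * invKer (Q (φ 0)) (a i) ^ 2 := by
      have e1 := hν2 (Q (φ 0)) hQx'
      have e2 := (hC2 (Q (φ 0)) hQx').2
      have e3 : invGrad2 g (Q (φ 0)) = IG := by rw [hIG]; exact CG.invGrad2_eq _ _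
      rw [e3] at e1
      exact e1.trans e2
    have hsum := (hC2 (Q (φ 0)) hQx').1
    rw [hder, ← hdd]
    have hτ0 : 0 < d / s := by positivity
    have hτ : d / s ≤ K₀ := by rwa [div_le_iff₀ hs0]
    have h3 : ‖fderiv ℂ g (Q (φ 0)) X‖ ^ q ≤
        (K₃ ^ (q / 2) * K₀ ^ (q / 2) * (d / s) ^ (1 / 4 : ℝ)) *
          ∑' i, w i * invKer (Q (φ 0)) (a i) ^ 2 := by
      have e1 : ‖fderiv ℂ g (Q (φ 0)) X‖ ^ q = (‖fderiv ℂ g (Q (φ 0)) X‖ ^ 2) ^ (q / 2) := by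
        rw [← Real.rpow_natCast, ← Real.rpow_mul (norm_nonneg _)]
        congr 1
        push_cast
        ring
      have e2 : (d / s) ^ (q / 2) ≤ K₀ ^ (q / 2) * (d / s) ^ (1 / 4 : ℝ) := by
        have f1 : (d / s) ^ (q / 2) = (d / s) ^ (q / 2 - 1 / 4) * (d / s) ^ (1 / 4 : ℝ) := by
          rw [← Real.rpow_add hτ0]
          congr 1
          ring
        rw [f1]
        refine mul_le_mul_of_nonneg_right ?_ (by positivity)
        calc (d / s) ^ (q / 2 - 1 / 4) ≤ K₀ ^ (q / 2 - 1 / 4) :=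
              Real.rpow_le_rpow hτ0.le hτ (by linarith)
          _ ≤ K₀ ^ (q / 2) := Real.rpow_le_rpow_of_exponent_le hK0 (by linarith)
      rw [e1]
      calc (‖fderiv ℂ g (Q (φ 0)) X‖ ^ 2) ^ (q / 2) ≤ (IG * (K₃ * (d / s))) ^ (q / 2) :=
            Real.rpow_le_rpow (by positivity) h1 (by linarith)
        _ = IG ^ (q / 2) * (K₃ ^ (q / 2) * (d / s) ^ (q / 2)) := by
            rw [Real.mul_rpow hIG0 (by positivity), Real.mul_rpow (by linarith) hτ0.le]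
        _ ≤ (∑' i, w i * invKer (Q (φ 0)) (a i) ^ 2) *
            (K₃ ^ (q / 2) * (K₀ ^ (q / 2) * (d / s) ^ (1 / 4 : ℝ))) := by
            refine mul_le_mul h2 (mul_le_mul_of_nonneg_left e2 (by positivity)) (by positivity) ?_
            exact tsum_nonneg fun i => mul_nonneg (haw i).2 (sq_nonneg _)
        _ = _ := by ring
    -- the comparison of the terms
    have hterm : ∀ i, (K₃ ^ (q / 2) * K₀ ^ (q / 2) * (d / s) ^ (1 / 4 : ℝ)) *
        (w i * invKer (Q (φ 0)) (a i) ^ 2) ≤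
        K' * w i * (1 - ‖a i‖ ^ 2) ^ 2 *
          (d ^ (1 / 4 : ℝ) / ‖1 - ⟪a i, Q (φ 0)⟫_ℂ‖ ^ (9 / 4 : ℝ)) := by
      intro i
      have hv1 := hVre i (φ 0) hQx
      have hv2 := hVn i (φ 0)
      rw [hker, ← hsd]
      obtain ⟨v, hv⟩ : ∃ v, v = ‖1 - ⟪a i, Q (φ 0)⟫_ℂ‖ := ⟨_, rfl⟩
      obtain ⟨N, hNd⟩ : ∃ N, N = 1 - ‖a i‖ ^ 2 := ⟨_, rfl⟩
      rw [← hv] at hv2 ⊢
      rw [← hNd]
      have hsv : s ≤ 2 * v := by
        rw [hsd]
        nlinarith [norm_nonneg (Q (φ 0)), hv1.2]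
      have hv0 : 0 < v := by linarith
      have f1 : s ^ 2 = s ^ (1 / 4 : ℝ) * s ^ (7 / 4 : ℝ) := by
        rw [← Real.rpow_add hs0, ← Real.rpow_natCast]
        norm_num
      have f2 : v ^ 4 = v ^ (7 / 4 : ℝ) * v ^ (9 / 4 : ℝ) := by
        rw [← Real.rpow_add hv0, ← Real.rpow_natCast]
        norm_num
      have f3 : s ^ (7 / 4 : ℝ) ≤ 4 * v ^ (7 / 4 : ℝ) := by
        calc s ^ (7 / 4 : ℝ) ≤ (2 * v) ^ (7 / 4 : ℝ) :=
              Real.rpow_le_rpow hs0.le hsv (by norm_num)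
          _ = 2 ^ (7 / 4 : ℝ) * v ^ (7 / 4 : ℝ) := Real.mul_rpow (by norm_num) hv0.le
          _ ≤ 2 ^ (2 : ℝ) * v ^ (7 / 4 : ℝ) := by
              refine mul_le_mul_of_nonneg_right ?_ (by positivity)
              exact Real.rpow_le_rpow_of_exponent_le (by norm_num) (by norm_num)
          _ = 4 * v ^ (7 / 4 : ℝ) := by norm_num
      have f4 : (d / s) ^ (1 / 4 : ℝ) * (s * N / v ^ 2) ^ 2 ≤
          4 * N ^ 2 * (d ^ (1 / 4 : ℝ) / v ^ (9 / 4 : ℝ)) := by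
        have g1 : 0 < s ^ (1 / 4 : ℝ) := by positivity
        have g2 : 0 < v ^ (7 / 4 : ℝ) := by positivity
        have g3 : 0 < v ^ (9 / 4 : ℝ) := by positivity
        rw [Real.div_rpow hd0.le hs0.le]
        calc d ^ (1 / 4 : ℝ) / s ^ (1 / 4 : ℝ) * (s * N / v ^ 2) ^ 2
            = d ^ (1 / 4 : ℝ) * N ^ 2 * (s ^ 2 / s ^ (1 / 4 : ℝ)) / v ^ 4 := by
              field_simp
          _ = d ^ (1 / 4 : ℝ) * N ^ 2 * (s ^ (7 / 4 : ℝ)) /
              (v ^ (7 / 4 : ℝ) * v ^ (9 / 4 : ℝ)) := by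
              rw [f1, f2, mul_div_cancel_left₀ _ g1.ne']
          _ ≤ d ^ (1 / 4 : ℝ) * N ^ 2 * (4 * v ^ (7 / 4 : ℝ)) /
              (v ^ (7 / 4 : ℝ) * v ^ (9 / 4 : ℝ)) := by gcongr
          _ = 4 * N ^ 2 * (d ^ (1 / 4 : ℝ) / v ^ (9 / 4 : ℝ)) := by
              field_simp
      have f5 : 0 ≤ K₃ ^ (q / 2) * K₀ ^ (q / 2) * w i :=
        mul_nonneg (by positivity) (haw i).2
      calc (K₃ ^ (q / 2) * K₀ ^ (q / 2) * (d / s) ^ (1 / 4 : ℝ)) *
            (w i * (s * N / v ^ 2) ^ 2)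
          = (K₃ ^ (q / 2) * K₀ ^ (q / 2) * w i) *
            ((d / s) ^ (1 / 4 : ℝ) * (s * N / v ^ 2) ^ 2) := by ring
        _ ≤ (K₃ ^ (q / 2) * K₀ ^ (q / 2) * w i) *
            (4 * N ^ 2 * (d ^ (1 / 4 : ℝ) / v ^ (9 / 4 : ℝ))) :=
            mul_le_mul_of_nonneg_left f4 f5
        _ = _ := by rw [hK']; ring
    -- the terms on the right are summable
    have hsumR : Summable fun i => K' * w i * (1 - ‖a i‖ ^ 2) ^ 2 *
          (d ^ (1 / 4 : ℝ) / ‖1 - ⟪a i, Q (φ 0)⟫_ℂ‖ ^ (9 / 4 : ℝ)) := by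
      have hs1 : Summable fun i => w i * invKer (Q (φ 0)) (a i) := by
        refine summable_of_sum_range_le (c := C) (fun i => ?_) fun m => hC1 _ hQx' m
        rw [hker]
        refine mul_nonneg (haw i).2 (div_nonneg (mul_nonneg ?_ (hN i).1.le) (sq_nonneg _))
        rw [← hsd]; exact hs0.le
      refine Summable.of_nonneg_of_le (fun i => ?_) (fun i => ?_)
        (hs1.mul_left (K' * 4 * d ^ (1 / 4 : ℝ) / s))
      · refine mul_nonneg (mul_nonneg (mul_nonneg hK'0 (haw i).2) (sq_nonneg _)) ?_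
        positivity
      · have hv1 := hVre i (φ 0) hQx
        have hv2 := hVn i (φ 0)
        rw [hker, ← hsd]
        have hv3 : ‖1 - ⟪a i, Q (φ 0)⟫_ℂ‖ ≤ 2 := by
          calc ‖(1 : ℂ) - ⟪a i, Q (φ 0)⟫_ℂ‖ ≤ ‖(1 : ℂ)‖ + ‖⟪a i, Q (φ 0)⟫_ℂ‖ := norm_sub_le _ _
            _ ≤ 1 + ‖a i‖ * ‖Q (φ 0)‖ := by
                rw [norm_one]
                gcongr
                exact norm_inner_le_norm _ _
            _ ≤ 1 + 1 * 1 := by
                have := (haw i).1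
                gcongr
            _ = 2 := by norm_num
        have hN' := hN i
        obtain ⟨v, hv⟩ : ∃ v, v = ‖1 - ⟪a i, Q (φ 0)⟫_ℂ‖ := ⟨_, rfl⟩
        obtain ⟨N, hNd⟩ : ∃ N, N = 1 - ‖a i‖ ^ 2 := ⟨_, rfl⟩
        rw [← hv] at hv2 hv3 ⊢
        rw [← hNd] at hN' ⊢
        have hNv : N ≤ 2 * v := by linarith [hN'.2, hv1.1]
        have hv0 : 0 < v := by linarith [hN'.1]
        have g3 : 0 < v ^ (9 / 4 : ℝ) := by positivity
        have g4 : v ^ (9 / 4 : ℝ) = v ^ 2 * v ^ (1 / 4 : ℝ) := by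
          rw [← Real.rpow_natCast, ← Real.rpow_add hv0]
          norm_num
        have g5 : 0 < v ^ (1 / 4 : ℝ) := by positivity
        have g6 : N / v ^ (1 / 4 : ℝ) ≤ 4 := by
          rw [div_le_iff₀ g5]
          have g7 : v = v ^ (3 / 4 : ℝ) * v ^ (1 / 4 : ℝ) := by
            rw [← Real.rpow_add hv0]
            norm_num
          have g8 : v ^ (3 / 4 : ℝ) ≤ 2 := by
            calc v ^ (3 / 4 : ℝ) ≤ 2 ^ (3 / 4 : ℝ) := Real.rpow_le_rpow hv0.le hv3 (by norm_num)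
              _ ≤ 2 ^ (1 : ℝ) := Real.rpow_le_rpow_of_exponent_le (by norm_num) (by norm_num)
              _ = 2 := by norm_num
          calc N ≤ 2 * v := hNv
            _ = 2 * (v ^ (3 / 4 : ℝ) * v ^ (1 / 4 : ℝ)) := by rw [← g7]
            _ ≤ 2 * (2 * v ^ (1 / 4 : ℝ)) := by gcongr
            _ = 4 * v ^ (1 / 4 : ℝ) := by ring
        have g9 : 0 ≤ K' * w i := mul_nonneg hK'0 (haw i).2
        calc K' * w i * N ^ 2 * (d ^ (1 / 4 : ℝ) / v ^ (9 / 4 : ℝ))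
            = (K' * w i) * (N * d ^ (1 / 4 : ℝ) / v ^ 2) * (N / v ^ (1 / 4 : ℝ)) := by
              rw [g4]
              field_simp
          _ ≤ (K' * w i) * (N * d ^ (1 / 4 : ℝ) / v ^ 2) * 4 := by
              refine mul_le_mul_of_nonneg_left g6 (mul_nonneg g9 ?_)
              have := hN'.1
              positivity
          _ = K' * 4 * d ^ (1 / 4 : ℝ) / s * (w i * (s * N / v ^ 2)) := by
              field_simp
    calc ‖fderiv ℂ g (Q (φ 0)) X‖ ^ q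
        ≤ (K₃ ^ (q / 2) * K₀ ^ (q / 2) * (d / s) ^ (1 / 4 : ℝ)) *
          ∑' i, w i * invKer (Q (φ 0)) (a i) ^ 2 := h3
      _ = ∑' i, (K₃ ^ (q / 2) * K₀ ^ (q / 2) * (d / s) ^ (1 / 4 : ℝ)) *
          (w i * invKer (Q (φ 0)) (a i) ^ 2) := by rw [tsum_mul_left]
      _ ≤ _ := (hsum.mul_left _).tsum_le_tsum hterm hsumR

end Pool.Agent.MPca0fc2.GW
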