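import Mathlib
import Pool.Agent.Lib.MP_ca0fc2_an.CE.C1
import Pool.Agent.Lib.MP_ca0fc2_an.CGInv

set_option autoImplicit false
set_option linter.unusedSectionVars false

open Metric Set MeasureTheory Filter Topology
open scoped InnerProductSpace ENNReal ContDiff

namespace Pool.Agent.MPca0fc2.CE

open Pool.Agent.MPca0fc2.PT
open Pool.Agent.Lib.MP_ca0fc2_an

variable {E : Type*} [NormedAddCommGroup E] [InnerProductSpace ℂ E] [FiniteDimensional ℂ E]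
  [MeasurableSpace E] [BorelSpace E]

private theorem K3_symm (x y : E) : ‖1 - ⟪x, y⟫_ℂ‖ = ‖1 - ⟪y, x⟫_ℂ‖ := by
  rw [← Complex.norm_conj, map_sub, map_one, inner_conj_symm]

private theorem K3_ker0 {w z : E} (hw : ‖w‖ < 1) (hz : ‖z‖ < 1) : 0 ≤ invKer w z := by
  unfold invKer
  have h1 : 0 < 1 - ‖z‖ ^ 2 := by nlinarith [norm_nonneg z]
  have h2 : 0 < 1 - ‖w‖ ^ 2 := by nlinarith [norm_nonneg w]
  positivity

private theorem K3_ker1 {w z : E} (hw : ‖w‖ < 1) (hz : ‖z‖ < 1) : invKer w z ≤ 4 := by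
  obtain ⟨hD0, hD1, hD2⟩ := a_pos hw.le hz
  have hD3 := (a_pos' hw hz.le).2.1
  have h1 : 0 < 1 - ‖z‖ ^ 2 := by nlinarith [norm_nonneg z]
  have h2 : 0 < 1 - ‖w‖ ^ 2 := by nlinarith [norm_nonneg w]
  unfold invKer
  rw [div_le_iff₀ (by positivity)]
  nlinarith

private theorem K3_kmeas (w : E) : Measurable fun ξ : E => invKer w ξ := by
  unfold invKer
  fun_prop

/-- the measure `(1 - |ξ|²) ν/κ` on the ball -/
private noncomputable def K3_nu (κ : ℝ) (ν : Measure E) : Measure E :=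
  (ν.restrict (ball 0 1)).withDensity fun u => ((Real.toNNReal ((1 - ‖u‖ ^ 2) / κ) : NNReal) : ℝ≥0∞)

private theorem K3_meas (κ : ℝ) : Measurable fun u : E => Real.toNNReal ((1 - ‖u‖ ^ 2) / κ) := by
  refine Measurable.real_toNNReal ?_
  fun_prop

private theorem K3_box {A : ℝ} {ν : Measure E}
    (h : ∀ w ∈ ball (0 : E) 1,
      ∫⁻ ξ in ball (0 : E) 1, ENNReal.ofReal (invKer w ξ) ∂ν ≤ ENNReal.ofReal A)
    {κ : ℝ} (hκ : 0 < κ) (hκA : 9 / 2 * A ≤ κ) {ζ : E} (hζ : ‖ζ‖ = 1) {r : ℝ}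
    (hr : 0 < r) (hr2 : r ≤ 2) :
    K3_nu κ ν {u | ‖1 - ⟪u, ζ⟫_ℂ‖ < r} ≤ ENNReal.ofReal r := by
  obtain ⟨w, hwd⟩ : ∃ w : E, w = ((1 - r / 2 : ℝ) : ℂ) • ζ := ⟨_, rfl⟩
  have hwn : ‖w‖ = 1 - r / 2 := by
    rw [hwd, norm_smul, Complex.norm_real, Real.norm_of_nonneg (by linarith), hζ, mul_one]
  have hw1 : ‖w‖ < 1 := by rw [hwn]; linarith
  have hms : MeasurableSet {u : E | ‖1 - ⟪u, ζ⟫_ℂ‖ < r} := by
    refine (isOpen_lt ?_ continuous_const).measurableSet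
    fun_prop
  unfold K3_nu
  rw [withDensity_apply _ hms, Measure.restrict_restrict hms]
  have h1 : ∀ ξ ∈ {u : E | ‖1 - ⟪u, ζ⟫_ℂ‖ < r} ∩ ball (0 : E) 1,
      ((Real.toNNReal ((1 - ‖ξ‖ ^ 2) / κ) : NNReal) : ℝ≥0∞) ≤
        ENNReal.ofReal (9 / 2 * r / κ) * ENNReal.ofReal (invKer w ξ) := by
    rintro ξ ⟨hξr, hξ⟩
    have hξ1 := mem_ball_zero_iff.1 hξ
    have hξξ : 0 < 1 - ‖ξ‖ ^ 2 := by nlinarith [norm_nonneg ξ]
    have hξr' : ‖1 - ⟪ξ, ζ⟫_ℂ‖ < r := hξr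
    have hww : r / 2 ≤ 1 - ‖w‖ ^ 2 := by rw [hwn]; nlinarith
    have h2 : ‖1 - ⟪w, ξ⟫_ℂ‖ ≤ 3 / 2 * r := by
      rw [K3_symm]
      have e : 1 - ⟪ξ, w⟫_ℂ = (1 - ⟪ξ, ζ⟫_ℂ) + ((r / 2 : ℝ) : ℂ) * ⟪ξ, ζ⟫_ℂ := by
        rw [hwd, inner_smul_right]
        push_cast
        ring
      rw [e]
      refine (norm_add_le _ _).trans ?_
      have h3 : ‖⟪ξ, ζ⟫_ℂ‖ ≤ 1 := by
        refine (norm_inner_le_norm ξ ζ).trans ?_
        rw [hζ, mul_one]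
        exact hξ1.le
      rw [norm_mul, Complex.norm_real, Real.norm_of_nonneg (by positivity)]
      nlinarith [norm_nonneg ⟪ξ, ζ⟫_ℂ]
    have hD0 := (a_pos hw1.le hξ1).1
    rw [← ENNReal.ofReal_mul (by positivity)]
    refine ENNReal.ofReal_le_ofReal ?_
    rw [div_mul_eq_mul_div, div_le_div_iff_of_pos_right hκ]
    unfold invKer
    rw [← mul_div_assoc, le_div_iff₀ (by positivity)]
    have h4 : ‖1 - ⟪w, ξ⟫_ℂ‖ ^ 2 ≤ (3 / 2 * r) ^ 2 := pow_le_pow_left₀ (norm_nonneg _) h2 2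
    calc (1 - ‖ξ‖ ^ 2) * ‖1 - ⟪w, ξ⟫_ℂ‖ ^ 2 ≤ (1 - ‖ξ‖ ^ 2) * (3 / 2 * r) ^ 2 :=
          mul_le_mul_of_nonneg_left h4 hξξ.le
      _ = 9 / 2 * r * ((r / 2) * (1 - ‖ξ‖ ^ 2)) := by ring
      _ ≤ 9 / 2 * r * ((1 - ‖w‖ ^ 2) * (1 - ‖ξ‖ ^ 2)) := by gcongr
  calc ∫⁻ ξ in {u : E | ‖1 - ⟪u, ζ⟫_ℂ‖ < r} ∩ ball (0 : E) 1,
        ((Real.toNNReal ((1 - ‖ξ‖ ^ 2) / κ) : NNReal) : ℝ≥0∞) ∂ν
      ≤ ∫⁻ ξ in {u : E | ‖1 - ⟪u, ζ⟫_ℂ‖ < r} ∩ ball (0 : E) 1,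
        ENNReal.ofReal (9 / 2 * r / κ) * ENNReal.ofReal (invKer w ξ) ∂ν :=
        setLIntegral_mono' (hms.inter measurableSet_ball) h1
    _ ≤ ∫⁻ ξ in ball (0 : E) 1,
        ENNReal.ofReal (9 / 2 * r / κ) * ENNReal.ofReal (invKer w ξ) ∂ν :=
        lintegral_mono_set inter_subset_right
    _ = ENNReal.ofReal (9 / 2 * r / κ) * ∫⁻ ξ in ball (0 : E) 1,
        ENNReal.ofReal (invKer w ξ) ∂ν :=
        lintegral_const_mul _ (K3_kmeas w).ennreal_ofReal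
    _ ≤ ENNReal.ofReal (9 / 2 * r / κ) * ENNReal.ofReal A := by
        gcongr
        exact h w (mem_ball_zero_iff.2 hw1)
    _ ≤ ENNReal.ofReal r := by
        rw [← ENNReal.ofReal_mul (by positivity)]
        refine ENNReal.ofReal_le_ofReal ?_
        rw [div_mul_eq_mul_div, div_le_iff₀ hκ]
        nlinarith

private theorem K3_car {A : ℝ} {ν : Measure E}
    (h : ∀ w ∈ ball (0 : E) 1,
      ∫⁻ ξ in ball (0 : E) 1, ENNReal.ofReal (invKer w ξ) ∂ν ≤ ENNReal.ofReal A)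
    {κ : ℝ} (hκ : 0 < κ) (hκA : 9 / 2 * A ≤ κ) : Car (K3_nu κ ν) := by
  have hsub : K3_nu κ ν (ball (0 : E) 1)ᶜ = 0 := by
    unfold K3_nu
    rw [withDensity_apply _ measurableSet_ball.compl,
      Measure.restrict_restrict measurableSet_ball.compl, compl_inter_self]
    simp
  refine ⟨hsub, fun ζ hζ r hr => ?_⟩
  rcases le_or_gt r 2 with h2 | h2
  · exact K3_box h hκ hκA hζ hr h2
  · calc K3_nu κ ν {u | ‖1 - ⟪u, ζ⟫_ℂ‖ < r} ≤ K3_nu κ ν ({u | ‖1 - ⟪u, ζ⟫_ℂ‖ < 2} ∪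
          (ball (0 : E) 1)ᶜ) := by
          refine measure_mono fun u _ => ?_
          by_cases hu : u ∈ ball (0 : E) 1
          · left
            have h3 : ‖u‖ < 1 := mem_ball_zero_iff.1 hu
            have h4 : ‖⟪u, ζ⟫_ℂ‖ ≤ ‖u‖ * ‖ζ‖ := norm_inner_le_norm _ _
            rw [hζ, mul_one] at h4
            show ‖1 - ⟪u, ζ⟫_ℂ‖ < 2
            calc ‖1 - ⟪u, ζ⟫_ℂ‖ ≤ ‖(1 : ℂ)‖ + ‖⟪u, ζ⟫_ℂ‖ := norm_sub_le _ _
              _ < 2 := by rw [norm_one]; linarith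
          · exact Or.inr hu
      _ ≤ K3_nu κ ν {u | ‖1 - ⟪u, ζ⟫_ℂ‖ < 2} + K3_nu κ ν (ball (0 : E) 1)ᶜ :=
          measure_union_le _ _
      _ ≤ ENNReal.ofReal 2 + 0 :=
          add_le_add (K3_box h hκ hκA hζ two_pos le_rfl) hsub.le
      _ ≤ ENNReal.ofReal r := by
          rw [add_zero]
          exact ENNReal.ofReal_le_ofReal h2.le

/-- From the local potentials to the energy. -/
theorem energy_of_cg {p A : ℝ} {u : E → ℂ} (h : CarlesonGradient p A u) :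
    ∃ (L : ℝ) (ν : Measure E), 0 < L ∧ Car ν ∧
      ∀ z ∈ ball (0 : E) 1, IG2 u z ^ p ≤ L * Tc 3 2 ν z := by
  obtain ⟨ν, h1, h2⟩ := h
  obtain ⟨A', hA'⟩ : ∃ A' : ℝ, A' = max A 1 := ⟨_, rfl⟩
  have hA1 : 1 ≤ A' := by rw [hA']; exact le_max_right _ _
  have h1' : ∀ w ∈ ball (0 : E) 1,
      ∫⁻ ξ in ball (0 : E) 1, ENNReal.ofReal (invKer w ξ) ∂ν ≤ ENNReal.ofReal A' := fun w hw =>
    (h1 w hw).trans (ENNReal.ofReal_le_ofReal (by rw [hA']; exact le_max_left _ _))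
  obtain ⟨κ, hκ⟩ : ∃ κ : ℝ, κ = 9 / 2 * A' := ⟨_, rfl⟩
  have hκ0 : 0 < κ := by rw [hκ]; positivity
  have hcar : Car (K3_nu κ ν) := K3_car h1' hκ0 hκ.ge
  refine ⟨4 * A' * κ, K3_nu κ ν, by positivity, hcar, fun z hz => ?_⟩
  have hz1 := mem_ball_zero_iff.1 hz
  have hae : ∀ᵐ ξ ∂(ν.restrict (ball (0 : E) 1)), ξ ∈ ball (0 : E) 1 :=
    ae_restrict_mem measurableSet_ball
  have hnn : ∀ᵐ ξ ∂(ν.restrict (ball (0 : E) 1)), 0 ≤ invKer z ξ := by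
    filter_upwards [hae] with ξ hξ
    exact K3_ker0 hz1 (mem_ball_zero_iff.1 hξ)
  -- integrability
  have hi1 : Integrable (fun ξ => invKer z ξ) (ν.restrict (ball 0 1)) := by
    refine ⟨(K3_kmeas z).aestronglyMeasurable, ?_⟩
    rw [hasFiniteIntegral_iff_ofReal hnn]
    exact (h1' z hz).trans_lt ENNReal.ofReal_lt_top
  have hpw : ∀ k : ℕ, Integrable (fun ξ => invKer z ξ ^ (k + 1)) (ν.restrict (ball 0 1)) := by
    intro k
    refine (hi1.const_mul (4 ^ k)).mono' ((K3_kmeas z).pow_const _).aestronglyMeasurable ?_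
    filter_upwards [hae, hnn] with ξ hξ h0
    rw [Real.norm_of_nonneg (by positivity), pow_succ]
    refine mul_le_mul_of_nonneg_right ?_ h0
    exact pow_le_pow_left₀ h0 (K3_ker1 hz1 (mem_ball_zero_iff.1 hξ)) k
  have hI1 : ∫ ξ in ball (0 : E) 1, invKer z ξ ∂ν ≤ A' := by
    rw [integral_eq_lintegral_of_nonneg_ae hnn hi1.1]
    refine ENNReal.toReal_le_of_le_ofReal (by linarith) (h1' z hz)
  obtain ⟨F, hF⟩ : ∃ F, F = ∫ ξ in ball (0 : E) 1, invKer z ξ ^ 2 ∂ν := ⟨_, rfl⟩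
  obtain ⟨G, hG⟩ : ∃ G, G = ∫ ξ in ball (0 : E) 1, invKer z ξ ^ 3 ∂ν := ⟨_, rfl⟩
  have hF0 : 0 ≤ F := by rw [hF]; exact integral_nonneg fun _ => sq_nonneg _
  have hG0 : 0 ≤ G := by
    rw [hG]
    refine integral_nonneg_of_ae ?_
    filter_upwards [hnn] with ξ h0
    positivity
  -- Cauchy-Schwarz
  have hFG : F ^ 2 ≤ 4 * A' * G := by
    rcases hF0.eq_or_lt with h0 | h0
    · rw [← h0]
      simp only [ne_eq, OfNat.ofNat_ne_zero, not_false_eq_true, zero_pow]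
      positivity
    obtain ⟨l, hl⟩ : ∃ l, l = F / (2 * A') := ⟨_, rfl⟩
    have hl0 : 0 < l := by rw [hl]; positivity
    have h3 : F ≤ l * ∫ ξ in ball (0 : E) 1, invKer z ξ ∂ν + 1 / l * G := by
      rw [hF, hG, ← integral_const_mul, ← integral_const_mul, ← integral_add
        (hi1.const_mul _) ((hpw 2).const_mul _)]
      refine integral_mono_ae (hpw 1) ((hi1.const_mul _).add ((hpw 2).const_mul _)) ?_
      filter_upwards [hnn] with ξ h0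
      obtain ⟨t, ht⟩ : ∃ t, t = invKer z ξ := ⟨_, rfl⟩
      show invKer z ξ ^ 2 ≤ l * invKer z ξ + 1 / l * invKer z ξ ^ 3
      rw [← ht] at h0 ⊢
      have h5 : 1 / l * t ^ 3 = t ^ 3 / l := by ring
      rw [h5, ← sub_le_iff_le_add', le_div_iff₀ hl0]
      nlinarith [mul_nonneg h0 (sq_nonneg (t - l))]
    have h4 : l * ∫ ξ in ball (0 : E) 1, invKer z ξ ∂ν ≤ F / 2 := by
      calc l * ∫ ξ in ball (0 : E) 1, invKer z ξ ∂ν ≤ l * A' :=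
            mul_le_mul_of_nonneg_left hI1 hl0.le
        _ = F / 2 := by rw [hl]; field_simp
    have h5 : F / 2 ≤ 1 / l * G := by linarith
    have h6 : 1 / l = 2 * A' / F := by rw [hl, one_div_div]
    rw [h6, div_mul_eq_mul_div, le_div_iff₀ h0] at h5
    nlinarith
  -- the energy
  have hT : Tc 3 2 (K3_nu κ ν) z = G / κ := by
    unfold Tc K3_nu
    rw [integral_withDensity_eq_integral_smul (K3_meas κ), hG, div_eq_inv_mul,
      ← integral_const_mul]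
    refine integral_congr_ae ?_
    filter_upwards [hae] with ξ hξ
    have hξ1 := mem_ball_zero_iff.1 hξ
    have hξξ : 0 < 1 - ‖ξ‖ ^ 2 := by nlinarith [norm_nonneg ξ]
    have hzz : 0 < 1 - ‖z‖ ^ 2 := by nlinarith [norm_nonneg z]
    have hD0 := (a_pos hξ1.le hz1).1
    show (Real.toNNReal ((1 - ‖ξ‖ ^ 2) / κ) : NNReal) • kc 3 2 ξ z = κ⁻¹ * invKer z ξ ^ 3
    rw [NNReal.smul_def, Real.coe_toNNReal _ (by positivity), smul_eq_mul]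
    unfold invKer kc
    rw [K3_symm z ξ]
    have e : ((1 - ‖z‖ ^ 2) / ‖1 - ⟪ξ, z⟫_ℂ‖) ^ (3 : ℝ) =
        ((1 - ‖z‖ ^ 2) / ‖1 - ⟪ξ, z⟫_ℂ‖) ^ 3 := by
      rw [← Real.rpow_natCast]
      norm_num
    rw [e]
    field_simp
  have h0 : 0 ≤ IG2 u z := gd_IG_nonneg hz1
  have h3 : IG2 u z ^ p = (IG2 u z ^ (p / 2)) ^ 2 := by
    rw [← Real.rpow_natCast, ← Real.rpow_mul h0]
    congr 1
    push_cast
    ring
  have h4 : IG2 u z ^ (p / 2) ≤ F := by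
    rw [hF]
    exact h2 z hz
  rw [h3, hT]
  calc (IG2 u z ^ (p / 2)) ^ 2 ≤ F ^ 2 := pow_le_pow_left₀ (Real.rpow_nonneg h0 _) h4 2
    _ ≤ 4 * A' * G := hFG
    _ = 4 * A' * κ * (G / κ) := by field_simp

end Pool.Agent.MPca0fc2.CE
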