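import Pool.Agent.Lib.MP_ca0fc2_an.CE.F5
import Pool.Agent.Lib.MP_ca0fc2_an.CE.K1
import Pool.Agent.Lib.MP_ca0fc2_an.CE.K2
import Pool.Agent.Lib.MP_ca0fc2_an.CE.K3
import Pool.Agent.Lib.MP_ca0fc2_an.Mg.G024
import Pool.Agent.Lib.MP_ca0fc2_an.Mg.G039
import Pool.Agent.Lib.MP_ca0fc2_an.LV.S5
import Pool.Agent.Lib.MP_ca0fc2_an.XC.AD

/-! The union over `κ` of the classes `Acl κ`. -/

set_option autoImplicit false
set_option linter.unusedSectionVars false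

open Metric Set MeasureTheory Filter Topology
open scoped InnerProductSpace ENNReal ContDiff

namespace Pool.Agent.MPca0fc2.CE

open Pool.Agent.MPca0fc2.PT
open Pool.Agent.MPca0fc2.QT
open Pool.Agent.MPca0fc2.TS
open Pool.Agent.MPca0fc2.TE
open Pool.Agent.MPca0fc2.TK
open Pool.Agent.MPca0fc2.VK
open Pool.Agent.MPca0fc2.PV
open Pool.Agent.Lib.MP_ca0fc2_an

section gen

variable {E : Type*} [NormedAddCommGroup E] [InnerProductSpace ℂ E] [FiniteDimensional ℂ E]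
  [MeasurableSpace E] [BorelSpace E]

private theorem K4_IGc (c : ℂ) (z : E) : Real.sqrt (IG2 (fun _ : E => c) z) = 0 := by
  have h1 : IG2 (fun _ : E => c) z = 0 := by
    unfold IG2
    simp
  rw [h1, Real.sqrt_zero]

/-- the invariant gradient of a bounded holomorphic function is bounded -/
theorem IG_bdd {u : E → ℂ} (hud : DifferentiableOn ℂ u (ball 0 1)) {C : ℝ}
    (hC : ∀ z ∈ ball (0 : E) 1, ‖u z‖ ≤ C) :
    ∃ K : ℝ, 1 ≤ K ∧ ∀ z ∈ ball (0 : E) 1, Real.sqrt (IG2 u z) ≤ K := by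
  obtain ⟨K, hKd⟩ : ∃ K : ℝ, K = |C| + 1 := ⟨_, rfl⟩
  have hK : 0 < K := by
    have := abs_nonneg C
    linarith
  refine ⟨K, by have := abs_nonneg C; linarith, ?_⟩
  intro z hz
  have hKc : ((K : ℝ) : ℂ) ≠ 0 := by
    exact_mod_cast hK.ne'
  have hd : DifferentiableOn ℂ (fun z => u z * ((K : ℝ) : ℂ)⁻¹) (ball 0 1) :=
    hud.mul_const _
  have h1 : ∀ z ∈ ball (0 : E) 1, ‖u z * ((K : ℝ) : ℂ)⁻¹‖ ≤ 1 := by
    intro z hz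
    rw [norm_mul, norm_inv, Complex.norm_real, Real.norm_eq_abs, abs_of_pos hK,
      ← div_eq_mul_inv, div_le_one hK]
    have := hC z hz
    have := le_abs_self C
    linarith
  have h2 : IG2 (fun z => u z * ((K : ℝ) : ℂ)⁻¹) z ≤ 1 := IG2_le hd h1 (mem_ball_zero_iff.mp hz)
  have h3 : Real.sqrt (IG2 (fun z => u z * ((K : ℝ) : ℂ)⁻¹) z) ≤ 1 := by
    rw [Real.sqrt_le_one]
    exact h2
  have h4 := IG_mul hd (differentiableOn_const ((K : ℝ) : ℂ)) (mem_ball_zero_iff.mp hz)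
  have h5 : (fun z : E => u z * ((K : ℝ) : ℂ)⁻¹ * ((K : ℝ) : ℂ)) = u := by
    funext z
    rw [mul_assoc, inv_mul_cancel₀ hKc, mul_one]
  rw [h5, K4_IGc, mul_zero, zero_add, Complex.norm_real, Real.norm_eq_abs, abs_of_pos hK] at h4
  nlinarith

private theorem K4_ae {ν : Measure E} (h : Car ν) : ∀ᵐ u ∂ν, u ∈ ball (0 : E) 1 := by
  rw [ae_iff]
  exact h.sub

/-- the exponent can be diminished -/
theorem Tc_exp (hE : ∃ ζ : E, ‖ζ‖ = 1) {ν : Measure E} (hν : Car ν) {s s' : ℝ}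
    (hs : 0 < s') (h : s' ≤ s) {z : E} (hz : z ∈ ball (0 : E) 1) :
    Tc s 2 ν z ≤ 2 ^ (s - s') * Tc s' 2 ν z := by
  unfold Tc
  rw [← integral_const_mul]
  refine integral_mono_ae (kc_int hE hν (hs.le.trans h) 2 hz)
    ((kc_int hE hν hs.le 2 hz).const_mul _) ?_
  filter_upwards [K4_ae hν] with u hu
  rw [mem_ball_zero_iff] at hu hz
  obtain ⟨h1, h2, -⟩ := a_pos hu.le hz
  have h3 : 0 < 1 - ‖z‖ ^ 2 := by nlinarith [norm_nonneg z]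
  have h4 : 0 < 1 - ‖u‖ ^ 2 := by nlinarith [norm_nonneg u]
  have h5 : (1 - ‖z‖ ^ 2) / ‖1 - ⟪u, z⟫_ℂ‖ ≤ 2 := by
    rw [div_le_iff₀ h1]
    exact h2
  have h6 : 0 < (1 - ‖z‖ ^ 2) / ‖1 - ⟪u, z⟫_ℂ‖ := by positivity
  have h7 : ((1 - ‖z‖ ^ 2) / ‖1 - ⟪u, z⟫_ℂ‖) ^ s ≤
      2 ^ (s - s') * ((1 - ‖z‖ ^ 2) / ‖1 - ⟪u, z⟫_ℂ‖) ^ s' := by
    have h8 : s = (s - s') + s' := by ring
    nth_rw 1 [h8]
    rw [Real.rpow_add h6]
    exact mul_le_mul_of_nonneg_right (Real.rpow_le_rpow h6.le h5 (by linarith)) (by positivity)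
  unfold kc
  calc ((1 - ‖z‖ ^ 2) / ‖1 - ⟪u, z⟫_ℂ‖) ^ s * ((1 - ‖u‖ ^ 2) / ‖1 - ⟪u, z⟫_ℂ‖) ^ 2 /
        ‖1 - ⟪u, z⟫_ℂ‖
      ≤ 2 ^ (s - s') * ((1 - ‖z‖ ^ 2) / ‖1 - ⟪u, z⟫_ℂ‖) ^ s' *
        ((1 - ‖u‖ ^ 2) / ‖1 - ⟪u, z⟫_ℂ‖) ^ 2 / ‖1 - ⟪u, z⟫_ℂ‖ := by gcongr
    _ = _ := by ring

/-- the exponent `κ` can be enlarged -/
theorem Acl_up {κ κ' : ℕ} (h : κ ≤ κ') {u : E → ℂ} (hu : u ∈ Acl κ E) : u ∈ Acl κ' E := by
  obtain ⟨hud, ⟨C, hC⟩, s, L, ν, hs, hs1, hL, hν, hh⟩ := hu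
  obtain ⟨K, hK, hKu⟩ := IG_bdd hud hC
  refine ⟨hud, ⟨C, hC⟩, s, K ^ (κ' - κ) * L, ν, hs, hs1, by positivity, hν, fun z hz => ?_⟩
  obtain ⟨j, rfl⟩ := Nat.exists_eq_add_of_le h
  rw [Nat.add_sub_cancel_left, pow_add, mul_comm, mul_assoc]
  exact mul_le_mul (pow_le_pow_left₀ (Real.sqrt_nonneg _) (hKu z hz) _) (hh z hz)
    (pow_nonneg (Real.sqrt_nonneg _) _) (by positivity)

/-- sums -/
theorem Acl_add' (hE : ∃ ζ : E, ‖ζ‖ = 1) {κ : ℕ} {u v : E → ℂ}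
    (hu : u ∈ Acl κ E) (hv : v ∈ Acl κ E) : (fun z => u z + v z) ∈ Acl κ E := by
  obtain ⟨s, L, ν, hs, hs1, hL, hν, h⟩ := Acl_common hE (κ := κ) (a := ![u, v]) (by
    intro i
    fin_cases i
    · exact hu
    · exact hv)
  have hu' := h 0
  have hv' := h 1
  simp only [Matrix.cons_val_zero, Matrix.cons_val_one] at hu' hv'
  obtain ⟨hud, ⟨Cu, hCu⟩, -⟩ := hu
  obtain ⟨hvd, ⟨Cv, hCv⟩, -⟩ := hv
  refine ⟨hud.add hvd, ⟨Cu + Cv, fun z hz => (norm_add_le _ _).trans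
    (add_le_add (hCu z hz) (hCv z hz))⟩, s, 2 ^ (κ - 1) * (2 * L), ν, hs, hs1, by positivity, hν, ?_⟩
  intro z hz
  calc Real.sqrt (IG2 (fun z => u z + v z) z) ^ κ
      ≤ (Real.sqrt (IG2 u z) + Real.sqrt (IG2 v z)) ^ κ :=
        pow_le_pow_left₀ (Real.sqrt_nonneg _) (IG_add hud hvd (mem_ball_zero_iff.mp hz)) κ
    _ ≤ 2 ^ (κ - 1) * (Real.sqrt (IG2 u z) ^ κ + Real.sqrt (IG2 v z) ^ κ) :=
        add_pow_le (Real.sqrt_nonneg _) (Real.sqrt_nonneg _) κ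
    _ ≤ 2 ^ (κ - 1) * (L * Tc s 2 ν z + L * Tc s 2 ν z) :=
        mul_le_mul_of_nonneg_left (add_le_add (hu' z hz) (hv' z hz)) (by positivity)
    _ = _ := by ring

/-- products -/
theorem Acl_mul' (hE : ∃ ζ : E, ‖ζ‖ = 1) {κ : ℕ} {u v : E → ℂ}
    (hu : u ∈ Acl κ E) (hv : v ∈ Acl κ E) : (fun z => u z * v z) ∈ Acl κ E := by
  obtain ⟨s, L, ν, hs, hs1, hL, hν, h⟩ := Acl_common hE (κ := κ) (a := ![u, v]) (by
    intro i
    fin_cases i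
    · exact hu
    · exact hv)
  have hu' := h 0
  have hv' := h 1
  simp only [Matrix.cons_val_zero, Matrix.cons_val_one] at hu' hv'
  obtain ⟨hud, ⟨Cu, hCu⟩, -⟩ := hu
  obtain ⟨hvd, ⟨Cv, hCv⟩, -⟩ := hv
  obtain ⟨K, hKd⟩ : ∃ K : ℝ, K = |Cu| + |Cv| + 1 := ⟨_, rfl⟩
  have hK1 : 1 ≤ K := by
    have := abs_nonneg Cu
    have := abs_nonneg Cv
    linarith
  have hKu : ∀ z ∈ ball (0 : E) 1, ‖u z‖ ≤ K := fun z hz => by
    have := hCu z hz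
    have := le_abs_self Cu
    have := abs_nonneg Cv
    linarith
  have hKv : ∀ z ∈ ball (0 : E) 1, ‖v z‖ ≤ K := fun z hz => by
    have := hCv z hz
    have := le_abs_self Cv
    have := abs_nonneg Cu
    linarith
  refine ⟨hud.mul hvd, ⟨K * K, fun z hz => ?_⟩, s, K ^ κ * (2 ^ (κ - 1) * (2 * L)), ν, hs, hs1,
    by positivity, hν, ?_⟩
  · rw [norm_mul]
    exact mul_le_mul (hKu z hz) (hKv z hz) (norm_nonneg _) (by linarith)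
  intro z hz
  have e0 := IG_mul hud hvd (mem_ball_zero_iff.mp hz)
  have e5 := Real.sqrt_nonneg (IG2 u z)
  have e6 := Real.sqrt_nonneg (IG2 v z)
  have e8 : Real.sqrt (IG2 (fun z => u z * v z) z) ≤
      K * (Real.sqrt (IG2 u z) + Real.sqrt (IG2 v z)) := by
    refine e0.trans ?_
    nlinarith [mul_le_mul_of_nonneg_right (hKu z hz) e6, mul_le_mul_of_nonneg_right (hKv z hz) e5]
  calc Real.sqrt (IG2 (fun z => u z * v z) z) ^ κ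
      ≤ (K * (Real.sqrt (IG2 u z) + Real.sqrt (IG2 v z))) ^ κ :=
        pow_le_pow_left₀ (Real.sqrt_nonneg _) e8 κ
    _ = K ^ κ * (Real.sqrt (IG2 u z) + Real.sqrt (IG2 v z)) ^ κ := mul_pow _ _ _
    _ ≤ K ^ κ * (2 ^ (κ - 1) * (Real.sqrt (IG2 u z) ^ κ + Real.sqrt (IG2 v z) ^ κ)) :=
        mul_le_mul_of_nonneg_left
          (add_pow_le (Real.sqrt_nonneg _) (Real.sqrt_nonneg _) κ) (by positivity)
    _ ≤ K ^ κ * (2 ^ (κ - 1) * (L * Tc s 2 ν z + L * Tc s 2 ν z)) :=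
        mul_le_mul_of_nonneg_left (mul_le_mul_of_nonneg_left
          (add_le_add (hu' z hz) (hv' z hz)) (by positivity)) (by positivity)
    _ = _ := by ring

/-- real exponents -/
theorem Acl_of_rpow (hE : ∃ ζ : E, ‖ζ‖ = 1) {u : E → ℂ} (hud : DifferentiableOn ℂ u (ball 0 1))
    (hC : ∃ C : ℝ, ∀ z ∈ ball (0 : E) 1, ‖u z‖ ≤ C) {q s L : ℝ} {ν : Measure E} (hq : 0 < q)
    (hs : 0 < s) (hν : Car ν)
    (h : ∀ z ∈ ball (0 : E) 1, IG2 u z ^ (q / 2) ≤ L * Tc s 2 ν z) {κ : ℕ} (hκ : q ≤ κ) :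
    u ∈ Acl κ E := by
  obtain ⟨C, hC⟩ := hC
  obtain ⟨K, hK, hKu⟩ := IG_bdd hud hC
  have hm : 0 < min s (1 / 8) := lt_min hs (by norm_num)
  refine ⟨hud, ⟨C, hC⟩, min s (1 / 8), K ^ ((κ : ℝ) - q) * ((|L| + 1) * 2 ^ (s - min s (1 / 8))), ν,
    hm, min_le_right _ _, by positivity, hν, fun z hz => ?_⟩
  have hz1 := mem_ball_zero_iff.1 hz
  have h0 := gd_IG_nonneg (u := u) hz1
  have h1 := Real.sqrt_nonneg (IG2 u z)
  rcases h1.eq_or_lt with h2 | h2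
  · rw [← h2, zero_pow]
    · exact mul_nonneg (by positivity) (Tc_nonneg hν 2 hz)
    · rintro rfl
      norm_num at hκ
      linarith
  have e1 : Real.sqrt (IG2 u z) ^ κ =
      Real.sqrt (IG2 u z) ^ ((κ : ℝ) - q) * IG2 u z ^ (q / 2) := by
    have e2 : IG2 u z ^ (q / 2) = Real.sqrt (IG2 u z) ^ q := by
      rw [Real.sqrt_eq_rpow, ← Real.rpow_mul h0]
      congr 1
      ring
    rw [e2, ← Real.rpow_add h2, ← Real.rpow_natCast]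
    congr 1
    ring
  rw [e1, mul_assoc]
  refine mul_le_mul (Real.rpow_le_rpow h1 (hKu z hz) (by linarith)) ?_ (Real.rpow_nonneg h0 _)
    (by positivity)
  have e3 := Tc_exp hE hν hm (min_le_left s (1 / 8)) hz
  have e4 := Tc_nonneg hν (s := s) 2 hz
  calc IG2 u z ^ (q / 2) ≤ L * Tc s 2 ν z := h z hz
    _ ≤ (|L| + 1) * Tc s 2 ν z :=
        mul_le_mul_of_nonneg_right (by linarith [le_abs_self L]) e4
    _ ≤ (|L| + 1) * (2 ^ (s - min s (1 / 8)) * Tc (min s (1 / 8)) 2 ν z) :=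
        mul_le_mul_of_nonneg_left e3 (by positivity)
    _ = _ := by ring

theorem Acl_rpow {κ : ℕ} {u : E → ℂ} (hu : u ∈ Acl κ E) :
    ∃ (s L : ℝ) (ν : Measure E), 0 < s ∧ 0 < L ∧ Car ν ∧
      ∀ z ∈ ball (0 : E) 1, IG2 u z ^ ((κ : ℝ) / 2) ≤ L * Tc s 2 ν z := by
  obtain ⟨-, -, s, L, ν, hs, -, hL, hν, h⟩ := hu
  refine ⟨s, L, ν, hs, hL, hν, fun z hz => ?_⟩
  have h4 : IG2 u z ^ ((κ : ℝ) / 2) = Real.sqrt (IG2 u z) ^ κ := by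
    rw [Real.sqrt_eq_rpow, ← Real.rpow_natCast,
      ← Real.rpow_mul (gd_IG_nonneg (mem_ball_zero_iff.1 hz))]
    congr 1
    ring
  rw [h4]
  exact h z hz

theorem Acl_cg (hE : ∃ ζ : E, ‖ζ‖ = 1) {κ : ℕ} (hκ : 1 ≤ κ) {u : E → ℂ} (hu : u ∈ Acl κ E) :
    ∃ p A : ℝ, 1 ≤ p ∧ CarlesonGradient p A u := by
  obtain ⟨s, L, ν, hs, hL, hν, h⟩ := Acl_rpow hu
  obtain ⟨p, A, hp, hA⟩ := cg_of_energy hE (q := κ) (by exact_mod_cast hκ) hs hL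
  exact ⟨p, A, hp, hA u ν hν h⟩

theorem cg_Acl (hE : ∃ ζ : E, ‖ζ‖ = 1) {u : E → ℂ} (hud : DifferentiableOn ℂ u (ball 0 1))
    (hC : ∃ C : ℝ, ∀ z ∈ ball (0 : E) 1, ‖u z‖ ≤ C) {p A : ℝ} (hp : 0 < p)
    (h : CarlesonGradient p A u) : ∃ κ : ℕ, 1 ≤ κ ∧ u ∈ Acl κ E := by
  obtain ⟨L, ν, hL, hν, h1⟩ := energy_of_cg h
  obtain ⟨κ, hκ⟩ := exists_nat_ge (max (2 * p) 1)
  have h1κ : (1 : ℝ) ≤ κ := (le_max_right _ _).trans hκ
  refine ⟨κ, by exact_mod_cast h1κ, Acl_of_rpow hE hud hC (q := 2 * p) (s := 3) (by positivity)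
    (by norm_num) hν (L := L) (fun z hz => ?_) ((le_max_left _ _).trans hκ)⟩
  rw [mul_div_cancel_left₀ _ (two_ne_zero)]
  exact h1 z hz

end gen

variable {n : ℕ}

theorem Acl_mult (hn : 2 ≤ n) {K : ℝ} {u : EuclideanSpace ℂ (Fin n) → ℂ}
    (h : DAMultiplier K u) : ∃ κ : ℕ, 1 ≤ κ ∧ u ∈ Acl κ (EuclideanSpace ℂ (Fin n)) := by
  obtain ⟨q, A, M, hq, hd, hM, hc⟩ := Pool.Agent.MPca0fc2.GW.comp_cg (p := 1) le_rfl
    (Or.inl h : DAMultiplier K u ∨ _)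
  exact cg_Acl ⟨EuclideanSpace.single ⟨0, by omega⟩ 1, by simp⟩ hd ⟨M, hM⟩ (by linarith) hc

theorem Acl_carlOn (hn : 2 ≤ n) {κ : ℕ} (hκ : 1 ≤ κ) {u : EuclideanSpace ℂ (Fin n) → ℂ}
    (hu : u ∈ Acl κ (EuclideanSpace ℂ (Fin n))) (p : EuclideanSpace ℂ (Fin n)) (r : ℝ) :
    u ∈ CarlOn (ball 0 1) (ball p r) := by
  obtain ⟨q, A, hq, hcg⟩ := Acl_cg ⟨EuclideanSpace.single ⟨0, by omega⟩ 1, by simp⟩ hκ hu
  obtain ⟨hud, ⟨M, hM⟩, -⟩ := hu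
  obtain ⟨U, ρ, h, c, hs, hρ⟩ := Pool.Agent.MPca0fc2.LV.support_of_domain
    (Pool.Agent.MPca0fc2.TB.isStrictlyPscDomain_ball (n := n))
  exact Pool.Agent.MPca0fc2.GW.comp_carl_cg (by omega) hs (r := r + 1) (by linarith) hq
    (Q := id) differentiableOn_id (fun z hz => mem_ball_zero_iff.1 hz.1) hud hM hcg fun z _ => rfl

end Pool.Agent.MPca0fc2.CE
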