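import Pool.Agent.Lib.MP_ca0fc2_an.CE.K4

/-! Data in the closed algebra generated by the classes `Acl κ` and by the functions `g ∘ π`. -/

set_option autoImplicit false
set_option linter.unusedSectionVars false

open Metric Set MeasureTheory Filter Topology
open scoped InnerProductSpace ENNReal ContDiff

namespace Pool.Agent.MPca0fc2.CE

open Pool.Agent.Lib.MP_ca0fc2_an

variable {n : ℕ}

private theorem K5_hull {C B : Set (EuclideanSpace ℂ (Fin n))}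
    {T : Set (EuclideanSpace ℂ (Fin n) → ℂ)} (hCB : C ⊆ B)
    {u : EuclideanSpace ℂ (Fin n) → ℂ} (hu : u ∈ T) (hH : IsHinf B u) : u ∈ HullOn C T := by
  refine ⟨⟨hH.1.mono hCB, hH.2.choose, fun z hz => hH.2.choose_spec z (hCB hz)⟩, fun ε hε => ?_⟩
  refine ⟨1, fun _ => u, ε / 2, by positivity, fun _ => hu, fun c x z hz w hw => ?_⟩
  have h1 := (connectedComponentIn_subset _ _ hz).2 0
  have h2 := (connectedComponentIn_subset _ _ hw).2 0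
  calc ‖u z - u w‖ = ‖(u z - c 0) - (u w - c 0)‖ := by congr 1; ring
    _ ≤ ‖u z - c 0‖ + ‖u w - c 0‖ := norm_sub_le _ _
    _ ≤ ε := by linarith

theorem solve_alg {N : ℕ} (hn : 2 ≤ n) {f : Fin N → EuclideanSpace ℂ (Fin n) → ℂ}
    {π : EuclideanSpace ℂ (Fin n) → ℂ} (hπ : DifferentiableOn ℂ π (ball 0 1))
    (hπ1 : ∀ z ∈ ball (0 : EuclideanSpace ℂ (Fin n)) 1, ‖π z‖ < 1)
    (hf : ∀ j, IsHinf (ball 0 1) (f j))
    (hfa : ∀ j, ∀ ε > 0, ∃ v ∈ Algebra.adjoin ℂ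
      ({u | ∃ κ : ℕ, 1 ≤ κ ∧ u ∈ Acl κ (EuclideanSpace ℂ (Fin n))} ∪ HinfOf π),
      ∀ z ∈ ball (0 : EuclideanSpace ℂ (Fin n)) 1, ‖f j z - v z‖ ≤ ε) {δ : ℝ} (hδ : 0 < δ)
    (hfδ : ∀ z ∈ ball (0 : EuclideanSpace ℂ (Fin n)) 1, δ ≤ ∑ j, ‖f j z‖ ^ 2) :
    ∃ C, SolvableOn f (ball 0 1) C := by
  classical
  obtain ⟨U, ρ, h, c, hs, hρ⟩ := Pool.Agent.MPca0fc2.LV.support_of_domain
    (Pool.Agent.MPca0fc2.TB.isStrictlyPscDomain_ball (n := n))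
  have hρ3 : ContDiffOn ℝ 3 ρ U := hρ.of_le (by exact WithTop.coe_le_coe.2 le_top)
  refine Pool.Agent.MPca0fc2.GW.spideal hn hs hρ3 hf hδ hfδ fun p _ => ?_
  refine ⟨1, one_pos, 0, fun i => i.elim0, 1, one_pos, fun i => i.elim0, fun c' => Or.inr ?_⟩
  obtain ⟨C, hC⟩ : ∃ C, C = cellOn (ball 0 1 ∩ ball p 1)
    (fun i : Fin 0 => (i.elim0 : EuclideanSpace ℂ (Fin n) → ℂ)) c' 1 := ⟨_, rfl⟩
  rw [← hC]
  have hCB : C ⊆ ball 0 1 := by
    rw [hC]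
    exact fun z hz => hz.1.1
  have hCB' : C ⊆ ball 0 1 ∩ ball p 1 := by
    rw [hC]
    exact fun z hz => hz.1
  have hid : ∀ i : Fin N, ∀ z, ∑ j, f j z * (if i = j then (1 : ℂ) else 0) = f i z := by
    intro i z
    simp
  refine ⟨N, δ, 0, fun i j _ => if i = j then 1 else 0, f, ?_, fun i j => ?_, ?_, ?_, ?_⟩
  · simpa using hδ
  · refine ⟨differentiableOn_const _, 1, fun z _ => ?_⟩
    show ‖(if i = j then (1 : ℂ) else 0)‖ ≤ 1
    split_ifs <;> simp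
  · refine Or.inr ⟨π, hπ.mono hCB, fun z hz => hπ1 z (hCB hz), fun j => ⟨(hf j).1.mono hCB,
      fun ε hε => ?_⟩⟩
    obtain ⟨v, hv, hv1⟩ := hfa j ε hε
    refine ⟨v, Algebra.adjoin_mono (union_subset_union_left _ ?_) hv, fun z hz => hv1 z (hCB hz)⟩
    rintro u ⟨κ, hκ, hu⟩
    have h1 := Acl_carlOn hn hκ hu p 1
    exact K5_hull hCB' (Or.inl h1) h1.1
  · intro z hz
    simp only [hid]
    exact hfδ z (hCB hz)
  · intro k z _
    simp only [hid, sub_self, norm_zero, le_refl]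

end Pool.Agent.MPca0fc2.CE
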